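import Mathlib

set_option autoImplicit false
open scoped Classical

/-! Group data of a skew translation generalized quadrangle of order `(s,t)`: a finite group `G` of
order `s²t`, a normal subgroup `N` of order `t` and `t+1` subgroups `A i` of order `s`. -/

namespace Pool.Agent.Helper298

/-- The group data of a skew translation generalized quadrangle. -/
structure KF {G ι : Type} [Group G] [Fintype G] [Fintype ι] (s t : ℕ)
    (A : ι → Subgroup G) (N : Subgroup G) : Prop where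
  hs : 1 < s
  ht : 1 < t
  cι : Fintype.card ι = t + 1
  cA : ∀ i, Nat.card (A i) = s
  cN : Nat.card N = t
  cG : Nat.card G = s ^ 2 * t
  nrm : N.Normal
  k1 : ∀ i j k, i ≠ j → j ≠ k → i ≠ k → ∀ a ∈ A i, ∀ b ∈ A j, a * b ∈ A k → a * b = 1
  k2 : ∀ i j, i ≠ j → ∀ a ∈ A i, ∀ n ∈ N, a * n ∈ A j → a * n = 1

namespace KF

variable {G ι : Type} [Group G] [Fintype G] [Fintype ι] {s t : ℕ} {A : ι → Subgroup G}
  {N : Subgroup G}

theorem exists_ne (h : KF s t A N) (i : ι) : ∃ j, j ≠ i := by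
  have h1 := h.cι
  have h2 := h.ht
  have : Nontrivial ι := by
    rw [← Fintype.one_lt_card_iff_nontrivial]; omega
  exact _root_.exists_ne i

theorem exists_ne2 (h : KF s t A N) (i j : ι) : ∃ k, k ≠ i ∧ k ≠ j := by
  by_contra hc
  push Not at hc
  have h1 := h.cι
  have h2 := h.ht
  have h3 : (Finset.univ : Finset ι) ⊆ {i, j} := by
    intro k _
    by_cases hk : k = i
    · simp [hk]
    · simp [hc k hk]
  have h4 := Finset.card_le_card h3
  have h5 : ({i, j} : Finset ι).card ≤ 2 := Finset.card_le_two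
  rw [Finset.card_univ] at h4
  omega

/-- `A i ∩ A j = 1`. -/
theorem AA (h : KF s t A N) {i j : ι} (hij : i ≠ j) {a : G} (ha : a ∈ A i) (hb : a ∈ A j) :
    a = 1 := by
  have := h.k2 i j hij a ha 1 N.one_mem (by simpa using hb)
  simpa using this

/-- `A i ∩ N = 1`. -/
theorem AN (h : KF s t A N) {i : ι} {a : G} (ha : a ∈ A i) (hn : a ∈ N) : a = 1 := by
  obtain ⟨j, hj⟩ := h.exists_ne i
  have := h.k2 j i hj 1 (A j).one_mem a hn (by simpa using ha)
  simpa using this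

/-- `A i N ∩ A j N = N`. -/
theorem ANAN (h : KF s t A N) {i j : ι} (hij : i ≠ j) {a b n m : G} (ha : a ∈ A i) (hb : b ∈ A j)
    (hn : n ∈ N) (hm : m ∈ N) (e : a * n = b * m) : a = 1 ∧ b = 1 := by
  have h1 : a * (n * m⁻¹) = b := by
    rw [← mul_assoc, e]; group
  have h2 := h.k2 i j hij a ha (n * m⁻¹) (N.mul_mem hn (N.inv_mem hm)) (by rw [h1]; exact hb)
  have h3 : b = 1 := by rw [← h1]; exact h2
  have h4 : a ∈ N := by
    have : a = (n * m⁻¹)⁻¹ := by
      rw [eq_inv_iff_mul_eq_one]; exact h2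
    rw [this]
    exact N.inv_mem (N.mul_mem hn (N.inv_mem hm))
  exact ⟨h.AN ha h4, h3⟩

theorem K1' (h : KF s t A N) {i j k : ι} (hij : i ≠ j) (hjk : j ≠ k) (hik : i ≠ k) {a b : G}
    (ha : a ∈ A i) (hb : b ∈ A j) (hc : a * b ∈ A k) : a = 1 ∧ b = 1 := by
  have h1 := h.k1 i j k hij hjk hik a ha b hb hc
  have h2 : a = b⁻¹ := by rw [eq_inv_iff_mul_eq_one]; exact h1
  have h3 : a = 1 := h.AA hij ha (by rw [h2]; exact (A j).inv_mem hb)
  refine ⟨h3, ?_⟩
  rw [h3] at h1; simpa using h1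

/-- The map from pairs to `G` which the quadrangle axiom says is a bijection. -/
def cover (A : ι → Subgroup G) (N : Subgroup G) (i : ι) :
    ((j : {j : ι // j ≠ i}) × (A i × {b : A j.1 // b ≠ 1})) ⊕ (A i × N) → G
  | Sum.inl ⟨_, a, b⟩ => a.1 * b.1.1
  | Sum.inr (a, n) => a.1 * n.1

theorem cover_inj (h : KF s t A N) (i : ι) : Function.Injective (cover A N i) := by
  rintro (⟨⟨j, hj⟩, ⟨a, ha⟩, ⟨⟨b, hb⟩, hb1⟩⟩ | ⟨⟨a, ha⟩, ⟨n, hn⟩⟩)
    (⟨⟨j', hj'⟩, ⟨a', ha'⟩, ⟨⟨b', hb'⟩, hb1'⟩⟩ | ⟨⟨a', ha'⟩, ⟨n', hn'⟩⟩) e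
  · simp only [cover] at e
    have hb0 : b ≠ 1 := fun h0 => hb1 (Subtype.ext h0)
    have hb0' : b' ≠ 1 := fun h0 => hb1' (Subtype.ext h0)
    have e1 : b' * b⁻¹ = a'⁻¹ * a := by
      rw [eq_inv_mul_iff_mul_eq, ← mul_assoc, ← e]; group
    by_cases hjj : j = j'
    · subst hjj
      have e2 : b' * b⁻¹ = 1 := by
        apply h.AA hj ((A j).mul_mem hb' ((A j).inv_mem hb))
        rw [e1]; exact (A i).mul_mem ((A i).inv_mem ha') ha
      have e3 : b' = b := by rwa [mul_inv_eq_one] at e2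
      have e4 : a = a' := by
        rw [e2] at e1
        have := e1.symm
        rw [inv_mul_eq_one] at this
        exact this.symm
      subst e3; subst e4
      rfl
    · exfalso
      have := (h.K1' (i := j') (j := j) (k := i) (Ne.symm hjj) hj hj' hb' ((A j).inv_mem hb)
        (by rw [e1]; exact (A i).mul_mem ((A i).inv_mem ha') ha)).1
      exact hb0' this
  · exfalso
    simp only [cover] at e
    have hb0 : b ≠ 1 := fun h0 => hb1 (Subtype.ext h0)
    apply hb0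
    have e1 : (a'⁻¹ * a) * b = n' := by
      rw [mul_assoc, e]; group
    have e2 : b = (a'⁻¹ * a)⁻¹ * n' := by rw [← e1]; group
    have e3 := h.k2 i j (Ne.symm hj) (a'⁻¹ * a)⁻¹
      ((A i).inv_mem ((A i).mul_mem ((A i).inv_mem ha') ha)) n' hn' (by rw [← e2]; exact hb)
    rw [e2]; exact e3
  · exfalso
    simp only [cover] at e
    have hb0' : b' ≠ 1 := fun h0 => hb1' (Subtype.ext h0)
    apply hb0'
    have e1 : (a⁻¹ * a') * b' = n := by
      rw [mul_assoc, ← e]; group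
    have e2 : b' = (a⁻¹ * a')⁻¹ * n := by rw [← e1]; group
    have e3 := h.k2 i j' (Ne.symm hj') (a⁻¹ * a')⁻¹
      ((A i).inv_mem ((A i).mul_mem ((A i).inv_mem ha) ha')) n hn (by rw [← e2]; exact hb')
    rw [e2]; exact e3
  · simp only [cover] at e
    have e1 : a'⁻¹ * a = n' * n⁻¹ := by
      rw [inv_mul_eq_iff_eq_mul, ← mul_assoc, ← e]; group
    have e2 : a'⁻¹ * a = 1 := by
      apply h.AN ((A i).mul_mem ((A i).inv_mem ha') ha)
      rw [e1]; exact N.mul_mem hn' (N.inv_mem hn)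
    have e3 : a' = a := by rwa [inv_mul_eq_one] at e2
    subst e3
    have e4 : n = n' := mul_left_cancel e
    subst e4
    rfl

theorem card_A (h : KF s t A N) (i : ι) : Fintype.card (A i) = s := by
  rw [← Nat.card_eq_fintype_card]; exact h.cA i

theorem card_N (h : KF s t A N) : Fintype.card N = t := by
  rw [← Nat.card_eq_fintype_card]; exact h.cN

theorem card_G (h : KF s t A N) : Fintype.card G = s ^ 2 * t := by
  rw [← Nat.card_eq_fintype_card]; exact h.cG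

theorem cover_bij (h : KF s t A N) (i : ι) : Function.Bijective (cover A N i) := by
  rw [Fintype.bijective_iff_injective_and_card]
  refine ⟨h.cover_inj i, ?_⟩
  rw [Fintype.card_sum, Fintype.card_sigma, Fintype.card_prod, h.card_A, h.card_N, h.card_G]
  have h1 : ∀ j : {j : ι // j ≠ i}, Fintype.card (A i × {b : A j.1 // b ≠ 1}) = s * (s - 1) := by
    intro j
    rw [Fintype.card_prod, h.card_A, Fintype.card_subtype_compl, Fintype.card_subtype_eq, h.card_A]
  rw [Finset.sum_congr rfl (fun j _ => h1 j), Finset.sum_const, Finset.card_univ,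
    Fintype.card_subtype_compl, Fintype.card_subtype_eq, h.cι]
  have := h.hs
  obtain ⟨k, rfl⟩ : ∃ k, s = k + 1 := ⟨s - 1, by omega⟩
  simp
  ring

theorem cover_cases (h : KF s t A N) (i : ι) (g : G) :
    (∃ a ∈ A i, ∃ n ∈ N, g = a * n) ∨
      ∃ j, j ≠ i ∧ ∃ a ∈ A i, ∃ b ∈ A j, b ≠ 1 ∧ g = a * b := by
  obtain ⟨x, hx⟩ := (h.cover_bij i).2 g
  rcases x with ⟨⟨j, hj⟩, ⟨a, ha⟩, ⟨⟨b, hb⟩, hb1⟩⟩ | ⟨⟨a, ha⟩, ⟨n, hn⟩⟩
  · right
    exact ⟨j, hj, a, ha, b, hb, fun h0 => hb1 (Subtype.ext h0), hx.symm⟩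
  · left
    exact ⟨a, ha, n, hn, hx.symm⟩

theorem cover_unique (h : KF s t A N) {i j j' : ι} (hj : j ≠ i) (hj' : j' ≠ i) {a b a' b' : G}
    (ha : a ∈ A i) (hb : b ∈ A j) (hb1 : b ≠ 1) (ha' : a' ∈ A i) (hb' : b' ∈ A j') (hb1' : b' ≠ 1)
    (e : a * b = a' * b') : j = j' ∧ a = a' ∧ b = b' := by
  have := h.cover_inj i (a₁ := Sum.inl ⟨⟨j, hj⟩, ⟨a, ha⟩, ⟨⟨b, hb⟩, fun h0 => hb1 (congrArg Subtype.val h0)⟩⟩)
    (a₂ := Sum.inl ⟨⟨j', hj'⟩, ⟨a', ha'⟩, ⟨⟨b', hb'⟩, fun h0 => hb1' (congrArg Subtype.val h0)⟩⟩) e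
  have h1 : (⟨j, hj⟩ : {j : ι // j ≠ i}) = ⟨j', hj'⟩ := by
    have := congrArg (fun x => x) this
    simp only [Sum.inl.injEq, Sigma.mk.injEq] at this
    exact this.1
  have h2 : j = j' := congrArg Subtype.val h1
  subst h2
  simp only [Sum.inl.injEq, Sigma.mk.injEq, heq_eq_eq, true_and, Prod.mk.injEq,
    Subtype.mk.injEq] at this
  exact ⟨rfl, this.1, this.2⟩

theorem ab_notin (h : KF s t A N) {i j : ι} (hj : j ≠ i) {a b c n : G}
    (ha : a ∈ A i) (hb : b ∈ A j) (hb1 : b ≠ 1) (hc : c ∈ A i) (hn : n ∈ N) : a * b ≠ c * n := by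
  intro e
  have := h.cover_inj i (a₁ := Sum.inl ⟨⟨j, hj⟩, ⟨a, ha⟩, ⟨⟨b, hb⟩, fun h0 => hb1 (congrArg Subtype.val h0)⟩⟩)
    (a₂ := Sum.inr (⟨c, hc⟩, ⟨n, hn⟩)) e
  simp at this

theorem sum_cover {M : Type*} [AddCommMonoid M] (h : KF s t A N) (i : ι) (F : G → M) :
    ∑ g, F g = (∑ a : A i, ∑ n : N, F (a * n)) +
      ∑ j ∈ Finset.univ.erase i, ∑ a : A i, ∑ b : {b : A j // b ≠ 1}, F (a * b.1) := by
  rw [← (h.cover_bij i).sum_comp F, Fintype.sum_sum_type, add_comm, Fintype.sum_sigma,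
    Fintype.sum_prod_type]
  congr 1
  have : ∀ f : ι → M, ∑ j ∈ Finset.univ.erase i, f j = ∑ j : {j : ι // j ≠ i}, f j := by
    intro f
    rw [Finset.sum_subtype]
    intro x
    simp
  rw [this]
  refine Finset.sum_congr rfl ?_
  intro j _
  rw [Fintype.sum_prod_type]
  rfl

/-- The quadrangle axiom as a summation formula. -/
theorem sum_formula {M : Type*} [AddCommMonoid M] (h : KF s t A N) (i : ι) (F : G → M) :
    ∑ g, F g + t • ∑ a : A i, F a = (∑ a : A i, ∑ n : N, F (a * n)) +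
      ∑ j ∈ Finset.univ.erase i, ∑ a : A i, ∑ b : A j, F (a * b) := by
  rw [h.sum_cover i F, add_assoc]
  congr 1
  have h1 : ∀ j : ι, ∀ a : A i, ∑ b : A j, F (a * b) =
      ∑ b : {b : A j // b ≠ 1}, F (a * b.1) + F a := by
    intro j a
    rw [← Finset.sum_erase_add Finset.univ _ (Finset.mem_univ (1 : A j))]
    congr 1
    · rw [Finset.sum_subtype]
      intro x
      simp
    · simp
  have h2 : ∀ j : ι, ∑ a : A i, ∑ b : A j, F (a * b) =
      ∑ a : A i, ∑ b : {b : A j // b ≠ 1}, F (a * b.1) + ∑ a : A i, F a := by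
    intro j
    rw [← Finset.sum_add_distrib]
    exact Finset.sum_congr rfl (fun a _ => h1 j a)
  rw [Finset.sum_congr rfl (fun j _ => h2 j), Finset.sum_add_distrib]
  congr 1
  rw [Finset.sum_const, Finset.card_erase_of_mem (Finset.mem_univ i), Finset.card_univ, h.cι]
  simp

/-- `G = A i * A j * N`. -/
theorem exists_abn (h : KF s t A N) {i j : ι} (hij : i ≠ j) (g : G) :
    ∃ a ∈ A i, ∃ b ∈ A j, ∃ n ∈ N, g = a * b * n := by
  have hN := h.nrm
  let f : A i × A j × N → G := fun x => x.1.1 * x.2.1.1 * x.2.2.1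
  have hinj : Function.Injective f := by
    rintro ⟨⟨a, ha⟩, ⟨b, hb⟩, ⟨n, hn⟩⟩ ⟨⟨a', ha'⟩, ⟨b', hb'⟩, ⟨n', hn'⟩⟩ e
    simp only [f] at e
    have e1 : a'⁻¹ * a = b' * b⁻¹ * (b * (n' * n⁻¹) * b⁻¹) := by
      have : a'⁻¹ * (a * b * n) = a'⁻¹ * (a' * b' * n') := by rw [e]
      calc a'⁻¹ * a = a'⁻¹ * (a * b * n) * n⁻¹ * b⁻¹ := by group
        _ = a'⁻¹ * (a' * b' * n') * n⁻¹ * b⁻¹ := by rw [this]
        _ = _ := by group
    have hm : b * (n' * n⁻¹) * b⁻¹ ∈ N := hN.conj_mem _ (N.mul_mem hn' (N.inv_mem hn)) b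
    obtain ⟨h1, h2⟩ := h.ANAN hij ((A i).mul_mem ((A i).inv_mem ha') ha)
      ((A j).mul_mem hb' ((A j).inv_mem hb)) N.one_mem hm (by rw [mul_one]; exact e1)
    have h3 : a' = a := by rwa [inv_mul_eq_one] at h1
    have h4 : b' = b := by rwa [mul_inv_eq_one] at h2
    subst h3; subst h4
    have h5 : n = n' := mul_left_cancel e
    subst h5
    rfl
  have hbij : Function.Bijective f := by
    rw [Fintype.bijective_iff_injective_and_card]
    refine ⟨hinj, ?_⟩
    rw [Fintype.card_prod, Fintype.card_prod, h.card_A, h.card_A, h.card_N, h.card_G]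
    ring
  obtain ⟨⟨⟨a, ha⟩, ⟨b, hb⟩, ⟨n, hn⟩⟩, e⟩ := hbij.2 g
  exact ⟨a, ha, b, hb, n, hn, e.symm⟩

/-- conjugates of `A i N` and `A j N` meet in `N` -/
theorem conj_ANAN (h : KF s t A N) {i j : ι} (hij : i ≠ j) {a b n m g : G} (ha : a ∈ A i)
    (hb : b ∈ A j) (hn : n ∈ N) (hm : m ∈ N) (e : g * (a * n) * g⁻¹ = b * m) : a = 1 ∧ b = 1 := by
  have hN := h.nrm
  obtain ⟨b', hb', a', ha', k, hk, rfl⟩ := h.exists_abn (Ne.symm hij) g
  have e1 : a' * a * a'⁻¹ * (a' * (a⁻¹ * (k * a * n * k⁻¹)) * a'⁻¹) =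
      b'⁻¹ * b * b' * (b'⁻¹ * m * b') := by
    have : (b' * a' * k) * (a * n) * (b' * a' * k)⁻¹ = b * m := e
    calc a' * a * a'⁻¹ * (a' * (a⁻¹ * (k * a * n * k⁻¹)) * a'⁻¹)
        = b'⁻¹ * ((b' * a' * k) * (a * n) * (b' * a' * k)⁻¹) * b' := by group
      _ = b'⁻¹ * (b * m) * b' := by rw [this]
      _ = _ := by group
  have hk1 : a⁻¹ * (k * a * n * k⁻¹) ∈ N := by
    have : a⁻¹ * (k * a * n * k⁻¹) = (a⁻¹ * k * a⁻¹⁻¹) * (n * k⁻¹) := by group
    rw [this]
    exact N.mul_mem (hN.conj_mem _ hk a⁻¹) (N.mul_mem hn (N.inv_mem hk))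
  obtain ⟨h1, h2⟩ := h.ANAN hij ((A i).mul_mem ((A i).mul_mem ha' ha) ((A i).inv_mem ha'))
    ((A j).mul_mem ((A j).mul_mem ((A j).inv_mem hb') hb) hb') (hN.conj_mem _ hk1 a')
    (by simpa using hN.conj_mem _ hm b'⁻¹) e1
  constructor
  · have : a' * a * a'⁻¹ = 1 := h1
    rwa [conj_eq_one_iff] at this
  · have : b'⁻¹ * b * b' = 1 := h2
    have h3 : b'⁻¹ * b * b'⁻¹⁻¹ = 1 := by simpa using this
    rwa [conj_eq_one_iff] at h3

end KF

/-- A family of `t+1` subgroups of order `s` with pairwise trivial intersection in a group of order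
`s²`. -/
structure PCP {H ι : Type} [Group H] [Fintype H] [Fintype ι] (s t : ℕ)
    (B : ι → Subgroup H) : Prop where
  hs : 1 < s
  ht : 1 < t
  cι : Fintype.card ι = t + 1
  cB : ∀ i, Nat.card (B i) = s
  cH : Nat.card H = s ^ 2
  dj : ∀ i j, i ≠ j → ∀ x, x ∈ B i → x ∈ B j → x = 1

namespace PCP

variable {H ι : Type} [Group H] [Fintype H] [Fintype ι] {s t : ℕ} {B : ι → Subgroup H}

/-- `H = B i * B j`. -/
theorem exists_mul (h : PCP s t B) {i j : ι} (hij : i ≠ j) (x : H) :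
    ∃ a ∈ B i, ∃ b ∈ B j, x = a * b := by
  let f : B i × B j → H := fun x => x.1.1 * x.2.1
  have hinj : Function.Injective f := by
    rintro ⟨⟨a, ha⟩, ⟨b, hb⟩⟩ ⟨⟨a', ha'⟩, ⟨b', hb'⟩⟩ e
    simp only [f] at e
    have e1 : a'⁻¹ * a = b' * b⁻¹ := by
      rw [inv_mul_eq_iff_eq_mul, ← mul_assoc, ← e]; group
    have h1 := h.dj i j hij _ ((B i).mul_mem ((B i).inv_mem ha') ha)
      (by rw [e1]; exact (B j).mul_mem hb' ((B j).inv_mem hb))
    have h3 : a' = a := by rwa [inv_mul_eq_one] at h1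
    subst h3
    have h5 : b = b' := mul_left_cancel e
    subst h5
    rfl
  have hbij : Function.Bijective f := by
    rw [Fintype.bijective_iff_injective_and_card]
    refine ⟨hinj, ?_⟩
    have e1 : ∀ i, Fintype.card (B i) = s := fun i => by
      rw [← Nat.card_eq_fintype_card]; exact h.cB i
    rw [Fintype.card_prod, e1, e1, ← Nat.card_eq_fintype_card, h.cH]
    ring
  obtain ⟨⟨⟨a, ha⟩, ⟨b, hb⟩⟩, e⟩ := hbij.2 x
  exact ⟨a, ha, b, hb, e.symm⟩

theorem conj_dj (h : PCP s t B) {i j : ι} (hij : i ≠ j) {g x : H} (hx : x ∈ B i)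
    (hy : g * x * g⁻¹ ∈ B j) : x = 1 := by
  obtain ⟨b, hb, a, ha, rfl⟩ := h.exists_mul (Ne.symm hij) g
  have h1 : a * x * a⁻¹ ∈ B i := (B i).mul_mem ((B i).mul_mem ha hx) ((B i).inv_mem ha)
  have h2 : a * x * a⁻¹ ∈ B j := by
    have : a * x * a⁻¹ = b⁻¹ * ((b * a) * x * (b * a)⁻¹) * b := by group
    rw [this]
    exact (B j).mul_mem ((B j).mul_mem ((B j).inv_mem hb) hy) hb
  have h3 := h.dj i j hij _ h1 h2
  rwa [conj_eq_one_iff] at h3

end PCP

/-- A family of subgroups of order `s` with pairwise trivial intersection inside a finite set of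
size `m`. -/
theorem disjoint_count {H : Type} [Group H] [Fintype H] {κ : Type} (J : Finset κ)
    (B : κ → Subgroup H) (s : ℕ) (T : Subgroup H) (hB : ∀ i ∈ J, s ≤ Nat.card (B i))
    (hT : ∀ i ∈ J, B i ≤ T)
    (hd : ∀ i ∈ J, ∀ j ∈ J, i ≠ j → ∀ x, x ∈ B i → x ∈ B j → x = 1) :
    J.card * (s - 1) + 1 ≤ Nat.card T := by
  have h1 : ∀ i ∈ J, s - 1 ≤ ((Finset.univ.filter (fun x => x ∈ B i)).erase 1).card := by
    intro i hi
    rw [Finset.card_erase_of_mem (by simp [(B i).one_mem])]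
    have := hB i hi
    rw [Nat.card_eq_fintype_card, Fintype.card_subtype] at this
    omega
  have h2 : (J.biUnion (fun i => (Finset.univ.filter (fun x => x ∈ B i)).erase 1)).card =
      ∑ i ∈ J, ((Finset.univ.filter (fun x => x ∈ B i)).erase 1).card := by
    apply Finset.card_biUnion
    intro i hi j hj hij
    rw [Function.onFun, Finset.disjoint_left]
    intro x hx hx'
    simp only [Finset.mem_erase, Finset.mem_filter, Finset.mem_univ, true_and] at hx hx'
    exact hx.1 (hd i hi j hj hij x hx.2 hx'.2)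
  have h3 : J.card * (s - 1) ≤ ∑ i ∈ J, ((Finset.univ.filter (fun x => x ∈ B i)).erase 1).card := by
    rw [← smul_eq_mul]
    exact Finset.card_nsmul_le_sum _ _ _ h1
  have h4 : (insert 1 (J.biUnion (fun i => (Finset.univ.filter (fun x => x ∈ B i)).erase 1))) ⊆
      Finset.univ.filter (fun x => x ∈ T) := by
    intro x hx
    simp only [Finset.mem_insert, Finset.mem_biUnion, Finset.mem_erase, Finset.mem_filter,
      Finset.mem_univ, true_and] at hx ⊢
    rcases hx with rfl | ⟨i, hi, -, hx⟩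
    · exact T.one_mem
    · exact hT i hi hx
  have h5 := Finset.card_le_card h4
  rw [Finset.card_insert_of_notMem (by simp), h2] at h5
  rw [Nat.card_eq_fintype_card, Fintype.card_subtype]
  omega

theorem PCP.t_le_s {H ι : Type} [Group H] [Fintype H] [Fintype ι] {s t : ℕ} {B : ι → Subgroup H}
    (h : PCP s t B) : t ≤ s := by
  have h1 := disjoint_count Finset.univ B s ⊤ (fun i _ => (h.cB i).ge) (fun i _ => le_top)
    (fun i _ j _ hij x hx hy => h.dj i j hij x hx hy)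
  rw [Finset.card_univ, h.cι, Subgroup.card_top, h.cH] at h1
  have h2 := h.hs
  by_contra hc
  push Not at hc
  obtain ⟨k, rfl⟩ : ∃ k, s = k + 1 := ⟨s - 1, by omega⟩
  obtain ⟨l, rfl⟩ : ∃ l, t = k + 2 + l := ⟨t - (k + 2), by omega⟩
  simp at h1
  nlinarith [Nat.zero_le (l * k)]

namespace KF

variable {G ι : Type} [Group G] [Fintype G] [Fintype ι] {s t : ℕ} {A : ι → Subgroup G}
  {N : Subgroup G}

theorem pcp (h : KF s t A N) [N.Normal] : PCP s t (fun i => (A i).map (QuotientGroup.mk' N)) where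
  hs := h.hs
  ht := h.ht
  cι := h.cι
  cB := by
    intro i
    have hinj : Function.Injective ((QuotientGroup.mk' N).subgroupMap (A i)) := by
      rw [injective_iff_map_eq_one]
      rintro ⟨a, ha⟩ hx
      have h1 : QuotientGroup.mk' N a = 1 := by
        have := congrArg Subtype.val hx
        simpa using this
      have h2 : a ∈ N := by
        rwa [QuotientGroup.mk'_apply, QuotientGroup.eq_one_iff] at h1
      exact Subtype.ext (h.AN ha h2)
    have hbij : Function.Bijective ((QuotientGroup.mk' N).subgroupMap (A i)) :=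
      ⟨hinj, MonoidHom.subgroupMap_surjective _ _⟩
    rw [← Nat.card_congr (Equiv.ofBijective _ hbij)]
    exact h.cA i
  cH := by
    have h1 := Subgroup.card_eq_card_quotient_mul_card_subgroup N
    rw [h.cN, h.cG] at h1
    have h2 : 0 < t := by have := h.ht; omega
    exact (Nat.eq_of_mul_eq_mul_right h2 h1).symm
  dj := by
    rintro i j hij x ⟨a, ha, rfl⟩ ⟨b, hb, e⟩
    have h1 : b⁻¹ * a ∈ N := by
      rw [QuotientGroup.mk'_apply, QuotientGroup.mk'_apply, QuotientGroup.eq] at e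
      exact e
    have h2 := h.ANAN (Ne.symm hij) hb ha h1 N.one_mem (by group)
    rw [h2.2]; simp

theorem t_le_s (h : KF s t A N) : t ≤ s := by
  have := h.nrm
  exact h.pcp.t_le_s

end KF

end Pool.Agent.Helper298
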