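import Pool.Agent.Helper298_KF.Defs

set_option autoImplicit false
open scoped Classical commutatorElement

namespace Pool.Agent.Helper298

theorem card_homs_le {Q : Type} [Group Q] [Fintype Q] (K : Subgroup Q) (S : Finset (Q →* ℂˣ))
    (hS : ∀ χ ∈ S, ∀ k ∈ K, χ k = 1) : S.card ≤ K.index := by
  -- linear independence of the homs as functions Q → ℂ
  have h1 : LinearIndependent ℂ (fun χ : (Q →* ℂˣ) => fun g : Q => ((χ g : ℂˣ) : ℂ)) := by
    have h0 := linearIndependent_monoidHom Q ℂ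
    have h2 := h0.comp (fun χ : (Q →* ℂˣ) => (Units.coeHom ℂ).comp χ) (by
      intro χ ψ h
      ext g
      have := DFunLike.congr_fun h g
      simpa using this)
    exact h2
  have h3 : LinearIndependent ℂ (fun χ : S => fun g : Q => (((χ : Q →* ℂˣ) g : ℂˣ) : ℂ)) :=
    h1.comp (fun χ : S => (χ : Q →* ℂˣ)) Subtype.val_injective
  -- functions on the quotient
  have hwell : ∀ χ : S, ∀ a b : Q, (QuotientGroup.leftRel K) a b →
      (((χ : Q →* ℂˣ) a : ℂˣ) : ℂ) = (((χ : Q →* ℂˣ) b : ℂˣ) : ℂ) := by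
    intro χ a b hab
    rw [QuotientGroup.leftRel_apply] at hab
    have h4 := hS χ.1 χ.2 _ hab
    rw [map_mul, map_inv, inv_mul_eq_one] at h4
    rw [h4]
  let f : S → ((Q ⧸ K) → ℂ) := fun χ => fun q =>
    Quotient.liftOn' q (fun g => (((χ : Q →* ℂˣ) g : ℂˣ) : ℂ)) (hwell χ)
  let L : ((Q ⧸ K) → ℂ) →ₗ[ℂ] (Q → ℂ) := LinearMap.funLeft ℂ ℂ (fun g : Q => (g : Q ⧸ K))
  have h5 : LinearIndependent ℂ (L ∘ f) := by
    have : (L ∘ f) = (fun χ : S => fun g : Q => (((χ : Q →* ℂˣ) g : ℂˣ) : ℂ)) := by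
      funext χ g
      rfl
    rw [this]
    exact h3
  have h6 : LinearIndependent ℂ f := LinearIndependent.of_comp L h5
  have h7 := h6.fintype_card_le_finrank
  rw [Module.finrank_fintype_fun_eq_card, Fintype.card_coe] at h7
  rw [Subgroup.index_eq_card, Nat.card_eq_fintype_card]
  exact h7

end Pool.Agent.Helper298
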