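import Pool.Agent.Helper298_KF.Defs
import Pool.Agent.Helper298_KF.L_card_homs_le

set_option autoImplicit false
open scoped Classical commutatorElement

namespace Pool.Agent.Helper298



/-- the homomorphism attached to a point -/
noncomputable def pairing_bound_auxf {X Q : Type} [Group X] [Group Q] (β : X → Q → ℂˣ)
    (h2 : ∀ x q r, β x (q * r) = β x q * β x r) (x : X) : Q →* ℂˣ where
  toFun := β x
  map_one' := by
    have h := h2 x 1 1
    rw [mul_one] at h
    exact (mul_eq_left.mp h.symm)
  map_mul' := h2 x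

theorem pairing_bound {X Q : Type} [Group X] [Fintype X] [Group Q] [Fintype Q] (β : X → Q → ℂˣ)
    (h1 : ∀ x y q, β (x * y) q = β x q * β y q) (h2 : ∀ x q r, β x (q * r) = β x q * β x r)
    (L : Subgroup X) (K : Subgroup Q) (hK : ∀ x, ∀ k ∈ K, β x k = 1)
    (hL : ∀ x, (∀ q, β x q = 1) → x ∈ L) : Nat.card X ≤ Nat.card L * K.index := by
  set f : X → (Q →* ℂˣ) := pairing_bound_auxf β h2 with hf
  have hfe : ∀ x q, f x q = β x q := fun x q => rfl
  have hone : ∀ q, β 1 q = 1 := by
    intro q
    have h := h1 1 1 q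
    rw [mul_one] at h
    exact (mul_eq_left.mp h.symm)
  set S : Finset (Q →* ℂˣ) := Finset.univ.image f with hS
  have hSc : S.card ≤ K.index := by
    apply card_homs_le K S
    intro χ hχ k hk
    obtain ⟨x, -, rfl⟩ := Finset.mem_image.mp hχ
    exact hK x k hk
  have hfib : ∀ χ ∈ S, (Finset.univ.filter (fun x => f x = χ)).card ≤ Nat.card L := by
    intro χ hχ
    obtain ⟨x0, -, rfl⟩ := Finset.mem_image.mp hχ
    rw [Nat.card_eq_fintype_card, ← Finset.card_univ]
    refine Finset.card_le_card_of_injOn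
      (fun x => if h : x * x0⁻¹ ∈ L then (⟨x * x0⁻¹, h⟩ : L) else 1) (fun _ _ => Finset.mem_coe.mpr (Finset.mem_univ _)) ?_
    have key : ∀ x, f x = f x0 → x * x0⁻¹ ∈ L := by
      intro x hx
      apply hL
      intro q
      have e1 : β x q = β x0 q := by rw [← hfe, ← hfe, hx]
      have e2 : β x0 q * β x0⁻¹ q = 1 := by rw [← h1, mul_inv_cancel, hone]
      rw [h1, e1, e2]
    intro x hx y hy hxy
    simp only [Finset.coe_filter, Finset.mem_univ, true_and, Set.mem_ofPred_eq] at hx hy
    simp only [key x hx, key y hy, dif_pos, Subtype.mk.injEq, mul_left_inj] at hxy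
    exact hxy
  have hcard := Finset.card_le_mul_card_image (f := f) (Finset.univ : Finset X) (Nat.card L) hfib
  rw [Nat.card_eq_fintype_card (α := X), ← Finset.card_univ]
  exact hcard.trans (Nat.mul_le_mul_left _ hSc)

end Pool.Agent.Helper298
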