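import Pool.Agent.Helper298_KF.Defs
import Pool.Agent.Helper298_KF.L_pairing_bound

set_option autoImplicit false
open scoped Classical commutatorElement

namespace Pool.Agent.Helper298



section
variable {G ι : Type} [Group G] [Fintype G] [Fintype ι] {s t : ℕ} {A : ι → Subgroup G}
  {N : Subgroup G}

omit [Fintype G] in
theorem lemmaR_aux_one {ν : G → G → ℂˣ} (hν : Nu N ν) (u : G) : ν 1 u = 1 := by
  have h := hν.mul_left 1 N.one_mem 1 N.one_mem u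
  rw [mul_one] at h
  exact left_eq_mul.mp h

omit [Fintype G] in
theorem lemmaR_aux_conj (hN : N.Normal) {ν : G → G → ℂˣ} (hν : Nu N ν) (u : G) (g n : G)
    (hn : n ∈ N) : ν (g * n * g⁻¹) u = ν n u := by
  have e : g * n * g⁻¹ = ⁅g, n⁆ * n := by rw [commutatorElement_def]; group
  have h1 : ⁅g, n⁆ ∈ ⁅N, (⊤ : Subgroup G)⁆ := by
    have h2 : ⁅n, g⁆ ∈ ⁅N, (⊤ : Subgroup G)⁆ :=
      Subgroup.commutator_mem_commutator hn (Subgroup.mem_top g)
    rw [← commutatorElement_inv]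
    exact Subgroup.inv_mem _ h2
  have h3 : ⁅g, n⁆ ∈ N := by
    have : ⁅g, n⁆ = (g * n * g⁻¹) * n⁻¹ := by rw [commutatorElement_def]
    rw [this]
    exact N.mul_mem (hN.conj_mem _ hn g) (N.inv_mem hn)
  rw [e, hν.mul_left _ h3 _ hn, hν.comm_left _ h1, one_mul]

omit [Fintype G] in
theorem lemmaR_aux_l (hN : N.Normal) {ν : G → G → ℂˣ} (hν : Nu N ν) (u : G) (x y g : G)
    (hx : ⁅x, g⁆ ∈ N) (hy : ⁅y, g⁆ ∈ N) : ν ⁅x * y, g⁆ u = ν ⁅x, g⁆ u * ν ⁅y, g⁆ u := by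
  have e : ⁅x * y, g⁆ = (x * ⁅y, g⁆ * x⁻¹) * ⁅x, g⁆ := by
    rw [commutatorElement_def, commutatorElement_def, commutatorElement_def]; group
  rw [e, hν.mul_left _ (hN.conj_mem _ hy x) _ hx, lemmaR_aux_conj hN hν u x _ hy, mul_comm]

omit [Fintype G] in
theorem lemmaR_aux_r (hN : N.Normal) {ν : G → G → ℂˣ} (hν : Nu N ν) (u : G) (x g k : G)
    (hx : ⁅x, g⁆ ∈ N) (hy : ⁅x, k⁆ ∈ N) : ν ⁅x, g * k⁆ u = ν ⁅x, g⁆ u * ν ⁅x, k⁆ u := by
  have e : ⁅x, g * k⁆ = ⁅x, g⁆ * (g * ⁅x, k⁆ * g⁻¹) := by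
    rw [commutatorElement_def, commutatorElement_def, commutatorElement_def]; group
  rw [e, hν.mul_left _ hx _ (hN.conj_mem _ hy g), lemmaR_aux_conj hN hν u g _ hy]

omit [Fintype G] in
theorem lemmaR_aux_n (hN : N.Normal) (n g : G) (hn : n ∈ N) : ⁅n, g⁆ ∈ N ∧ ⁅g, n⁆ ∈ N := by
  constructor
  · have : ⁅n, g⁆ = n * (g * n⁻¹ * g⁻¹) := by rw [commutatorElement_def]; group
    rw [this]
    exact N.mul_mem hn (hN.conj_mem _ (N.inv_mem hn) g)
  · have : ⁅g, n⁆ = (g * n * g⁻¹) * n⁻¹ := by rw [commutatorElement_def]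
    rw [this]
    exact N.mul_mem (hN.conj_mem _ hn g) (N.inv_mem hn)

omit [Fintype G] in
theorem lemmaR_aux_comm {ν : G → G → ℂˣ} (hν : Nu N ν) (u n g : G) (hn : n ∈ N) :
    ν ⁅n, g⁆ u = 1 ∧ ν ⁅g, n⁆ u = 1 := by
  have h2 : ⁅n, g⁆ ∈ ⁅N, (⊤ : Subgroup G)⁆ :=
    Subgroup.commutator_mem_commutator hn (Subgroup.mem_top g)
  refine ⟨hν.comm_left _ h2 u, hν.comm_left _ ?_ u⟩
  rw [← commutatorElement_inv]
  exact Subgroup.inv_mem _ h2

/-- if `ν [a,g] u · ν [b,g] u = 1` for all `g` then `a = 1` -/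
theorem lemmaR_aux_a (h : KF s t A N) (hf : Fusion A N) {ν : G → G → ℂˣ} (hν : Nu N ν) (u : G)
    (hu : ∃ n ∈ N, ν n u ≠ 1) (i j : ι) (hij : i ≠ j) (a b : G) (ha : a ∈ A i) (hb : b ∈ A j)
    (hac : ∀ g : G, ⁅a, g⁆ ∈ N) (hbc : ∀ g : G, ⁅b, g⁆ ∈ N)
    (hab : ∀ g : G, ν ⁅a, g⁆ u * ν ⁅b, g⁆ u = 1) : a = 1 := by
  have hN := h.nrm
  by_contra hne
  obtain ⟨n, hn, hn1⟩ := hu
  apply hn1
  obtain ⟨g, hg⟩ := hf i a ha hne hac n hn
  rw [← hg]
  obtain ⟨a', ha', b', hb', n', hn', rfl⟩ := h.exists_abn hij g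
  rw [lemmaR_aux_r hN hν u a (a' * b') n' (hac _) (hac _),
    lemmaR_aux_r hN hν u a a' b' (hac _) (hac _), (lemmaR_aux_comm hν u n' a hn').2, mul_one]
  have e1 : ⁅a, a'⁆ = 1 := by
    apply h.AN (i := i) _ (hac a')
    rw [commutatorElement_def]
    exact (A i).mul_mem ((A i).mul_mem ((A i).mul_mem ha ha') ((A i).inv_mem ha))
      ((A i).inv_mem ha')
  have e2 : ⁅b, b'⁆ = 1 := by
    apply h.AN (i := j) _ (hbc b')
    rw [commutatorElement_def]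
    exact (A j).mul_mem ((A j).mul_mem ((A j).mul_mem hb hb') ((A j).inv_mem hb))
      ((A j).inv_mem hb')
  have e3 := hab b'
  rw [e2, lemmaR_aux_one hν u, mul_one] at e3
  rw [e1, e3, lemmaR_aux_one hν u, one_mul]

theorem KF.lemmaR (h : KF s t A N) (hf : Fusion A N) {ν : G → G → ℂˣ} (hν : Nu N ν) (u : G)
    (hu : ∃ n ∈ N, ν n u ≠ 1) (D : Subgroup G) (i j : ι) (hij : i ≠ j)
    (hD : ∀ d ∈ D, ∃ a ∈ A i, ∃ b ∈ A j, ∃ n ∈ N, d = a * b * n ∧ (∀ g : G, ⁅a, g⁆ ∈ N) ∧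
      (∀ g : G, ⁅b, g⁆ ∈ N))
    (hDD : ∀ d ∈ D, ∀ e ∈ D, ν ⁅d, e⁆ u = 1) : Nat.card D ≤ s * t := by
  have hN := h.nrm
  have hmul : ∀ x y : G, (∀ g : G, ⁅x, g⁆ ∈ N) → (∀ g : G, ⁅y, g⁆ ∈ N) →
      ∀ g : G, ⁅x * y, g⁆ ∈ N := by
    intro x y hx hy g
    have e : ⁅x * y, g⁆ = (x * ⁅y, g⁆ * x⁻¹) * ⁅x, g⁆ := by
      rw [commutatorElement_def, commutatorElement_def, commutatorElement_def]; group
    rw [e]
    exact N.mul_mem (hN.conj_mem _ (hy g) x) (hx g)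
  have hDc : ∀ d ∈ D, ∀ g : G, ⁅d, g⁆ ∈ N := by
    intro d hd
    obtain ⟨a, ha, b, hb, n, hn, rfl, hac, hbc⟩ := hD d hd
    exact hmul _ _ (hmul _ _ hac hbc) (fun g => (lemmaR_aux_n hN n g hn).1)
  have key := pairing_bound (X := D) (Q := G) (fun d g => ν ⁅(d : G), g⁆ u)
    (fun x y q => lemmaR_aux_l hN hν u x y q (hDc x x.2 q) (hDc y y.2 q))
    (fun x q r => lemmaR_aux_r hN hν u x q r (hDc x x.2 q) (hDc x x.2 r))
    (N.subgroupOf D) D (fun x k hk => hDD x x.2 k hk)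
    (by
      rintro ⟨d, hd⟩ hd1
      rw [Subgroup.mem_subgroupOf]
      simp only at hd1 ⊢
      obtain ⟨a, ha, b, hb, n, hn, rfl, hac, hbc⟩ := hD d hd
      have hab : ∀ g : G, ν ⁅a, g⁆ u * ν ⁅b, g⁆ u = 1 := by
        intro g
        have h1 := hd1 g
        rw [lemmaR_aux_l hN hν u (a * b) n g (hmul a b hac hbc g) (lemmaR_aux_n hN n g hn).1,
          lemmaR_aux_l hN hν u a b g (hac g) (hbc g), (lemmaR_aux_comm hν u n g hn).1,
          mul_one] at h1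
        exact h1
      have ha1 := lemmaR_aux_a h hf hν u hu i j hij a b ha hb hac hbc hab
      have hb1 := lemmaR_aux_a h hf hν u hu j i hij.symm b a hb ha hbc hac
        (fun g => by rw [mul_comm]; exact hab g)
      rw [ha1, hb1, one_mul, one_mul]
      exact hn)
  have h1 : Nat.card (N.subgroupOf D) ≤ t := by
    rw [← h.cN]
    exact Nat.card_le_card_of_injective (fun x : N.subgroupOf D => (⟨x.1.1, x.2⟩ : N))
      (fun x y hxy => Subtype.ext (Subtype.ext (congrArg (fun z : N => (z : G)) hxy)))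
  have h2 : Nat.card D * D.index = s ^ 2 * t := by rw [Subgroup.card_mul_index, h.cG]
  have h3 : Nat.card D * Nat.card D ≤ (s * t) * (s * t) := by
    calc Nat.card D * Nat.card D ≤ Nat.card D * (t * D.index) :=
          Nat.mul_le_mul_left _ (key.trans (Nat.mul_le_mul_right _ h1))
      _ = t * (Nat.card D * D.index) := by ring
      _ = (s * t) * (s * t) := by rw [h2]; ring
  exact Nat.mul_self_le_mul_self_iff.mp h3

end

end Pool.Agent.Helper298
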