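import Pool.Agent.Helper298_KF.Defs

set_option autoImplicit false
open scoped Classical commutatorElement

namespace Pool.Agent.Helper298

theorem exists_nu_aux_nilp {G : Type} [Group G] [Group.IsNilpotent G] (X : Subgroup G)
    (h : X ≤ ⁅X, (⊤ : Subgroup G)⁆) : X = ⊥ := by
  have h1 : ∀ n, X ≤ Subgroup.lowerCentralSeries (⊤ : Subgroup G) n := by
    intro n
    induction n with
    | zero => exact le_top
    | succ n ih =>
      rw [Subgroup.lowerCentralSeries_succ]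
      exact h.trans (Subgroup.commutator_mono ih le_rfl)
  obtain ⟨n, hn⟩ := Subgroup.nilpotent_iff_lowerCentralSeries.1 ‹Group.IsNilpotent G›
  rw [eq_bot_iff, ← hn]
  exact h1 n

theorem exists_nu_aux_hw {G : Type} [Group G] (x y z : G) :
    x * ⁅⁅x⁻¹, y⁆, z⁆ * x⁻¹ * (z * ⁅⁅z⁻¹, x⁆, y⁆ * z⁻¹) * (y * ⁅⁅y⁻¹, z⁆, x⁆ * y⁻¹) = 1 := by
  simp only [commutatorElement_def]
  group

/-- The extension of a character of the centre of `G/Y`. -/
noncomputable def exists_nu_aux_lam {G : Type} [Group G] (Y : Subgroup G) [Y.Normal]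
    (ψ : Subgroup.center (G ⧸ Y) →* ℂˣ) (g : G) : ℂˣ :=
  if h : (QuotientGroup.mk' Y g) ∈ Subgroup.center (G ⧸ Y) then ψ ⟨_, h⟩ else 1

theorem exists_nu_aux_lam_mul {G : Type} [Group G] (Y : Subgroup G) [Y.Normal]
    (ψ : Subgroup.center (G ⧸ Y) →* ℂˣ) (a b : G)
    (ha : (QuotientGroup.mk' Y a) ∈ Subgroup.center (G ⧸ Y))
    (hb : (QuotientGroup.mk' Y b) ∈ Subgroup.center (G ⧸ Y)) :
    exists_nu_aux_lam Y ψ (a * b) = exists_nu_aux_lam Y ψ a * exists_nu_aux_lam Y ψ b := by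
  have hab : (QuotientGroup.mk' Y (a * b)) ∈ Subgroup.center (G ⧸ Y) := by
    rw [map_mul]; exact mul_mem ha hb
  unfold exists_nu_aux_lam
  rw [dif_pos ha, dif_pos hb, dif_pos hab, ← map_mul]
  congr 1

theorem exists_nu_aux_lam_congr {G : Type} [Group G] (Y : Subgroup G) [Y.Normal]
    (ψ : Subgroup.center (G ⧸ Y) →* ℂˣ) (a b : G)
    (h : QuotientGroup.mk' Y a = QuotientGroup.mk' Y b) :
    exists_nu_aux_lam Y ψ a = exists_nu_aux_lam Y ψ b := by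
  unfold exists_nu_aux_lam
  simp only [h]

theorem exists_nu_aux_lam_one {G : Type} [Group G] (Y : Subgroup G) [Y.Normal]
    (ψ : Subgroup.center (G ⧸ Y) →* ℂˣ) : exists_nu_aux_lam Y ψ 1 = 1 := by
  have h1 : (QuotientGroup.mk' Y 1) ∈ Subgroup.center (G ⧸ Y) := by
    rw [map_one]; exact one_mem _
  unfold exists_nu_aux_lam
  rw [dif_pos h1]
  have : (⟨QuotientGroup.mk' Y 1, h1⟩ : Subgroup.center (G ⧸ Y)) = 1 := by
    apply Subtype.ext
    simp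
  rw [this, map_one]

theorem exists_nu_aux_lam_Y {G : Type} [Group G] (Y : Subgroup G) [Y.Normal]
    (ψ : Subgroup.center (G ⧸ Y) →* ℂˣ) (a : G) (ha : a ∈ Y) : exists_nu_aux_lam Y ψ a = 1 := by
  rw [← exists_nu_aux_lam_one Y ψ]
  apply exists_nu_aux_lam_congr
  rw [map_one]
  exact (QuotientGroup.eq_one_iff a).2 ha

theorem exists_nu_aux_lam_conj {G : Type} [Group G] (Y : Subgroup G) [Y.Normal]
    (ψ : Subgroup.center (G ⧸ Y) →* ℂˣ) (g a : G)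
    (ha : (QuotientGroup.mk' Y a) ∈ Subgroup.center (G ⧸ Y)) :
    exists_nu_aux_lam Y ψ (g * a * g⁻¹) = exists_nu_aux_lam Y ψ a := by
  apply exists_nu_aux_lam_congr
  rw [map_mul, map_mul, Subgroup.mem_center_iff.1 ha (QuotientGroup.mk' Y g), mul_assoc, ← map_mul]
  simp

theorem exists_nu {G : Type} [Group G] [Fintype G] {p : ℕ} [Fact p.Prime] (hG : IsPGroup p G)
    (N : Subgroup G) [N.Normal] (hN : ¬ N ≤ Subgroup.center G) :
    ∃ ν : G → G → ℂˣ, Nu N ν := by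
  have : Group.IsNilpotent G := hG.isNilpotent
  set X : Subgroup G := ⁅N, (⊤ : Subgroup G)⁆ with hX
  set Y : Subgroup G := ⁅X, (⊤ : Subgroup G)⁆ with hY
  have hXY : ¬ X ≤ Y := by
    intro h
    have h0 := exists_nu_aux_nilp X h
    apply hN
    intro n hn
    rw [Subgroup.mem_center_iff]
    intro g
    have h1 : ⁅n, g⁆ ∈ X := Subgroup.commutator_mem_commutator hn (Subgroup.mem_top g)
    rw [h0, Subgroup.mem_bot, commutatorElement_eq_one_iff_mul_comm] at h1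
    exact h1.symm
  have hcen : ∀ x ∈ X, (QuotientGroup.mk' Y x) ∈ Subgroup.center (G ⧸ Y) := by
    intro x hx
    rw [Subgroup.mem_center_iff]
    intro g
    obtain ⟨g, rfl⟩ := QuotientGroup.mk'_surjective Y g
    have h1 : ⁅x, g⁆ ∈ Y := Subgroup.commutator_mem_commutator hx (Subgroup.mem_top g)
    have h2 : QuotientGroup.mk' Y ⁅x, g⁆ = 1 := (QuotientGroup.eq_one_iff _).2 h1
    rw [map_commutatorElement, commutatorElement_eq_one_iff_mul_comm] at h2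
    exact h2.symm
  obtain ⟨n0, hn0, u0, h0⟩ : ∃ n ∈ N, ∃ u, ⁅n, u⁆ ∉ Y := by
    by_contra hc
    push Not at hc
    apply hXY
    rw [hX, Subgroup.commutator_le]
    intro n hn u _
    exact hc n hn u
  have hmX : ∀ n ∈ N, ∀ u, ⁅n, u⁆ ∈ X := fun n hn u =>
    Subgroup.commutator_mem_commutator hn (Subgroup.mem_top u)
  let z0 : Subgroup.center (G ⧸ Y) := ⟨QuotientGroup.mk' Y ⁅n0, u0⁆, hcen _ (hmX n0 hn0 u0)⟩
  have hz0 : z0 ≠ 1 := by
    intro h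
    apply h0
    have := congrArg Subtype.val h
    exact (QuotientGroup.eq_one_iff _).1 this
  obtain ⟨ψ, hψ⟩ : ∃ ψ : Subgroup.center (G ⧸ Y) →* ℂˣ, ψ z0 ≠ 1 := by
    let _ : CommGroup (Subgroup.center (G ⧸ Y)) :=
      { (inferInstance : Group (Subgroup.center (G ⧸ Y))) with
        mul_comm := fun a b => Subtype.ext (Subgroup.mem_center_iff.1 b.2 a.1) }
    exact CommGroup.exists_apply_ne_one_of_hasEnoughRootsOfUnity
      (Subgroup.center (G ⧸ Y)) ℂ hz0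
  have hlm := exists_nu_aux_lam_mul Y ψ
  have hl1 := exists_nu_aux_lam_one Y ψ
  have hlY := exists_nu_aux_lam_Y Y ψ
  have hlc := exists_nu_aux_lam_conj Y ψ
  have hnz : exists_nu_aux_lam Y ψ ⁅n0, u0⁆ ≠ 1 := by
    unfold exists_nu_aux_lam
    rw [dif_pos (hcen _ (hmX n0 hn0 u0))]
    exact hψ
  generalize exists_nu_aux_lam Y ψ = lam at *
  have hXN : X ≤ N := Subgroup.commutator_le_left N ⊤
  have hL : ∀ n ∈ N, ∀ m ∈ N, ∀ u, lam ⁅n * m, u⁆ = lam ⁅n, u⁆ * lam ⁅m, u⁆ := by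
    intro n hn m hm u
    have e : ⁅n * m, u⁆ = (n * ⁅m, u⁆ * n⁻¹) * ⁅n, u⁆ := by
      simp only [commutatorElement_def]; group
    have h1 : (QuotientGroup.mk' Y (n * ⁅m, u⁆ * n⁻¹)) ∈ Subgroup.center (G ⧸ Y) := by
      apply hcen
      exact Subgroup.Normal.conj_mem inferInstance _ (hmX m hm u) n
    rw [e, hlm _ _ h1 (hcen _ (hmX n hn u)), hlc _ _ (hcen _ (hmX m hm u)), mul_comm]
  have hR : ∀ n ∈ N, ∀ u v, lam ⁅n, u * v⁆ = lam ⁅n, u⁆ * lam ⁅n, v⁆ := by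
    intro n hn u v
    have e : ⁅n, u * v⁆ = ⁅n, u⁆ * (u * ⁅n, v⁆ * u⁻¹) := by
      simp only [commutatorElement_def]; group
    have h1 : (QuotientGroup.mk' Y (u * ⁅n, v⁆ * u⁻¹)) ∈ Subgroup.center (G ⧸ Y) := by
      apply hcen
      exact Subgroup.Normal.conj_mem inferInstance _ (hmX n hn v) u
    rw [e, hlm _ _ (hcen _ (hmX n hn u)) h1, hlc _ _ (hcen _ (hmX n hn v))]
  have hC : ∀ m ∈ X, ∀ u, lam ⁅m, u⁆ = 1 := by
    intro m hm u
    exact hlY _ (Subgroup.commutator_mem_commutator hm (Subgroup.mem_top u))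
  have hinv : ∀ n ∈ N, ∀ u, lam ⁅n⁻¹, u⁆ = (lam ⁅n, u⁆)⁻¹ := by
    intro n hn u
    rw [eq_inv_iff_mul_eq_one, ← hL _ (N.inv_mem hn) _ hn, inv_mul_cancel, commutatorElement_one_left,
      hl1]
  have hcj : ∀ n ∈ N, ∀ g u, lam ⁅g * n * g⁻¹, u⁆ = lam ⁅n, u⁆ := by
    intro n hn g u
    have e : g * n * g⁻¹ = ⁅n, g⁆⁻¹ * n := by
      simp only [commutatorElement_def]; group
    rw [e, hL _ (N.inv_mem (hXN (hmX n hn g))) _ hn, hC _ (X.inv_mem (hmX n hn g)), one_mul]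
  have hT : ∀ x y z : G, ⁅x, y⁆ ∈ N →
      ⁅⁅x⁻¹, y⁆, z⁆ ∈ X ∧ lam ⁅⁅x⁻¹, y⁆, z⁆ = (lam ⁅⁅x, y⁆, z⁆)⁻¹ := by
    intro x y z h
    have e : ⁅x⁻¹, y⁆ = x⁻¹ * ⁅x, y⁆⁻¹ * x⁻¹⁻¹ := by
      simp only [commutatorElement_def]; group
    rw [e]
    refine ⟨hmX _ (Subgroup.Normal.conj_mem inferInstance _ (N.inv_mem h) _) _, ?_⟩
    rw [hcj _ (N.inv_mem h), hinv _ h]
  refine ⟨fun n u => lam ⁅n, u⁆, hL, hR, hC, ⟨n0, hn0, u0, hnz⟩, ?_, ?_⟩
  · intro g h u h1 h2 h3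
    obtain ⟨a1, b1⟩ := hT g h u h1
    obtain ⟨a2, b2⟩ := hT u g h h3
    obtain ⟨a3, b3⟩ := hT h u g h2
    have key := congrArg lam (exists_nu_aux_hw g h u)
    have c1 := hcen _ (Subgroup.Normal.conj_mem (inferInstance : X.Normal) _ a1 g)
    have c2 := hcen _ (Subgroup.Normal.conj_mem (inferInstance : X.Normal) _ a2 u)
    have c3 := hcen _ (Subgroup.Normal.conj_mem (inferInstance : X.Normal) _ a3 h)
    have c12 : (QuotientGroup.mk' Y (g * ⁅⁅g⁻¹, h⁆, u⁆ * g⁻¹ * (u * ⁅⁅u⁻¹, g⁆, h⁆ * u⁻¹))) ∈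
        Subgroup.center (G ⧸ Y) := by
      rw [map_mul]; exact mul_mem c1 c2
    rw [hlm _ _ c12 c3, hlm _ _ c1 c2, hlc _ _ (hcen _ a1), hlc _ _ (hcen _ a2),
      hlc _ _ (hcen _ a3), b1, b2, b3, hl1] at key
    have key2 : (lam ⁅⁅g, h⁆, u⁆ * lam ⁅⁅h, u⁆, g⁆ * lam ⁅⁅u, g⁆, h⁆)⁻¹ = 1 := by
      rw [← key]
      simp only [mul_inv]
      exact mul_right_comm _ _ _
    exact inv_eq_one.1 key2
  · intro n _ u h
    show lam ⁅n, u⁆ = 1
    rw [h, hl1]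

end Pool.Agent.Helper298
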