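import Pool.Agent.Helper298_KF.Defs
import Pool.Agent.Helper298_KF.L_pairing_bound
import Pool.Agent.Helper298_KF.L_exists_nu
import Pool.Agent.Helper298_KF.L_KF_lemmaR

set_option autoImplicit false
open scoped Classical commutatorElement

namespace Pool.Agent.Helper298







/- TARGET KF.P1.
PROOF.
Suppose N is not central; take nu from exists_nu (N is normal: h.nrm). Let X = [N, top], not trivial since N is not central, X <= N. C = {g : nu n g = 1 for all n in N} is a subgroup (mul_right). pairing_bound with X := G, Q := N, beta g n := nu n g (multiplicative in g by mul_right, in n by mul_left),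
K := X.subgroupOf N (beta g k = 1 by comm_left), L := C: card G <= card C * index of X in N. card X >= 2 so index <= t/2 (index * card X = t): 2 s^2 t <= card C * t, card C >= 2 s^2.
Take u, n with nu n u <> 1 (ne_one). Lemma R with D = C, any i<>j: hD holds by KF.exists_abn and hab. hDD: for d,e in C, hall gives nu [d,e] u * nu [e,u] d * nu [u,d] e = 1 and nu [e,u] d = 1 = nu [u,d] e, as d,e in C and [e,u],[u,d] in N. So nu [d,e] u = 1. So card C <= s t <= s^2 (KF.t_le_s), contradiction with 2 s^2.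
-/
section
variable {G ι : Type} [Group G] [Fintype G] [Fintype ι] {s t : ℕ} {A : ι → Subgroup G}
  {N : Subgroup G}

theorem KF.P1 (h : KF s t A N) {p : ℕ} [Fact p.Prime] (hp : IsPGroup p G) (hf : Fusion A N)
    (hab : ∀ g k : G, ⁅g, k⁆ ∈ N) : N ≤ Subgroup.center G := by
  by_contra hN
  haveI := h.nrm
  obtain ⟨ν, hν⟩ := exists_nu hp N hN
  -- the commutator subgroup
  have hXN : ⁅N, (⊤ : Subgroup G)⁆ ≤ N := Subgroup.commutator_le_left _ _
  have hXne : ∃ x ∈ ⁅N, (⊤ : Subgroup G)⁆, x ≠ 1 := by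
    by_contra hcon
    push Not at hcon
    apply hN
    intro n hn
    rw [Subgroup.mem_center_iff]
    intro g
    have h1 := hcon ⁅n, g⁆ (Subgroup.commutator_mem_commutator hn (Subgroup.mem_top g))
    exact (commutatorElement_eq_one_iff_mul_comm.1 h1).symm
  -- the kernel
  have hone : ∀ n ∈ N, ν n 1 = 1 := by
    intro n hn
    have h1 := hν.mul_right n hn 1 1
    rw [mul_one] at h1
    exact (mul_eq_left.1 h1.symm)
  let C : Subgroup G :=
    { carrier := {g | ∀ n ∈ N, ν n g = 1}
      mul_mem' := by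
        intro a b ha hb n hn
        rw [hν.mul_right n hn, ha n hn, hb n hn, mul_one]
      one_mem' := hone
      inv_mem' := by
        intro a ha n hn
        have h1 := hν.mul_right n hn a⁻¹ a
        rw [inv_mul_cancel, hone n hn, ha n hn, mul_one] at h1
        exact h1.symm }
  have hC : ∀ g ∈ C, ∀ n ∈ N, ν n g = 1 := fun g hg => hg
  have hb := pairing_bound (X := G) (Q := N) (fun g n => ν n.1 g)
    (fun x y q => hν.mul_right q.1 q.2 x y) (fun x q r => hν.mul_left q.1 q.2 r.1 r.2 x)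
    C (⁅N, (⊤ : Subgroup G)⁆.subgroupOf N)
    (fun x k hk => hν.comm_left k.1 (Subgroup.mem_subgroupOf.1 hk) x)
    (fun x hx n hn => hx ⟨n, hn⟩)
  have hcard := Subgroup.card_mul_index (⁅N, (⊤ : Subgroup G)⁆.subgroupOf N)
  have hcN : Nat.card N = t := h.cN
  have h2 : 2 ≤ Nat.card (⁅N, (⊤ : Subgroup G)⁆.subgroupOf N) := by
    have h3 : (⁅N, (⊤ : Subgroup G)⁆.subgroupOf N) ≠ ⊥ := by
      intro h4
      obtain ⟨x, hx, hx1⟩ := hXne
      have h5 : (⟨x, hXN hx⟩ : N) ∈ ⁅N, (⊤ : Subgroup G)⁆.subgroupOf N :=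
        Subgroup.mem_subgroupOf.2 hx
      rw [h4, Subgroup.mem_bot] at h5
      exact hx1 (congrArg Subtype.val h5)
    have h4 := (Subgroup.one_lt_card_iff_ne_bot _).2 h3
    omega
  have hidx : 2 * (⁅N, (⊤ : Subgroup G)⁆.subgroupOf N).index ≤ t := by
    rw [← hcN, ← hcard]
    exact Nat.mul_le_mul_right _ h2
  have hcG : Nat.card G = s ^ 2 * t := h.cG
  rw [hcG] at hb
  have ht := h.ht
  have hs := h.hs
  have h3 : 2 * s ^ 2 ≤ Nat.card C := by
    have h4 : (2 * s ^ 2) * t ≤ Nat.card C * t := by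
      calc (2 * s ^ 2) * t = 2 * (s ^ 2 * t) := by ring
        _ ≤ 2 * (Nat.card C * (⁅N, (⊤ : Subgroup G)⁆.subgroupOf N).index) :=
            Nat.mul_le_mul_left 2 hb
        _ = Nat.card C * (2 * (⁅N, (⊤ : Subgroup G)⁆.subgroupOf N).index) := by ring
        _ ≤ Nat.card C * t := Nat.mul_le_mul_left _ hidx
    exact Nat.le_of_mul_le_mul_right h4 (by omega)
  obtain ⟨n, hn, u, hu⟩ := hν.ne_one
  have hne : Nonempty ι := by
    rw [← Fintype.card_pos_iff, h.cι]
    omega
  obtain ⟨i⟩ := hne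
  obtain ⟨j, hj⟩ := h.exists_ne i
  have h5 : Nat.card C ≤ s * t := by
    refine KF.lemmaR h hf hν u ⟨n, hn, hu⟩ C i j hj.symm ?_ ?_
    · intro d _
      obtain ⟨a, ha, b, hb, n, hn, e⟩ := h.exists_abn hj.symm d
      exact ⟨a, ha, b, hb, n, hn, e, hab a, hab b⟩
    · intro d hd e he
      have h6 := hν.hall d e u (hab _ _) (hab _ _) (hab _ _)
      rw [hC d hd _ (hab _ _), hC e he _ (hab _ _), mul_one, mul_one] at h6
      exact h6
  have h6 : s * t ≤ s * s := Nat.mul_le_mul_left s h.t_le_s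
  have h7 : 0 < s * s := Nat.mul_pos (by omega) (by omega)
  have h8 : s ^ 2 = s * s := sq s
  omega

end

end Pool.Agent.Helper298
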