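import Pool.Agent.Helper298_KF.Defs

set_option autoImplicit false
open scoped Classical commutatorElement

namespace Pool.Agent.Helper298

/- TARGET isIntegral_trace_of_pow.
PROOF.
M satisfies the monic integer polynomial X^(m+1) - X. The trace over C is the sum of the roots of the characteristic polynomial
(Matrix.trace_eq_sum_roots_charpoly); each root mu is an eigenvalue of M (Matrix.mem_spectrum / Module.End.hasEigenvalue_iff_isRoot_charpoly,
or: root of charpoly => root of minpoly, and minpoly divides X^(m+1)-X), hence mu^(m+1) = mu, so mu is integral over Z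
(root of the monic polynomial X^(m+1)-X). A sum of integral elements is integral (IsIntegral.multiset_sum or induction).
-/
theorem isIntegral_trace_of_pow {n : Type} [Fintype n] [DecidableEq n] (M : Matrix n n ℂ) (m : ℕ)
    (hm : 1 ≤ m) (h : M ^ (m + 1) = M) : IsIntegral ℤ M.trace := by
  rw [Matrix.trace_eq_sum_roots_charpoly]
  refine IsIntegral.multiset_sum fun μ hμ => ?_
  have h1 : M.charpoly.IsRoot μ := Polynomial.isRoot_of_mem_roots hμ
  have h2 : μ ∈ spectrum ℂ M := Matrix.mem_spectrum_iff_isRoot_charpoly.2 h1
  have h3 : Polynomial.aeval M (Polynomial.X ^ (m + 1) - Polynomial.X : Polynomial ℂ) = 0 := by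
    simp [h]
  have h4 : Polynomial.eval μ (Polynomial.X ^ (m + 1) - Polynomial.X : Polynomial ℂ) ∈
      spectrum ℂ (Polynomial.aeval M (Polynomial.X ^ (m + 1) - Polynomial.X : Polynomial ℂ)) :=
    spectrum.subset_polynomial_aeval M _ ⟨μ, h2, rfl⟩
  rw [h3] at h4
  have hne : Nonempty n := by
    by_contra hcon
    rw [not_nonempty_iff] at hcon
    have : M.charpoly = 1 := by
      rw [Matrix.charpoly, Matrix.det_isEmpty]
    rw [this] at h1
    simp [Polynomial.IsRoot] at h1
  rw [spectrum.zero_eq, Set.mem_singleton_iff] at h4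
  refine ⟨Polynomial.X ^ (m + 1) - Polynomial.X, ?_, ?_⟩
  · refine Polynomial.monic_X_pow_sub ?_
    rw [Polynomial.degree_X]
    exact_mod_cast Nat.lt_succ_of_le hm
  · simpa using h4

end Pool.Agent.Helper298
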