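import Pool.Agent.Helper298_KF.Defs

set_option autoImplicit false
open scoped Classical commutatorElement

namespace Pool.Agent.Helper298

section
variable {G : Type} [Group G] [Fintype G]

/-- Matrix of left multiplication by `g`. -/
noncomputable def LM (g : G) : Matrix G G ℂ := fun x y => if x = g * y then 1 else 0

/-- Matrix of right multiplication by `w`. -/
noncomputable def RM (w : G) : Matrix G G ℂ := fun x y => if x = y * w then 1 else 0

theorem LM_mul (g h : G) : LM g * LM h = LM (g * h) := by
  ext x y
  rw [Matrix.mul_apply]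
  simp only [LM]
  rw [Finset.sum_eq_single (h * y)]
  · simp [mul_assoc]
  · intro b _ hb
    simp [hb]
  · intro hb
    exact absurd (Finset.mem_univ _) hb

theorem LM_one : LM (1 : G) = 1 := by
  ext x y
  simp [LM, Matrix.one_apply]

theorem RM_mul (v w : G) : RM v * RM w = RM (w * v) := by
  ext x y
  rw [Matrix.mul_apply]
  simp only [RM]
  rw [Finset.sum_eq_single (y * w)]
  · simp [mul_assoc]
  · intro b _ hb
    simp [hb]
  · intro hb
    exact absurd (Finset.mem_univ _) hb

theorem RM_one : RM (1 : G) = 1 := by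
  ext x y
  simp [RM, Matrix.one_apply]

theorem LM_RM_comm (g w : G) : LM g * RM w = RM w * LM g := by
  ext x y
  rw [Matrix.mul_apply, Matrix.mul_apply]
  simp only [LM, RM]
  rw [Finset.sum_eq_single (y * w), Finset.sum_eq_single (g * y)]
  · simp [mul_assoc]
  · intro b _ hb
    simp [hb]
  · intro hb
    exact absurd (Finset.mem_univ _) hb
  · intro b _ hb
    simp [hb]
  · intro hb
    exact absurd (Finset.mem_univ _) hb

theorem RM_pow (w : G) (m : ℕ) : RM w ^ m = RM (w ^ m) := by
  induction m with
  | zero => simp [RM_one]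
  | succ m ih => rw [pow_succ, ih, RM_mul, pow_succ']

theorem trace_LM_RM (g w : G) :
    (LM g * RM w).trace = ((Finset.univ.filter (fun x : G => g * x * w = x)).card : ℂ) := by
  rw [Matrix.trace]
  have h1 : ∀ x : G, (LM g * RM w).diag x = if g * x * w = x then 1 else 0 := by
    intro x
    rw [Matrix.diag_apply, Matrix.mul_apply]
    simp only [LM, RM]
    rw [Finset.sum_eq_single (x * w)]
    · by_cases hx : g * x * w = x
      · simp [mul_assoc] at hx ⊢
        simp [hx]
      · have : ¬ (x = g * (x * w)) := by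
          intro e; apply hx; rw [mul_assoc]; exact e.symm
        simp [hx, this]
    · intro b _ hb
      simp [hb]
    · intro hb
      exact absurd (Finset.mem_univ _) hb
  rw [Finset.sum_congr rfl (fun x _ => h1 x), Finset.sum_boole]

end

section
variable {G ι : Type} [Group G] [Fintype G] [Fintype ι] {s t : ℕ} {A : ι → Subgroup G}
  {N : Subgroup G}

/-- The sum of all elements of all components, as a matrix. -/
noncomputable def SM (A : ι → Subgroup G) : Matrix G G ℂ := ∑ i, ∑ a : A i, LM (a : G)

theorem sum_subgroup_mul {M : Type*} [AddCommMonoid M] (B : Subgroup G) (F : G → M) :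
    ∑ a : B, ∑ b : B, F (a * b) = (Nat.card B) • ∑ b : B, F b := by
  have h1 : ∀ a : B, ∑ b : B, F (a * b) = ∑ b : B, F b := by
    intro a
    have := Equiv.sum_comp (Equiv.mulLeft a) (fun b : B => F b)
    simpa using this
  rw [Finset.sum_congr rfl (fun a _ => h1 a), Finset.sum_const, Finset.card_univ,
    Nat.card_eq_fintype_card]

theorem KF.sum_all {M : Type*} [AddCommMonoid M] (h : KF s t A N) (F : G → M) :
    (t + 1) • (∑ g, F g) + (s + t) • (∑ i, ∑ a : A i, F a) =
      (∑ i, ∑ a : A i, ∑ n : N, F (a * n)) +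
      ∑ i, ∑ j, ∑ a : A i, ∑ b : A j, F (a * b) := by
  have h1 : ∀ i, ∑ g, F g + (s + t) • ∑ a : A i, F a = (∑ a : A i, ∑ n : N, F (a * n)) +
      ∑ j, ∑ a : A i, ∑ b : A j, F (a * b) := by
    intro i
    rw [← Finset.sum_erase_add Finset.univ _ (Finset.mem_univ i), sum_subgroup_mul, h.cA i,
      ← add_assoc, ← h.sum_formula i F, add_smul, add_assoc, add_comm (s • _)]
  have h2 := Finset.sum_congr (rfl : (Finset.univ : Finset ι) = Finset.univ) (fun i _ => h1 i)
  rw [Finset.sum_add_distrib, Finset.sum_add_distrib, Finset.sum_const, Finset.card_univ, h.cι,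
    ← Finset.smul_sum] at h2
  exact h2

/-- The square of the sum of all elements of all components. -/
theorem KF.SM_sq (h : KF s t A N) :
    SM A * SM A + ∑ i, ∑ a : A i, ∑ n : N, LM ((a : G) * n) =
      (s + t) • SM A + (t + 1) • ∑ g : G, LM g := by
  have h1 := h.sum_all (fun g => LM g)
  have h2 : SM A * SM A = ∑ i, ∑ j, ∑ a : A i, ∑ b : A j, LM ((a : G) * b) := by
    rw [SM, Finset.sum_mul_sum]
    refine Finset.sum_congr rfl (fun i _ => Finset.sum_congr rfl (fun j _ => ?_))
    rw [Finset.sum_mul_sum]
    refine Finset.sum_congr rfl (fun a _ => Finset.sum_congr rfl (fun b _ => ?_))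
    rw [LM_mul]
  rw [h2, add_comm, ← h1, add_comm, SM]

end

end Pool.Agent.Helper298
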