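import Pool.Agent.Helper298_KF.Defs
import Pool.Agent.Helper298_KF.Mat
import Pool.Agent.Helper298_KF.L_isIntegral_trace_of_pow

set_option autoImplicit false
open scoped Classical commutatorElement

namespace Pool.Agent.Helper298



/- TARGET KF.benson.
PROOF.
See Helper298_KF/Mat.lean: LM, RM (left and right multiplication matrices), trace_LM_RM, SM, KF.SM_sq. Let S = SM A, Nh = sum of LM n over n in N, Gh = sum of LM g over G, T = sum_i sum_{a in A i} sum_{n in N} LM(a n) = S * Nh.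
KF.SM_sq: S*S + T = (s+t) S + (t+1) Gh. Nh commutes with every LM g (N normal, reindex the sum by conjugation), so with S; Nh*Nh = t Nh; Gh*Nh = t Gh. Let E0 = t S - T = S (t - Nh). Then
E0*E0 = S*S*(t-Nh)*(t-Nh) = S*S * t (t-Nh) = t((s+t) S - S Nh + (t+1) Gh)(t-Nh) = t (s+t) S (t-Nh) = t (s+t) E0, as Nh(t-Nh) = 0 and Gh(t-Nh) = 0.
So E = E0 / (t (s+t)) is idempotent. Let M = E * RM (g^-1) (or RM g, adapt); E commutes with RM (LM_RM_comm), so M^(m+1) = E * RM(g^-1)^(m+1) = M for m = orderOf g >= 1 (RM_pow). By isIntegral_trace_of_pow the trace of M is integral over Z.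
trace M = (1/(t(s+t))) ( t * sum_i sum_{a in A i} #{x : a x g^-1 = x} - sum_i sum_a sum_n #{x : a n x g^-1 = x} ), and a x g^-1 = x iff a = x g x^-1, so sum_{a in A i} #{x : a x g^-1 = x} = #{x : x g x^-1 in A i} =: L_i, and likewise
sum_{a,n} #{x : a n x g^-1 = x} = #{x : x g x^-1 = a n for some a, n} =: F_i ((a,n) is unique: A i meet N = 1). So trace M is the rational number (t L - F)/(t(s+t)), L = sum L_i, F = sum F_i. A rational number integral over Z is an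
integer k (IsIntegrallyClosed Z / IsIntegrallyClosed.isIntegral_iff, after moving from C to Q: the algebra map Q -> C is injective, isIntegral_algHom_iff or IsIntegral.tower_bot style). So t L - F = (s+t) t k.
-/
section
variable {G ι : Type} [Group G] [Fintype G] [Fintype ι] {s t : ℕ} {A : ι → Subgroup G}
  {N : Subgroup G}

theorem KF.benson_aux_comm (h : KF s t A N) (g : G) :
    LM g * (∑ n : N, LM (n : G)) = (∑ n : N, LM (n : G)) * LM g := by
  have hN := h.nrm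
  rw [Finset.mul_sum, Finset.sum_mul]
  simp_rw [LM_mul]
  have h1 := Equiv.sum_comp (MulAut.conjNormal g : MulAut N).toEquiv (fun n : N => LM ((n : G) * g))
  rw [← h1]
  refine Finset.sum_congr rfl fun n _ => ?_
  congr 1
  show g * (n : G) = ((MulAut.conjNormal g : MulAut N) n : G) * g
  rw [MulAut.conjNormal_apply]
  group

theorem KF.benson_aux_SN (h : KF s t A N) :
    SM A * (∑ n : N, LM (n : G)) = (∑ n : N, LM (n : G)) * SM A := by
  rw [SM, Finset.sum_mul, Finset.mul_sum]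
  refine Finset.sum_congr rfl fun i _ => ?_
  rw [Finset.sum_mul, Finset.mul_sum]
  exact Finset.sum_congr rfl fun a _ => h.benson_aux_comm _

theorem KF.benson_aux_T :
    (∑ i, ∑ a : A i, ∑ n : N, LM ((a : G) * n)) = SM A * (∑ n : N, LM (n : G)) := by
  rw [SM, Finset.sum_mul]
  refine Finset.sum_congr rfl fun i _ => ?_
  rw [Finset.sum_mul]
  refine Finset.sum_congr rfl fun a _ => ?_
  rw [Finset.mul_sum]
  exact Finset.sum_congr rfl fun n _ => (LM_mul _ _).symm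

theorem KF.benson_aux_NN (h : KF s t A N) :
    (∑ n : N, LM (n : G)) * (∑ n : N, LM (n : G)) = (t : ℂ) • (∑ n : N, LM (n : G)) := by
  rw [Finset.sum_mul_sum]
  simp_rw [LM_mul]
  rw [sum_subgroup_mul N (fun g => LM g), h.cN]
  exact (Nat.cast_smul_eq_nsmul ℂ t _).symm

theorem KF.benson_aux_GN (h : KF s t A N) :
    (∑ g : G, LM g) * (∑ n : N, LM (n : G)) = (t : ℂ) • (∑ g : G, LM g) := by
  rw [Finset.sum_mul_sum, Finset.sum_comm]
  simp_rw [LM_mul]
  have h1 : ∀ n : N, ∑ g : G, LM (g * (n : G)) = ∑ g : G, LM g := fun n => by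
    have := Equiv.sum_comp (Equiv.mulRight (n : G)) (fun g : G => LM g)
    simpa using this
  rw [Finset.sum_congr rfl (fun n _ => h1 n), Finset.sum_const, Finset.card_univ, h.card_N]
  exact (Nat.cast_smul_eq_nsmul ℂ t _).symm

theorem KF.benson_aux_cnt {P : Type} [Fintype P] (f : P → G) (hf : Function.Injective f) (g : G) :
    ∑ p : P, ((Finset.univ.filter (fun x : G => f p * x * g⁻¹ = x)).card : ℂ) =
      ((Finset.univ.filter (fun x : G => ∃ p, x * g * x⁻¹ = f p)).card : ℂ) := by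
  have hiff : ∀ (p : P) (x : G), f p * x * g⁻¹ = x ↔ x * g * x⁻¹ = f p := by
    intro p x
    rw [mul_inv_eq_iff_eq_mul, mul_inv_eq_iff_eq_mul]
    exact eq_comm
  have h1 : ∑ p : P, (Finset.univ.filter (fun x : G => f p * x * g⁻¹ = x)).card =
      (Finset.univ.filter (fun x : G => ∃ p, x * g * x⁻¹ = f p)).card := by
    rw [← Finset.card_biUnion]
    · congr 1
      ext x
      simp only [Finset.mem_biUnion, Finset.mem_univ, true_and, Finset.mem_filter, hiff]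
    · intro p _ q _ hpq
      refine Finset.disjoint_left.2 fun x hx hx' => hpq (hf ?_)
      rw [← (hiff p x).1 (Finset.mem_filter.1 hx).2, ← (hiff q x).1 (Finset.mem_filter.1 hx').2]
  rw [← h1]
  push_cast
  rfl

theorem KF.benson_aux_alg (h : KF s t A N) (E0 : Matrix G G ℂ)
    (hE : E0 = (t : ℂ) • SM A - SM A * (∑ n : N, LM (n : G))) :
    E0 * E0 = ((t : ℂ) * (s + t)) • E0 := by
  obtain ⟨S, hS⟩ : ∃ S, S = SM A := ⟨_, rfl⟩
  obtain ⟨Nh, hNh⟩ : ∃ Nh : Matrix G G ℂ, Nh = ∑ n : N, LM (n : G) := ⟨_, rfl⟩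
  obtain ⟨Gh, hGh⟩ : ∃ Gh : Matrix G G ℂ, Gh = ∑ g : G, LM g := ⟨_, rfl⟩
  have h1 := h.SM_sq
  rw [KF.benson_aux_T, ← hS, ← hNh, ← hGh] at h1
  have h2 := h.benson_aux_SN
  have h3 := h.benson_aux_NN
  have h4 := h.benson_aux_GN
  rw [← hS, ← hNh] at h2
  rw [← hNh] at h3
  rw [← hGh, ← hNh] at h4
  rw [← hS, ← hNh] at hE
  have h5 : S * S = ((s : ℂ) + t) • S + ((t : ℂ) + 1) • Gh - S * Nh := by
    rw [eq_sub_iff_add_eq, h1, ← Nat.cast_smul_eq_nsmul ℂ, ← Nat.cast_smul_eq_nsmul ℂ]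
    push_cast
    rfl
  -- `D = t - Nh`
  have h6 : S * S * ((t : ℂ) • (1 : Matrix G G ℂ) - Nh) =
      ((s : ℂ) + t) • (S * ((t : ℂ) • (1 : Matrix G G ℂ) - Nh)) := by
    rw [h5]
    simp only [mul_sub, sub_mul, add_mul, Matrix.mul_smul, Matrix.smul_mul, mul_one, mul_assoc, h3, h4]
    module
  have h7 : ((t : ℂ) • (1 : Matrix G G ℂ) - Nh) * ((t : ℂ) • (1 : Matrix G G ℂ) - Nh) =
      (t : ℂ) • ((t : ℂ) • (1 : Matrix G G ℂ) - Nh) := by
    simp only [mul_sub, sub_mul, Matrix.mul_smul, Matrix.smul_mul, mul_one, one_mul, h3]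
    simp only [smul_sub, smul_smul]
    abel
  have h8 : ((t : ℂ) • (1 : Matrix G G ℂ) - Nh) * S = S * ((t : ℂ) • (1 : Matrix G G ℂ) - Nh) := by
    simp only [mul_sub, sub_mul, Matrix.mul_smul, Matrix.smul_mul, mul_one, one_mul, h2]
  have h9 : E0 = S * ((t : ℂ) • (1 : Matrix G G ℂ) - Nh) := by
    rw [hE, mul_sub, Matrix.mul_smul, mul_one]
  rw [h9]
  calc S * ((t : ℂ) • (1 : Matrix G G ℂ) - Nh) * (S * ((t : ℂ) • (1 : Matrix G G ℂ) - Nh))
      = S * (((t : ℂ) • (1 : Matrix G G ℂ) - Nh) * S) * ((t : ℂ) • (1 : Matrix G G ℂ) - Nh) := by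
        simp only [mul_assoc]
    _ = S * S * (((t : ℂ) • (1 : Matrix G G ℂ) - Nh) * ((t : ℂ) • (1 : Matrix G G ℂ) - Nh)) := by
        rw [h8]; simp only [mul_assoc]
    _ = (t : ℂ) • (S * S * ((t : ℂ) • (1 : Matrix G G ℂ) - Nh)) := by
        rw [h7, Matrix.mul_smul]
    _ = _ := by rw [h6, smul_smul]

theorem KF.benson (h : KF s t A N) (g : G) : ∃ k : ℤ,
    (t : ℤ) * (∑ i, ((Finset.univ.filter (fun x : G => x * g * x⁻¹ ∈ A i)).card : ℤ)) -
      ∑ i, ((Finset.univ.filter (fun x : G => ∃ a ∈ A i, ∃ n ∈ N, x * g * x⁻¹ = a * n)).card : ℤ) =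
      ((s : ℤ) + t) * t * k := by
  obtain ⟨w, hw⟩ : ∃ w : G, w = g⁻¹ := ⟨_, rfl⟩
  obtain ⟨E0, hE0⟩ : ∃ E0 : Matrix G G ℂ, E0 = (t : ℂ) • SM A - SM A * (∑ n : N, LM (n : G)) := ⟨_, rfl⟩
  have halg := h.benson_aux_alg E0 hE0
  have ht0 : (t : ℂ) ≠ 0 := by
    have := h.ht
    exact_mod_cast (by omega : t ≠ 0)
  have hst0 : (s : ℂ) + t ≠ 0 := by
    have := h.ht
    exact_mod_cast (by omega : s + t ≠ 0)
  obtain ⟨c, hc⟩ : ∃ c : ℂ, c = (t : ℂ) * (s + t) := ⟨_, rfl⟩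
  have hc0 : c ≠ 0 := by rw [hc]; exact mul_ne_zero ht0 hst0
  rw [← hc] at halg
  obtain ⟨E, hE⟩ : ∃ E : Matrix G G ℂ, E = c⁻¹ • E0 := ⟨_, rfl⟩
  have hidem : IsIdempotentElem E := by
    unfold IsIdempotentElem
    rw [hE, Matrix.smul_mul, Matrix.mul_smul, halg, smul_smul c⁻¹ c, inv_mul_cancel₀ hc0, one_smul]
  -- commutation with right multiplication
  have hLc : ∀ a : G, Commute (LM a) (RM w) := fun a => LM_RM_comm a w
  have hSc : Commute (SM A) (RM w) := by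
    rw [SM]
    exact Commute.sum_left _ _ _ fun i _ => Commute.sum_left _ _ _ fun a _ => hLc _
  have hNc : Commute (∑ n : N, LM (n : G)) (RM w) := Commute.sum_left _ _ _ fun n _ => hLc _
  have hEc : Commute E (RM w) := by
    rw [hE, hE0]
    exact ((hSc.smul_left _).sub_left (hSc.mul_left hNc)).smul_left _
  have hm : 1 ≤ orderOf w := orderOf_pos w
  have hpow : (E * RM w) ^ (orderOf w + 1) = E * RM w := by
    rw [hEc.mul_pow, hidem.pow_succ_eq, RM_pow, pow_succ, pow_orderOf_eq_one, one_mul]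
  have hint := isIntegral_trace_of_pow (E * RM w) (orderOf w) hm hpow
  -- the trace
  have hinjA : ∀ i, Function.Injective (fun a : A i => (a : G)) := fun i => Subtype.val_injective
  have hinjAN : ∀ i, Function.Injective (fun p : A i × N => (p.1 : G) * p.2) := by
    rintro i ⟨⟨a, ha⟩, ⟨n, hn⟩⟩ ⟨⟨a', ha'⟩, ⟨n', hn'⟩⟩ e
    simp only at e
    have e1 : a'⁻¹ * a = n' * n⁻¹ := by
      rw [inv_mul_eq_iff_eq_mul, ← mul_assoc, ← e]; group
    have e2 : a'⁻¹ * a = 1 := by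
      apply h.AN ((A i).mul_mem ((A i).inv_mem ha') ha)
      rw [e1]; exact N.mul_mem hn' (N.inv_mem hn)
    have e3 : a' = a := by rwa [inv_mul_eq_one] at e2
    subst e3
    have e4 : n = n' := mul_left_cancel e
    subst e4
    rfl
  obtain ⟨L, hL⟩ : ∃ L : ι → ℤ, L = fun i => ((Finset.univ.filter (fun x : G => x * g * x⁻¹ ∈ A i)).card : ℤ) :=
    ⟨_, rfl⟩
  obtain ⟨F, hF⟩ : ∃ F : ι → ℤ, F = fun i =>
      ((Finset.univ.filter (fun x : G => ∃ a ∈ A i, ∃ n ∈ N, x * g * x⁻¹ = a * n)).card : ℤ) := ⟨_, rfl⟩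
  have htS : (SM A * RM w).trace = ((∑ i, L i : ℤ) : ℂ) := by
    rw [SM, Finset.sum_mul, Matrix.trace_sum]
    push_cast
    refine Finset.sum_congr rfl fun i _ => ?_
    rw [Finset.sum_mul, Matrix.trace_sum]
    simp_rw [trace_LM_RM, hw]
    rw [KF.benson_aux_cnt (fun a : A i => (a : G)) (hinjA i) g, hL]
    push_cast
    congr 2
    ext x
    simp
  have htT : (SM A * (∑ n : N, LM (n : G)) * RM w).trace = ((∑ i, F i : ℤ) : ℂ) := by
    rw [← KF.benson_aux_T, Finset.sum_mul, Matrix.trace_sum]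
    push_cast
    refine Finset.sum_congr rfl fun i _ => ?_
    have e1 : (∑ a : A i, ∑ n : N, LM ((a : G) * n)) = ∑ p : A i × N, LM ((p.1 : G) * p.2) := by
      rw [Fintype.sum_prod_type]
    rw [e1, Finset.sum_mul, Matrix.trace_sum]
    simp_rw [trace_LM_RM, hw]
    rw [KF.benson_aux_cnt (fun p : A i × N => (p.1 : G) * p.2) (hinjAN i) g, hF]
    push_cast
    congr 2
    ext x
    simp
  have htr : (E * RM w).trace = ((((t : ℚ) * ((∑ i, L i : ℤ) : ℚ) - ((∑ i, F i : ℤ) : ℚ)) / (t * (s + t)) : ℚ) : ℂ) := by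
    rw [hE, hE0, Matrix.smul_mul, Matrix.trace_smul, sub_mul, Matrix.trace_sub, Matrix.smul_mul,
      Matrix.trace_smul, htS, htT, hc]
    push_cast
    simp only [smul_eq_mul]
    rw [div_eq_inv_mul]
  rw [htr] at hint
  have hint' : IsIntegral ℤ (((t : ℚ) * ((∑ i, L i : ℤ) : ℚ) - ((∑ i, F i : ℤ) : ℚ)) / (t * (s + t)) : ℚ) :=
    (isIntegral_algebraMap_iff (A := ℚ) (B := ℂ) (algebraMap ℚ ℂ).injective).1 hint
  obtain ⟨k, hk⟩ := IsIntegrallyClosed.isIntegral_iff.1 hint'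
  refine ⟨k, ?_⟩
  have hden : ((t : ℚ) * (s + t)) ≠ 0 := by
    have := h.ht
    exact_mod_cast (by positivity : t * (s + t) ≠ 0)
  rw [eq_div_iff hden] at hk
  have hk' : ((k : ℤ) : ℚ) * ((t : ℚ) * (s + t)) = (t : ℚ) * ((∑ i, L i : ℤ) : ℚ) - ((∑ i, F i : ℤ) : ℚ) := hk
  have hk'' : k * ((t : ℤ) * (s + t)) = (t : ℤ) * (∑ i, L i) - ∑ i, F i := by exact_mod_cast hk'
  rw [hL, hF] at hk''
  rw [← hk'']
  ring

end

end Pool.Agent.Helper298
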