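import Pool.Agent.Helper298_KF.Defs
import Pool.Agent.Helper298_KF.L_KF_benson

set_option autoImplicit false
open scoped Classical commutatorElement

namespace Pool.Agent.Helper298



/- TARGET KF.dvd.
PROOF.
Apply KF.benson to an element g in N, g<>1 (card N = t > 1). N is normal, so no conjugate of g lies in A i (KF.AN would give it is 1), so the first sum is 0; every conjugate x g x^-1 is in N so it equals 1 * n, so each filter in the second sum is univ and the
second sum is (t+1) card G = (t+1) s^2 t. So -(t+1) s^2 t = (s+t) t k, so (s+t) divides (t+1)s^2 (t>0, cancel t; Int to Nat divisibility).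
-/
section
variable {G ι : Type} [Group G] [Fintype G] [Fintype ι] {s t : ℕ} {A : ι → Subgroup G}
  {N : Subgroup G}

theorem KF.dvd (h : KF s t A N) : (s + t) ∣ (t + 1) * s ^ 2 := by
  have hN := h.nrm
  have ht := h.ht
  -- a nontrivial element of `N`
  have hnt : ∃ g ∈ N, g ≠ 1 := by
    by_contra hc
    push Not at hc
    have h1 : N = ⊥ := by
      rw [Subgroup.eq_bot_iff_forall]
      exact hc
    have h2 := h.cN
    rw [h1, Subgroup.card_bot] at h2
    omega
  obtain ⟨g, hg, hg1⟩ := hnt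
  have hconj : ∀ x : G, x * g * x⁻¹ ∈ N := fun x => hN.conj_mem g hg x
  have hne : ∀ x : G, x * g * x⁻¹ ≠ 1 := fun x hx => hg1 (conj_eq_one_iff.1 hx)
  obtain ⟨k, hk⟩ := h.benson g
  have e1 : ∀ i, (Finset.univ.filter (fun x : G => x * g * x⁻¹ ∈ A i)).card = 0 := by
    intro i
    rw [Finset.card_eq_zero, Finset.filter_eq_empty_iff]
    intro x _ hx
    exact hne x (h.AN hx (hconj x))
  have e2 : ∀ i, (Finset.univ.filter
      (fun x : G => ∃ a ∈ A i, ∃ n ∈ N, x * g * x⁻¹ = a * n)).card = s ^ 2 * t := by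
    intro i
    rw [Finset.filter_true_of_mem, Finset.card_univ, ← Nat.card_eq_fintype_card, h.cG]
    intro x _
    exact ⟨1, (A i).one_mem, _, hconj x, by rw [one_mul]⟩
  simp only [e1, e2, Finset.sum_const, Finset.card_univ, h.cι, nsmul_eq_mul, Nat.cast_zero,
    mul_zero, zero_sub] at hk
  have ht0 : (t : ℤ) ≠ 0 := by
    have : (0 : ℤ) < t := by exact_mod_cast (by omega : 0 < t)
    exact this.ne'
  have h3 : (t : ℤ) * (((t : ℤ) + 1) * (s : ℤ) ^ 2) = (t : ℤ) * (((s : ℤ) + t) * (-k)) := by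
    push_cast at hk
    linarith
  have h4 : ((t : ℤ) + 1) * (s : ℤ) ^ 2 = ((s : ℤ) + t) * (-k) := mul_left_cancel₀ ht0 h3
  have h5 : ((s + t : ℕ) : ℤ) ∣ (((t + 1) * s ^ 2 : ℕ) : ℤ) := by
    push_cast
    exact ⟨-k, h4⟩
  exact_mod_cast h5

end

end Pool.Agent.Helper298
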