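import Pool.Agent.Helper298_KF.Defs
import Pool.Agent.Helper298_KF.L_KF_benson

set_option autoImplicit false
open scoped Classical commutatorElement

namespace Pool.Agent.Helper298



/- TARGET KF.conj_an.
PROOF.
Let g0 = a n. Every conjugate x g0 x^-1 = (x a x^-1)(x n x^-1) lies in A i N by hc and normality. It does not lie in A j N for j<>i: otherwise b m = b' m' with b in A i, b' in A j gives (KF.ANAN) b = 1, so x a n x^-1 in N, so a in N, a = 1 (KF.AN). So in KF.benson for g0 the second sum is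
card G = s^2 t (only the index i contributes, the filter is univ). If no conjugate of g0 lies in A i then, as conjugates lie in A i N minus N-ish and A j meet A i N = 1 for j<>i (k2) and g0<>1, no conjugate lies in any A j, the first sum is 0, and
-(s^2 t) = (s+t) t k, so (s+t) divides s^2, contradicting hnd.
-/
section
variable {G ι : Type} [Group G] [Fintype G] [Fintype ι] {s t : ℕ} {A : ι → Subgroup G}
  {N : Subgroup G}

theorem KF.conj_an (h : KF s t A N) (hnd : ¬ (s + t) ∣ s ^ 2) {i : ι} {a : G} (ha : a ∈ A i)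
    (ha1 : a ≠ 1) (hc : ∀ g : G, ∃ b ∈ A i, ∃ n ∈ N, g * a * g⁻¹ = b * n) {n : G} (hn : n ∈ N) :
    ∃ g : G, g * (a * n) * g⁻¹ ∈ A i := by
  by_contra hcon
  push Not at hcon
  have hN := h.nrm
  have hg0 : a * n ≠ 1 := by
    intro h0
    apply ha1
    apply h.AN ha
    rw [eq_inv_of_mul_eq_one_left h0]
    exact N.inv_mem hn
  have hrep : ∀ x : G, ∃ b ∈ A i, ∃ m ∈ N, x * (a * n) * x⁻¹ = b * m := by
    intro x
    obtain ⟨b, hb, m, hm, e⟩ := hc x
    refine ⟨b, hb, m * (x * n * x⁻¹), N.mul_mem hm (hN.conj_mem n hn x), ?_⟩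
    rw [← mul_assoc b m, ← e]
    group
  obtain ⟨k, hk⟩ := h.benson (a * n)
  have h1 : ∀ j, ((Finset.univ.filter (fun x : G => x * (a * n) * x⁻¹ ∈ A j)).card : ℤ) = 0 := by
    intro j
    rw [Nat.cast_eq_zero, Finset.card_eq_zero, Finset.filter_eq_empty_iff]
    intro x _ hx
    rcases eq_or_ne i j with rfl | hij
    · exact hcon x hx
    · obtain ⟨b, hb, m, hm, e⟩ := hrep x
      rw [e] at hx
      have h2 := h.k2 i j hij b hb m hm hx
      rw [← e, conj_eq_one_iff] at h2
      exact hg0 h2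
  have h2 : ∀ j, ((Finset.univ.filter (fun x : G => ∃ a' ∈ A j, ∃ n' ∈ N,
      x * (a * n) * x⁻¹ = a' * n')).card : ℤ) = if j = i then ((s : ℤ) ^ 2 * t) else 0 := by
    intro j
    split_ifs with hj
    · subst hj
      rw [Finset.filter_true_of_mem (fun x _ => hrep x), Finset.card_univ, h.card_G]
      push_cast
      ring
    · rw [Nat.cast_eq_zero, Finset.card_eq_zero, Finset.filter_eq_empty_iff]
      rintro x _ ⟨a', ha', n', hn', e⟩
      exact ha1 (h.conj_ANAN (Ne.symm hj) ha ha' hn hn' e).1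
  simp only [h1, h2, Finset.sum_const_zero, Finset.sum_ite_eq', Finset.mem_univ, if_true,
    mul_zero, zero_sub] at hk
  have ht0 : (t : ℤ) ≠ 0 := by
    have := h.ht
    omega
  apply hnd
  have h3 : ((s + t : ℕ) : ℤ) ∣ ((s ^ 2 : ℕ) : ℤ) := by
    refine ⟨-k, ?_⟩
    apply mul_right_cancel₀ ht0
    push_cast
    linear_combination -hk
  exact_mod_cast h3

end

end Pool.Agent.Helper298
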