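import Pool.Agent.Helper298_KF.Defs
import Pool.Agent.Helper298_KF.L_KF_conj_an

set_option autoImplicit false
open scoped Classical commutatorElement

namespace Pool.Agent.Helper298



/- TARGET KF.fusion.
PROOF.
Let a in A i, a<>1 with all [a,g] in N, and n in N. For all g: g a g^-1 = a (a^-1 g a g^-1) and a^-1 g a g^-1 = a^-1 [g,a] a in N ([g,a] = [a,g]^-1), so hc of KF.conj_an holds. Apply it to a and the element m of N: there is g with g (a m) g^-1 =: b in A i. Now b = (g a g^-1)(g m g^-1) = a n1 with n1 in N, so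
a^-1 b in A i meet N = 1 and b = a: g a m g^-1 = a, so g^-1 a g = a m, i.e. every a m (m in N) is a conjugate of a. [a, g^-1] = a g^-1 a^-1 g = a (g^-1 a g)^-1 = a m^-1 a^-1. Given n choose m = a^-1 n^-1 a, in N.
-/
section
variable {G ι : Type} [Group G] [Fintype G] [Fintype ι] {s t : ℕ} {A : ι → Subgroup G}
  {N : Subgroup G}

theorem KF.fusion (h : KF s t A N) (hnd : ¬ (s + t) ∣ s ^ 2) : Fusion A N := by
  intro i a ha ha1 hcomm n hn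
  have hn1 : ∀ g : G, a⁻¹ * (g * a * g⁻¹) ∈ N := by
    intro g
    have h1 : ⁅g, a⁆ ∈ N := by
      rw [← commutatorElement_inv]
      exact N.inv_mem (hcomm g)
    have h2 := h.nrm.conj_mem _ h1 a⁻¹
    have e : a⁻¹ * ⁅g, a⁆ * a⁻¹⁻¹ = a⁻¹ * (g * a * g⁻¹) := by
      rw [commutatorElement_def]; group
    rwa [e] at h2
  have hc : ∀ g : G, ∃ b ∈ A i, ∃ n ∈ N, g * a * g⁻¹ = b * n := fun g =>
    ⟨a, ha, _, hn1 g, by group⟩
  have hm : a⁻¹ * n⁻¹ * a⁻¹⁻¹ ∈ N := h.nrm.conj_mem _ (N.inv_mem hn) a⁻¹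
  obtain ⟨g, hg⟩ := KF.conj_an h hnd ha ha1 hc hm
  have h3 : a⁻¹ * (g * (a * (a⁻¹ * n⁻¹ * a⁻¹⁻¹)) * g⁻¹) ∈ N := by
    have h4 := h.nrm.conj_mem _ hm g
    have h5 := N.mul_mem (hn1 g) h4
    have e : a⁻¹ * (g * a * g⁻¹) * (g * (a⁻¹ * n⁻¹ * a⁻¹⁻¹) * g⁻¹) =
        a⁻¹ * (g * (a * (a⁻¹ * n⁻¹ * a⁻¹⁻¹)) * g⁻¹) := by group
    rwa [e] at h5
  have h6 := h.AN ((A i).mul_mem ((A i).inv_mem ha) hg) h3
  rw [inv_mul_eq_one] at h6
  -- `h6 : a = g * (a * m) * g⁻¹`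
  refine ⟨g⁻¹, ?_⟩
  have h7 : g⁻¹ * a * g = a * (a⁻¹ * n⁻¹ * a⁻¹⁻¹) := by
    conv_lhs => rw [h6]
    group
  have h8 : ⁅a, g⁻¹⁆ = a * (g⁻¹ * a * g)⁻¹ := by
    rw [commutatorElement_def]; group
  rw [h8, h7]
  group


end

end Pool.Agent.Helper298
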