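import Pool.Agent.Helper298_KF.Defs

set_option autoImplicit false
open scoped Classical commutatorElement

namespace Pool.Agent.Helper298

section
variable {G ι : Type} [Group G] [Fintype G] [Fintype ι] {s t : ℕ} {A : ι → Subgroup G}
  {N : Subgroup G}

/-- The number of elements of a subgroup containing enough components. -/
theorem KF.t_pow_aux1 (h : KF s t A N) (P : Subgroup G) (i0 : ι) (hi0 : A i0 ≤ P) (q : ℕ)
    (hP : Nat.card P = s ^ 2 * q) (hN : q ≤ Nat.card (P ⊓ N : Subgroup G))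
    (hI : q + 1 ≤ (Finset.univ.filter (fun i => A i ≤ P)).card) :
    (Finset.univ.filter (fun i => A i ≤ P)).card = q + 1 ∧
      ∀ x ∈ P, (∃ a ∈ A i0, ∃ n ∈ N, x = a * n) ∨
        ∃ j, j ≠ i0 ∧ A j ≤ P ∧ ∃ a ∈ A i0, ∃ b ∈ A j, b ≠ 1 ∧ x = a * b := by
  set I := Finset.univ.filter (fun i => A i ≤ P) with hIdef
  have hi0I : i0 ∈ I := by simp [hIdef, hi0]
  let D := ((j : {j : ι // j ≠ i0 ∧ A j ≤ P}) × (A i0 × {b : A j.1 // b ≠ 1})) ⊕
    (A i0 × (P ⊓ N : Subgroup G))
  let f : D → P := fun x => match x with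
    | Sum.inl ⟨j, a, b⟩ => ⟨a.1 * b.1.1, P.mul_mem (hi0 a.2) (j.2.2 b.1.2)⟩
    | Sum.inr (a, n) => ⟨a.1 * n.1, P.mul_mem (hi0 a.2) n.2.1⟩
  have hf : Function.Injective f := by
    rintro (⟨⟨j, hj, hjP⟩, ⟨a, ha⟩, ⟨⟨b, hb⟩, hb1⟩⟩ | ⟨⟨a, ha⟩, ⟨n, hn⟩⟩)
      (⟨⟨j', hj', hjP'⟩, ⟨a', ha'⟩, ⟨⟨b', hb'⟩, hb1'⟩⟩ | ⟨⟨a', ha'⟩, ⟨n', hn'⟩⟩) e
    · have e' : a * b = a' * b' := congrArg Subtype.val e
      have hb0 : b ≠ 1 := fun h0 => hb1 (Subtype.ext h0)
      have hb0' : b' ≠ 1 := fun h0 => hb1' (Subtype.ext h0)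
      obtain ⟨rfl, rfl, rfl⟩ := h.cover_unique hj hj' ha hb hb0 ha' hb' hb0' e'
      rfl
    · exfalso
      have e' : a * b = a' * n' := congrArg Subtype.val e
      have hb0 : b ≠ 1 := fun h0 => hb1 (Subtype.ext h0)
      exact h.ab_notin hj ha hb hb0 ha' hn'.2 e'
    · exfalso
      have e' : a * n = a' * b' := congrArg Subtype.val e
      have hb0' : b' ≠ 1 := fun h0 => hb1' (Subtype.ext h0)
      exact h.ab_notin hj' ha' hb' hb0' ha hn.2 e'.symm
    · have e' : a * n = a' * n' := congrArg Subtype.val e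
      have e1 : a'⁻¹ * a = n' * n⁻¹ := by
        rw [inv_mul_eq_iff_eq_mul, ← mul_assoc, ← e']; group
      have e2 : a'⁻¹ * a = 1 := by
        apply h.AN ((A i0).mul_mem ((A i0).inv_mem ha') ha)
        rw [e1]; exact N.mul_mem hn'.2 (N.inv_mem hn.2)
      have e3 : a' = a := by rwa [inv_mul_eq_one] at e2
      subst e3
      have e4 : n = n' := mul_left_cancel e'
      subst e4
      rfl
  have hcD : Fintype.card D = (I.card - 1) * (s * (s - 1)) +
      s * Nat.card (P ⊓ N : Subgroup G) := by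
    rw [Fintype.card_sum, Fintype.card_sigma, Fintype.card_prod, h.card_A,
      ← Nat.card_eq_fintype_card (α := (P ⊓ N : Subgroup G))]
    congr 1
    have h1 : ∀ j : {j : ι // j ≠ i0 ∧ A j ≤ P},
        Fintype.card (A i0 × {b : A j.1 // b ≠ 1}) = s * (s - 1) := by
      intro j
      rw [Fintype.card_prod, h.card_A, Fintype.card_subtype_compl, Fintype.card_subtype_eq,
        h.card_A]
    rw [Finset.sum_congr rfl (fun j _ => h1 j), Finset.sum_const, Finset.card_univ, smul_eq_mul]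
    congr 1
    rw [Fintype.card_subtype, ← Finset.card_erase_of_mem hi0I]
    congr 1
    ext j
    simp [hIdef]
  have hle : Fintype.card D ≤ Fintype.card P := Fintype.card_le_of_injective f hf
  have hPc : Fintype.card P = s ^ 2 * q := by rw [← Nat.card_eq_fintype_card]; exact hP
  obtain ⟨k, hk⟩ : ∃ k, I.card = q + 1 + k := ⟨I.card - (q + 1), by omega⟩
  obtain ⟨l, hl⟩ : ∃ l, Nat.card (P ⊓ N : Subgroup G) = q + l :=
    ⟨Nat.card (P ⊓ N : Subgroup G) - q, by omega⟩
  have hs := h.hs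
  obtain ⟨u, hu⟩ : ∃ u, s = u + 2 := ⟨s - 2, by omega⟩
  have hcD' : Fintype.card D = s ^ 2 * q + (k * (s * (u + 1)) + s * l) := by
    rw [hcD, hk, hl]
    have e1 : q + 1 + k - 1 = q + k := by omega
    have e2 : s - 1 = u + 1 := by omega
    rw [e1, e2]
    subst hu
    ring
  have hk0 : k = 0 := by
    by_contra hk0
    have h1 : 0 < k * (s * (u + 1)) := by
      have : 0 < k := Nat.pos_of_ne_zero hk0
      positivity
    omega
  refine ⟨by rw [hk, hk0], ?_⟩
  have hcard : Fintype.card D = Fintype.card P := by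
    apply le_antisymm hle
    rw [hcD', hPc]
    exact Nat.le_add_right _ _
  have hbij : Function.Bijective f := (Fintype.bijective_iff_injective_and_card f).2 ⟨hf, hcard⟩
  intro x hx
  obtain ⟨y, hy⟩ := hbij.2 ⟨x, hx⟩
  rcases y with ⟨⟨j, hj, hjP⟩, ⟨a, ha⟩, ⟨⟨b, hb⟩, hb1⟩⟩ | ⟨⟨a, ha⟩, ⟨n, hn⟩⟩
  · right
    exact ⟨j, hj, hjP, a, ha, b, hb, fun h0 => hb1 (Subtype.ext h0), (congrArg Subtype.val hy).symm⟩
  · left
    exact ⟨a, ha, n, hn.2, (congrArg Subtype.val hy).symm⟩

/-- The number of elements of an intersection. -/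
theorem KF.t_pow_aux2 (H P : Subgroup G) :
    Nat.card P ≤ H.index * Nat.card (H ⊓ P : Subgroup G) := by
  have h1 : H.relIndex P ≤ H.index := by
    have := Subgroup.relIndex_le_of_le_right (H := H) (K := P) (L := ⊤) le_top
      (by rw [Subgroup.relIndex_top_right]; exact Subgroup.index_ne_zero_of_finite)
    rwa [Subgroup.relIndex_top_right] at this
  have h2 : Nat.card P = H.relIndex P * Nat.card (H ⊓ P : Subgroup G) := by
    have h3 := Subgroup.card_mul_index ((H ⊓ P).subgroupOf P)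
    rw [Nat.card_congr (Subgroup.subgroupOfEquivOfLe (inf_le_right : H ⊓ P ≤ P)).toEquiv] at h3
    rw [← h3, mul_comm, ← Subgroup.inf_relIndex_right]
    rfl
  rw [h2]
  exact Nat.mul_le_mul_right _ h1

/-- Only the order of `N` bounds the number of elements of `A k N ∩ P` if `A k ∩ P = 1`. -/
theorem KF.t_pow_aux3 (h : KF s t A N) (P : Subgroup G) (k : ι)
    (hk : ∀ c ∈ P, c ∈ A k → c = 1) : Nat.card ((A k ⊔ N : Subgroup G) ⊓ P : Subgroup G) ≤ t := by
  have hN := h.nrm
  have hmem : ∀ x : ((A k ⊔ N : Subgroup G) ⊓ P : Subgroup G), ∃ a ∈ A k, ∃ n ∈ N, a * n = x.1 :=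
    fun x => Subgroup.mem_sup_of_normal_right.1 x.2.1
  choose a ha n hn e using hmem
  rw [← h.cN]
  apply Nat.card_le_card_of_injective (fun x => (⟨n x, hn x⟩ : N))
  intro x y hxy
  have hxy' : n x = n y := congrArg Subtype.val hxy
  have h1 : a x * (a y)⁻¹ = x.1 * y.1⁻¹ := by
    rw [← e x, ← e y, hxy']; group
  have h2 : a x * (a y)⁻¹ = 1 := by
    apply hk
    · rw [h1]; exact P.mul_mem x.2.2 (P.inv_mem y.2.2)
    · exact (A k).mul_mem (ha x) ((A k).inv_mem (ha y))
  rw [h1, mul_inv_eq_one] at h2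
  exact Subtype.ext h2

/-- The order of `A k N`. -/
theorem KF.t_pow_aux4 (h : KF s t A N) (k : ι) : (A k ⊔ N : Subgroup G).index = s := by
  have hN := h.nrm
  have hc : Nat.card (A k ⊔ N : Subgroup G) = s * t := by
    have hmem : ∀ x : (A k ⊔ N : Subgroup G), ∃ a ∈ A k, ∃ n ∈ N, a * n = x.1 :=
      fun x => Subgroup.mem_sup_of_normal_right.1 x.2
    let f : A k × N → (A k ⊔ N : Subgroup G) := fun x => ⟨x.1.1 * x.2.1,
      Subgroup.mul_mem _ (Subgroup.mem_sup_left x.1.2) (Subgroup.mem_sup_right x.2.2)⟩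
    have hf : Function.Bijective f := by
      constructor
      · rintro ⟨⟨a, ha⟩, ⟨n, hn⟩⟩ ⟨⟨a', ha'⟩, ⟨n', hn'⟩⟩ e
        have e' : a * n = a' * n' := congrArg Subtype.val e
        have e1 : a'⁻¹ * a = n' * n⁻¹ := by
          rw [inv_mul_eq_iff_eq_mul, ← mul_assoc, ← e']; group
        have e2 : a'⁻¹ * a = 1 := by
          apply h.AN ((A k).mul_mem ((A k).inv_mem ha') ha)
          rw [e1]; exact N.mul_mem hn' (N.inv_mem hn)
        have e3 : a' = a := by rwa [inv_mul_eq_one] at e2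
        subst e3
        have e4 : n = n' := mul_left_cancel e'
        subst e4
        rfl
      · intro x
        obtain ⟨a, ha, n, hn, e⟩ := hmem x
        exact ⟨(⟨a, ha⟩, ⟨n, hn⟩), Subtype.ext e⟩
    rw [← Nat.card_congr (Equiv.ofBijective f hf), Nat.card_prod, h.cA, h.cN]
  have h1 := Subgroup.card_mul_index (A k ⊔ N : Subgroup G)
  rw [hc, h.cG] at h1
  have h2 : 0 < s * t := by have := h.hs; have := h.ht; positivity
  apply Nat.eq_of_mul_eq_mul_left h2
  rw [h1]; ring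

theorem KF.t_pow (h : KF s t A N) {p n : ℕ} (hp : p.Prime) (hs : s = p ^ n) :
    ∃ m, t = p ^ m := by
  have : Fact p.Prime := ⟨hp⟩
  have hN := h.nrm
  have ht0 : t ≠ 0 := by have := h.ht; omega
  obtain ⟨m, t', ht', htt⟩ := Nat.exists_eq_pow_mul_and_not_dvd ht0 p hp.ne_one
  have hpm : 0 < p ^ m := pow_pos hp.pos m
  have ht'0 : 0 < t' := by
    rcases Nat.eq_zero_or_pos t' with h0 | h0
    · rw [h0, mul_zero] at htt; exact absurd htt ht0
    · exact h0
  -- the order of the Sylow subgroups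
  have hcG : Nat.card G = p ^ (2 * n + m) * t' := by
    rw [h.cG, htt, hs]; ring
  have hfac : (Nat.card G).factorization p = 2 * n + m := by
    rw [hcG, Nat.factorization_mul (pow_pos hp.pos _).ne' ht'0.ne', Nat.factorization_pow]
    simp [hp.factorization_self, Nat.factorization_eq_zero_of_not_dvd ht']
  have hcP : ∀ P : Sylow p G, Nat.card (P : Subgroup G) = s ^ 2 * p ^ m := by
    intro P
    rw [Sylow.card_eq_multiplicity, hfac, hs]; ring
  have hidx : ∀ P : Sylow p G, (P : Subgroup G).index = t' := by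
    intro P
    have h1 := Subgroup.card_mul_index (P : Subgroup G)
    rw [hcP, h.cG, htt] at h1
    have h2 : 0 < s ^ 2 * p ^ m := by have := h.hs; positivity
    apply Nat.eq_of_mul_eq_mul_left h2
    rw [h1]; ring
  -- the components are contained in Sylow subgroups
  have hex : ∀ i, ∃ P : Sylow p G, A i ≤ P := by
    intro i
    have h1 : IsPGroup p (A i) := IsPGroup.of_card (n := n) (by rw [h.cA i, hs])
    exact h1.exists_le_sylow
  choose f hf using hex
  have hnum : Fintype.card (Sylow p G) ≤ t' := by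
    rw [← Nat.card_eq_fintype_card]
    have P : Sylow p G := Classical.arbitrary _
    have h1 := Sylow.card_dvd_index P
    rw [hidx] at h1
    exact Nat.le_of_dvd ht'0 h1
  obtain ⟨P, hP⟩ := Fintype.exists_lt_card_fiber_of_mul_lt_card (n := p ^ m) f (by
    rw [h.cι, htt]
    calc Fintype.card (Sylow p G) * p ^ m ≤ t' * p ^ m := Nat.mul_le_mul_right _ hnum
      _ = p ^ m * t' := mul_comm _ _
      _ < p ^ m * t' + 1 := Nat.lt_succ_self _)
  have hI : p ^ m + 1 ≤ (Finset.univ.filter (fun i => A i ≤ (P : Subgroup G))).card := by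
    refine le_trans hP (Finset.card_le_card ?_)
    intro i hi
    rw [Finset.mem_filter] at hi ⊢
    refine ⟨Finset.mem_univ _, ?_⟩
    rw [← hi.2]; exact hf i
  obtain ⟨i0, hi0⟩ : ∃ i0, i0 ∈ Finset.univ.filter (fun i => A i ≤ (P : Subgroup G)) :=
    Finset.card_pos.1 (by omega)
  have hi0P : A i0 ≤ (P : Subgroup G) := (Finset.mem_filter.1 hi0).2
  have hNidx : N.index = s ^ 2 := by
    have h1 := Subgroup.card_mul_index N
    rw [h.cN, h.cG] at h1
    apply Nat.eq_of_mul_eq_mul_left (Nat.pos_of_ne_zero ht0)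
    rw [h1]; ring
  have hPN : p ^ m ≤ Nat.card ((P : Subgroup G) ⊓ N : Subgroup G) := by
    have h1 := KF.t_pow_aux2 N (P : Subgroup G)
    rw [hcP, hNidx, inf_comm] at h1
    exact Nat.le_of_mul_le_mul_left h1 (by have := h.hs; positivity)
  obtain ⟨hc1, hc2⟩ := h.t_pow_aux1 (P : Subgroup G) i0 hi0P (p ^ m) (hcP P) hPN hI
  by_cases hall : ∀ k, A k ≤ (P : Subgroup G)
  · refine ⟨m, ?_⟩
    have h1 : (Finset.univ.filter (fun i => A i ≤ (P : Subgroup G))) = Finset.univ :=
      Finset.filter_true_of_mem fun k _ => hall k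
    rw [h1, Finset.card_univ, h.cι] at hc1
    omega
  · push Not at hall
    obtain ⟨k, hk⟩ := hall
    have hki0 : k ≠ i0 := fun e => hk (e ▸ hi0P)
    have hPk : ∀ c ∈ (P : Subgroup G), c ∈ A k → c = 1 := by
      intro c hcP' hck
      rcases hc2 c hcP' with ⟨a, ha, w, hw, rfl⟩ | ⟨j, hj, hjP, a, ha, b, hb, hb1, rfl⟩
      · exact h.k2 i0 k hki0.symm a ha w hw hck
      · exfalso
        have hjk : j ≠ k := fun e => hk (e ▸ hjP)
        exact hb1 (h.K1' hj.symm hjk hki0.symm ha hb hck).2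
    have h3 := h.t_pow_aux3 (P : Subgroup G) k hPk
    have h4 := KF.t_pow_aux2 (A k ⊔ N : Subgroup G) (P : Subgroup G)
    rw [hcP, h.t_pow_aux4 k] at h4
    have hs1 := h.hs
    have h5 : s * p ^ m ≤ Nat.card ((A k ⊔ N : Subgroup G) ⊓ (P : Subgroup G) : Subgroup G) := by
      have h6 : s * (s * p ^ m) ≤
          s * Nat.card ((A k ⊔ N : Subgroup G) ⊓ (P : Subgroup G) : Subgroup G) := by
        calc s * (s * p ^ m) = s ^ 2 * p ^ m := by ring
          _ ≤ _ := h4
      exact Nat.le_of_mul_le_mul_left h6 (by omega)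
    have h6 := h.t_le_s
    have h7 : s * 1 ≤ s * p ^ m := Nat.mul_le_mul_left s hpm
    refine ⟨n, ?_⟩
    omega

end

end Pool.Agent.Helper298
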