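import Pool.Agent.Helper298_KF.Mat

set_option autoImplicit false
open scoped Classical commutatorElement

namespace Pool.Agent.Helper298

/-- The preimage of `Ω₁(Z(G/N))` for the prime two. -/
def WW {G : Type} [Group G] (N : Subgroup G) [hN : N.Normal] : Subgroup G where
  carrier := {z | z * z ∈ N ∧ ∀ g : G, ⁅z, g⁆ ∈ N}
  mul_mem' := by
    rintro z w ⟨hz1, hz2⟩ ⟨hw1, hw2⟩
    refine ⟨?_, fun g => ?_⟩
    · have : z * w * (z * w) = (z * ⁅w, z⁆ * z⁻¹) * (z * z) * (w * w) := by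
        rw [commutatorElement_def]; group
      rw [this]
      exact N.mul_mem (N.mul_mem (hN.conj_mem _ (hw2 z) z) hz1) hw1
    · have : ⁅z * w, g⁆ = (z * ⁅w, g⁆ * z⁻¹) * ⁅z, g⁆ := by
        rw [commutatorElement_def, commutatorElement_def, commutatorElement_def]; group
      rw [this]
      exact N.mul_mem (hN.conj_mem _ (hw2 g) z) (hz2 g)
  one_mem' := by
    refine ⟨by simp [N.one_mem], fun g => ?_⟩
    simp [N.one_mem]
  inv_mem' := by
    rintro z ⟨hz1, hz2⟩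
    refine ⟨?_, fun g => ?_⟩
    · have : z⁻¹ * z⁻¹ = (z * z)⁻¹ := by group
      rw [this]; exact N.inv_mem hz1
    · have : ⁅z⁻¹, g⁆ = z⁻¹ * ⁅z, g⁆⁻¹ * z⁻¹⁻¹ := by
        rw [commutatorElement_def, commutatorElement_def]; group
      rw [this]
      exact hN.conj_mem _ (N.inv_mem (hz2 g)) z⁻¹

theorem mem_WW {G : Type} [Group G] (N : Subgroup G) [hN : N.Normal] (z : G) :
    z ∈ WW N ↔ z * z ∈ N ∧ ∀ g : G, ⁅z, g⁆ ∈ N := Iff.rfl

end Pool.Agent.Helper298
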