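import Pool.Agent.Helper298_KF.Defs

set_option autoImplicit false
open scoped Classical commutatorElement

namespace Pool.Agent.Helper298

/- TARGET KF.invol_mem.
PROOF.
Suppose z lies in no A i N. By KF.cover_cases, for each index i there are pi(i) <> i, a_i in A i, b_i in A (pi i), b_i <> 1 with z = a_i b_i; a_i <> 1 as otherwise z = b_i in A (pi i) N. Now z = z^-1 = b_i^-1 a_i^-1 with b_i^-1 in A (pi i), a_i^-1 in A i, a_i^-1 <> 1: this is the decomposition of z with respect to the
index pi(i), so by uniqueness (KF.cover_unique) pi(pi(i)) = i. So pi is an involution without fixed points on the index set, whose cardinality t+1 is odd, a contradiction (Function.Involutive.card_fixedPoints or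
Equiv.Perm / Finset.card_involution style lemma; e.g. Finset.sum_involution in ZMod 2 gives card = 0 mod 2).
-/
section
variable {G ι : Type} [Group G] [Fintype G] [Fintype ι] {s t : ℕ} {A : ι → Subgroup G}
  {N : Subgroup G}

theorem KF.invol_mem (h : KF s t A N) (ht2 : Even t) {z : G} (hz : z * z = 1) (hzN : z ∉ N) :
    ∃ i, ∃ a ∈ A i, ∃ n ∈ N, z = a * n := by
  by_contra hcon
  have h1 : ∀ i, ∃ j, j ≠ i ∧ ∃ a ∈ A i, ∃ b ∈ A j, b ≠ 1 ∧ z = a * b := by
    intro i
    rcases h.cover_cases i z with ⟨a, ha, n, hn, e⟩ | h2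
    · exact absurd ⟨i, a, ha, n, hn, e⟩ hcon
    · exact h2
  choose p hp a ha b hb hb1 e using h1
  have ha1 : ∀ i, a i ≠ 1 := by
    intro i h0
    apply hcon
    refine ⟨p i, b i, hb i, 1, N.one_mem, ?_⟩
    rw [mul_one]
    have := e i
    rwa [h0, one_mul] at this
  have hinv : ∀ i, p (p i) = i := by
    intro i
    have hz' : z = z⁻¹ := eq_inv_of_mul_eq_one_left hz
    have e2 : z = (b i)⁻¹ * (a i)⁻¹ := by
      rw [hz', e i, mul_inv_rev]
    exact (h.cover_unique (hp (p i)) (hp i).symm (ha (p i)) (hb (p i)) (hb1 (p i))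
      ((A (p i)).inv_mem (hb i)) ((A i).inv_mem (ha i)) (inv_ne_one.2 (ha1 i))
      ((e (p i)).symm.trans e2)).1
  have h3 : ∑ _i : ι, (1 : ZMod 2) = 0 :=
    Finset.sum_involution (fun i _ => p i) (fun _ _ => by decide) (fun i _ _ => hp i)
      (fun _ _ => Finset.mem_univ _) (fun i _ => hinv i)
  rw [Finset.sum_const, Finset.card_univ, h.cι, nsmul_one] at h3
  have h4 : Even (t + 1) := (ZMod.natCast_eq_zero_iff_even).1 h3
  have h5 : ¬ Even (t + 1) := by
    rw [Nat.not_even_iff_odd]
    exact ht2.add_one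
  exact h5 h4

end

end Pool.Agent.Helper298
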