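import Pool.Agent.Helper298_KF.Defs
import Pool.Agent.Helper298_KF.L_KF_invol_mem

set_option autoImplicit false
open scoped Classical commutatorElement

namespace Pool.Agent.Helper298



/- TARGET KF.invol_conj.
PROOF.
z = g a g^-1 satisfies z z = 1 and z is not in N (N normal, and a in N would give a = 1 by KF.AN). KF.invol_mem: z = b n with b in A j. If j <> i, KF.conj_ANAN (for i<>j, with a*1 and b*n) gives a = 1, contradiction. So j = i.
-/
section
variable {G ι : Type} [Group G] [Fintype G] [Fintype ι] {s t : ℕ} {A : ι → Subgroup G}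
  {N : Subgroup G}

theorem KF.invol_conj (h : KF s t A N) (ht2 : Even t) {i : ι} {a : G} (ha : a ∈ A i)
    (ha1 : a ≠ 1) (haa : a * a = 1) (g : G) : ∃ b ∈ A i, ∃ n ∈ N, g * a * g⁻¹ = b * n := by
  have hN := h.nrm
  have hz : (g * a * g⁻¹) * (g * a * g⁻¹) = 1 := by
    have : (g * a * g⁻¹) * (g * a * g⁻¹) = g * (a * a) * g⁻¹ := by group
    rw [this, haa]; group
  have hzN : g * a * g⁻¹ ∉ N := by
    intro hc
    have h1 := hN.conj_mem _ hc g⁻¹
    have h2 : g⁻¹ * (g * a * g⁻¹) * g⁻¹⁻¹ = a := by group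
    rw [h2] at h1
    exact ha1 (h.AN ha h1)
  obtain ⟨j, b, hb, n, hn, e⟩ := h.invol_mem ht2 hz hzN
  by_cases hij : i = j
  · subst hij
    exact ⟨b, hb, n, hn, e⟩
  · exfalso
    have e2 : g * (a * 1) * g⁻¹ = b * n := by rw [mul_one]; exact e
    exact ha1 (h.conj_ANAN hij ha hb N.one_mem hn e2).1

end

end Pool.Agent.Helper298
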