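import Pool.Agent.Helper298_KF.Defs
import Pool.Agent.Helper298_KF.Mat
import Pool.Agent.Helper298_KF.Defs2
import Pool.Agent.Helper298_KF.L_KF_invol_conj

set_option autoImplicit false
open scoped Classical commutatorElement

namespace Pool.Agent.Helper298



section
variable {G ι : Type} [Group G] [Fintype G] [Fintype ι] {s t : ℕ} {A : ι → Subgroup G}
  {N : Subgroup G}

theorem KF.WW_split_aux1 (h : KF s t A N) (ht2 : Even t) {i : ι} {a : G} (ha : a ∈ A i)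
    (haa : a * a = 1) (g : G) : ∃ b ∈ A i, ∃ n ∈ N, g * a * g⁻¹ = b * n := by
  by_cases ha1 : a = 1
  · exact ⟨1, (A i).one_mem, 1, N.one_mem, by rw [ha1]; group⟩
  · exact h.invol_conj ht2 ha ha1 haa g

theorem KF.WW_split_aux2 (h : KF s t A N) (ht2 : Even t) {i j : ι} (hij : i ≠ j) {a b : G}
    (ha : a ∈ A i) (hb : b ∈ A j) (haa : a * a = 1) (hbb : b * b = 1)
    (hz : ∀ g : G, ⁅a * b, g⁆ ∈ N) (g : G) : ⁅a, g⁆ ∈ N ∧ ⁅b, g⁆ ∈ N := by
  have hN := h.nrm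
  obtain ⟨a', ha', n, hn, e1⟩ := KF.WW_split_aux1 h ht2 ha haa g
  obtain ⟨b', hb', m, hm, e2⟩ := KF.WW_split_aux1 h ht2 hb hbb g
  have q1 : (g : G ⧸ N) * a * (g : G ⧸ N)⁻¹ = a' := by
    have : ((g * a * g⁻¹ : G) : G ⧸ N) = ((a' * n : G) : G ⧸ N) := by rw [e1]
    rw [QuotientGroup.mk_mul, QuotientGroup.mk_mul, QuotientGroup.mk_mul, QuotientGroup.mk_inv,
      (QuotientGroup.eq_one_iff n).2 hn, mul_one] at this
    exact this
  have q2 : (g : G ⧸ N) * b * (g : G ⧸ N)⁻¹ = b' := by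
    have : ((g * b * g⁻¹ : G) : G ⧸ N) = ((b' * m : G) : G ⧸ N) := by rw [e2]
    rw [QuotientGroup.mk_mul, QuotientGroup.mk_mul, QuotientGroup.mk_mul, QuotientGroup.mk_inv,
      (QuotientGroup.eq_one_iff m).2 hm, mul_one] at this
    exact this
  have q3 : (a : G ⧸ N) * b * g = g * (a * b) := by
    have := (QuotientGroup.eq_one_iff _).2 (hz g)
    rw [commutatorElement_def, QuotientGroup.mk_mul, QuotientGroup.mk_mul, QuotientGroup.mk_mul,
      QuotientGroup.mk_mul, QuotientGroup.mk_inv, QuotientGroup.mk_inv, QuotientGroup.mk_mul,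
      mul_inv_eq_one, mul_inv_eq_iff_eq_mul] at this
    exact this
  have q4 : (a : G ⧸ N) * b = a' * b' := by
    rw [← q1, ← q2]
    calc (a : G ⧸ N) * b = (a * b * g) * (g : G ⧸ N)⁻¹ := by group
      _ = _ := by rw [q3]; group
  have q5 : ((a'⁻¹ * a : G) : G ⧸ N) = ((b' * b⁻¹ : G) : G ⧸ N) := by
    rw [QuotientGroup.mk_mul, QuotientGroup.mk_mul, QuotientGroup.mk_inv, QuotientGroup.mk_inv,
      inv_mul_eq_iff_eq_mul, ← mul_assoc, eq_mul_inv_iff_mul_eq]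
    exact q4
  have q6 : (a'⁻¹ * a)⁻¹ * (b' * b⁻¹) ∈ N := QuotientGroup.eq.1 q5
  obtain ⟨h1, h2⟩ := h.ANAN hij ((A i).mul_mem ((A i).inv_mem ha') ha)
    ((A j).mul_mem hb' ((A j).inv_mem hb)) q6 N.one_mem (by group)
  have h3 : a' = a := inv_mul_eq_one.1 h1
  have h4 : b' = b := mul_inv_eq_one.1 h2
  subst h3 h4
  constructor
  · rw [← QuotientGroup.eq_one_iff, commutatorElement_def, QuotientGroup.mk_mul,
      QuotientGroup.mk_mul, QuotientGroup.mk_mul, QuotientGroup.mk_inv, QuotientGroup.mk_inv,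
      mul_inv_eq_one, mul_inv_eq_iff_eq_mul]
    exact (mul_inv_eq_iff_eq_mul.1 q1).symm
  · rw [← QuotientGroup.eq_one_iff, commutatorElement_def, QuotientGroup.mk_mul,
      QuotientGroup.mk_mul, QuotientGroup.mk_mul, QuotientGroup.mk_inv, QuotientGroup.mk_inv,
      mul_inv_eq_one, mul_inv_eq_iff_eq_mul]
    exact (mul_inv_eq_iff_eq_mul.1 q2).symm

theorem KF.WW_split (h : KF s t A N) (ht2 : Even t) {i j : ι} (hij : i ≠ j) {z : G}
    (hz2 : z * z ∈ N) (hz : ∀ g : G, ⁅z, g⁆ ∈ N) :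
    ∃ a ∈ A i, ∃ b ∈ A j, ∃ n ∈ N, z = a * b * n ∧ a * a = 1 ∧ b * b = 1 ∧
      (∀ g : G, ⁅a, g⁆ ∈ N) ∧ (∀ g : G, ⁅b, g⁆ ∈ N) := by
  have hN := h.nrm
  obtain ⟨a, ha, b, hb, n, hn, rfl⟩ := h.exists_abn hij z
  have qn : ((n : G) : G ⧸ N) = 1 := (QuotientGroup.eq_one_iff n).2 hn
  have hz' : ∀ g : G, ⁅a * b, g⁆ ∈ N := by
    intro g
    have := hz g
    rw [← QuotientGroup.eq_one_iff, commutatorElement_def] at this ⊢
    simpa only [QuotientGroup.mk_mul, QuotientGroup.mk_inv, qn, mul_one] using this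
  have q3 : ∀ g : G, (a : G ⧸ N) * b * g = g * (a * b) := by
    intro g
    have := (QuotientGroup.eq_one_iff _).2 (hz' g)
    rw [commutatorElement_def, QuotientGroup.mk_mul, QuotientGroup.mk_mul, QuotientGroup.mk_mul,
      QuotientGroup.mk_mul, QuotientGroup.mk_inv, QuotientGroup.mk_inv, QuotientGroup.mk_mul,
      mul_inv_eq_one, mul_inv_eq_iff_eq_mul] at this
    exact this
  have q4 : (b : G ⧸ N) * a = a * b := by
    have := q3 a
    rw [mul_assoc] at this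
    exact mul_left_cancel this
  have q5 : (a : G ⧸ N) * b * (a * b) = 1 := by
    have := (QuotientGroup.eq_one_iff _).2 hz2
    simpa only [QuotientGroup.mk_mul, QuotientGroup.mk_inv, qn, mul_one] using this
  have q6 : ((a * a : G) : G ⧸ N) = ((b⁻¹ * b⁻¹ : G) : G ⧸ N) := by
    rw [QuotientGroup.mk_mul, QuotientGroup.mk_mul, QuotientGroup.mk_inv]
    calc (a : G ⧸ N) * a = (a * (a * b) * b) * (b : G ⧸ N)⁻¹ * (b : G ⧸ N)⁻¹ := by group
      _ = (a * (b * a) * b) * (b : G ⧸ N)⁻¹ * (b : G ⧸ N)⁻¹ := by rw [q4]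
      _ = (a * b * (a * b)) * (b : G ⧸ N)⁻¹ * (b : G ⧸ N)⁻¹ := by group
      _ = _ := by rw [q5, one_mul]
  have q7 : (a * a)⁻¹ * (b⁻¹ * b⁻¹) ∈ N := QuotientGroup.eq.1 q6
  obtain ⟨h1, h2⟩ := h.ANAN hij ((A i).mul_mem ha ha)
    ((A j).mul_mem ((A j).inv_mem hb) ((A j).inv_mem hb)) q7 N.one_mem (by group)
  have h3 : b * b = 1 := by
    have : (b * b)⁻¹ = 1 := by rw [mul_inv_rev]; exact h2
    exact inv_eq_one.1 this
  exact ⟨a, ha, b, hb, n, hn, rfl, h1, h3,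
    fun g => (KF.WW_split_aux2 h ht2 hij ha hb h1 h3 hz' g).1,
    fun g => (KF.WW_split_aux2 h ht2 hij ha hb h1 h3 hz' g).2⟩

end

end Pool.Agent.Helper298
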