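import Pool.Agent.Helper298_KF.Defs
import Pool.Agent.Helper298_KF.Mat
import Pool.Agent.Helper298_KF.Defs2
import Pool.Agent.Helper298_KF.L_KF_WW_split

set_option autoImplicit false
open scoped Classical commutatorElement

namespace Pool.Agent.Helper298



section
variable {G ι : Type} [Group G] [Fintype G] [Fintype ι] {s t : ℕ} {A : ι → Subgroup G}
  {N : Subgroup G}

theorem KF.WW_card_auxN [hN : N.Normal] : N ≤ WW N := by
  intro n hn
  rw [mem_WW]
  refine ⟨N.mul_mem hn hn, fun g => ?_⟩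
  rw [commutatorElement_def]
  have : n * g * n⁻¹ * g⁻¹ = n * (g * n⁻¹ * g⁻¹) := by group
  rw [this]
  exact N.mul_mem hn (hN.conj_mem _ (N.inv_mem hn) g)

theorem KF.WW_card_aux_t (h : KF s t A N) (h2 : IsPGroup 2 G) : Even t := by
  have h3 : IsPGroup 2 N := h2.to_subgroup N
  haveI : Fact (Nat.Prime 2) := ⟨Nat.prime_two⟩
  obtain ⟨k, hk⟩ := IsPGroup.iff_card.mp h3
  rw [h.cN] at hk
  have ht := h.ht
  rcases Nat.eq_zero_or_pos k with h0 | h0
  · rw [h0, pow_zero] at hk; omega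
  · rw [hk]
    exact (Nat.even_pow' (by omega)).mpr even_two

theorem KF.WW_card_aux_split (h : KF s t A N) [N.Normal] (h2 : IsPGroup 2 G) {i j : ι}
    (hij : i ≠ j) {z : G} (hz : z ∈ WW N) :
    ∃ a ∈ A i ⊓ WW N, ∃ b ∈ A j ⊓ WW N, ∃ n ∈ N, z = a * b * n := by
  rw [mem_WW] at hz
  obtain ⟨a, ha, b, hb, n, hn, e, ha2, hb2, hac, hbc⟩ :=
    h.WW_split (h.WW_card_aux_t h2) hij hz.1 hz.2
  refine ⟨a, ⟨ha, ?_⟩, b, ⟨hb, ?_⟩, n, hn, e⟩
  · exact (mem_WW N a).mpr ⟨by rw [ha2]; exact N.one_mem, hac⟩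
  · exact (mem_WW N b).mpr ⟨by rw [hb2]; exact N.one_mem, hbc⟩

theorem KF.WW_card_aux_prod (h : KF s t A N) [hN : N.Normal] (h2 : IsPGroup 2 G) {i j : ι}
    (hij : i ≠ j) : Nat.card (WW N) =
      Nat.card (A i ⊓ WW N : Subgroup G) * Nat.card (A j ⊓ WW N : Subgroup G) * t := by
  let f : (A i ⊓ WW N : Subgroup G) × (A j ⊓ WW N : Subgroup G) × N → WW N :=
    fun x => ⟨x.1.1 * x.2.1.1 * x.2.2.1, (WW N).mul_mem ((WW N).mul_mem x.1.2.2 x.2.1.2.2)
      (KF.WW_card_auxN x.2.2.2)⟩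
  have hinj : Function.Injective f := by
    rintro ⟨⟨a, ha, haw⟩, ⟨b, hb, hbw⟩, ⟨n, hn⟩⟩ ⟨⟨a', ha', haw'⟩, ⟨b', hb', hbw'⟩, ⟨n', hn'⟩⟩ e0
    have e : a * b * n = a' * b' * n' := congrArg Subtype.val e0
    have e1 : a'⁻¹ * a = b' * b⁻¹ * (b * (n' * n⁻¹) * b⁻¹) := by
      have : a'⁻¹ * (a * b * n) = a'⁻¹ * (a' * b' * n') := by rw [e]
      calc a'⁻¹ * a = a'⁻¹ * (a * b * n) * n⁻¹ * b⁻¹ := by group
        _ = a'⁻¹ * (a' * b' * n') * n⁻¹ * b⁻¹ := by rw [this]
        _ = _ := by group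
    have hm : b * (n' * n⁻¹) * b⁻¹ ∈ N := hN.conj_mem _ (N.mul_mem hn' (N.inv_mem hn)) b
    obtain ⟨h1, h2⟩ := h.ANAN hij ((A i).mul_mem ((A i).inv_mem ha') ha)
      ((A j).mul_mem hb' ((A j).inv_mem hb)) N.one_mem hm (by rw [mul_one]; exact e1)
    have h3 : a' = a := by rwa [inv_mul_eq_one] at h1
    have h4 : b' = b := by rwa [mul_inv_eq_one] at h2
    subst h3; subst h4
    have h5 : n = n' := mul_left_cancel e
    subst h5
    rfl
  have hsurj : Function.Surjective f := by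
    rintro ⟨z, hz⟩
    obtain ⟨a, ha, b, hb, n, hn, e⟩ := h.WW_card_aux_split h2 hij hz
    exact ⟨⟨⟨a, ha⟩, ⟨b, hb⟩, ⟨n, hn⟩⟩, Subtype.ext e.symm⟩
  rw [← Nat.card_congr (Equiv.ofBijective f ⟨hinj, hsurj⟩), Nat.card_prod, Nat.card_prod, h.cN,
    mul_assoc]

theorem KF.WW_card_aux_z (h : KF s t A N) [hN : N.Normal] (h2 : IsPGroup 2 G) :
    ∃ z ∈ WW N, z ∉ N := by
  haveI : Fact (Nat.Prime 2) := ⟨Nat.prime_two⟩
  have hq : IsPGroup 2 (G ⧸ N) := h2.to_quotient N
  have hs := h.hs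
  have ht := h.ht
  have hcard : Nat.card (G ⧸ N) = s ^ 2 := by
    have h1 := Subgroup.card_eq_card_quotient_mul_card_subgroup N
    rw [h.cN, h.cG] at h1
    exact (Nat.eq_of_mul_eq_mul_right (by omega) h1).symm
  haveI : Nontrivial (G ⧸ N) := by
    rw [← Finite.one_lt_card_iff_nontrivial, hcard]
    nlinarith
  haveI hc := hq.center_nontrivial
  have hcp : IsPGroup 2 (Subgroup.center (G ⧸ N)) := hq.to_subgroup _
  obtain ⟨k, hk⟩ := IsPGroup.iff_card.mp hcp
  have hk1 : 1 < Nat.card (Subgroup.center (G ⧸ N)) := Finite.one_lt_card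
  have hk0 : k ≠ 0 := by
    rintro rfl
    rw [hk, pow_zero] at hk1
    omega
  obtain ⟨w, hw⟩ := exists_prime_orderOf_dvd_card' (G := Subgroup.center (G ⧸ N)) 2
    (by rw [hk]; exact dvd_pow_self 2 hk0)
  obtain ⟨z, hz⟩ := QuotientGroup.mk_surjective (w : G ⧸ N)
  have hw2 : w ^ 2 = 1 := by rw [← hw]; exact pow_orderOf_eq_one w
  have hw1 : w ≠ 1 := by
    rintro rfl
    rw [orderOf_one] at hw
    omega
  refine ⟨z, (mem_WW N z).mpr ⟨?_, fun g => ?_⟩, ?_⟩
  · rw [← QuotientGroup.eq_one_iff, QuotientGroup.mk_mul, hz, ← pow_two]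
    exact_mod_cast congrArg Subtype.val hw2
  · rw [← QuotientGroup.eq_one_iff]
    have h5 : (z : G ⧸ N) * (g : G ⧸ N) = (g : G ⧸ N) * (z : G ⧸ N) := by
      rw [hz]
      exact ((Subgroup.mem_center_iff.mp w.2) (g : G ⧸ N)).symm
    rw [commutatorElement_def, QuotientGroup.mk_mul, QuotientGroup.mk_mul, QuotientGroup.mk_mul,
      QuotientGroup.mk_inv, QuotientGroup.mk_inv, h5]
    group
  · intro hzN
    rw [← QuotientGroup.eq_one_iff, hz] at hzN
    exact hw1 (Subtype.ext hzN)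

end

/- TARGET KF.WW_card.
PROOF.
t is even: G is a 2-group and t > 1 divides card G (so t is a power of two, t = card N; IsPGroup). For i<>j the map (A i meet WW) x (A j meet WW) x N -> WW, (a,b,n) |-> a b n is a bijection: N <= WW (n n in N, [n,g] in N), it is well defined; surjective by KF.WW_split (a a = 1 and [a,g] in N so a in WW); injective as in KF.exists_abn
(a'^-1 a = b' b^-1 mod N, KF.ANAN). So card WW = r_i r_j t for all i<>j, with r_i = card(A i meet WW). There are t+1 >= 3 indices, so all r_i are equal to some r (r_i r_k t = r_j r_k t, cancel) and card WW = r^2 t. r > 1: G/N is a nontrivial 2-group (order s^2) so its center is nontrivial and has an element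
of order 2 (Cauchy), lift to z in WW not in N; so card WW > t and r > 1. Finally t <= r: the sets {a n : a in A i meet WW, a<>1, n in N} are disjoint for different i (KF.ANAN), of size (r-1) t, disjoint from N: (t+1)(r-1) t + t <= r^2 t, so (t+1)(r-1) <= (r-1)(r+1), t <= r.
(Alternatively apply disjoint_count in G/N to the images of A i meet WW inside the image of WW.)
-/
section
variable {G ι : Type} [Group G] [Fintype G] [Fintype ι] {s t : ℕ} {A : ι → Subgroup G}
  {N : Subgroup G}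

theorem KF.WW_card (h : KF s t A N) [N.Normal] (h2 : IsPGroup 2 G) :
    ∃ r : ℕ, t ≤ r ∧ Nat.card (WW N) = r ^ 2 * t ∧
      ∀ i, Nat.card (A i ⊓ WW N : Subgroup G) = r := by
  have ht := h.ht
  have hpos : ∀ i, 0 < Nat.card (A i ⊓ WW N : Subgroup G) := fun i => Nat.card_pos
  have heq : ∀ i j, Nat.card (A i ⊓ WW N : Subgroup G) = Nat.card (A j ⊓ WW N : Subgroup G) := by
    intro i j
    obtain ⟨k, hki, hkj⟩ := h.exists_ne2 i j
    have e1 := h.WW_card_aux_prod h2 (Ne.symm hki)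
    have e2 := h.WW_card_aux_prod h2 (Ne.symm hkj)
    rw [e1] at e2
    have e3 := Nat.eq_of_mul_eq_mul_right (by omega) e2
    exact Nat.eq_of_mul_eq_mul_right (hpos k) e3
  have hne : Nonempty ι := by
    rw [← Fintype.card_pos_iff, h.cι]; omega
  obtain ⟨i₀⟩ := hne
  obtain ⟨j₀, hj₀⟩ := h.exists_ne i₀
  set r := Nat.card (A i₀ ⊓ WW N : Subgroup G) with hr
  have hall : ∀ i, Nat.card (A i ⊓ WW N : Subgroup G) = r := fun i => heq i i₀
  have hW : Nat.card (WW N) = r ^ 2 * t := by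
    rw [h.WW_card_aux_prod h2 (Ne.symm hj₀), hall j₀, hall i₀, pow_two]
  refine ⟨r, ?_, hW, hall⟩
  have hr1 : 1 < r := by
    by_contra hc
    have hr0 : r = 1 := by
      have := hpos i₀
      omega
    rw [hr0, one_pow, one_mul, ← h.cN] at hW
    obtain ⟨z, hz, hzN⟩ := h.WW_card_aux_z h2
    have heqN : N = WW N := by
      refine Subgroup.eq_of_le_of_card_ge KF.WW_card_auxN ?_
      rw [hW]
    exact hzN (by rw [heqN]; exact hz)
  have hinj : ∀ i, Nat.card ((A i ⊓ WW N).map (QuotientGroup.mk' N)) = r := by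
    intro i
    have hinj : Function.Injective ((QuotientGroup.mk' N).subgroupMap (A i ⊓ WW N)) := by
      rw [injective_iff_map_eq_one]
      rintro ⟨a, ha⟩ hx
      have h1 : QuotientGroup.mk' N a = 1 := by
        have := congrArg Subtype.val hx
        simpa using this
      have h2 : a ∈ N := by
        rwa [QuotientGroup.mk'_apply, QuotientGroup.eq_one_iff] at h1
      exact Subtype.ext (h.AN ha.1 h2)
    have hbij : Function.Bijective ((QuotientGroup.mk' N).subgroupMap (A i ⊓ WW N)) :=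
      ⟨hinj, MonoidHom.subgroupMap_surjective _ _⟩
    rw [← Nat.card_congr (Equiv.ofBijective _ hbij)]
    exact hall i
  have hcount := disjoint_count (H := G ⧸ N) Finset.univ
    (fun i => (A i ⊓ WW N).map (QuotientGroup.mk' N)) r ((WW N).map (QuotientGroup.mk' N))
    (fun i _ => (hinj i).ge) (fun i _ => Subgroup.map_mono inf_le_right) (by
      rintro i - j - hij x ⟨a, ha, rfl⟩ ⟨b, hb, e⟩
      have h1 : b⁻¹ * a ∈ N := by
        rw [QuotientGroup.mk'_apply, QuotientGroup.mk'_apply, QuotientGroup.eq] at e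
        exact e
      have h2 := h.ANAN (Ne.symm hij) hb.1 ha.1 h1 N.one_mem (by group)
      rw [h2.2]; simp)
  have hT : Nat.card ((WW N).map (QuotientGroup.mk' N)) ≤ r ^ 2 := by
    let f : (A i₀ ⊓ WW N : Subgroup G) × (A j₀ ⊓ WW N : Subgroup G) →
        (WW N).map (QuotientGroup.mk' N) :=
      fun x => ⟨QuotientGroup.mk' N (x.1.1 * x.2.1), Subgroup.mem_map_of_mem _
        ((WW N).mul_mem x.1.2.2 x.2.2.2)⟩
    have hf : Function.Surjective f := by
      rintro ⟨_, z, hz, rfl⟩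
      obtain ⟨a, ha, b, hb, n, hn, e⟩ := h.WW_card_aux_split h2 (Ne.symm hj₀) hz
      refine ⟨⟨⟨a, ha⟩, ⟨b, hb⟩⟩, Subtype.ext ?_⟩
      simp only [f]
      rw [e, map_mul (QuotientGroup.mk' N) (a * b) n]
      have : QuotientGroup.mk' N n = 1 := by
        rw [QuotientGroup.mk'_apply, QuotientGroup.eq_one_iff]; exact hn
      rw [this, mul_one]
    have := Nat.card_le_card_of_surjective f hf
    rw [Nat.card_prod, hall j₀, hall i₀, ← pow_two] at this
    exact this
  rw [Finset.card_univ, h.cι] at hcount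
  have hfin := hcount.trans hT
  by_contra hc
  push Not at hc
  obtain ⟨k, hk⟩ : ∃ k, r = k + 2 := ⟨r - 2, by omega⟩
  obtain ⟨l, hl⟩ : ∃ l, t = r + 1 + l := ⟨t - (r + 1), by omega⟩
  rw [hl, hk] at hfin
  have e1 : k + 2 - 1 = k + 1 := by omega
  rw [e1] at hfin
  nlinarith [Nat.zero_le (l * k)]

end

end Pool.Agent.Helper298
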