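import Pool.Agent.Helper298_KF.Defs
import Pool.Agent.Helper298_KF.L_KF_conj_an
import Pool.Agent.Helper298_KF.L_KF_invol_conj

set_option autoImplicit false
open scoped Classical commutatorElement

namespace Pool.Agent.Helper298





section
variable {G ι : Type} [Group G] [Fintype G] [Fintype ι] {s t : ℕ} {A : ι → Subgroup G}
  {N : Subgroup G}

theorem KF.invol_inv (h : KF s t A N) (ht2 : Even t) (hnd : ¬ (s + t) ∣ s ^ 2) {i : ι} {a : G}
    (ha : a ∈ A i) (ha1 : a ≠ 1) (haa : a * a = 1) {n : G} (hn : n ∈ N) :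
    (a * n) * (a * n) = 1 := by
  have hc : ∀ g : G, ∃ b ∈ A i, ∃ n ∈ N, g * a * g⁻¹ = b * n :=
    fun g => h.invol_conj ht2 ha ha1 haa g
  obtain ⟨g, hg⟩ := h.conj_an hnd ha ha1 hc hn
  have hN : N.Normal := h.nrm
  have hinv : a⁻¹ = a := inv_eq_of_mul_eq_one_left haa
  have h1 : (a * n) * (a * n) ∈ N := by
    have e : (a * n) * (a * n) = (a * n * a⁻¹) * n := by
      rw [hinv]; group
    rw [e]
    exact N.mul_mem (hN.conj_mem n hn a) hn
  have h2 : g * ((a * n) * (a * n)) * g⁻¹ ∈ N := hN.conj_mem _ h1 g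
  have h3 : g * ((a * n) * (a * n)) * g⁻¹ ∈ A i := by
    have e : g * ((a * n) * (a * n)) * g⁻¹ = (g * (a * n) * g⁻¹) * (g * (a * n) * g⁻¹) := by
      group
    rw [e]
    exact (A i).mul_mem hg hg
  have h4 : g * ((a * n) * (a * n)) * g⁻¹ = 1 := h.AN h3 h2
  have h5 : (a * n) * (a * n) = g⁻¹ * (g * ((a * n) * (a * n)) * g⁻¹) * g := by group
  rw [h5, h4]; group

end

end Pool.Agent.Helper298
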