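import Pool.Agent.Helper298_KF.Defs
import Pool.Agent.Helper298_KF.Mat
import Pool.Agent.Helper298_KF.Defs2
import Pool.Agent.Helper298_KF.L_KF_invol_inv
import Pool.Agent.Helper298_KF.L_KF_WW_split
import Pool.Agent.Helper298_KF.L_KF_WW_card

set_option autoImplicit false
open scoped Classical commutatorElement

namespace Pool.Agent.Helper298







/- TARGET KF.WW_comm.
PROOF.
t is even (t = card N divides the order of a 2-group, t>1). For every i, every c in A i meet WW, c<>1: c c in N meet A i = 1, so c is an involution and by KF.invol_inv (c m)(c m) = 1 for all m in N, i.e. c m c^-1 = m^-1 (c^-1 = c): c inverts N. So inversion is multiplicative on N, so N is commutative (such c exists since card(A i meet WW) = r >= t > 1).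
Take i,j,k distinct (KF.exists_ne, KF.exists_ne2) and c in A k meet WW, c<>1. Write c = a b m by KF.WW_split with i,j: a,b involutions or 1 with [a,g],[b,g] in N. b = 1 would give c = a m in A i N meet A k so c = 1; a = 1 would give c = b m, so c=1. So a, b, c are involutions which invert N and m commutes with N; c = a b m centralises N.
So for all x in N: x^-1 = c x c^-1 = x, so x x = 1. Therefore every involution of A i centralises N (it inverts N), and an element w in WW is a b n by KF.WW_split with a, b involutions or 1 and n in N, and N is commutative, so w centralises N.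
-/
section
variable {G ι : Type} [Group G] [Fintype G] [Fintype ι] {s t : ℕ} {A : ι → Subgroup G}
  {N : Subgroup G}

theorem KF.WW_comm_aux_even (h : KF s t A N) (h2 : IsPGroup 2 G) : Even t := by
  have : Fact (Nat.Prime 2) := ⟨Nat.prime_two⟩
  obtain ⟨n, hn⟩ := IsPGroup.iff_card.1 h2
  have h3 : t ∣ 2 ^ n := by
    rw [← hn, ← h.cN]
    exact Subgroup.card_subgroup_dvd_card N
  obtain ⟨m, -, hm⟩ := (Nat.dvd_prime_pow Nat.prime_two).1 h3
  have h4 := h.ht
  rcases m with _ | m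
  · rw [pow_zero] at hm
    omega
  · rw [hm, pow_succ]
    exact even_two.mul_left _

theorem KF.WW_comm_aux_inv (h : KF s t A N) (ht2 : Even t) (hnd : ¬ (s + t) ∣ s ^ 2) {i : ι}
    {a x : G} (ha : a ∈ A i) (ha1 : a ≠ 1) (haa : a * a = 1) (hx : x ∈ N) :
    a * x * a⁻¹ = x⁻¹ := by
  have h1 := h.invol_inv ht2 hnd ha ha1 haa hx
  have h2 : a⁻¹ = a := (eq_inv_of_mul_eq_one_left haa).symm
  have h3 : a * x * a * x = 1 := by
    rw [← h1]
    group
  rw [h2]
  exact eq_inv_of_mul_eq_one_left h3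

theorem KF.WW_comm_aux_ex (h : KF s t A N) [N.Normal] (h2 : IsPGroup 2 G) (i : ι) :
    ∃ c ∈ A i, c ∈ WW N ∧ c ≠ 1 ∧ c * c = 1 := by
  obtain ⟨r, hr, -, hc⟩ := h.WW_card h2
  have h3 : 1 < Nat.card (A i ⊓ WW N : Subgroup G) := by
    rw [hc i]
    exact lt_of_lt_of_le h.ht hr
  have : Nontrivial (A i ⊓ WW N : Subgroup G) := Finite.one_lt_card_iff_nontrivial.1 h3
  obtain ⟨⟨c, hc1, hc2⟩, hc3⟩ :=
    _root_.exists_ne (1 : (A i ⊓ WW N : Subgroup G))
  refine ⟨c, hc1, hc2, fun h4 => hc3 (Subtype.ext h4), ?_⟩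
  exact h.AN ((A i).mul_mem hc1 hc1) hc2.1

theorem KF.WW_comm (h : KF s t A N) [N.Normal] (h2 : IsPGroup 2 G) (hnd : ¬ (s + t) ∣ s ^ 2)
    {w n : G} (hw : w ∈ WW N) (hn : n ∈ N) : w * n = n * w := by
  have ht2 := h.WW_comm_aux_even h2
  have hinv : ∀ {i : ι} {a x : G}, a ∈ A i → a ≠ 1 → a * a = 1 → x ∈ N → a * x * a⁻¹ = x⁻¹ :=
    fun ha ha1 haa hx => h.WW_comm_aux_inv ht2 hnd ha ha1 haa hx
  have hne : Nonempty ι := by
    rw [← Fintype.card_pos_iff, h.cι]
    omega
  obtain ⟨i⟩ := hne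
  obtain ⟨j, hji⟩ := h.exists_ne i
  obtain ⟨k, hki, hkj⟩ := h.exists_ne2 i j
  obtain ⟨c, hc1, hc2, hc3, hc4⟩ := h.WW_comm_aux_ex h2 k
  -- `N` is commutative
  have hcomm : ∀ x ∈ N, ∀ y ∈ N, x * y = y * x := by
    intro x hx y hy
    have e1 := hinv hc1 hc3 hc4 (N.mul_mem (N.inv_mem hx) (N.inv_mem hy))
    have e2 := hinv hc1 hc3 hc4 (N.inv_mem hx)
    have e3 := hinv hc1 hc3 hc4 (N.inv_mem hy)
    have e4 : c * (x⁻¹ * y⁻¹) * c⁻¹ = (c * x⁻¹ * c⁻¹) * (c * y⁻¹ * c⁻¹) := by group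
    rw [e4, e2, e3, inv_inv, inv_inv, mul_inv_rev, inv_inv, inv_inv] at e1
    exact e1
  have hNconj : ∀ x ∈ N, ∀ y ∈ N, y * x * y⁻¹ = x := by
    intro x hx y hy
    rw [hcomm y hy x hx]
    group
  -- all elements of `N` are involutions
  have hinvol : ∀ x ∈ N, x⁻¹ = x := by
    intro x hx
    obtain ⟨a, ha, b, hb, m, hm, e, haa, hbb, -, -⟩ := h.WW_split ht2 (Ne.symm hji) hc2.1 hc2.2
    have hb1 : b ≠ 1 := by
      rintro rfl
      exact hc3 (h.ANAN hki hc1 ha N.one_mem hm (by rw [mul_one, e, mul_one])).1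
    have ha1 : a ≠ 1 := by
      rintro rfl
      exact hc3 (h.ANAN hkj hc1 hb N.one_mem hm (by rw [mul_one, e, one_mul])).1
    have e1 := hinv hc1 hc3 hc4 hx
    have e2 : c * x * c⁻¹ = a * (b * (m * x * m⁻¹) * b⁻¹) * a⁻¹ := by
      rw [e]
      group
    rw [e2, hNconj x hx m hm, hinv hb hb1 hbb hx, hinv ha ha1 haa (N.inv_mem hx),
      inv_inv] at e1
    exact e1.symm
  obtain ⟨a, ha, b, hb, m, hm, e, haa, hbb, -, -⟩ := h.WW_split ht2 (Ne.symm hji) hw.1 hw.2
  have hfix : ∀ {i : ι} {a : G}, a ∈ A i → a * a = 1 → a * n * a⁻¹ = n := by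
    intro i a ha haa
    by_cases ha1 : a = 1
    · rw [ha1]
      group
    · rw [hinv ha ha1 haa hn, hinvol n hn]
  have e1 : w * n * w⁻¹ = n := by
    have e2 : w * n * w⁻¹ = a * (b * (m * n * m⁻¹) * b⁻¹) * a⁻¹ := by
      rw [e]
      group
    rw [e2, hNconj n hn m hm, hfix hb hbb, hfix ha haa]
  rw [mul_inv_eq_iff_eq_mul] at e1
  exact e1


end

end Pool.Agent.Helper298

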