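import Pool.Agent.Helper298_KF.Defs
import Pool.Agent.Helper298_KF.Mat
import Pool.Agent.Helper298_KF.Defs2
import Pool.Agent.Helper298_KF.L_KF_WW_split
import Pool.Agent.Helper298_KF.L_KF_WW_card
import Pool.Agent.Helper298_KF.L_KF_WW_comm

set_option autoImplicit false
open scoped Classical commutatorElement

namespace Pool.Agent.Helper298







/- TARGET KF.exists_W.
PROOF.
N is normal (h.nrm; use haveI). W = WW N, r from KF.WW_card; the commutation is KF.WW_comm; the splitting is KF.WW_split applied to d with mem_WW. t is even since G is a 2-group and t = card N > 1.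
-/
section
variable {G ι : Type} [Group G] [Fintype G] [Fintype ι] {s t : ℕ} {A : ι → Subgroup G}
  {N : Subgroup G}

theorem KF.exists_W (h : KF s t A N) (h2 : IsPGroup 2 G) (hnd : ¬ (s + t) ∣ s ^ 2) :
    ∃ (W : Subgroup G) (r : ℕ), t ≤ r ∧ Nat.card W = r ^ 2 * t ∧
      (∀ w ∈ W, ∀ n ∈ N, w * n = n * w) ∧
      ∀ i j, i ≠ j → ∀ d ∈ W, ∃ a ∈ A i, ∃ b ∈ A j, ∃ n ∈ N, d = a * b * n ∧
        (∀ g : G, ⁅a, g⁆ ∈ N) ∧ (∀ g : G, ⁅b, g⁆ ∈ N) := by
  haveI : N.Normal := h.nrm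
  have ht2 : Even t := by
    have h3 : IsPGroup 2 N := h2.to_subgroup N
    haveI : Fact (Nat.Prime 2) := ⟨Nat.prime_two⟩
    obtain ⟨m, hm⟩ := IsPGroup.iff_card.1 h3
    rw [h.cN] at hm
    have ht := h.ht
    cases m with
    | zero => rw [pow_zero] at hm; omega
    | succ m => exact ⟨2 ^ m, by rw [hm, pow_succ]; ring⟩
  obtain ⟨r, hr1, hr2, _⟩ := KF.WW_card h h2
  refine ⟨WW N, r, hr1, hr2, fun w hw n hn => KF.WW_comm h h2 hnd hw hn, ?_⟩
  intro i j hij d hd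
  obtain ⟨hd1, hd2⟩ := (mem_WW N d).1 hd
  obtain ⟨a, ha, b, hb, n, hn, h3, _, _, h4, h5⟩ := KF.WW_split h ht2 hij hd1 hd2
  exact ⟨a, ha, b, hb, n, hn, h3, h4, h5⟩

end

end Pool.Agent.Helper298
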