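import Pool.Agent.Helper298_KF.Defs
import Pool.Agent.Helper298_KF.L_exists_nu
import Pool.Agent.Helper298_KF.L_KF_fusion
import Pool.Agent.Helper298_KF.L_KF_lemmaR
import Pool.Agent.Helper298_KF.L_KF_exists_W

set_option autoImplicit false
open scoped Classical commutatorElement

namespace Pool.Agent.Helper298









section
variable {G ι : Type} [Group G] [Fintype G] [Fintype ι] {s t : ℕ} {A : ι → Subgroup G}
  {N : Subgroup G}

theorem KF.two_lt_aux1 {x y : G} [N.Normal] (hx : ∀ g : G, ⁅x, g⁆ ∈ N) (hy : ∀ g : G, ⁅y, g⁆ ∈ N)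
    (g : G) : ⁅x * y, g⁆ ∈ N := by
  have e : ⁅x * y, g⁆ = (x * ⁅y, g⁆ * x⁻¹) * ⁅x, g⁆ := by
    simp only [commutatorElement_def]; group
  rw [e]
  exact N.mul_mem (Subgroup.Normal.conj_mem inferInstance _ (hy g) x) (hx g)

theorem KF.two_lt_aux2 {n : G} [N.Normal] (hn : n ∈ N) (g : G) : ⁅n, g⁆ ∈ N := by
  have e : ⁅n, g⁆ = n * (g * n⁻¹ * g⁻¹) := by
    simp only [commutatorElement_def]; group
  rw [e]
  exact N.mul_mem hn (Subgroup.Normal.conj_mem inferInstance _ (N.inv_mem hn) g)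

end

/- TARGET KF.two_lt.
PROOF.
Suppose N is not central. haveI normal. nu from exists_nu (p = 2). (n0,u) with nu n0 u <> 1 (ne_one). W, r from KF.exists_W. Take i<>j (KF.exists_ne). KF.lemmaR with D = W, fusion from KF.fusion h hnd. hDD: for d,e in W: [d,e] in N: d = a b n, [a,g],[b,g] in N so [d,g] in N for every g (N normal); so [e,u], [u,d] in N also,
and nu [e,u] d = 1 by of_comm since d centralises N (so [[e,u],d] = 1), nu [u,d] e = 1 likewise; hall gives nu [d,e] u = 1. So r^2 t = card W <= s t, r^2 <= s; t <= r so t^2 <= s, contradiction with hst.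
-/
section
variable {G ι : Type} [Group G] [Fintype G] [Fintype ι] {s t : ℕ} {A : ι → Subgroup G}
  {N : Subgroup G}

theorem KF.two_lt (h : KF s t A N) (h2 : IsPGroup 2 G) (hnd : ¬ (s + t) ∣ s ^ 2)
    (hst : s < t ^ 2) : N ≤ Subgroup.center G := by
  by_contra hN
  have hn := h.nrm
  have h2f : Fact (Nat.Prime 2) := ⟨Nat.prime_two⟩
  obtain ⟨ν, hν⟩ := exists_nu h2 N hN
  obtain ⟨n0, hn0, u, hu⟩ := hν.ne_one
  obtain ⟨W, r, htr, hW, hWc, hWd⟩ := h.exists_W h2 hnd
  have hι : Nonempty ι := by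
    rw [← Fintype.card_pos_iff, h.cι]
    omega
  obtain ⟨i⟩ := hι
  obtain ⟨j, hji⟩ := h.exists_ne i
  have hij : i ≠ j := hji.symm
  have hcen : ∀ d ∈ W, ∀ g : G, ⁅d, g⁆ ∈ N := by
    intro d hd g
    obtain ⟨a, _, b, _, n, hnN, rfl, h3, h4⟩ := hWd i j hij d hd
    exact KF.two_lt_aux1 (KF.two_lt_aux1 h3 h4) (KF.two_lt_aux2 hnN) g
  have hone : ∀ d ∈ W, ∀ n ∈ N, ν n d = 1 := by
    intro d hd n hnN
    apply hν.of_comm n hnN
    rw [commutatorElement_eq_one_iff_mul_comm]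
    exact (hWc d hd n hnN).symm
  have h5 := h.lemmaR (h.fusion hnd) hν u ⟨n0, hn0, hu⟩ W i j hij (hWd i j hij) (by
    intro d hd e he
    have h6 : ⁅u, d⁆ ∈ N := by
      rw [← commutatorElement_inv]
      exact N.inv_mem (hcen d hd u)
    have h7 := hν.hall d e u (hcen d hd e) (hcen e he u) h6
    rw [hone d hd _ (hcen e he u), hone e he _ h6, mul_one, mul_one] at h7
    exact h7)
  rw [hW] at h5
  have ht := h.ht
  have h6 : r ^ 2 ≤ s := Nat.le_of_mul_le_mul_right h5 (by omega)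
  have h7 : t ^ 2 ≤ r ^ 2 := Nat.pow_le_pow_left htr 2
  omega

end

end Pool.Agent.Helper298
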