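import Pool.Agent.Helper298_KF.Defs

set_option autoImplicit false
open scoped Classical commutatorElement

namespace Pool.Agent.Helper298

theorem lemmaJ_aux_inf {K κ : Type} [Group K] (J : Finset κ) (B : κ → Subgroup K)
    (hab : ∀ i ∈ J, ∀ x ∈ B i, ∀ y ∈ B i, x * y = y * x)
    (hmul : ∀ i ∈ J, ∀ j ∈ J, i ≠ j → ∀ g, ∃ a ∈ B i, ∃ b ∈ B j, g = a * b)
    (i j : κ) (hi : i ∈ J) (hj : j ∈ J) (hij : i ≠ j) :
    (B i ⊔ Subgroup.center K) ⊓ (B j ⊔ Subgroup.center K) = Subgroup.center K := by
  have hC : ∀ l ∈ J, B l ⊔ Subgroup.center K ≤ Subgroup.centralizer (B l : Set K) := by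
    intro l hl
    refine sup_le ?_ (Subgroup.center_le_centralizer _)
    intro x hx
    rw [Subgroup.mem_centralizer_iff]
    intro y hy
    exact hab l hl y hy x hx
  apply le_antisymm
  · intro x hx
    rw [Subgroup.mem_inf] at hx
    have h1 := Subgroup.mem_centralizer_iff.1 (hC i hi hx.1)
    have h2 := Subgroup.mem_centralizer_iff.1 (hC j hj hx.2)
    rw [Subgroup.mem_center_iff]
    intro g
    obtain ⟨a, ha, b, hb, rfl⟩ := hmul i hi j hj hij g
    rw [mul_assoc, h2 b hb, ← mul_assoc, h1 a ha, mul_assoc]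
  · exact le_inf le_sup_right le_sup_right

theorem lemmaJ_aux_index {K κ : Type} [Group K] [Fintype K] (J : Finset κ) (B : κ → Subgroup K)
    (hab : ∀ i ∈ J, ∀ x ∈ B i, ∀ y ∈ B i, x * y = y * x)
    (hmul : ∀ i ∈ J, ∀ j ∈ J, i ≠ j → ∀ g, ∃ a ∈ B i, ∃ b ∈ B j, g = a * b)
    (i j : κ) (hi : i ∈ J) (hj : j ∈ J) (hij : i ≠ j) :
    (B i ⊔ Subgroup.center K).index = (Subgroup.center K).relIndex (B j ⊔ Subgroup.center K) := by
  have hinf := lemmaJ_aux_inf J B hab hmul i j hi hj hij
  set Ci := B i ⊔ Subgroup.center K with hCi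
  set Cj := B j ⊔ Subgroup.center K with hCj
  have h1 : (Subgroup.center K).relIndex Cj = Ci.relIndex Cj := by
    rw [← hinf, Subgroup.inf_relIndex_right]
  rw [h1]
  apply le_antisymm
  · rw [Subgroup.relIndex, Subgroup.index_eq_card, Subgroup.index_eq_card]
    let f : (Cj ⧸ Ci.subgroupOf Cj) → K ⧸ Ci := Quotient.map' (fun x : Cj => (x : K)) (by
      intro x y hxy
      rw [QuotientGroup.leftRel_apply] at hxy ⊢
      rw [Subgroup.mem_subgroupOf] at hxy
      simpa using hxy)
    have hf : Function.Surjective f := by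
      intro y
      induction y using QuotientGroup.induction_on with
      | H g =>
        obtain ⟨a, ha, b, hb, rfl⟩ := hmul j hj i hi (Ne.symm hij) g
        refine ⟨QuotientGroup.mk (⟨a, hCj ▸ Subgroup.mem_sup_left ha⟩ : Cj), ?_⟩
        show (QuotientGroup.mk a : K ⧸ Ci) = QuotientGroup.mk (a * b)
        rw [QuotientGroup.eq]
        simpa using (hCi ▸ Subgroup.mem_sup_left hb : b ∈ Ci)
    exact Nat.card_le_card_of_surjective f hf
  · rw [← Subgroup.relIndex_top_right (H := Ci)]
    exact Subgroup.relIndex_le_of_le_right le_top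
      (by rw [Subgroup.relIndex_top_right]; exact Subgroup.index_ne_zero_of_finite)

/- TARGET lemmaJ. -/
theorem lemmaJ {K κ : Type} [Group K] [Fintype K] (J : Finset κ) (B : κ → Subgroup K)
    (hab : ∀ i ∈ J, ∀ x ∈ B i, ∀ y ∈ B i, x * y = y * x)
    (hmul : ∀ i ∈ J, ∀ j ∈ J, i ≠ j → ∀ g, ∃ a ∈ B i, ∃ b ∈ B j, g = a * b)
    (hna : ∃ x y : K, x * y ≠ y * x) (i : κ) (hi : i ∈ J) :
    J.card ≤ (B i ⊔ Subgroup.center K).index + 1 := by
  have hpos : 1 ≤ (B i ⊔ Subgroup.center K).index :=
    Nat.one_le_iff_ne_zero.2 Subgroup.index_ne_zero_of_finite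
  rcases Nat.lt_or_ge J.card 3 with h3 | h3
  · omega
  obtain ⟨Z, hZ⟩ : ∃ Z : Subgroup K, Z = Subgroup.center K := ⟨_, rfl⟩
  rw [← hZ]
  rw [← hZ] at hpos
  set C : κ → Subgroup K := fun l => B l ⊔ Z with hC
  set m := (C i).index with hm
  -- all relative indices are equal to m
  have hidx : ∀ k ∈ J, ∀ l ∈ J, k ≠ l → (C k).index = Z.relIndex (C l) := by
    intro k hk l hl hkl
    have := lemmaJ_aux_index J B hab hmul k l hk hl hkl
    rw [← hZ] at this
    exact this
  have hother : ∀ k ∈ J, ∀ l ∈ J, ∃ p ∈ J, p ≠ k ∧ p ≠ l := by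
    intro k _ l _
    by_contra hcon
    push Not at hcon
    have hsub : J ⊆ {k, l} := by
      intro p hp
      by_cases h : p = k
      · simp [h]
      · simp [hcon p hp h]
    have := (Finset.card_le_card hsub).trans Finset.card_le_two
    omega
  have hrel : ∀ l ∈ J, Z.relIndex (C l) = m := by
    intro l hl
    by_cases hli : l = i
    · subst hli
      obtain ⟨p, hp, hpi, -⟩ := hother l hl l hl
      obtain ⟨r, hr, hrl, hrp⟩ := hother l hl p hp
      -- Z.relIndex (C l) = index (C p) = Z.relIndex (C r) = index (C l)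
      rw [← hidx p hp l hl hpi, hidx p hp r hr (Ne.symm hrp), ← hidx l hl r hr (Ne.symm hrl)]
    · rw [← hidx i hi l hl (Ne.symm hli)]
  have hindex : ∀ l ∈ J, (C l).index = m := by
    intro l hl
    obtain ⟨p, hp, hpl, -⟩ := hother l hl l hl
    rw [hidx l hl p hp (Ne.symm hpl), hrel p hp]
  set z := Nat.card Z with hz
  have hzpos : 0 < z := Nat.card_pos
  have hZle : ∀ l, Z ≤ C l := fun l => le_sup_right
  have hcardC : ∀ l ∈ J, Nat.card (C l) = m * z := by
    intro l hl
    have h1 : Nat.card Z * Z.relIndex (C l) = Nat.card (C l) := by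
      have h0 : Nat.card (Z.subgroupOf (C l)) = Nat.card Z :=
        Nat.card_congr (Subgroup.subgroupOfEquivOfLe (hZle l)).toEquiv
      rw [← h0]
      exact Subgroup.card_mul_index _
    rw [hrel l hl] at h1
    rw [← h1, mul_comm]
  have hcardK : Nat.card K = m * (m * z) := by
    have h1 : Nat.card (C i) * (C i).index = Nat.card K := Subgroup.card_mul_index _
    rw [hcardC i hi] at h1
    rw [← h1, ← hm]; ring
  -- counting
  have hdisj : ∀ k ∈ J, ∀ l ∈ J, k ≠ l →
      Disjoint (Finset.univ.filter (fun x : K => x ∈ C k ∧ x ∉ Z))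
        (Finset.univ.filter (fun x : K => x ∈ C l ∧ x ∉ Z)) := by
    intro k hk l hl hkl
    rw [Finset.disjoint_left]
    intro x hx hx'
    rw [Finset.mem_filter] at hx hx'
    have h1 : x ∈ C k ⊓ C l := Subgroup.mem_inf.2 ⟨hx.2.1, hx'.2.1⟩
    have h2 := lemmaJ_aux_inf J B hab hmul k l hk hl hkl
    rw [← hZ] at h2
    have h3 : x ∈ Z := by
      have : C k ⊓ C l = Z := h2
      rwa [this] at h1
    exact hx.2.2 h3
  have hcardset : ∀ H : Subgroup K, (Finset.univ.filter (fun x : K => x ∈ H)).card = Nat.card H := by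
    intro H
    rw [Nat.card_eq_fintype_card, ← Fintype.card_subtype]
  have hcardD : ∀ l ∈ J, (Finset.univ.filter (fun x : K => x ∈ C l ∧ x ∉ Z)).card + z = m * z := by
    intro l hl
    rw [← hcardC l hl, ← hcardset (C l), hz, ← hcardset Z, ← Finset.card_union_of_disjoint]
    · congr 1
      ext x
      simp only [Finset.mem_union, Finset.mem_filter, Finset.mem_univ, true_and]
      constructor
      · rintro (h | h)
        · exact h.1
        · exact hZle l h
      · intro h
        by_cases hx : x ∈ Z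
        · exact Or.inr hx
        · exact Or.inl ⟨h, hx⟩
    · rw [Finset.disjoint_left]
      intro x hx hx'
      rw [Finset.mem_filter] at hx hx'
      exact hx.2.2 hx'.2
  have hunion : (J.biUnion (fun l => Finset.univ.filter (fun x : K => x ∈ C l ∧ x ∉ Z))).card + z ≤
      Nat.card K := by
    rw [hz, ← hcardset Z, ← Finset.card_union_of_disjoint]
    · rw [Nat.card_eq_fintype_card]
      exact Finset.card_le_univ _
    · rw [Finset.disjoint_left]
      intro x hx hx'
      rw [Finset.mem_biUnion] at hx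
      obtain ⟨l, _, hx⟩ := hx
      rw [Finset.mem_filter] at hx hx'
      exact hx.2.2 hx'.2
  rw [Finset.card_biUnion (fun k hk l hl hkl => hdisj k hk l hl hkl)] at hunion
  have hm1 : m ≠ 1 := by
    intro h1
    have h2 : C i = ⊤ := Subgroup.index_eq_one.1 h1
    have h3 := hcardC i hi
    rw [h1, one_mul] at h3
    have h4 : Z = C i := by
      apply Subgroup.eq_of_le_of_card_ge (hZle i)
      rw [h3]
    obtain ⟨x, y, hxy⟩ := hna
    have hx : x ∈ Z := by rw [h4, h2]; exact Subgroup.mem_top _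
    rw [hZ] at hx
    exact hxy ((Subgroup.mem_center_iff.1 hx y).symm)
  obtain ⟨q, hq⟩ : ∃ q, m = q + 2 := ⟨m - 2, by omega⟩
  have hD : ∀ l ∈ J, (Finset.univ.filter (fun x : K => x ∈ C l ∧ x ∉ Z)).card = (q + 1) * z := by
    intro l hl
    have := hcardD l hl
    rw [hq] at this
    nlinarith
  rw [Finset.sum_congr rfl hD, Finset.sum_const, smul_eq_mul, hcardK, hq] at hunion
  show J.card ≤ m + 1
  rw [hq]
  have h5 : J.card * ((q + 1) * z) ≤ (q + 3) * ((q + 1) * z) := by nlinarith
  exact Nat.le_of_mul_le_mul_right h5 (by positivity)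

end Pool.Agent.Helper298
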