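import Pool.Agent.Helper298_KF.Defs
import Pool.Agent.Helper298_KF.L_lemmaJ

set_option autoImplicit false
open scoped Classical commutatorElement

namespace Pool.Agent.Helper298



section
variable {H ι : Type} [Group H] [Fintype H] [Fintype ι] {s t : ℕ} {B : ι → Subgroup H}

theorem PCP.card_abelian_aux1 (A B T : Subgroup H) (hAT : A ≤ T) (hBT : B ≤ T)
    (hT : ∀ x ∈ T, ∃ a ∈ A, ∃ b ∈ B, x = a * b) :
    Nat.card A * Nat.card B = Nat.card T * Nat.card (A ⊓ B : Subgroup H) := by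
  choose! a ha b hb hab using hT
  let f : T × (A ⊓ B : Subgroup H) → A × B := fun x =>
    (⟨a x.1.1 * x.2.1, A.mul_mem (ha _ x.1.2) x.2.2.1⟩,
      ⟨x.2.1⁻¹ * b x.1.1, B.mul_mem (B.inv_mem x.2.2.2) (hb _ x.1.2)⟩)
  have hinj : Function.Injective f := by
    rintro ⟨⟨x, hx⟩, ⟨c, hc⟩⟩ ⟨⟨y, hy⟩, ⟨d, hd⟩⟩ e
    simp only [f, Prod.mk.injEq, Subtype.mk.injEq] at e
    obtain ⟨e1, e2⟩ := e
    have e3 : x = y := by
      calc x = a x * b x := hab x hx
        _ = (a x * c) * (c⁻¹ * b x) := by group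
        _ = (a y * d) * (d⁻¹ * b y) := by rw [e1, e2]
        _ = a y * b y := by group
        _ = y := (hab y hy).symm
    subst e3
    have e4 : c = d := mul_left_cancel e1
    subst e4
    rfl
  have hsurj : Function.Surjective f := by
    rintro ⟨⟨u, hu⟩, ⟨v, hv⟩⟩
    have hx : u * v ∈ T := T.mul_mem (hAT hu) (hBT hv)
    have h1 := hab _ hx
    have h2 : (a (u * v))⁻¹ * u = b (u * v) * v⁻¹ := by
      rw [inv_mul_eq_iff_eq_mul, ← mul_assoc, ← h1]; group
    have h3 : (a (u * v))⁻¹ * u ∈ A ⊓ B :=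
      ⟨A.mul_mem (A.inv_mem (ha _ hx)) hu, by
        rw [h2]; exact B.mul_mem (hb _ hx) (B.inv_mem hv)⟩
    refine ⟨(⟨u * v, hx⟩, ⟨_, h3⟩), ?_⟩
    simp only [f, Prod.mk.injEq, Subtype.mk.injEq]
    refine ⟨by group, ?_⟩
    rw [h2]; group
  have h1 := Nat.card_congr (Equiv.ofBijective f ⟨hinj, hsurj⟩)
  rw [Nat.card_prod, Nat.card_prod] at h1
  exact h1.symm

theorem PCP.card_abelian_aux2 {s c m zc z : ℕ} (hs : 1 < s) (h1 : c * c = s ^ 2 * zc)
    (h2 : c * m = s ^ 2) (h3 : s * zc = c * z) (hzc : 1 < zc) : s = m * z ∧ zc = z ^ 2 := by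
  have hc : 0 < c := by
    rcases Nat.eq_zero_or_pos c with h | h
    · rw [h] at h2
      have : 0 < s ^ 2 := by positivity
      omega
    · exact h
  have hm : 0 < m := by
    rcases Nat.eq_zero_or_pos m with h | h
    · rw [h] at h2
      have : 0 < s ^ 2 := by positivity
      omega
    · exact h
  have h4 : c = m * zc := by
    have : c * c = c * (m * zc) := by rw [h1, ← h2]; ring
    exact Nat.eq_of_mul_eq_mul_left hc this
  have h5 : s = m * z := by
    have : zc * s = zc * (m * z) := by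
      calc zc * s = s * zc := mul_comm _ _
        _ = c * z := h3
        _ = m * zc * z := by rw [← h4]
        _ = _ := by ring
    exact Nat.eq_of_mul_eq_mul_left (by omega) this
  refine ⟨h5, ?_⟩
  have h6 : m ^ 2 * zc = m ^ 2 * z ^ 2 := by
    calc m ^ 2 * zc = (m * zc) * m := by ring
      _ = s ^ 2 := by rw [← h4, h2]
      _ = _ := by rw [h5]; ring
  exact Nat.eq_of_mul_eq_mul_left (by positivity) h6

/- TARGET PCP.card_abelian.
PROOF.
Let Z = center H (nontrivial since H is a nontrivial p-group), C_i = B i join Z. As in Lemma J: for i<>j in J, C_i meet C_j = Z (an element of both commutes with B i and B j hence with H), C_i C_j = H,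
so card C_i * card C_j = s^2 * card Z; with |J| >= 3 all card C_i (i in J) are equal, card C_i = m card Z, s^2 = m^2 card Z, and the index of C_i in H is m. lemmaJ gives |J| <= m + 1.
Let z_i = card(B i meet Z). card C_i * z_i = s * card Z, so m * z_i = s and, as s^2 = m^2 card Z, card Z = z_i^2. Since Z is nontrivial z_i > 1; z_i = zeta = s/m for all i in J. The subgroups B i meet Z (i in J) of Z are pairwise disjoint,
so (disjoint_count) |J| (zeta-1) + 1 <= zeta^2, |J| <= zeta + 1. Finally (|J|-1)^2 <= m * zeta = s.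
-/
theorem PCP.card_abelian (h : PCP s t B) {p : ℕ} [Fact p.Prime] (hp : IsPGroup p H)
    (hna : ∃ x y : H, x * y ≠ y * x) (J : Finset ι) (h3 : 3 ≤ J.card)
    (hab : ∀ i ∈ J, ∀ x ∈ B i, ∀ y ∈ B i, x * y = y * x) : (J.card - 1) ^ 2 ≤ s := by
  have hs := h.hs
  have hnt : Nontrivial H := by
    obtain ⟨x, y, hxy⟩ := hna
    exact ⟨⟨x * y, y * x, hxy⟩⟩
  have hZnt : Nontrivial (Subgroup.center H) := hp.center_nontrivial
  set Z := Subgroup.center H with hZ
  have hzc : 1 < Nat.card Z := Finite.one_lt_card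
  -- products
  have hsup : ∀ i, ∀ x ∈ B i ⊔ Z, ∃ a ∈ B i, ∃ b ∈ Z, x = a * b := by
    intro i x hx
    rw [← SetLike.mem_coe, Subgroup.mul_normal] at hx
    obtain ⟨a, ha, b, hb, e⟩ := Set.mem_mul.1 hx
    exact ⟨a, ha, b, hb, e.symm⟩
  -- `C i` centralizes `B i`
  have hcent : ∀ i ∈ J, ∀ x ∈ B i ⊔ Z, ∀ y ∈ B i, x * y = y * x := by
    intro i hi x hx y hy
    obtain ⟨a, ha, b, hb, rfl⟩ := hsup i x hx
    have hb' : ∀ g, g * b = b * g := Subgroup.mem_center_iff.1 hb
    calc a * b * y = a * (y * b) := by rw [mul_assoc, hb' y]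
      _ = (a * y) * b := by group
      _ = (y * a) * b := by rw [hab i hi a ha y hy]
      _ = _ := by group
  have hinf : ∀ i ∈ J, ∀ j ∈ J, i ≠ j → (B i ⊔ Z) ⊓ (B j ⊔ Z) = Z := by
    intro i hi j hj hij
    apply le_antisymm
    · rintro x ⟨hx, hx'⟩
      refine Subgroup.mem_center_iff.2 fun g => ?_
      obtain ⟨a, ha, b, hb, rfl⟩ := h.exists_mul hij g
      have e1 := hcent i hi x hx a ha
      have e2 := hcent j hj x hx' b hb
      calc a * b * x = a * (x * b) := by rw [mul_assoc, e2]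
        _ = (a * x) * b := by group
        _ = (x * a) * b := by rw [e1]
        _ = _ := by group
    · exact le_inf le_sup_right le_sup_right
  have hprod : ∀ i ∈ J, ∀ j ∈ J, i ≠ j →
      Nat.card (B i ⊔ Z : Subgroup H) * Nat.card (B j ⊔ Z : Subgroup H) =
        s ^ 2 * Nat.card Z := by
    intro i hi j hj hij
    have h1 := PCP.card_abelian_aux1 (B i ⊔ Z) (B j ⊔ Z) ⊤ le_top le_top (by
      intro x _
      obtain ⟨a, ha, b, hb, e⟩ := h.exists_mul hij x
      exact ⟨a, Subgroup.mem_sup_left ha, b, Subgroup.mem_sup_left hb, e⟩)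
    rw [hinf i hi j hj hij, Subgroup.card_top, h.cH] at h1
    exact h1
  have hBZ : ∀ i, s * Nat.card Z =
      Nat.card (B i ⊔ Z : Subgroup H) * Nat.card (B i ⊓ Z : Subgroup H) := by
    intro i
    have h1 := PCP.card_abelian_aux1 (B i) Z (B i ⊔ Z) le_sup_left le_sup_right (hsup i)
    rw [h.cB] at h1
    exact h1
  have hcpos : ∀ i, 0 < Nat.card (B i ⊔ Z : Subgroup H) := fun i => Nat.card_pos
  have hsq : ∀ i ∈ J, Nat.card (B i ⊔ Z : Subgroup H) * Nat.card (B i ⊔ Z : Subgroup H) =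
      s ^ 2 * Nat.card Z := by
    intro i hi
    obtain ⟨j, hj, k, hk, hji, hki, hjk⟩ : ∃ j ∈ J, ∃ k ∈ J, j ≠ i ∧ k ≠ i ∧ j ≠ k := by
      have h4 : 1 < (J.erase i).card := by
        rw [Finset.card_erase_of_mem hi]; omega
      obtain ⟨j, hj, k, hk, hjk⟩ := Finset.one_lt_card.1 h4
      rw [Finset.mem_erase] at hj hk
      exact ⟨j, hj.2, k, hk.2, hj.1, hk.1, hjk⟩
    have e1 := hprod i hi j hj hji.symm
    have e2 := hprod j hj k hk hjk
    have e3 : Nat.card (B i ⊔ Z : Subgroup H) = Nat.card (B k ⊔ Z : Subgroup H) := by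
      refine Nat.eq_of_mul_eq_mul_left (hcpos j) ?_
      rw [e2, mul_comm, e1]
    have e4 := hprod i hi k hk hki.symm
    rw [← e3] at e4
    exact e4
  have hidx : ∀ i, Nat.card (B i ⊔ Z : Subgroup H) * (B i ⊔ Z).index = s ^ 2 := by
    intro i
    rw [Subgroup.card_mul_index, h.cH]
  have hz : ∀ i ∈ J, s = (B i ⊔ Z).index * Nat.card (B i ⊓ Z : Subgroup H) ∧
      Nat.card Z = Nat.card (B i ⊓ Z : Subgroup H) ^ 2 := fun i hi =>
    PCP.card_abelian_aux2 hs (hsq i hi) (hidx i) (hBZ i) hzc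
  obtain ⟨i, hi⟩ : J.Nonempty := Finset.card_pos.1 (by omega)
  obtain ⟨hs1, hs2⟩ := hz i hi
  set z := Nat.card (B i ⊓ Z : Subgroup H) with hzdef
  have hJm : J.card ≤ (B i ⊔ Z).index + 1 :=
    lemmaJ J B hab (fun i _ j _ hij g => h.exists_mul hij g) hna i hi
  have hcnt := disjoint_count J (fun j => B j ⊓ Z) z Z (by
      intro j hj
      have h5 := (hz j hj).2
      rw [hs2] at h5
      exact (Nat.pow_left_injective (n := 2) two_ne_zero h5).le)
    (fun j _ => inf_le_right) (fun j hj k hk hjk x hx hx' => h.dj j k hjk x hx.1 hx'.1)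
  rw [hs2] at hcnt
  have hz2 : 2 ≤ z := by
    by_contra hcon
    have h6 : z ≤ 1 := by omega
    have h8 : z ^ 2 ≤ 1 := by nlinarith
    omega
  have hJz : J.card ≤ z + 1 := by
    obtain ⟨k, hk⟩ : ∃ k, z = k + 2 := ⟨z - 2, by omega⟩
    rw [hk] at hcnt ⊢
    have h7 : J.card * (k + 1) ≤ (k + 3) * (k + 1) := by
      have e1 : k + 2 - 1 = k + 1 := by omega
      rw [e1] at hcnt
      nlinarith
    have := Nat.le_of_mul_le_mul_right h7 (by omega)
    omega
  rw [hs1, sq]
  exact Nat.mul_le_mul (by omega) (by omega)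

end

end Pool.Agent.Helper298
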