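import Pool.Agent.Helper298_KF.Defs
import Pool.Agent.Helper298_KF.L_card_homs_le
import Pool.Agent.Helper298_KF.L_lemmaJ

set_option autoImplicit false
open scoped Classical commutatorElement

namespace Pool.Agent.Helper298





/-- a proper product in a `p`-group lies in a normal subgroup of index `p` -/
theorem card_small_aux1 {U : Type} [Group U] [Finite U] {p : ℕ} [hpp : Fact p.Prime]
    (hp : IsPGroup p U) (V C : Subgroup U) (hVC : V ⊔ C = ⊤) (hV : V ≠ ⊤) :
    ∃ T : Subgroup U, T.Normal ∧ V ≤ T ∧ Nat.card (T ⊓ C : Subgroup U) * p = Nat.card C := by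
  obtain ⟨T, hT, hVT⟩ := (eq_top_or_exists_le_coatom V).resolve_left hV
  have := hp.isNilpotent
  have hTn : T.Normal := by
    exact Subgroup.NormalizerCondition.normal_of_coatom T (Group.normalizerCondition_of_isNilpotent (G := U)) hT
  have := hTn
  refine ⟨T, hTn, hVT, ?_⟩
  have hCT : ¬ C ≤ T := by
    intro h
    apply hT.1
    rw [eq_top_iff, ← hVC]
    exact sup_le hVT h
  have hTC : T ⊔ C = ⊤ := by
    apply hT.2
    rw [left_lt_sup]
    exact hCT
  -- index of T is p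
  obtain ⟨m, hm⟩ := IsPGroup.iff_card.mp hp
  obtain ⟨n, hn⟩ := IsPGroup.iff_card.mp (hp.to_subgroup T)
  have hidx : T.index = p := by
    have h1 : Nat.card T * T.index = Nat.card U := T.card_mul_index
    have h2 : Nat.card T < Nat.card U := by
      refine lt_of_le_of_ne (Subgroup.card_le_card_group T) ?_
      intro h
      exact hT.1 (Subgroup.eq_top_of_card_eq T h)
    have h3 : n < m := by
      rw [hn, hm] at h2
      exact (Nat.pow_lt_pow_iff_right hpp.out.one_lt).mp h2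
    obtain ⟨K, hK, hTK⟩ := Sylow.exists_subgroup_card_pow_succ (G := U) (p := p) (n := n)
      (by rw [hm]; exact pow_dvd_pow p h3) hn
    have hKT : T < K := by
      refine lt_of_le_of_ne hTK ?_
      rintro rfl
      rw [hn] at hK
      have := Nat.pow_right_injective hpp.out.two_le hK
      omega
    have hKtop : K = ⊤ := hT.2 K hKT
    subst hKtop
    rw [Subgroup.card_top] at hK
    rw [hK, hn, pow_succ] at h1
    exact Nat.eq_of_mul_eq_mul_left (pow_pos hpp.out.pos n) h1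
  have h1 : T.relIndex C = p := by
    rw [← Subgroup.relIndex_sup_left C T, hTC, Subgroup.relIndex_top_right, hidx]
  have h2 : (T ⊓ C).relIndex C = p := by
    rw [Subgroup.inf_relIndex_right, h1]
  have h3 := Subgroup.relIndex_mul_relIndex ⊥ (T ⊓ C) C bot_le inf_le_right
  rw [Subgroup.relIndex_bot_left, Subgroup.relIndex_bot_left, h2] at h3
  exact h3

/-- the subgroups `K i` -/
theorem card_small_aux2 {H : Type} [Group H] [Finite H] {p : ℕ} [hpp : Fact p.Prime]
    (hp : IsPGroup p H) (B C M : Subgroup H) [C.Normal] (hM : M ≤ C) [M.Normal] (P : ℕ)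
    (hP : Nat.card M * P = Nat.card C) (hB : Nat.card (B ⊓ C : Subgroup H) < P) :
    ∃ K : Subgroup H, M ≤ K ∧ K ≤ C ∧ B ⊓ C ≤ K ∧ Nat.card K * p = Nat.card C ∧
      (∀ b ∈ B, ∀ k ∈ K, b * k * b⁻¹ ∈ K) ∧ (∀ c ∈ C, ∀ k ∈ K, c * k * c⁻¹ ∈ K) := by
  have hCle : ¬ C ≤ B ⊔ M := by
    intro hc
    have h1 : Nat.card C ≤ Nat.card ((B ⊓ C : Subgroup H) × M) := by
      have hm : ∀ x : (B ⊓ C : Subgroup H) × M, (x.1 : H) * (x.2 : H) ∈ C := fun x =>
        C.mul_mem (Subgroup.mem_inf.mp x.1.2).2 (hM x.2.2)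
      apply Nat.card_le_card_of_surjective
        (fun x : (B ⊓ C : Subgroup H) × M => (⟨(x.1 : H) * (x.2 : H), hm x⟩ : C))
      rintro ⟨c, hcC⟩
      obtain ⟨b, hb, m, hm', hbm⟩ := Subgroup.mem_sup_of_normal_right.mp (hc hcC)
      have hbC : b ∈ C := by
        have : b = c * m⁻¹ := by rw [← hbm]; group
        rw [this]
        exact C.mul_mem hcC (C.inv_mem (hM hm'))
      refine ⟨(⟨b, Subgroup.mem_inf.mpr ⟨hb, hbC⟩⟩, ⟨m, hm'⟩), ?_⟩
      apply Subtype.ext
      exact hbm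
    rw [Nat.card_prod] at h1
    have h2 : Nat.card (B ⊓ C : Subgroup H) * Nat.card M < P * Nat.card M :=
      Nat.mul_lt_mul_of_pos_right hB Nat.card_pos
    rw [mul_comm P, hP] at h2
    omega
  set U : Subgroup H := B ⊔ C with hU
  have hBU : B ≤ U := le_sup_left
  have hCU : C ≤ U := le_sup_right
  have hVU : B ⊔ M ≤ U := sup_le hBU (hM.trans hCU)
  have hVC : (B ⊔ M).subgroupOf U ⊔ C.subgroupOf U = ⊤ := by
    rw [← Subgroup.subgroupOf_sup hVU hCU, Subgroup.subgroupOf_eq_top, hU]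
    exact sup_le (le_sup_left.trans le_sup_left) le_sup_right
  have hV : (B ⊔ M).subgroupOf U ≠ ⊤ := by
    rw [Ne, Subgroup.subgroupOf_eq_top]
    intro h
    exact hCle (hCU.trans h)
  obtain ⟨T, hTn, hVT, hTc⟩ := card_small_aux1 (hp.to_subgroup U) _ _ hVC hV
  refine ⟨(T ⊓ C.subgroupOf U).map U.subtype, ?_, ?_, ?_, ?_, ?_, ?_⟩
  · intro m hm
    refine Subgroup.mem_map.mpr ⟨⟨m, hCU (hM hm)⟩, ?_, rfl⟩
    refine Subgroup.mem_inf.mpr ⟨hVT ?_, ?_⟩
    · rw [Subgroup.mem_subgroupOf]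
      exact (le_sup_right : M ≤ B ⊔ M) hm
    · rw [Subgroup.mem_subgroupOf]
      exact hM hm
  · rintro _ ⟨⟨x, hx⟩, hx', rfl⟩
    exact Subgroup.mem_subgroupOf.mp (Subgroup.mem_inf.mp hx').2
  · intro m hm
    obtain ⟨hm1, hm2⟩ := Subgroup.mem_inf.mp hm
    refine Subgroup.mem_map.mpr ⟨⟨m, hBU hm1⟩, ?_, rfl⟩
    refine Subgroup.mem_inf.mpr ⟨hVT ?_, ?_⟩
    · rw [Subgroup.mem_subgroupOf]
      exact (le_sup_left : B ≤ B ⊔ M) hm1
    · rw [Subgroup.mem_subgroupOf]
      exact hm2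
  · rw [Subgroup.card_map_of_injective U.subtype_injective, hTc]
    exact Nat.card_congr (Subgroup.subgroupOfEquivOfLe hCU).toEquiv
  · rintro b hb _ ⟨⟨x, hx⟩, hx', rfl⟩
    obtain ⟨hx1, hx2⟩ := Subgroup.mem_inf.mp hx'
    refine Subgroup.mem_map.mpr ⟨⟨b, hBU hb⟩ * ⟨x, hx⟩ * ⟨b, hBU hb⟩⁻¹, ?_, rfl⟩
    refine Subgroup.mem_inf.mpr ⟨hTn.conj_mem _ hx1 _, ?_⟩
    rw [Subgroup.mem_subgroupOf]
    exact Subgroup.Normal.conj_mem ‹C.Normal› _ (Subgroup.mem_subgroupOf.mp hx2) _
  · rintro b hb _ ⟨⟨x, hx⟩, hx', rfl⟩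
    obtain ⟨hx1, hx2⟩ := Subgroup.mem_inf.mp hx'
    refine Subgroup.mem_map.mpr ⟨⟨b, hCU hb⟩ * ⟨x, hx⟩ * ⟨b, hCU hb⟩⁻¹, ?_, rfl⟩
    refine Subgroup.mem_inf.mpr ⟨hTn.conj_mem _ hx1 _, ?_⟩
    rw [Subgroup.mem_subgroupOf]
    exact Subgroup.Normal.conj_mem ‹C.Normal› _ (Subgroup.mem_subgroupOf.mp hx2) _

/-- nontrivial characters with prescribed kernel of prime index -/
theorem card_small_aux3 {Q : Type} [Group Q] [Finite Q] {p : ℕ} [hpp : Fact p.Prime]
    (K : Subgroup Q) [K.Normal] (hK : K.index = p) :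
    ∃ F : Finset (Q →* ℂˣ), F.card = p - 1 ∧ ∀ χ ∈ F, χ.ker = K := by
  have hc : Nat.card (Q ⧸ K) = p := by rw [← hK]; rfl
  have hcyc : IsCyclic (Q ⧸ K) := isCyclic_of_prime_card hc
  let _ : CommGroup (Q ⧸ K) := IsCyclic.commGroup
  have h1 : Nat.card ((Q ⧸ K) →* ℂˣ) = p := by
    rw [CommGroup.card_monoidHom_of_hasEnoughRootsOfUnity, hc]
  have : Finite ((Q ⧸ K) →* ℂˣ) := Nat.finite_of_card_ne_zero (by rw [h1]; exact hpp.out.ne_zero)
  let _ : Fintype ((Q ⧸ K) →* ℂˣ) := Fintype.ofFinite _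
  refine ⟨(Finset.univ.erase (1 : (Q ⧸ K) →* ℂˣ)).image (fun χ => χ.comp (QuotientGroup.mk' K)), ?_, ?_⟩
  · rw [Finset.card_image_of_injective, Finset.card_erase_of_mem (Finset.mem_univ _),
      Finset.card_univ, ← Nat.card_eq_fintype_card, h1]
    intro a b hab
    refine MonoidHom.ext (fun y => ?_)
    obtain ⟨x, rfl⟩ := QuotientGroup.mk'_surjective K y
    exact DFunLike.congr_fun hab x
  · intro χ hχ
    simp only [Finset.mem_image, Finset.mem_erase, Finset.mem_univ, and_true] at hχ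
    obtain ⟨ψ, hψ, rfl⟩ := hχ
    have : Fact (Nat.card (Q ⧸ K)).Prime := ⟨by rw [hc]; exact hpp.out⟩
    have hker : ψ.ker = ⊥ := by
      rcases ψ.ker.eq_bot_or_eq_top_of_prime_card with h | h
      · exact h
      · exfalso
        apply hψ
        rwa [MonoidHom.ker_eq_top_iff] at h
    rw [← MonoidHom.comap_ker, hker, MonoidHom.comap_bot, QuotientGroup.ker_mk']

/-- a normal subgroup of order `p` of a `p`-group is central -/
theorem card_small_aux4 {G : Type} [Group G] [Finite G] {p : ℕ} [hpp : Fact p.Prime]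
    (hp : IsPGroup p G) (N : Subgroup G) [N.Normal] (hN : Nat.card N = p) :
    N ≤ Subgroup.center G := by
  have h1 := (hp.of_equiv ConjAct.toConjAct).exists_fixed_point_of_prime_dvd_card_of_fixed_point N
    (by rw [hN]) (a := 1) (by intro g; simp)
  obtain ⟨b, hb, hb1⟩ := h1
  have : Fact (Nat.card N).Prime := ⟨by rw [hN]; exact hpp.out⟩
  have h2 : (Subgroup.center G).subgroupOf N = ⊤ := by
    rcases ((Subgroup.center G).subgroupOf N).eq_bot_or_eq_top_of_prime_card with h | h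
    · exfalso
      have h3 : b ∈ (Subgroup.center G).subgroupOf N := by
        rw [Subgroup.mem_subgroupOf, Subgroup.mem_center_iff]
        intro g
        have h4 := hb (ConjAct.toConjAct g)
        have h5 : g * (b : G) * g⁻¹ = b := congrArg Subtype.val h4
        rw [mul_inv_eq_iff_eq_mul] at h5
        exact h5
      rw [h, Subgroup.mem_bot] at h3
      exact hb1 h3.symm
    · exact h
  rwa [Subgroup.subgroupOf_eq_top] at h2

/-- step (1): the number of different `K i` -/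
theorem card_small_aux5 {H : Type} [Group H] [Finite H] {p : ℕ} [hpp : Fact p.Prime]
    (C M : Subgroup H) (hM : M ≤ C) (P : ℕ) (hP : Nat.card M * P = Nat.card C)
    (S : Finset (Subgroup H))
    (hS : ∀ K ∈ S, M ≤ K ∧ K ≤ C ∧ Nat.card K * p = Nat.card C ∧
      (∀ c ∈ C, ∀ k ∈ K, c * k * c⁻¹ ∈ K)) : S.card * (p - 1) + 1 ≤ P := by
  let _ : Fintype C := Fintype.ofFinite _
  have hF : ∀ K : Subgroup H, ∃ F : Finset (C →* ℂˣ), K ∈ S → (F.card = p - 1 ∧
      ∀ χ ∈ F, χ.ker = K.subgroupOf C) := by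
    intro K
    by_cases hK : K ∈ S
    · obtain ⟨h1, h2, h3, h4⟩ := hS K hK
      have hn : (K.subgroupOf C).Normal := by
        constructor
        rintro ⟨n, hnC⟩ hn ⟨g, hg⟩
        rw [Subgroup.mem_subgroupOf] at hn ⊢
        exact h4 g hg n hn
      have hidx : (K.subgroupOf C).index = p := by
        have h5 := (K.subgroupOf C).card_mul_index
        rw [Nat.card_congr (Subgroup.subgroupOfEquivOfLe h2).toEquiv, ← h3] at h5
        exact Nat.eq_of_mul_eq_mul_left Nat.card_pos h5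
      obtain ⟨F, hF⟩ := card_small_aux3 (K.subgroupOf C) hidx
      exact ⟨F, fun _ => hF⟩
    · exact ⟨∅, fun h => absurd h hK⟩
  choose F hF using hF
  have hdis : (S : Set (Subgroup H)).PairwiseDisjoint F := by
    intro K hK L hL hKL
    rw [Function.onFun, Finset.disjoint_left]
    intro χ h1 h2
    apply hKL
    have h3 : K.subgroupOf C = L.subgroupOf C := by
      rw [← (hF K hK).2 χ h1, ← (hF L hL).2 χ h2]
    have h4 := (hS K hK).2.1
    have h5 := (hS L hL).2.1
    rw [Subgroup.subgroupOf_inj, inf_eq_left.mpr h4, inf_eq_left.mpr h5] at h3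
    exact h3
  have hcard : (S.biUnion F).card = S.card * (p - 1) := by
    rw [Finset.card_biUnion (fun K hK L hL hKL => hdis hK hL hKL),
      Finset.sum_congr rfl (fun K hK => (hF K hK).1), Finset.sum_const, smul_eq_mul]
  have h1 : (1 : C →* ℂˣ) ∉ S.biUnion F := by
    rw [Finset.mem_biUnion]
    rintro ⟨K, hK, h⟩
    have h2 := (hF K hK).2 1 h
    rw [MonoidHom.ker_one, eq_comm, Subgroup.subgroupOf_eq_top] at h2
    have h3 : K = C := le_antisymm (hS K hK).2.1 h2
    have h4 := (hS K hK).2.2.1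
    rw [h3] at h4
    have h5 : p = 1 := by
      have : 0 < Nat.card C := Nat.card_pos
      exact Nat.eq_of_mul_eq_mul_left this (by rw [h4, mul_one])
    exact hpp.out.ne_one h5
  have h2 := card_homs_le (M.subgroupOf C) (insert 1 (S.biUnion F)) (by
    intro χ hχ k hk
    rw [Finset.mem_insert] at hχ
    rcases hχ with rfl | hχ
    · rfl
    · rw [Finset.mem_biUnion] at hχ
      obtain ⟨K, hK, hχ⟩ := hχ
      have h3 : k ∈ χ.ker := by
        rw [(hF K hK).2 χ hχ]
        rw [Subgroup.mem_subgroupOf] at hk ⊢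
        exact (hS K hK).1 hk
      exact h3)
  rw [Finset.card_insert_of_notMem h1, hcard] at h2
  refine h2.trans (le_of_eq ?_)
  have h5 := (M.subgroupOf C).card_mul_index
  rw [Nat.card_congr (Subgroup.subgroupOfEquivOfLe hM).toEquiv, ← hP] at h5
  exact Nat.eq_of_mul_eq_mul_left Nat.card_pos h5

/-- step (2): the fibres -/
theorem card_small_aux6 {H ι : Type} [Group H] [Fintype H] [Fintype ι] {s t : ℕ}
    {B : ι → Subgroup H} (h : PCP s t B) {p : ℕ} [hpp : Fact p.Prime] (hp : IsPGroup p H)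
    (q : ℕ) (J : Finset ι) (hJq : ∀ i ∈ J, (B i ⊔ commutator H).index ≤ q)
    (K : Subgroup H) (hK : K ≤ commutator H) (hKc : Nat.card K * p = Nat.card (commutator H))
    (hJ : ∀ i ∈ J, B i ⊓ commutator H ≤ K ∧ (∀ b ∈ B i, ∀ k ∈ K, b * k * b⁻¹ ∈ K)) :
    J.card ≤ q + 1 := by
  by_cases h1 : J.card ≤ 1
  · omega
  rw [not_le, Finset.one_lt_card] at h1
  obtain ⟨i, hi, j, hj, hij⟩ := h1
  have hn : K.Normal := by
    constructor
    intro n hn g
    obtain ⟨a, ha, b, hb, rfl⟩ := h.exists_mul hij g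
    have := (hJ i hi).2 a ha _ ((hJ j hj).2 b hb n hn)
    have e : a * b * n * (a * b)⁻¹ = a * (b * n * b⁻¹) * a⁻¹ := by group
    rw [e]; exact this
  let _ : Fintype (H ⧸ K) := Fintype.ofFinite _
  have h2 := lemmaJ (K := H ⧸ K) J (fun i => (B i).map (QuotientGroup.mk' K)) ?_ ?_ ?_ i hi
  · refine h2.trans (Nat.add_le_add_right ?_ 1)
    have h3 : (commutator H).map (QuotientGroup.mk' K) ≤ Subgroup.center (H ⧸ K) := by
      have : ((commutator H).map (QuotientGroup.mk' K)).Normal :=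
        Subgroup.Normal.map inferInstance _ (QuotientGroup.mk'_surjective K)
      apply card_small_aux4 (hp.to_quotient K)
      have h6 := ((QuotientGroup.mk' K).domRestrict (commutator H)).ker.card_mul_index
      rw [Subgroup.index_ker, MonoidHom.domRestrict_range] at h6
      have h7 : ((QuotientGroup.mk' K).domRestrict (commutator H)).ker = K.subgroupOf (commutator H) := by
        rw [MonoidHom.ker_domRestrict, QuotientGroup.ker_mk']
      rw [h7, Nat.card_congr (Subgroup.subgroupOfEquivOfLe hK).toEquiv, ← hKc] at h6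
      exact Nat.eq_of_mul_eq_mul_left Nat.card_pos h6
    have h4 : (B i ⊔ commutator H).map (QuotientGroup.mk' K) ≤
        (B i).map (QuotientGroup.mk' K) ⊔ Subgroup.center (H ⧸ K) := by
      rw [Subgroup.map_sup]
      exact sup_le_sup_left h3 _
    have h5 := Subgroup.index_antitone h4
    refine h5.trans ?_
    rw [Subgroup.index_map, QuotientGroup.ker_mk', QuotientGroup.range_mk', Subgroup.index_top,
      mul_one, sup_eq_left.mpr (hK.trans le_sup_right)]
    exact hJq i hi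
  · rintro i hi _ ⟨x, hx, rfl⟩ _ ⟨y, hy, rfl⟩
    rw [← map_mul, ← map_mul]
    refine (QuotientGroup.eq (s := K)).mpr ((hJ i hi).1 (Subgroup.mem_inf.mpr ⟨?_, ?_⟩))
    · exact (B i).mul_mem ((B i).inv_mem ((B i).mul_mem hx hy)) ((B i).mul_mem hy hx)
    · have e : (x * y)⁻¹ * (y * x) = ⁅y⁻¹, x⁻¹⁆ := by
        rw [commutatorElement_def]; group
      rw [e, commutator_def]
      exact Subgroup.commutator_mem_commutator (Subgroup.mem_top _) (Subgroup.mem_top _)
  · rintro i hi j hj hij g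
    obtain ⟨g, rfl⟩ := QuotientGroup.mk'_surjective K g
    obtain ⟨a, ha, b, hb, rfl⟩ := h.exists_mul hij g
    exact ⟨_, Subgroup.mem_map_of_mem _ ha, _, Subgroup.mem_map_of_mem _ hb, map_mul _ _ _⟩
  · by_contra hc
    push Not at hc
    have h3 : commutator H ≤ K := by
      rw [commutator_def, Subgroup.commutator_le]
      intro x _ y _
      have h4 := hc (QuotientGroup.mk' K y⁻¹) (QuotientGroup.mk' K x⁻¹)
      rw [← map_mul, ← map_mul] at h4
      have h5 := (QuotientGroup.eq (s := K)).mp h4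
      have e : (y⁻¹ * x⁻¹)⁻¹ * (x⁻¹ * y⁻¹) = ⁅x, y⁆ := by
        rw [commutatorElement_def]; group
      rwa [e] at h5
    have h4 : K = commutator H := le_antisymm hK h3
    rw [h4] at hKc
    have h5 : p = 1 := by
      have : 0 < Nat.card (commutator H) := Nat.card_pos
      exact Nat.eq_of_mul_eq_mul_left this (by rw [hKc, mul_one])
    exact hpp.out.ne_one h5

section
variable {H ι : Type} [Group H] [Fintype H] [Fintype ι] {s t : ℕ} {B : ι → Subgroup H}

theorem PCP.card_small (h : PCP s t B) {p : ℕ} [Fact p.Prime] (hp : IsPGroup p H)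
    (hna : ∃ x y : H, x * y ≠ y * x) (M : Subgroup H) [M.Normal]
    (hM : M ≤ commutator H) (P q : ℕ) (hP : Nat.card M * P = Nat.card (commutator H))
    (J : Finset ι) (hJ : ∀ i ∈ J, Nat.card (B i ⊓ commutator H : Subgroup H) < P)
    (hJq : ∀ i ∈ J, (B i ⊔ commutator H).index ≤ q) :
    J.card * (p - 1) ≤ (q + 1) * (P - 1) := by
  have hK : ∀ i, ∃ K : Subgroup H, i ∈ J → (M ≤ K ∧ K ≤ commutator H ∧ B i ⊓ commutator H ≤ K ∧
      Nat.card K * p = Nat.card (commutator H) ∧
      (∀ b ∈ B i, ∀ k ∈ K, b * k * b⁻¹ ∈ K) ∧ (∀ c ∈ commutator H, ∀ k ∈ K, c * k * c⁻¹ ∈ K)) := by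
    intro i
    by_cases hi : i ∈ J
    · obtain ⟨K, hK⟩ := card_small_aux2 hp (B i) (commutator H) M hM P hP (hJ i hi)
      exact ⟨K, fun _ => hK⟩
    · exact ⟨⊥, fun h => absurd h hi⟩
  choose Kf hK using hK
  have h1 : (J.image Kf).card * (p - 1) + 1 ≤ P := by
    apply card_small_aux5 (commutator H) M hM P hP
    intro K hKm
    obtain ⟨i, hi, rfl⟩ := Finset.mem_image.mp hKm
    obtain ⟨a1, a2, a3, a4, a5, a6⟩ := hK i hi
    exact ⟨a1, a2, a4, a6⟩
  have h2 : ∀ K ∈ J.image Kf, (J.filter (fun i => Kf i = K)).card ≤ q + 1 := by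
    intro K hKm
    obtain ⟨i, hi, rfl⟩ := Finset.mem_image.mp hKm
    obtain ⟨a1, a2, a3, a4, a5, a6⟩ := hK i hi
    refine card_small_aux6 h hp q _ (fun j hj => hJq j (Finset.mem_filter.mp hj).1) (Kf i) a2 a4 ?_
    intro j hj
    obtain ⟨hj1, hj2⟩ := Finset.mem_filter.mp hj
    obtain ⟨b1, b2, b3, b4, b5, b6⟩ := hK j hj1
    rw [hj2] at b3 b5
    exact ⟨b3, b5⟩
  have h3 : J.card ≤ (J.image Kf).card * (q + 1) := by
    rw [Finset.card_eq_sum_card_image Kf J]
    calc ∑ K ∈ J.image Kf, (J.filter (fun i => Kf i = K)).card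
        ≤ ∑ K ∈ J.image Kf, (q + 1) := Finset.sum_le_sum h2
      _ = (J.image Kf).card * (q + 1) := by rw [Finset.sum_const, smul_eq_mul]
  calc J.card * (p - 1) ≤ (J.image Kf).card * (q + 1) * (p - 1) := Nat.mul_le_mul_right _ h3
    _ = (q + 1) * ((J.image Kf).card * (p - 1)) := by ring
    _ ≤ (q + 1) * (P - 1) := Nat.mul_le_mul_left _ (by omega)

end

end Pool.Agent.Helper298
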