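import Pool.Agent.Helper298_KF.Defs
import Pool.Agent.Helper298_KF.L_card_homs_le

set_option autoImplicit false
open scoped Classical commutatorElement

namespace Pool.Agent.Helper298



/- TARGET PCP.index_commutator.
PROOF.
For each i there is a maximal (index p) normal subgroup M_i of the p-group H containing B i (B i is a proper subgroup since card = s < s^2). It contains the commutator subgroup because H/M_i has prime order.
There is a hom chi_i : H ->* C^units with kernel exactly M_i (H/M_i is cyclic of prime order p; embed it in the p-th roots of unity; or use a nontrivial hom H/M_i -> C^units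
(CommGroup.exists_apply_ne_one_of_hasEnoughRootsOfUnity) which is injective because the order is prime). So chi_i is not trivial, trivial on B i and on the commutator. For i<>j chi_i <> chi_j
because otherwise it would be trivial on B i and B j, which generate H (PCP.exists_mul). So with the trivial hom there are at least t+2 homs, all trivial on commutator H. card_homs_le gives t+2 <= index.
(It is enough to have for each i a nontrivial hom trivial on B i; an alternative to maximal subgroups: B i join commutator H is proper because the commutator lies in the Frattini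
subgroup of a nilpotent group (H nilpotent), then take a nontrivial character of the abelian quotient H/(B i join commutator H).)
-/
section
variable {H ι : Type} [Group H] [Fintype H] [Fintype ι] {s t : ℕ} {B : ι → Subgroup H}

theorem PCP.index_commutator_aux1 (h : PCP s t B) {p : ℕ} [Fact p.Prime] (hp : IsPGroup p H)
    (i : ι) : B i ⊔ commutator H ≠ ⊤ := by
  have hnil : Group.IsNilpotent H := hp.isNilpotent
  have hne : B i ≠ ⊤ := by
    intro e
    have h1 := h.cB i
    rw [e, Subgroup.card_top, h.cH] at h1
    have h2 := h.hs
    nlinarith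
  obtain ⟨M, hM, hBM⟩ := (eq_top_or_exists_le_coatom (B i)).resolve_left hne
  have hMn : M.Normal := Subgroup.NormalizerCondition.normal_of_coatom M (Group.normalizerCondition_of_isNilpotent (G := H)) hM
  have hnt : Nontrivial (H ⧸ M) := by
    rw [QuotientGroup.nontrivial_iff]
    exact hM.1
  have hlt : commutator (H ⧸ M) < ⊤ := Group.IsSolvable.commutator_lt_top_of_nontrivial (H ⧸ M)
  have hmap : (commutator H).map (QuotientGroup.mk' M) = commutator (H ⧸ M) := by
    rw [commutator_def, commutator_def, Subgroup.map_commutator,
      Subgroup.map_top_of_surjective _ (QuotientGroup.mk'_surjective M)]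
  have hcM : commutator H ≤ M := by
    have h1 : M ⊔ commutator H ≠ ⊤ := by
      intro e
      have h2 : (M ⊔ commutator H).map (QuotientGroup.mk' M) = ⊤ := by
        rw [e, Subgroup.map_top_of_surjective _ (QuotientGroup.mk'_surjective M)]
      rw [Subgroup.map_sup, hmap, QuotientGroup.map_mk'_self, bot_sup_eq] at h2
      exact hlt.ne h2
    have h3 : M ⊔ commutator H = M := by
      rcases hM.le_iff.1 (le_sup_left : M ≤ M ⊔ commutator H) with h4 | h4
      · exact absurd h4 h1
      · exact h4
    rw [← h3]; exact le_sup_right
  intro e
  exact hM.1 (top_le_iff.1 (e ▸ sup_le hBM hcM))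

theorem PCP.index_commutator_aux2 (h : PCP s t B) {p : ℕ} [Fact p.Prime] (hp : IsPGroup p H)
    (i : ι) : ∃ χ : H →* ℂˣ, χ ≠ 1 ∧ (∀ x ∈ B i, χ x = 1) ∧ ∀ x ∈ commutator H, χ x = 1 := by
  have h1 := h.index_commutator_aux1 hp i
  let L : Subgroup (Abelianization H) := (B i).map Abelianization.of
  have hL : L ≠ ⊤ := by
    intro e
    apply h1
    rw [eq_top_iff]
    intro x _
    have hx : Abelianization.of x ∈ L := by rw [e]; trivial
    obtain ⟨b, hb, hbx⟩ := hx
    have h2 : b⁻¹ * x ∈ commutator H := by
      rw [← Abelianization.ker_of, MonoidHom.mem_ker, map_mul, map_inv, hbx, inv_mul_cancel]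
    have h3 : x = b * (b⁻¹ * x) := by group
    rw [h3]
    exact Subgroup.mul_mem_sup hb h2
  have hnt : Nontrivial (Abelianization H ⧸ L) := by
    rw [QuotientGroup.nontrivial_iff]
    exact hL
  obtain ⟨a, ha⟩ := exists_ne (1 : Abelianization H ⧸ L)
  have : Finite (Abelianization H) := Finite.of_surjective _ (QuotientGroup.mk_surjective)
  obtain ⟨φ, hφ⟩ := CommGroup.exists_apply_ne_one_of_hasEnoughRootsOfUnity
    (Abelianization H ⧸ L) ℂ ha
  refine ⟨(φ.comp (QuotientGroup.mk' L)).comp Abelianization.of, ?_, ?_, ?_⟩
  · intro e
    obtain ⟨y, hy⟩ := QuotientGroup.mk'_surjective L a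
    obtain ⟨z, hz⟩ := QuotientGroup.mk_surjective y
    have h2 := DFunLike.congr_fun e z
    apply hφ
    rw [← hy, ← hz]
    exact h2
  · intro x hx
    have h2 : QuotientGroup.mk' L (Abelianization.of x) = 1 := by
      rw [QuotientGroup.mk'_apply, QuotientGroup.eq_one_iff]
      exact ⟨x, hx, rfl⟩
    show φ (QuotientGroup.mk' L (Abelianization.of x)) = 1
    rw [h2, map_one]
  · intro x hx
    have h2 : Abelianization.of x = 1 := by
      rw [← MonoidHom.mem_ker, Abelianization.ker_of]
      exact hx
    show φ (QuotientGroup.mk' L (Abelianization.of x)) = 1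
    rw [h2, map_one, map_one]

theorem PCP.index_commutator (h : PCP s t B) {p : ℕ} [Fact p.Prime] (hp : IsPGroup p H) :
    t + 2 ≤ (commutator H).index := by
  choose χ hχ1 hχB hχc using fun i => h.index_commutator_aux2 hp i
  have hinj : Function.Injective χ := by
    intro i j hij
    by_contra hne
    apply hχ1 i
    ext x
    obtain ⟨a, ha, b, hb, rfl⟩ := h.exists_mul hne x
    rw [map_mul, hχB i a ha, one_mul, hij, hχB j b hb, MonoidHom.one_apply]
  have h1 := card_homs_le (commutator H) (insert 1 (Finset.univ.image χ)) (by
    intro ψ hψ k hk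
    rcases Finset.mem_insert.1 hψ with rfl | hψ
    · rfl
    · obtain ⟨i, -, rfl⟩ := Finset.mem_image.1 hψ
      exact hχc i k hk)
  rw [Finset.card_insert_of_notMem, Finset.card_image_of_injective _ hinj, Finset.card_univ,
    h.cι] at h1
  · omega
  · intro hmem
    obtain ⟨i, -, hi⟩ := Finset.mem_image.1 hmem
    exact hχ1 i hi

end

end Pool.Agent.Helper298
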