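import Pool.Agent.Helper298_KF.Defs

set_option autoImplicit false
open scoped Classical commutatorElement

namespace Pool.Agent.Helper298

/-- a nontrivial normal subgroup of a finite p-group contains a central element of order p -/
theorem exists_normal_card_aux_center {G : Type} [Group G] [Finite G] {p : ℕ} [Fact p.Prime]
    (hG : IsPGroup p G) (N : Subgroup G) [N.Normal] (hN : N ≠ ⊥) :
    ∃ z ∈ N, z ∈ Subgroup.center G ∧ orderOf z = p := by
  have hC : IsPGroup p (ConjAct G) := hG.of_equiv ConjAct.toConjAct
  have hNt : Nontrivial N := (Subgroup.nontrivial_iff_ne_bot N).mpr hN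
  have hNp : IsPGroup p N := hG.to_subgroup N
  have hdvd : p ∣ Nat.card N := by
    rcases hNp.card_eq_or_dvd with h | h
    · exact absurd h (by
        have := Finite.one_lt_card (α := N)
        omega)
    · exact h
  have h1 : (1 : N) ∈ MulAction.fixedPoints (ConjAct G) N := fun g => smul_one g
  obtain ⟨b, hb, hb1⟩ := hC.exists_fixed_point_of_prime_dvd_card_of_fixed_point N hdvd h1
  have hbc : (b : G) ∈ Subgroup.center G := by
    rw [Subgroup.mem_center_iff]
    intro g
    have h2 := congrArg Subtype.val (hb (ConjAct.toConjAct g))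
    have h3 : ((ConjAct.toConjAct g • b : N) : G) = g * b * g⁻¹ := rfl
    rw [h3] at h2
    exact mul_inv_eq_iff_eq_mul.mp h2
  set Z : Subgroup G := N ⊓ Subgroup.center G with hZ
  have hbZ : (b : G) ∈ Z := ⟨b.2, hbc⟩
  have hZt : Nontrivial Z := ⟨⟨⟨b, hbZ⟩, 1, fun h => hb1 (by
    have h3 := congrArg Subtype.val h
    exact Subtype.ext h3.symm)⟩⟩
  have hZp : IsPGroup p Z := hG.to_subgroup Z
  have hZdvd : p ∣ Nat.card Z := by
    rcases hZp.card_eq_or_dvd with h | h
    · exact absurd h (by
        have := Finite.one_lt_card (α := Z)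
        omega)
    · exact h
  obtain ⟨z, hz⟩ := exists_prime_orderOf_dvd_card' (G := Z) p hZdvd
  refine ⟨z, z.2.1, z.2.2, ?_⟩
  rw [← hz]
  exact Subgroup.orderOf_coe z

theorem exists_normal_card_aux_build {G : Type} [Group G] [Finite G] {p : ℕ} [hp : Fact p.Prime]
    (hG : IsPGroup p G) (K : Subgroup G) [K.Normal] (j : ℕ) (hj : p ^ j ∣ Nat.card K) :
    ∃ M : Subgroup G, M.Normal ∧ M ≤ K ∧ Nat.card M = p ^ j := by
  induction j with
  | zero => exact ⟨⊥, inferInstance, bot_le, by simp⟩
  | succ j ih =>
    obtain ⟨M, hMn, hMK, hMc⟩ := ih (dvd_trans (pow_dvd_pow p (Nat.le_succ j)) hj)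
    have hpp := hp.out
    have hlt : Nat.card M < Nat.card K := by
      rw [hMc]
      exact lt_of_lt_of_le (Nat.pow_lt_pow_right hpp.one_lt (Nat.lt_succ_self j)) (Nat.le_of_dvd Nat.card_pos hj)
    set f := QuotientGroup.mk' M with hf
    have hfs : Function.Surjective f := QuotientGroup.mk'_surjective M
    have hQ : IsPGroup p (G ⧸ M) := hG.to_quotient M
    have hKb : (K.map f).Normal := Subgroup.Normal.map inferInstance f hfs
    have hKb0 : K.map f ≠ ⊥ := by
      intro h
      have h2 : K ≤ M := by
        rw [Subgroup.map_eq_bot_iff, hf, QuotientGroup.ker_mk'] at h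
        exact h
      exact absurd (Nat.card_le_card_of_injective (Subgroup.inclusion h2) (Subgroup.inclusion_injective h2)) (not_le.mpr hlt)
    obtain ⟨z, hzK, hzc, hzo⟩ := exists_normal_card_aux_center hQ (K.map f) hKb0
    have hzn : (Subgroup.zpowers z).Normal := by
      constructor
      intro x hx g
      have hxc : x ∈ Subgroup.center (G ⧸ M) := by
        have : Subgroup.zpowers z ≤ Subgroup.center (G ⧸ M) := by
          rw [Subgroup.zpowers_le]; exact hzc
        exact this hx
      rw [Subgroup.mem_center_iff] at hxc
      rw [hxc g, mul_inv_cancel_right]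
      exact hx
    refine ⟨(Subgroup.zpowers z).comap f, Subgroup.Normal.comap hzn f, ?_, ?_⟩
    · have h3 : Subgroup.zpowers z ≤ K.map f := by
        rw [Subgroup.zpowers_le]; exact hzK
      refine le_trans (Subgroup.comap_mono h3) ?_
      rw [Subgroup.comap_map_eq, hf, QuotientGroup.ker_mk']
      exact sup_le le_rfl hMK
    · have h4 : ((Subgroup.zpowers z).comap f).index = (Subgroup.zpowers z).index :=
        Subgroup.index_comap_of_surjective _ hfs
      have h5 := Subgroup.card_mul_index ((Subgroup.zpowers z).comap f)
      have h6 := Subgroup.card_mul_index M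
      have h7 := Subgroup.card_mul_index (Subgroup.zpowers z)
      rw [Nat.card_zpowers, hzo] at h7
      have h8 : M.index = Nat.card (G ⧸ M) := rfl
      rw [h4] at h5
      rw [h8, ← h7, hMc, ← h5] at h6
      have h9 : 0 < (Subgroup.zpowers z).index := Nat.pos_of_ne_zero Subgroup.index_ne_zero_of_finite
      have h10 : p ^ (j + 1) * (Subgroup.zpowers z).index
          = Nat.card ((Subgroup.zpowers z).comap f) * (Subgroup.zpowers z).index := by
        rw [← h6]; ring
      exact (Nat.eq_of_mul_eq_mul_right h9 h10).symm

/- TARGET exists_normal_card.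
PROOF.
Induction. It is enough to show: if K is a normal subgroup of the finite p-group G with K not trivial then there is a normal subgroup M of G, M <= K, of index p in K
(card M * p = card K); then iterate k times (p^(k+1) divides card K: first M1 with card M1 * p = card K, p^k divides card M1, ...).
Alternatively build from below: claim: for each j with p^j dividing card K there is a normal M <= K with card M = p^j (then use card K = p^a and j = a-k). Step j to j+1:
M normal of order p^j, M<K. The image Kb of K in G/M is a nontrivial normal subgroup of the p-group G/M so it meets the center of G/M nontrivially (G acts by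
conjugation on Kb, the number of fixed points is divisible by p: IsPGroup.card_modEq_card_fixedPoints / IsPGroup.exists_fixed_point_of_prime_dvd_card_of_fixed_point,
or a library lemma on normal subgroups of nilpotent groups), take z of order p in Kb and central; the preimage of the subgroup generated by z is
normal in G, contained in K, of order p^(j+1).
-/
theorem exists_normal_card {G : Type} [Group G] [Fintype G] {p : ℕ} [Fact p.Prime]
    (hG : IsPGroup p G) (K : Subgroup G) [K.Normal] (k : ℕ) (hk : p ^ k ∣ Nat.card K) :
    ∃ M : Subgroup G, M.Normal ∧ M ≤ K ∧ Nat.card M * p ^ k = Nat.card K := by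
  have hp : p.Prime := Fact.out
  obtain ⟨a, ha⟩ := (IsPGroup.iff_card (p := p) (G := K)).mp (hG.to_subgroup K)
  rw [ha] at hk
  have hka : k ≤ a := (Nat.pow_dvd_pow_iff_le_right hp.one_lt).mp hk
  obtain ⟨M, hMn, hMK, hMc⟩ := exists_normal_card_aux_build hG K (a - k) (by
    rw [ha]; exact pow_dvd_pow p (Nat.sub_le a k))
  refine ⟨M, hMn, hMK, ?_⟩
  rw [hMc, ha, ← pow_add, Nat.sub_add_cancel hka]

end Pool.Agent.Helper298
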