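import Pool.Agent.Helper298_KF.Defs
import Pool.Agent.Helper298_KF.L_exists_normal_card
import Pool.Agent.Helper298_KF.L_PCP_index_commutator
import Pool.Agent.Helper298_KF.L_PCP_card_abelian
import Pool.Agent.Helper298_KF.L_PCP_card_small

set_option autoImplicit false
open scoped Classical commutatorElement

namespace Pool.Agent.Helper298









/- Auxiliary facts for PCP.comm_of_odd. -/

theorem PCP.comm_of_odd_aux_inf_sup {H : Type} [Group H] [Finite H] (B K : Subgroup H) [K.Normal] :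
    Nat.card (B ⊓ K : Subgroup H) * Nat.card (B ⊔ K : Subgroup H) =
      Nat.card B * Nat.card K := by
  have h1 := Subgroup.relIndex_mul_relIndex (⊥ : Subgroup H) K (B ⊔ K) bot_le le_sup_right
  have h2 := Subgroup.relIndex_mul_relIndex (⊥ : Subgroup H) (B ⊓ K) B bot_le inf_le_left
  rw [Subgroup.relIndex_bot_left, Subgroup.relIndex_bot_left, Subgroup.relIndex_sup_right] at h1
  rw [Subgroup.relIndex_bot_left, Subgroup.relIndex_bot_left, Subgroup.inf_relIndex_left] at h2
  rw [← h1, ← h2]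
  ring

/-- the final inequality -/
theorem PCP.comm_of_odd_aux_num {p q t P c j j' : ℕ} (hp : 3 ≤ p) (hq : 3 ≤ q) (hP9 : 9 ≤ P)
    (hPq : P ≤ q ^ 2) (ht : q ^ 3 ≤ t) (hc : c * p = P * t) (h1 : j * (p - 1) ≤ (q + 1) * (P - 1))
    (h2 : j' * (P - 1) + 1 ≤ c) (hjj : j + j' = t + 1) : False := by
  obtain ⟨P', rfl⟩ : ∃ P', P = P' + 1 := ⟨P - 1, by omega⟩
  obtain ⟨p', rfl⟩ : ∃ p', p = p' + 3 := ⟨p - 3, by omega⟩
  obtain ⟨q', rfl⟩ : ∃ q', q = q' + 3 := ⟨q - 3, by omega⟩
  simp only [Nat.add_sub_cancel] at h1 h2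
  have e1 : p' + 3 - 1 = p' + 2 := by omega
  rw [e1] at h1
  have a1 : j * 2 ≤ (q' + 3 + 1) * P' := by nlinarith
  have a2 : (q' + 3 + 1) * P' + (q' + 4) ≤ (q' + 4) * (q' + 3) ^ 2 := by nlinarith
  have b1 : 3 * c ≤ (P' + 1) * t := by nlinarith
  have b2 : 3 * (j' * P') + 3 ≤ (P' + 1) * t := by omega
  have b3 : 8 * (P' + 1) ≤ 9 * P' := by omega
  have b4 : 24 * (j' * P') + 24 ≤ 9 * P' * t := by nlinarith
  have b5 : 8 * j' ≤ 3 * t := by
    by_contra hcon
    push Not at hcon
    have : 3 * P' * (3 * t) < 3 * P' * (8 * j') := Nat.mul_lt_mul_of_pos_left hcon (by omega)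
    nlinarith
  have c1 : 5 * t + 8 + 4 * (q' + 4) ≤ 4 * ((q' + 4) * (q' + 3) ^ 2) := by omega
  nlinarith

/- TARGET PCP.comm_of_odd. -/
section
variable {H ι : Type} [Group H] [Fintype H] [Fintype ι] {s t : ℕ} {B : ι → Subgroup H}

theorem PCP.comm_of_odd (h : PCP s t B) {p : ℕ} [Fact p.Prime] (hp : IsPGroup p H)
    (hp3 : 3 ≤ p) {k m : ℕ} (ht : t = p ^ m) (hs : s = p ^ (k + m)) (hk : 1 ≤ k)
    (hkm : 3 * k ≤ m) (x y : H) : x * y = y * x := by
  by_contra hxy
  have hna : ∃ x y : H, x * y ≠ y * x := ⟨x, y, hxy⟩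
  have hp1 : 1 < p := by omega
  have hpp : p.Prime := Fact.out
  have hpow : ∀ {a b : ℕ}, p ^ a = p ^ b → a = b := fun {a b} e => Nat.pow_right_injective hp1 e
  have hlt : ∀ {a b : ℕ}, p ^ a < p ^ b → a < b := fun {a b} e => (Nat.pow_lt_pow_iff_right hp1).1 e
  have hcardp : ∀ K : Subgroup H, ∃ n, Nat.card K = p ^ n := fun K =>
    (hp.to_subgroup K).exists_card_eq
  obtain ⟨c, hc⟩ := hcardp (commutator H)
  obtain ⟨d, hd⟩ := hp.index (commutator H)
  have hH : Nat.card H = p ^ (2 * (k + m)) := by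
    rw [h.cH, hs, ← pow_mul]
    congr 1
    omega
  have hcd : c + d = 2 * (k + m) := by
    apply hpow
    rw [pow_add, ← hc, ← hd, Subgroup.card_mul_index, hH]
  -- step 1
  have hd1 : m + 1 ≤ d := by
    have h1 := h.index_commutator hp
    rw [hd, ht] at h1
    exact hlt (by omega)
  -- the size of t
  have hq3 : 3 ≤ p ^ k := by
    calc 3 ≤ p := hp3
      _ = p ^ 1 := (pow_one p).symm
      _ ≤ p ^ k := Nat.pow_le_pow_right (by omega) hk
  have htq : (p ^ k) ^ 3 ≤ t := by
    rw [ht, ← pow_mul]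
    exact Nat.pow_le_pow_right (by omega) (by omega)
  have ht27 : 27 ≤ t := by
    have : 3 ^ 3 ≤ (p ^ k) ^ 3 := Nat.pow_le_pow_left hq3 3
    omega
  have hst : s = p ^ k * t := by rw [hs, ht, pow_add]
  have hcι : (Finset.univ : Finset ι).card = t + 1 := by rw [Finset.card_univ]; exact h.cι
  have hdj : ∀ J : Finset ι, ∀ i ∈ J, ∀ j ∈ J, i ≠ j → ∀ x,
      x ∈ (B i ⊓ commutator H : Subgroup H) → x ∈ (B j ⊓ commutator H : Subgroup H) → x = 1 :=
    fun J i _ j _ hij x hx hy => h.dj i j hij x hx.1 hy.1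
  -- step 2
  have hc1 : m + 1 ≤ c := by
    by_contra hcm
    have hct : Nat.card (commutator H) ≤ t := by
      rw [hc, ht]
      exact Nat.pow_le_pow_right (by omega) (by omega)
    set J : Finset ι := Finset.univ.filter
      (fun i => Nat.card (B i ⊓ commutator H : Subgroup H) = 1) with hJ
    set J' : Finset ι := Finset.univ.filter
      (fun i => ¬ Nat.card (B i ⊓ commutator H : Subgroup H) = 1) with hJ'
    have hJJ : J.card + J'.card = t + 1 := by
      rw [hJ, hJ', Finset.card_filter_add_card_filter_not, hcι]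
    have h1 := disjoint_count J' (fun i => (B i ⊓ commutator H : Subgroup H)) 3 (commutator H)
      (by
        intro i hi
        obtain ⟨n, hn⟩ := hcardp (B i ⊓ commutator H)
        have hne := (Finset.mem_filter.mp hi).2
        rw [hn] at hne ⊢
        have hn0 : n ≠ 0 := by rintro rfl; simp at hne
        calc 3 ≤ p := hp3
          _ = p ^ 1 := (pow_one p).symm
          _ ≤ p ^ n := Nat.pow_le_pow_right (by omega) (by omega))
      (fun i _ => inf_le_right) (hdj J')
    have h2 := h.card_abelian hp hna J (by omega) (by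
      intro i hi x hx y hy
      have hone := (Finset.mem_filter.mp hi).2
      rw [Subgroup.card_eq_one] at hone
      have h3 : ⁅x, y⁆ ∈ (B i ⊓ commutator H : Subgroup H) := by
        refine ⟨?_, Subgroup.commutator_mem_commutator (Subgroup.mem_top x) (Subgroup.mem_top y)⟩
        rw [commutatorElement_def]
        exact (B i).mul_mem ((B i).mul_mem ((B i).mul_mem hx hy) ((B i).inv_mem hx))
          ((B i).inv_mem hy)
      rw [hone, Subgroup.mem_bot, commutatorElement_eq_one_iff_mul_comm] at h3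
      exact h3)
    obtain ⟨j, hj⟩ : ∃ j, J.card = j + 1 := ⟨J.card - 1, by omega⟩
    rw [hj, Nat.add_sub_cancel, hst] at h2
    have h4 : t + 1 ≤ 2 * j := by omega
    have h5 : 9 * p ^ k ≤ t := by
      have : 9 * p ^ k ≤ (p ^ k) ^ 3 := by nlinarith [Nat.pow_le_pow_left hq3 2]
      omega
    nlinarith
  -- step 3
  have hk2 : c - m + 1 ≤ 2 * k := by omega
  obtain ⟨M, hMn, hMle, hMc⟩ := exists_normal_card hp (commutator H) (c - m + 1)
    (by rw [hc]; exact pow_dvd_pow p (by omega))
  set P := p ^ (c - m + 1) with hPdef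
  have hP9 : 9 ≤ P := by
    calc 9 = 3 ^ 2 := by norm_num
      _ ≤ p ^ 2 := Nat.pow_le_pow_left hp3 2
      _ ≤ p ^ (c - m + 1) := Nat.pow_le_pow_right (by omega) (by omega)
  have hPq : P ≤ (p ^ k) ^ 2 := by
    rw [← pow_mul]
    exact Nat.pow_le_pow_right (by omega) (by omega)
  have hcp : Nat.card (commutator H) * p = P * t := by
    rw [hc, ht, hPdef, ← pow_succ, ← pow_add]
    congr 1
    omega
  set J : Finset ι := Finset.univ.filter
    (fun i => Nat.card (B i ⊓ commutator H : Subgroup H) < P) with hJ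
  set J' : Finset ι := Finset.univ.filter
    (fun i => ¬ Nat.card (B i ⊓ commutator H : Subgroup H) < P) with hJ'
  have hJJ : J.card + J'.card = t + 1 := by
    rw [hJ, hJ', Finset.card_filter_add_card_filter_not, hcι]
  have h1 := h.card_small hp hna M hMle P (p ^ k) hMc J (fun i hi => (Finset.mem_filter.mp hi).2)
    (by
      intro i hi
      have hlt' := (Finset.mem_filter.mp hi).2
      obtain ⟨a, ha⟩ := hcardp (B i ⊓ commutator H)
      obtain ⟨b, hb⟩ := hcardp (B i ⊔ commutator H)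
      obtain ⟨l, hl⟩ := hp.index (B i ⊔ commutator H)
      have e1 : a + b = k + m + c := by
        apply hpow
        rw [pow_add, ← ha, ← hb, PCP.comm_of_odd_aux_inf_sup, h.cB, hs, hc, ← pow_add]
      have e2 : b + l = 2 * (k + m) := by
        apply hpow
        rw [pow_add, ← hb, ← hl, Subgroup.card_mul_index, hH]
      rw [ha] at hlt'
      have e3 := hlt hlt'
      rw [hl]
      exact Nat.pow_le_pow_right (by omega) (by omega))
  have h2 := disjoint_count J' (fun i => (B i ⊓ commutator H : Subgroup H)) P (commutator H)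
    (fun i hi => not_lt.mp (Finset.mem_filter.mp hi).2) (fun i _ => inf_le_right) (hdj J')
  exact PCP.comm_of_odd_aux_num hp3 hq3 hP9 hPq htq hcp h1 h2 hJJ

end

end Pool.Agent.Helper298
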