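import Pool.Agent.Helper298_KF.Defs

set_option autoImplicit false
open scoped Classical commutatorElement

namespace Pool.Agent.Helper298

section
variable {H ι : Type} [Group H] [Fintype H] [Fintype ι] {s t : ℕ} {B : ι → Subgroup H}

open scoped Pointwise in
theorem PCP.sylow_aux1 (h : PCP s t B) {l : ℕ} [Fact l.Prime] (Q : Sylow l H) (i : ι) :
    ∃ (g : H) (T : Subgroup H), T ≤ Q.1 ∧ Nat.card T = l ^ (s.factorization l) ∧
      ∀ x ∈ T, g⁻¹ * x * g ∈ B i := by
  let P : Sylow l (B i) := default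
  let S : Subgroup H := P.1.map (B i).subtype
  have hS : Nat.card S = l ^ (s.factorization l) := by
    have h1 : Nat.card S = Nat.card P.1 :=
      Nat.card_congr (P.1.equivMapOfInjective _ (B i).subtype_injective).toEquiv.symm
    rw [h1]
    have h2 := P.card_eq_multiplicity
    rw [h.cB i] at h2
    exact h2
  have hSp : IsPGroup l S := IsPGroup.of_card hS
  obtain ⟨Q', hQ'⟩ := hSp.exists_le_sylow
  obtain ⟨g, hg⟩ := MulAction.exists_smul_eq H Q' Q
  refine ⟨g, MulAut.conj g • S, ?_, ?_, ?_⟩
  · rw [← hg]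
    change MulAut.conj g • S ≤ ((g • Q' : Sylow l H) : Subgroup H)
    rw [Sylow.coe_subgroup_smul]
    exact Subgroup.pointwise_smul_le_pointwise_smul_iff.2 hQ'
  · rw [← hS]
    exact (Nat.card_congr (Subgroup.equivSMul (MulAut.conj g) S).toEquiv).symm
  · intro x hx
    rw [Subgroup.mem_pointwise_smul_iff_inv_smul_mem, ← map_inv, MulAut.smul_def,
      MulAut.conj_apply, inv_inv] at hx
    obtain ⟨y, _, hy⟩ := hx
    rw [← hy]
    exact y.2

/-- TARGET -/
theorem PCP.sylow (h : PCP s t B) {l : ℕ} (hl : l.Prime) (hls : l ∣ s) :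
    t ≤ l ^ (s.factorization l) := by
  haveI : Fact l.Prime := ⟨hl⟩
  let Q : Sylow l H := default
  choose g T hTQ hTc hTB using fun i => PCP.sylow_aux1 h Q i
  have hs0 : s ≠ 0 := by have := h.hs; omega
  have he : 1 ≤ s.factorization l := (hl.dvd_iff_one_le_factorization hs0).1 hls
  have hQ : Nat.card Q.1 = (l ^ (s.factorization l)) ^ 2 := by
    have h1 := Q.card_eq_multiplicity
    rw [h.cH, Nat.factorization_pow] at h1
    rw [← pow_mul, mul_comm]
    exact h1
  have hcount := disjoint_count Finset.univ T (l ^ (s.factorization l)) Q.1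
    (fun i _ => (hTc i).ge) (fun i _ => hTQ i) (by
      intro i _ j _ hij x hx hy
      have h1 := hTB i x hx
      have h2 := hTB j x hy
      have h3 := h.conj_dj hij (g := (g j)⁻¹ * g i) h1 (by
        have : (g j)⁻¹ * g i * ((g i)⁻¹ * x * g i) * ((g j)⁻¹ * g i)⁻¹ = (g j)⁻¹ * x * g j := by
          group
        rw [this]
        exact h2)
      have h4 : x = g i * ((g i)⁻¹ * x * g i) * (g i)⁻¹ := by group
      rw [h4, h3]
      group)
  rw [Finset.card_univ, h.cι, hQ] at hcount
  have hk : 2 ≤ l ^ (s.factorization l) :=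
    hl.two_le.trans (Nat.le_self_pow (by omega) l)
  by_contra hc
  push Not at hc
  obtain ⟨k, hk'⟩ : ∃ k, l ^ (s.factorization l) = k + 1 := ⟨l ^ (s.factorization l) - 1, by omega⟩
  rw [hk'] at hcount hk hc
  simp only [Nat.add_sub_cancel] at hcount
  nlinarith

end

end Pool.Agent.Helper298
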