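import Pool.Agent.Helper298_KF.Defs
import Pool.Agent.Helper298_KF.L_PCP_sylow

set_option autoImplicit false
open scoped Classical commutatorElement

namespace Pool.Agent.Helper298



section
variable {H ι : Type} [Group H] [Fintype H] [Fintype ι] {s t : ℕ} {B : ι → Subgroup H}

theorem PCP.prime_pow (h : PCP s t B) (hst : s < t ^ 2) : ∃ p n : ℕ, p.Prime ∧ s = p ^ n := by
  have hs1 : s ≠ 1 := h.hs.ne'
  have hs0 : s ≠ 0 := by have := h.hs; omega
  obtain ⟨p, hp, hps⟩ := Nat.exists_prime_and_dvd hs1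
  by_contra hcon
  have hne : s ≠ p ^ (s.factorization p) := fun h0 => hcon ⟨p, _, hp, h0⟩
  have hdvd : p ^ (s.factorization p) ∣ s := Nat.ordProj_dvd s p
  obtain ⟨m, hm⟩ := hdvd
  have hm1 : m ≠ 1 := by
    rintro rfl
    rw [mul_one] at hm
    exact hne hm
  obtain ⟨l, hl, hlm⟩ := Nat.exists_prime_and_dvd hm1
  have hlp : l ≠ p := by
    rintro rfl
    have h1 : m = s / l ^ (s.factorization l) :=
      (Nat.div_eq_of_eq_mul_right (pow_pos hl.pos _) hm).symm
    rw [h1] at hlm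
    exact Nat.not_dvd_ordCompl hl hs0 hlm
  have hls : l ∣ s := by rw [hm]; exact hlm.mul_left _
  have hcop : Nat.Coprime (p ^ (s.factorization p)) (l ^ (s.factorization l)) :=
    Nat.Coprime.pow _ _ ((Nat.coprime_primes hp hl).2 hlp.symm)
  have hd : p ^ (s.factorization p) * l ^ (s.factorization l) ∣ s :=
    hcop.mul_dvd_of_dvd_of_dvd (Nat.ordProj_dvd s p) (Nat.ordProj_dvd s l)
  have h1 := Nat.le_of_dvd (Nat.pos_of_ne_zero hs0) hd
  have h2 := Nat.mul_le_mul (h.sylow hp hps) (h.sylow hl hls)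
  rw [← sq] at h2
  omega

end

end Pool.Agent.Helper298
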