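import Pool.Agent.Helper298_KF.Defs

set_option autoImplicit false
open scoped Classical commutatorElement

namespace Pool.Agent.Helper298

theorem not_dvd_sq {p k m : ℕ} (hp : p.Prime) (hm : 1 ≤ m) (h : 1 ≤ k ∨ p ≠ 2) :
    ¬ (p ^ (k + m) + p ^ m) ∣ (p ^ (k + m)) ^ 2 := by
  intro hd
  have h1 : (p ^ k + 1) ∣ p ^ ((k + m) * 2) := by
    have e : p ^ (k + m) + p ^ m = p ^ m * (p ^ k + 1) := by ring
    rw [e, ← pow_mul] at hd
    exact dvd_trans (dvd_mul_left _ _) hd
  obtain ⟨j, hj, hj2⟩ := (Nat.dvd_prime_pow hp).1 h1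
  rcases Nat.eq_zero_or_pos k with hk | hk
  · subst hk
    have hp2 : p ≠ 2 := by
      rcases h with h | h
      · omega
      · exact h
    have h2 : (2 : ℕ) = p ^ j := by simpa using hj2
    rcases Nat.eq_zero_or_pos j with hj0 | hj0
    · subst hj0
      simp at h2
    · have : p ∣ 2 := by
        rw [h2]
        exact dvd_pow_self p (by omega)
      exact hp2 ((Nat.prime_dvd_prime_iff_eq hp Nat.prime_two).1 this)
  · rcases Nat.eq_zero_or_pos j with hj0 | hj0
    · subst hj0
      have h6 : 0 < p ^ k := pow_pos hp.pos k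
      rw [pow_zero] at hj2
      omega
    · have h3 : p ∣ p ^ k + 1 := by
        rw [hj2]
        exact dvd_pow_self p (by omega)
      have h4 : p ∣ p ^ k := dvd_pow_self p (by omega)
      have h5 : p ∣ 1 := (Nat.dvd_add_right h4).1 h3
      exact hp.one_lt.ne' (Nat.dvd_one.1 h5)

end Pool.Agent.Helper298
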