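import Pool.Agent.Helper298_KF.Defs

set_option autoImplicit false
open scoped Classical commutatorElement

namespace Pool.Agent.Helper298

theorem three_k_le {p k m : ℕ} (hp : p.Prime) (hk : 1 ≤ k) (hkm : k < m)
    (h : (p ^ (k + m) + p ^ m) ∣ (p ^ m + 1) * (p ^ (k + m)) ^ 2) : 3 * k ≤ m := by
  have hp2 : 2 ≤ p := hp.two_le
  have hppos : 0 < p := by omega
  -- coprimality
  have hcop : Nat.Coprime (p ^ k + 1) p := by
    obtain ⟨j, rfl⟩ : ∃ j, k = j + 1 := ⟨k - 1, by omega⟩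
    rw [Nat.coprime_comm, Nat.Prime.coprime_iff_not_dvd hp]
    intro hd
    have h1 : p ∣ p ^ (j + 1) := dvd_pow_self p (by omega)
    have h2 : p ∣ 1 := (Nat.dvd_add_right h1).1 hd
    have := Nat.le_of_dvd one_pos h2
    omega
  have hdiv0 : (p ^ k + 1) ∣ (p ^ m + 1) * (p ^ (k + m)) ^ 2 := by
    refine Dvd.dvd.trans ⟨p ^ m, ?_⟩ h
    ring
  have hdiv : (p ^ k + 1) ∣ p ^ m + 1 := by
    refine Nat.Coprime.dvd_of_dvd_mul_right (m := p ^ m + 1) (n := (p ^ (k + m)) ^ 2) ?_ hdiv0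
    exact Nat.Coprime.pow_right _ (Nat.Coprime.pow_right _ hcop)
  -- first reduction
  set q := p ^ k with hq
  have hqpos : 0 < q := by positivity
  have hm1 : p ^ m = q * p ^ (m - k) := by
    rw [hq, ← pow_add]; congr 1; omega
  have ht1 : 2 ≤ p ^ (m - k) := by
    calc 2 ≤ p := hp2
      _ = p ^ 1 := (pow_one p).symm
      _ ≤ p ^ (m - k) := Nat.pow_le_pow_right hppos (by omega)
  have hd1 : (q + 1) ∣ p ^ (m - k) - 1 := by
    have e : (q + 1) * p ^ (m - k) = (p ^ m + 1) + (p ^ (m - k) - 1) := by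
      rw [hm1]
      have : (q + 1) * p ^ (m - k) = q * p ^ (m - k) + p ^ (m - k) := by ring
      omega
    have h1 : (q + 1) ∣ (p ^ m + 1) + (p ^ (m - k) - 1) := ⟨_, e.symm⟩
    exact (Nat.dvd_add_right hdiv).1 h1
  have hge1 : q + 1 ≤ p ^ (m - k) - 1 := Nat.le_of_dvd (by omega) hd1
  have hlt1 : k < m - k := by
    by_contra hcon
    have : p ^ (m - k) ≤ p ^ k := Nat.pow_le_pow_right hppos (by omega)
    omega
  have hm2 : p ^ (m - k) = q * p ^ (m - 2 * k) := by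
    rw [hq, ← pow_add]; congr 1; omega
  have hd2 : (q + 1) ∣ p ^ (m - 2 * k) + 1 := by
    have e : (q + 1) * p ^ (m - 2 * k) = (p ^ (m - k) - 1) + (p ^ (m - 2 * k) + 1) := by
      have : (q + 1) * p ^ (m - 2 * k) = q * p ^ (m - 2 * k) + p ^ (m - 2 * k) := by ring
      omega
    have h1 : (q + 1) ∣ (p ^ (m - k) - 1) + (p ^ (m - 2 * k) + 1) := ⟨_, e.symm⟩
    exact (Nat.dvd_add_right hd1).1 h1
  have hge2 : q + 1 ≤ p ^ (m - 2 * k) + 1 := Nat.le_of_dvd (by omega) hd2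
  by_contra hcon
  have : p ^ (m - 2 * k) < p ^ k := Nat.pow_lt_pow_right (by omega) (by omega)
  omega

end Pool.Agent.Helper298
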