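import Pool.Agent.Helper298_KF.TwoEq
import Pool.Agent.Helper298_KF.L_PCP_prime_pow
import Pool.Agent.Helper298_KF.L_PCP_comm_of_odd
import Pool.Agent.Helper298_KF.L_KF_t_pow
import Pool.Agent.Helper298_KF.L_KF_fusion
import Pool.Agent.Helper298_KF.L_KF_dvd
import Pool.Agent.Helper298_KF.L_KF_P1
import Pool.Agent.Helper298_KF.L_KF_two_lt
import Pool.Agent.Helper298_KF.L_not_dvd_sq
import Pool.Agent.Helper298_KF.L_three_k_le

set_option autoImplicit false
open scoped Classical commutatorElement

/-! The group theoretic form of the centrality theorem, for `s < t²`. -/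

namespace Pool.Agent.Helper298

variable {G ι : Type} [Group G] [Fintype G] [Fintype ι] {s t : ℕ} {A : ι → Subgroup G}
  {N : Subgroup G}

theorem KF.central (h : KF s t A N) (hst : s < t ^ 2) : N ≤ Subgroup.center G := by
  have hN := h.nrm
  obtain ⟨p, n, hp, hs⟩ := h.pcp.prime_pow hst
  have : Fact p.Prime := ⟨hp⟩
  obtain ⟨m, ht⟩ := h.t_pow hp hs
  have hG : IsPGroup p G := by
    apply IsPGroup.of_card (n := 2 * n + m)
    rw [h.cG, hs, ht, ← pow_mul, ← pow_add]
    congr 1
    ring
  have hGN : IsPGroup p (G ⧸ N) := hG.to_quotient N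
  have hmn : m ≤ n := by
    have := h.t_le_s
    rw [hs, ht] at this
    exact (Nat.pow_le_pow_iff_right hp.one_lt).mp this
  have hm : 1 ≤ m := by
    have := h.ht
    rw [ht] at this
    by_contra hc
    have : m = 0 := by omega
    subst this
    simp at this
  obtain ⟨k, rfl⟩ : ∃ k, n = k + m := ⟨n - m, by omega⟩
  rcases Nat.eq_zero_or_pos k with hk | hk
  · -- s = t
    subst hk
    have hst' : s = t := by rw [hs, ht, Nat.zero_add]
    subst hst'
    by_cases hp2 : p = 2
    · subst hp2
      exact h.two_eq hG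
    · have hnd : ¬ (s + s) ∣ s ^ 2 := by
        have := not_dvd_sq (k := 0) hp hm (Or.inr hp2)
        rwa [Nat.zero_add, ← ht] at this
      exact h.P1 hG (h.fusion hnd)
        (comm_mem_of_quot (fun x y => PCP.comm_of_eq h.pcp x y))
  · have hnd : ¬ (s + t) ∣ s ^ 2 := by
      have := not_dvd_sq (k := k) hp hm (Or.inl hk)
      rwa [← hs, ← ht] at this
    by_cases hp2 : p = 2
    · subst hp2
      exact h.two_lt hG hnd hst
    · have hkm : k < m := by
        rw [hs, ht, ← pow_mul] at hst
        have := (Nat.pow_lt_pow_iff_right hp.one_lt).mp hst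
        omega
      have hd := h.dvd
      rw [hs, ht] at hd
      have h3 := three_k_le hp hk hkm hd
      have hp3 : 3 ≤ p := by
        have := hp.two_le
        omega
      exact h.P1 hG (h.fusion hnd)
        (comm_mem_of_quot (fun x y => PCP.comm_of_odd h.pcp hGN hp3 ht hs hk h3 x y))

end Pool.Agent.Helper298
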