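import Pool.Agent.Helper298_KF.Basic

set_option autoImplicit false
open scoped Classical commutatorElement

namespace Pool.Agent.Helper298

/-- Fusion: every element `a` of a component which is central modulo `N` satisfies
`{[a,g]} ⊇ N`. -/
def Fusion {G ι : Type} [Group G] (A : ι → Subgroup G) (N : Subgroup G) : Prop :=
  ∀ i, ∀ a ∈ A i, a ≠ 1 → (∀ g : G, ⁅a, g⁆ ∈ N) → ∀ n ∈ N, ∃ g : G, ⁅a, g⁆ = n

/-- The form `ν` on `N × G`. -/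
structure Nu {G : Type} [Group G] (N : Subgroup G) (ν : G → G → ℂˣ) : Prop where
  mul_left : ∀ n ∈ N, ∀ m ∈ N, ∀ u, ν (n * m) u = ν n u * ν m u
  mul_right : ∀ n ∈ N, ∀ u v, ν n (u * v) = ν n u * ν n v
  comm_left : ∀ m ∈ ⁅N, (⊤ : Subgroup G)⁆, ∀ u, ν m u = 1
  ne_one : ∃ n ∈ N, ∃ u, ν n u ≠ 1
  hall : ∀ g h u : G, ⁅g, h⁆ ∈ N → ⁅h, u⁆ ∈ N → ⁅u, g⁆ ∈ N →
    ν ⁅g, h⁆ u * ν ⁅h, u⁆ g * ν ⁅u, g⁆ h = 1
  of_comm : ∀ n ∈ N, ∀ u, ⁅n, u⁆ = 1 → ν n u = 1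

/-- The quadratic form data used in the case `s = t` even. -/
structure QF {G ι : Type} [Group G] (A : ι → Subgroup G) (ψ : G → ℤ) (β : G → G → ℤ) : Prop where
  b1 : ∀ g h k, β (g * h) k = β g k * β h k
  b2 : ∀ g h, β g h = β h g
  bv : ∀ g h, β g h = 1 ∨ β g h = -1
  pv : ∀ g, ψ g = 1 ∨ ψ g = -1
  pm : ∀ g h, ψ (g * h) = ψ g * ψ h * β g h
  pA : ∀ i, ∀ a ∈ A i, ψ a = 1
  ne : ∃ g h, β g h = -1

end Pool.Agent.Helper298
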