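import Pool.Agent.Helper298_KF.Higman
import Pool.Agent.Helper298_KF.Basic

set_option autoImplicit false
open scoped Classical

/-! The group data of an elation generalized quadrangle with a center of symmetry. -/

namespace Pool.Agent.Helper298

section count
variable {P L : Type*} [Fintype P] [Fintype L] {I : P → L → Prop} {s t : ℕ}

namespace GQ

/-- The point of a line off `x` which is collinear with `x`. -/
theorem near_pt (h : GQ I s t) {x : P} {M : L} (hM : ¬ I x M) :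
    ∃ u U, I u M ∧ I x U ∧ I u U ∧ ∀ p, I p M → (∃ l, I x l ∧ I p l) → p = u := by
  obtain ⟨u, U, huM, hxU, huU⟩ := h.proj hM
  refine ⟨u, U, huM, hxU, huU, ?_⟩
  rintro p hpM ⟨l, hxl, hpl⟩
  exact (h.tri hM hpM huM hxl hpl hxU huU).1

theorem card_far_on (h : GQ I s t) {x : P} {M : L} (hM : ¬ I x M) :
    (Finset.univ.filter (fun p => I p M ∧ ¬ ∃ l, I x l ∧ I p l)).card = s := by
  obtain ⟨u, U, huM, hxU, huU, huniq⟩ := h.near_pt hM
  have : (Finset.univ.filter (fun p => I p M ∧ ¬ ∃ l, I x l ∧ I p l)) =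
      (Finset.univ.filter (fun p => I p M)).erase u := by
    ext p
    simp only [Finset.mem_filter, Finset.mem_univ, true_and, Finset.mem_erase]
    constructor
    · rintro ⟨h1, h2⟩
      refine ⟨?_, h1⟩
      rintro rfl
      exact h2 ⟨U, hxU, huU⟩
    · rintro ⟨h1, h2⟩
      exact ⟨h2, fun h3 => h1 (huniq p h2 h3)⟩
  rw [this, Finset.card_erase_of_mem (by simpa using huM), h.cl M]
  simp

theorem card_far (h : GQ I s t) (x : P) :
    (Finset.univ.filter (fun p => ¬ ∃ l, I x l ∧ I p l)).card = s ^ 2 * t := by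
  obtain ⟨U, hU⟩ : ∃ U, I x U := by
    have h1 := h.cp x
    have h2 : 0 < (Finset.univ.filter (fun l => I x l)).card := by omega
    obtain ⟨U, hU⟩ := Finset.card_pos.mp h2
    exact ⟨U, by simpa using hU⟩
  have e := dc (Finset.univ.filter (fun p => ¬ ∃ l, I x l ∧ I p l))
    (Finset.univ.filter (fun N => meets I N U ∧ ¬ I x N)) I
  have e1 : ∀ p ∈ (Finset.univ.filter (fun p => ¬ ∃ l, I x l ∧ I p l)),
      ((Finset.univ.filter (fun N => meets I N U ∧ ¬ I x N)).filter (fun N => I p N)).card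
        = 1 := by
    intro p hp
    simp only [Finset.mem_filter, Finset.mem_univ, true_and] at hp
    have hpU : ¬ I p U := fun hh => hp ⟨U, hU, hh⟩
    obtain ⟨m, hm1, hm2⟩ := h.dproj hpU
    rw [Finset.card_eq_one]
    refine ⟨m, ?_⟩
    ext N
    simp only [Finset.mem_filter, Finset.mem_univ, true_and, Finset.mem_singleton]
    constructor
    · rintro ⟨⟨h2, _⟩, h3⟩
      exact h.dproj_unique hpU h3 h2 hm1 hm2
    · rintro rfl
      exact ⟨⟨hm2, fun hh => hp ⟨N, hh, hm1⟩⟩, hm1⟩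
  have e2 : ∀ N ∈ (Finset.univ.filter (fun N => meets I N U ∧ ¬ I x N)),
      ((Finset.univ.filter (fun p => ¬ ∃ l, I x l ∧ I p l)).filter (fun p => I p N)).card
        = s := by
    intro N hN
    simp only [Finset.mem_filter, Finset.mem_univ, true_and] at hN
    rw [← h.card_far_on hN.2]
    congr 1
    ext p
    simp only [Finset.mem_filter, Finset.mem_univ, true_and]
    tauto
  rw [Finset.sum_congr rfl e1, Finset.sum_congr rfl e2] at e
  simp only [Finset.sum_const, smul_eq_mul, mul_one] at e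
  have h3 : (Finset.univ.filter (fun N => meets I N U)).card =
      (Finset.univ.filter (fun N => I x N)).card +
      (Finset.univ.filter (fun N => meets I N U ∧ ¬ I x N)).card := by
    rw [← Finset.card_filter_add_card_filter_not (s := Finset.univ.filter (fun N => meets I N U))
      (fun N => I x N)]
    congr 1
    · congr 1
      ext N
      simp only [Finset.mem_filter, Finset.mem_univ, true_and]
      exact ⟨fun h1 => h1.2, fun h1 => ⟨⟨x, h1, hU⟩, h1⟩⟩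
    · congr 1
      ext N; simp
  rw [h.card_meet U, h.cp x] at h3
  have h4 : (Finset.univ.filter (fun N => meets I N U ∧ ¬ I x N)).card = s * t := by
    have : (s + 1) * t = s * t + t := by ring
    omega
  rw [e, h4]
  ring

/-- the points collinear with two noncollinear points `v, w`, other than a given one -/
theorem card_perp (h : GQ I s t) {x v w : P} (hvw : ¬ ∃ l, I v l ∧ I w l) (hxv : x ≠ v)
    (h1 : ∃ l, I x l ∧ I v l) (h2 : ∃ l, I x l ∧ I w l) :
    (Finset.univ.filter (fun a => a ≠ x ∧ (∃ l, I a l ∧ I v l) ∧ (∃ l, I a l ∧ I w l))).card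
      = t := by
  obtain ⟨U, hxU, hvU⟩ := h1
  obtain ⟨U', hxU', hwU'⟩ := h2
  have hwU : ¬ I w U := fun hh => hvw ⟨U, hvU, hh⟩
  have e := dc (Finset.univ.filter
      (fun a => a ≠ x ∧ (∃ l, I a l ∧ I v l) ∧ (∃ l, I a l ∧ I w l)))
    ((Finset.univ.filter (fun l => I v l)).erase U) I
  have e1 : ∀ a ∈ (Finset.univ.filter
      (fun a => a ≠ x ∧ (∃ l, I a l ∧ I v l) ∧ (∃ l, I a l ∧ I w l))),
      (((Finset.univ.filter (fun l => I v l)).erase U).filter (fun l => I a l)).card = 1 := by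
    intro a ha
    simp only [Finset.mem_filter, Finset.mem_univ, true_and] at ha
    obtain ⟨hax, ⟨l, hal, hvl⟩, ⟨m, ham, hwm⟩⟩ := ha
    have hav : a ≠ v := by
      rintro rfl
      exact hvw ⟨m, ham, hwm⟩
    have hlU : l ≠ U := by
      rintro rfl
      exact hax (h.tri hwU hal hxU hwm ham hwU' hxU').1
    rw [Finset.card_eq_one]
    refine ⟨l, ?_⟩
    ext k
    simp only [Finset.mem_filter, Finset.mem_univ, true_and, Finset.mem_singleton,
      Finset.mem_erase]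
    constructor
    · rintro ⟨⟨_, h4⟩, h5⟩
      exact h.pl a v k l hav h5 h4 hal hvl
    · rintro rfl
      exact ⟨⟨hlU, hvl⟩, hal⟩
  have e2 : ∀ l ∈ ((Finset.univ.filter (fun l => I v l)).erase U),
      ((Finset.univ.filter
      (fun a => a ≠ x ∧ (∃ l, I a l ∧ I v l) ∧ (∃ l, I a l ∧ I w l))).filter
        (fun a => I a l)).card = 1 := by
    intro l hl
    simp only [Finset.mem_filter, Finset.mem_univ, true_and, Finset.mem_erase] at hl
    obtain ⟨hlU, hvl⟩ := hl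
    have hwl : ¬ I w l := fun hh => hvw ⟨l, hvl, hh⟩
    obtain ⟨a, m, hal, hwm, ham⟩ := h.proj hwl
    rw [Finset.card_eq_one]
    refine ⟨a, ?_⟩
    ext b
    simp only [Finset.mem_filter, Finset.mem_univ, true_and, Finset.mem_singleton]
    constructor
    · rintro ⟨⟨_, _, ⟨m', hbm', hwm'⟩⟩, hbl⟩
      exact (h.tri hwl hbl hal hwm' hbm' hwm ham).1
    · rintro rfl
      refine ⟨⟨?_, ⟨l, hal, hvl⟩, ⟨m, ham, hwm⟩⟩, hal⟩
      rintro rfl
      exact hlU (h.pl _ v l U hxv hal hvl hxU hvU)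
  rw [Finset.sum_congr rfl e1, Finset.sum_congr rfl e2] at e
  simp only [Finset.sum_const, smul_eq_mul, mul_one] at e
  rw [e, Finset.card_erase_of_mem (by simpa using hvU), h.cp v]
  simp

end GQ

end count

variable {P L : Type} [Fintype P] [Fintype L] {I : P → L → Prop} {s t : ℕ} {x : P}
  {G : Subgroup (Equiv.Perm P × Equiv.Perm L)}

/-- The stabiliser of a line in the elation group. -/
def lineStab (G : Subgroup (Equiv.Perm P × Equiv.Perm L)) (M : L) : Subgroup G where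
  carrier := {g | g.1.2 M = M}
  mul_mem' := by
    intro a b ha hb
    have ha' : a.1.2 M = M := ha
    have hb' : b.1.2 M = M := hb
    show a.1.2 (b.1.2 M) = M
    rw [hb', ha']
  one_mem' := rfl
  inv_mem' := by
    intro a ha
    have ha' : a.1.2 M = M := ha
    show (a.1.2)⁻¹ M = M
    rw [Equiv.Perm.inv_eq_iff_eq]; exact ha'.symm

omit [Fintype P] [Fintype L] in
theorem mem_lineStab {M : L} {g : G} : g ∈ lineStab G M ↔ g.1.2 M = M := Iff.rfl

/-- The group of symmetries about `x` in the elation group. -/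
def symGrp (I : P → L → Prop) (x : P) (G : Subgroup (Equiv.Perm P × Equiv.Perm L)) :
    Subgroup G where
  carrier := {g | ∀ p : P, (∃ l : L, I x l ∧ I p l) → g.1.1 p = p}
  mul_mem' := by
    intro a b ha hb p hp
    show a.1.1 (b.1.1 p) = p
    rw [hb p hp, ha p hp]
  one_mem' := fun _ _ => rfl
  inv_mem' := by
    intro a ha p hp
    show (a.1.1)⁻¹ p = p
    rw [Equiv.Perm.inv_eq_iff_eq]; exact (ha p hp).symm

omit [Fintype P] [Fintype L] in
theorem mem_symGrp {g : G} : g ∈ symGrp I x G ↔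
    ∀ p : P, (∃ l : L, I x l ∧ I p l) → g.1.1 p = p := Iff.rfl

namespace EGQ

theorem near_map (h : EGQ I s t x G) {g : Equiv.Perm P × Equiv.Perm L} (hg : g ∈ G) {p : P} :
    (∃ l : L, I x l ∧ I (g.1 p) l) ↔ ∃ l : L, I x l ∧ I p l := by
  constructor
  · rintro ⟨l, h1, h2⟩
    refine ⟨l, h1, ?_⟩
    rw [← (h.fx g hg).2 l h1, h.inc g hg] at h2
    exact h2
  · rintro ⟨l, h1, h2⟩
    refine ⟨l, h1, ?_⟩
    rw [← (h.fx g hg).2 l h1, h.inc g hg]
    exact h2

theorem card_G (h : EGQ I s t x G) {y : P} (hy : ¬ ∃ l : L, I x l ∧ I y l) :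
    Nat.card G = s ^ 2 * t := by
  let f : G → {p : P // ¬ ∃ l : L, I x l ∧ I p l} := fun g =>
    ⟨g.1.1 y, fun hh => hy ((h.near_map g.2).mp hh)⟩
  have hf : Function.Bijective f := by
    constructor
    · intro a b e
      have e' : a.1.1 y = b.1.1 y := congrArg Subtype.val e
      have hn : ¬ ∃ l : L, I x l ∧ I (b.1.1 y) l := fun hh => hy ((h.near_map b.2).mp hh)
      exact Subtype.ext ((h.sharp y (b.1.1 y) hy hn).unique ⟨a.2, e'⟩ ⟨b.2, rfl⟩)
    · rintro ⟨p, hp⟩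
      obtain ⟨g, ⟨hg, hgp⟩, -⟩ := h.sharp y p hy hp
      exact ⟨⟨g, hg⟩, Subtype.ext hgp⟩
  rw [Nat.card_congr (Equiv.ofBijective f hf), Nat.card_eq_fintype_card, Fintype.card_subtype]
  exact h.toGQ.card_far x

theorem card_lineStab (h : EGQ I s t x G) {y : P} (hy : ¬ ∃ l : L, I x l ∧ I y l) {M : L}
    (hyM : I y M) : Nat.card (lineStab G M) = s := by
  have hM : ¬ I x M := fun hh => hy ⟨M, hh, hyM⟩
  let f : lineStab G M → {p : P // I p M ∧ ¬ ∃ l : L, I x l ∧ I p l} := fun g =>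
    ⟨g.1.1.1 y, by
      have h1 : g.1.1.2 M = M := g.2
      constructor
      · have h2 := (h.inc g.1.1 g.1.2 y M).mpr hyM
        rw [h1] at h2
        exact h2
      · exact fun hh => hy ((h.near_map g.1.2).mp hh)⟩
  have hf : Function.Bijective f := by
    constructor
    · intro a b e
      have e' : a.1.1.1 y = b.1.1.1 y := congrArg Subtype.val e
      have hn : ¬ ∃ l : L, I x l ∧ I (b.1.1.1 y) l := fun hh => hy ((h.near_map b.1.2).mp hh)
      exact Subtype.ext (Subtype.ext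
        ((h.sharp y (b.1.1.1 y) hy hn).unique ⟨a.1.2, e'⟩ ⟨b.1.2, rfl⟩))
    · rintro ⟨p, hpM, hp⟩
      obtain ⟨g, ⟨hg, hgp⟩, -⟩ := h.sharp y p hy hp
      have h1 : g.2 M = M := h.fix_line hg hM hy hyM (by rw [hgp]; exact hpM)
      exact ⟨⟨⟨g, hg⟩, h1⟩, Subtype.ext hgp⟩
  rw [Nat.card_congr (Equiv.ofBijective f hf), Nat.card_eq_fintype_card, Fintype.card_subtype]
  exact h.toGQ.card_far_on hM

theorem card_symGrp (h : EGQ I s t x G) {y : P} (hy : ¬ ∃ l : L, I x l ∧ I y l) {Mi Mj : L}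
    (hij : Mi ≠ Mj) (hi : I y Mi) (hj : I y Mj)
    (hS : ∃ S : Subgroup (Equiv.Perm P × Equiv.Perm L),
      (∀ σ ∈ S, (∀ (p : P) (l : L), I (σ.1 p) (σ.2 l) ↔ I p l) ∧
        ∀ p : P, (∃ l : L, I x l ∧ I p l) → σ.1 p = p) ∧
      ∀ v w : P, (∃ l : L, I x l ∧ I v l) → (∃ l : L, I x l ∧ I w l) →
        (¬ ∃ l : L, I v l ∧ I w l) →
        ∀ a b : P, a ≠ x → b ≠ x →
          (∃ l : L, I a l ∧ I v l) → (∃ l : L, I a l ∧ I w l) →
          (∃ l : L, I b l ∧ I v l) → (∃ l : L, I b l ∧ I w l) →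
          ∃ σ ∈ S, σ.1 a = b)
    (hall : ∀ σ : Equiv.Perm P × Equiv.Perm L, (∀ (p : P) (l : L), I (σ.1 p) (σ.2 l) ↔ I p l) →
      (∀ p : P, (∃ l : L, I x l ∧ I p l) → σ.1 p = p) → σ ∈ G) :
    Nat.card (symGrp I x G) = t := by
  have hxi : ¬ I x Mi := fun hh => hy ⟨Mi, hh, hi⟩
  have hxj : ¬ I x Mj := fun hh => hy ⟨Mj, hh, hj⟩
  have hyx : y ≠ x := by
    rintro rfl
    have h1 := h.cp y
    have h2 : 0 < (Finset.univ.filter (fun l => I y l)).card := by omega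
    obtain ⟨U, hU⟩ := Finset.card_pos.mp h2
    have hU' : I y U := by simpa using hU
    exact hy ⟨U, hU', hU'⟩
  obtain ⟨v, U, hvi, hxU, hvU, hvun⟩ := h.toGQ.near_pt hxi
  obtain ⟨w, V, hwj, hxV, hwV, hwun⟩ := h.toGQ.near_pt hxj
  have hvy : v ≠ y := by rintro rfl; exact hy ⟨U, hxU, hvU⟩
  have hwy : w ≠ y := by rintro rfl; exact hy ⟨V, hxV, hwV⟩
  have hvw : ¬ ∃ l, I v l ∧ I w l := by
    rintro ⟨k, hvk, hwk⟩
    by_cases hyk : I y k
    · apply hij
      rw [h.pl v y Mi k hvy hvi hi hvk hyk, h.pl w y Mj k hwy hwj hj hwk hyk]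
    · have := h.toGQ.tri hyk hvk hwk hi hvi hj hwj
      exact hij this.2
  have hxv : x ≠ v := by rintro rfl; exact hxi hvi
  obtain ⟨S, hS1, hS2⟩ := hS
  let f : symGrp I x G → {a : P // a ≠ x ∧ (∃ l, I a l ∧ I v l) ∧ (∃ l, I a l ∧ I w l)} :=
    fun g => ⟨g.1.1.1 y, by
      have hg := h.inc g.1.1 g.1.2
      have hgv : g.1.1.1 v = v := g.2 v ⟨U, hxU, hvU⟩
      have hgw : g.1.1.1 w = w := g.2 w ⟨V, hxV, hwV⟩
      refine ⟨?_, ⟨g.1.1.2 Mi, (hg _ _).mpr hi, ?_⟩, ⟨g.1.1.2 Mj, (hg _ _).mpr hj, ?_⟩⟩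
      · intro e
        apply hyx
        apply g.1.1.1.injective
        rw [e, (h.fx g.1.1 g.1.2).1]
      · rw [← hgv, hg]; exact hvi
      · rw [← hgw, hg]; exact hwj⟩
  have hf : Function.Bijective f := by
    constructor
    · intro a b e
      have e' : a.1.1.1 y = b.1.1.1 y := congrArg Subtype.val e
      have hn : ¬ ∃ l : L, I x l ∧ I (b.1.1.1 y) l := fun hh => hy ((h.near_map b.1.2).mp hh)
      exact Subtype.ext (Subtype.ext
        ((h.sharp y (b.1.1.1 y) hy hn).unique ⟨a.1.2, e'⟩ ⟨b.1.2, rfl⟩))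
    · rintro ⟨p, hpx, hpv, hpw⟩
      obtain ⟨σ, hσ, hσp⟩ := hS2 v w ⟨U, hxU, hvU⟩ ⟨V, hxV, hwV⟩ hvw y p hyx hpx
        ⟨Mi, hi, hvi⟩ ⟨Mj, hj, hwj⟩ hpv hpw
      obtain ⟨h1, h2⟩ := hS1 σ hσ
      exact ⟨⟨⟨σ, hall σ h1 h2⟩, h2⟩, Subtype.ext hσp⟩
  rw [Nat.card_congr (Equiv.ofBijective f hf), Nat.card_eq_fintype_card, Fintype.card_subtype]
  exact h.toGQ.card_perp hvw hxv ⟨U, hxU, hvU⟩ ⟨V, hxV, hwV⟩

/-- An elation mapping `y` to a point of a line on `y` fixed by it. -/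
theorem lineStab_pt (h : EGQ I s t x G) {g : G} {M : L} {y : P} (hy : I y M)
    (hg : g ∈ lineStab G M) : I (g.1.1 y) M := by
  have h1 : g.1.2 M = M := hg
  rw [← h1, h.inc g.1 g.2]; exact hy

theorem eq_one' (h : EGQ I s t x G) {g : G} {y : P} (hy : ¬ ∃ l : L, I x l ∧ I y l)
    (hg : g.1.1 y = y) : g = 1 :=
  Subtype.ext (h.eq_one g.2 hy hg)

theorem kf_k1 (h : EGQ I s t x G) {y : P} (hy : ¬ ∃ l : L, I x l ∧ I y l) {Mi Mj Mk : L}
    (hij : Mi ≠ Mj) (hjk : Mj ≠ Mk) (hik : Mi ≠ Mk) (hi : I y Mi) (hj : I y Mj) (hk : I y Mk)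
    {a b : G} (ha : a ∈ lineStab G Mi) (hb : b ∈ lineStab G Mj) (hc : a * b ∈ lineStab G Mk) :
    a * b = 1 := by
  have hay : I (a.1.1 y) Mi := h.lineStab_pt hi ha
  have hby : I (b.1.1 y) Mj := h.lineStab_pt hj hb
  have hcy0 : I ((a * b).1.1 y) Mk := h.lineStab_pt hk hc
  have hcy : I (a.1.1 (b.1.1 y)) Mk := hcy0
  by_contra hne
  have ha1 : a.1.1 y ≠ y := by
    intro e
    have ha1 := h.eq_one' hy e
    subst ha1
    have hcy' : I (b.1.1 y) Mk := by simpa using hcy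
    have e2 : b.1.1 y = y := h.toGQ.pt_unique hjk hby hcy' hj hk
    have := h.eq_one' hy e2
    subst this
    exact hne (mul_one 1)
  have hb1 : b.1.1 y ≠ y := by
    intro e
    rw [e] at hcy
    exact ha1 (h.toGQ.pt_unique hik hay hcy hi hk)
  have hc1 : a.1.1 (b.1.1 y) ≠ y := by
    intro e
    exact hne (h.eq_one' (g := a * b) hy e)
  have hcM : ¬ I (a.1.1 (b.1.1 y)) Mi := by
    intro hh
    exact hc1 (h.toGQ.pt_unique hik hh hcy hi hk)
  have h1 : I (a.1.1 (b.1.1 y)) (a.1.2 Mj) := (h.inc a.1 a.2 _ _).mpr hby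
  have h2 : I (a.1.1 y) (a.1.2 Mj) := (h.inc a.1 a.2 _ _).mpr hj
  exact ha1 (h.toGQ.tri hcM hay hi h1 h2 hcy hk).1

theorem kf_k2 (h : EGQ I s t x G) {y : P} (hy : ¬ ∃ l : L, I x l ∧ I y l) {Mi Mj : L}
    (hij : Mi ≠ Mj) (hi : I y Mi) (hj : I y Mj)
    {a n : G} (ha : a ∈ lineStab G Mi) (hn : n ∈ symGrp I x G) (hc : a * n ∈ lineStab G Mj) :
    a * n = 1 := by
  have hxi : ¬ I x Mi := fun hh => hy ⟨Mi, hh, hi⟩
  have hxj : ¬ I x Mj := fun hh => hy ⟨Mj, hh, hj⟩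
  obtain ⟨v, U, hvi, hxU, hvU, hvun⟩ := h.toGQ.near_pt hxi
  obtain ⟨w, V, hwj, hxV, hwV, hwun⟩ := h.toGQ.near_pt hxj
  have hvy : v ≠ y := by rintro rfl; exact hy ⟨U, hxU, hvU⟩
  have hwy : w ≠ y := by rintro rfl; exact hy ⟨V, hxV, hwV⟩
  have hwi : ¬ I w Mi := fun hh => hwy (h.toGQ.pt_unique hij hh hwj hi hj)
  have hvj : ¬ I v Mj := fun hh => hvy (h.toGQ.pt_unique hij hvi hh hi hj)
  have hnw : n.1.1 w = w := hn w ⟨V, hxV, hwV⟩
  have hnv : n.1.1 v = v := hn v ⟨U, hxU, hvU⟩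
  have hcw : a.1.1 (n.1.1 w) = w := by
    have h0 : I ((a * n).1.1 w) Mj := h.lineStab_pt hwj hc
    have h1 : I (a.1.1 (n.1.1 w)) Mj := h0
    exact hwun _ h1 ((h.near_map (a * n).2).mpr ⟨V, hxV, hwV⟩)
  rw [hnw] at hcw
  have ha1 : a = 1 := by
    apply h.eq_one' hy
    have h1 : I (a.1.1 y) Mi := h.lineStab_pt hi ha
    have h2 : I (a.1.1 y) (a.1.2 Mj) := (h.inc a.1 a.2 _ _).mpr hj
    have h3 : I w (a.1.2 Mj) := by
      rw [← hcw, h.inc a.1 a.2]; exact hwj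
    exact (h.toGQ.tri hwi h1 hi h3 h2 hwj hj).1
  subst ha1
  rw [one_mul] at hc ⊢
  apply h.eq_one' hy
  have h1 : I (n.1.1 y) Mj := h.lineStab_pt hj hc
  have h2 : I (n.1.1 y) (n.1.2 Mi) := (h.inc n.1 n.2 _ _).mpr hi
  have h3 : I v (n.1.2 Mi) := by
    rw [← hnv, h.inc n.1 n.2]; exact hvi
  exact (h.toGQ.tri hvj h1 hj h3 h2 hvi hi).1

theorem symGrp_normal (h : EGQ I s t x G) : (symGrp I x G).Normal := by
  constructor
  intro n hn g p hp
  show g.1.1 (n.1.1 ((g.1.1)⁻¹ p)) = p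
  have h1 : ∃ l : L, I x l ∧ I ((g.1.1)⁻¹ p) l := by
    have := (h.near_map g.2 (p := (g.1.1)⁻¹ p)).mp (by simpa using hp)
    exact this
  rw [hn _ h1]
  simp

theorem kf (h : EGQ I s t x G) (hs : 1 < s) (ht : 1 < t) {y : P}
    (hy : ¬ ∃ l : L, I x l ∧ I y l)
    (hS : ∃ S : Subgroup (Equiv.Perm P × Equiv.Perm L),
      (∀ σ ∈ S, (∀ (p : P) (l : L), I (σ.1 p) (σ.2 l) ↔ I p l) ∧
        ∀ p : P, (∃ l : L, I x l ∧ I p l) → σ.1 p = p) ∧
      ∀ v w : P, (∃ l : L, I x l ∧ I v l) → (∃ l : L, I x l ∧ I w l) →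
        (¬ ∃ l : L, I v l ∧ I w l) →
        ∀ a b : P, a ≠ x → b ≠ x →
          (∃ l : L, I a l ∧ I v l) → (∃ l : L, I a l ∧ I w l) →
          (∃ l : L, I b l ∧ I v l) → (∃ l : L, I b l ∧ I w l) →
          ∃ σ ∈ S, σ.1 a = b)
    (hall : ∀ σ : Equiv.Perm P × Equiv.Perm L, (∀ (p : P) (l : L), I (σ.1 p) (σ.2 l) ↔ I p l) →
      (∀ p : P, (∃ l : L, I x l ∧ I p l) → σ.1 p = p) → σ ∈ G) :
    KF s t (fun M : {M : L // I y M} => lineStab G M.1) (symGrp I x G) where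
  hs := hs
  ht := ht
  cι := by rw [Fintype.card_subtype]; exact h.cp y
  cA := fun M => h.card_lineStab hy M.2
  cN := by
    have h1 := h.cp y
    have h2 : 1 < (Finset.univ.filter (fun l => I y l)).card := by omega
    obtain ⟨M, hM, M', hM', hMM⟩ := Finset.one_lt_card.mp h2
    simp only [Finset.mem_filter, Finset.mem_univ, true_and] at hM hM'
    exact h.card_symGrp hy hMM hM hM' hS hall
  cG := h.card_G hy
  nrm := h.symGrp_normal
  k1 := by
    intro i j k hij hjk hik a ha b hb hc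
    exact h.kf_k1 hy (fun e => hij (Subtype.ext e)) (fun e => hjk (Subtype.ext e))
      (fun e => hik (Subtype.ext e)) i.2 j.2 k.2 ha hb hc
  k2 := by
    intro i j hij a ha n hn hc
    exact h.kf_k2 hy (fun e => hij (Subtype.ext e)) i.2 j.2 ha hn hc

end EGQ

end Pool.Agent.Helper298
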