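import Pool.Agent.Helper298_GQ.Comm

set_option autoImplicit false
open scoped Classical

/-! Higman's inequality `s ≤ t²`. -/

namespace Pool.Agent.Helper298

variable {P L : Type*} [Fintype P] [Fintype L] {I : P → L → Prop} {s t : ℕ}

namespace GQ

/-- Higman's inequality. -/
theorem higman (h : GQ I s t) (hs : 1 < s) (ht : 1 < t) {K M : L} (hKM : ¬ meets I K M) :
    s ≤ t ^ 2 := by
  set X : Finset L := Finset.univ.filter (fun N => ¬ meets I N K ∧ ¬ meets I N M) with hX
  set R : Finset L := Finset.univ.filter (fun T => meets I T K ∧ meets I T M) with hR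
  have hRc : R.card = s + 1 := h.card_trans hKM
  have hXc : (X.card : ℤ) = s * t * t - s * t + s - t := h.card_disj2 hKM
  -- first moment
  have m1 : ∑ N ∈ X, ((R.filter (fun T => meets I N T)).card : ℤ) = (s + 1) * ((s - 1) * t) := by
    have e := dc X R (fun N T => meets I N T)
    have e' : ∑ N ∈ X, ((R.filter (fun T => meets I N T)).card : ℤ)
        = ∑ T ∈ R, ((X.filter (fun N => meets I N T)).card : ℤ) := by exact_mod_cast e
    rw [e', Finset.sum_congr rfl (g := fun _ => ((s : ℤ) - 1) * t)]
    · rw [Finset.sum_const, hRc]; simp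
    · intro T hT
      simp only [hR, Finset.mem_filter, Finset.mem_univ, true_and] at hT
      rw [← h.card_off hKM hT.1 hT.2, hX, Finset.filter_filter]
  -- second moment
  have m2 : ∑ N ∈ X, ((R.filter (fun T => meets I N T)).card : ℤ) ^ 2
      = (s + 1) * ((s - 1) * t + s * (s - 1)) := by
    have e := dc X (R ×ˢ R) (fun N T => meets I N T.1 ∧ meets I N T.2)
    have e' : ∑ N ∈ X, (((R ×ˢ R).filter (fun T => meets I N T.1 ∧ meets I N T.2)).card : ℤ)
        = ∑ T ∈ R ×ˢ R, ((X.filter (fun N => meets I N T.1 ∧ meets I N T.2)).card : ℤ) := by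
      exact_mod_cast e
    have e2 : ∀ N ∈ X, ((R.filter (fun T => meets I N T)).card : ℤ) ^ 2
        = (((R ×ˢ R).filter (fun T => meets I N T.1 ∧ meets I N T.2)).card : ℤ) := by
      intro N _
      rw [Finset.filter_product, Finset.card_product]
      push_cast
      ring
    rw [Finset.sum_congr rfl e2, e', Finset.sum_product]
    rw [Finset.sum_congr rfl (g := fun _ => ((s : ℤ) - 1) * t + s * (s - 1))]
    · rw [Finset.sum_const, hRc]; simp
    · intro T hT
      have hT' := hT
      simp only [hR, Finset.mem_filter, Finset.mem_univ, true_and] at hT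
      rw [← Finset.add_sum_erase R _ hT']
      congr 1
      · rw [← h.card_off hKM hT.1 hT.2, hX, Finset.filter_filter]
        congr 2
        ext N; simp
      · rw [Finset.sum_congr rfl (g := fun _ => ((s : ℤ) - 1))]
        · rw [Finset.sum_const, Finset.card_erase_of_mem hT', hRc]; simp
        · intro T' hT2
          rw [Finset.mem_erase] at hT2
          have h3 := hT2.2
          simp only [hR, Finset.mem_filter, Finset.mem_univ, true_and] at h3
          rw [← h.card_off2 hKM (Ne.symm hT2.1) hT.1 hT.2 h3.1 h3.2, hX, Finset.filter_filter]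
  have cs := sq_sum_le_card_mul_sum_sq (s := X)
    (f := fun N => ((R.filter (fun T => meets I N T)).card : ℤ))
  rw [m1, m2, hXc] at cs
  have key : ((s : ℤ) * t * t - s * t + s - t) * ((s + 1) * ((s - 1) * t + s * (s - 1))) -
      ((s + 1) * ((s - 1) * t)) ^ 2 = ((s + 1) * (s - 1)) * (s * (t - 1) * (t ^ 2 - s)) := by ring
  have hs' : (1 : ℤ) < s := by exact_mod_cast hs
  have ht' : (1 : ℤ) < t := by exact_mod_cast ht
  have h1 : 0 ≤ (((s : ℤ) + 1) * (s - 1)) * (s * (t - 1) * (t ^ 2 - s)) := by
    rw [← key]; linarith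
  have h2 : 0 < ((s : ℤ) + 1) * (s - 1) := by
    apply mul_pos <;> linarith
  have h3 : 0 ≤ (s : ℤ) * (t - 1) * (t ^ 2 - s) := nonneg_of_mul_nonneg_right h1 h2
  have h4 : 0 < (s : ℤ) * (t - 1) := by
    apply mul_pos <;> linarith
  have h5 : 0 ≤ (t : ℤ) ^ 2 - s := nonneg_of_mul_nonneg_right h3 h4
  have h6 : (s : ℤ) ≤ (t : ℤ) ^ 2 := by linarith
  exact_mod_cast h6

end GQ

end Pool.Agent.Helper298
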