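import Pool.Agent.Helper298_KF.Defs

set_option autoImplicit false
open scoped Classical commutatorElement

namespace Pool.Agent.Helper298

section
variable {G ι : Type} [Group G] [Fintype G] [Fintype ι] {s t : ℕ} {A : ι → Subgroup G}
  {N : Subgroup G}

theorem KF_hom_count_aux_sum (y : G → ℤ) (hm : ∀ g k, y (g * k) = y g * y k)
    (hv : ∀ g, y g = 1 ∨ y g = -1) (H : Subgroup G) :
    ∑ x : H, y x = if ∀ x ∈ H, y x = 1 then (Fintype.card H : ℤ) else 0 := by
  split_ifs with h
  · rw [Finset.sum_congr rfl (fun x _ => h x.1 x.2)]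
    simp
  · push Not at h
    obtain ⟨k, hk, hk1⟩ := h
    have hk2 : y k = -1 := (hv k).resolve_left hk1
    have h1 : ∑ x : H, y x = ∑ x : H, y ((⟨k, hk⟩ * x : H) : G) :=
      (Equiv.sum_comp (Equiv.mulLeft (⟨k, hk⟩ : H)) (fun x : H => y x)).symm
    have h2 : ∀ x : H, y ((⟨k, hk⟩ * x : H) : G) = - y x := by
      intro x
      rw [Subgroup.coe_mul, hm, hk2]
      ring
    rw [Finset.sum_congr rfl (fun x _ => h2 x), Finset.sum_neg_distrib] at h1
    omega

theorem KF.hom_count (h : KF s s A N) (y : G → ℤ) (hm : ∀ g k, y (g * k) = y g * y k)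
    (hv : ∀ g, y g = 1 ∨ y g = -1) (hne : ∃ g, y g = -1) (i : ι) (hi : ∀ a ∈ A i, y a = 1) :
    (Finset.univ.filter (fun j => ∀ a ∈ A j, y a = 1)).card =
      if (∀ n ∈ N, y n = 1) then 1 else 2 := by
  have hf := h.sum_formula i y
  have hG : ∑ g, y g = 0 := by
    obtain ⟨k, hk⟩ := hne
    have h1 : ∑ x, y x = ∑ x, y (k * x) := (Equiv.sum_comp (Equiv.mulLeft k) y).symm
    have h2 : ∀ x, y (k * x) = - y x := by
      intro x
      rw [hm, hk]
      ring
    rw [Finset.sum_congr rfl (fun x _ => h2 x), Finset.sum_neg_distrib] at h1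
    omega
  have hAi : ∑ a : A i, y a = s := by
    rw [KF_hom_count_aux_sum y hm hv, if_pos hi, h.card_A]
  have hin : ∀ (K : Subgroup G), ∑ a : A i, ∑ n : K, y (a * n) = s * ∑ n : K, y n := by
    intro K
    have h1 : ∀ a : A i, ∑ n : K, y (a * n) = ∑ n : K, y n := by
      intro a
      refine Finset.sum_congr rfl fun n _ => ?_
      rw [hm, hi a.1 a.2, one_mul]
    rw [Finset.sum_congr rfl (fun a _ => h1 a), Finset.sum_const, Finset.card_univ, h.card_A,
      nsmul_eq_mul]
  rw [hG, hAi, hin, Finset.sum_congr rfl (fun j _ => hin (A j)), ← Finset.mul_sum,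
    Finset.sum_congr rfl (fun j _ => KF_hom_count_aux_sum y hm hv (A j)),
    KF_hom_count_aux_sum y hm hv N, h.card_N] at hf
  have hJ : ∑ j ∈ Finset.univ.erase i, (if ∀ x ∈ A j, y x = 1 then (Fintype.card (A j) : ℤ) else 0) =
      s * (((Finset.univ.filter (fun j => ∀ a ∈ A j, y a = 1)).card : ℤ) - 1) := by
    have h1 : ∀ j, (if ∀ x ∈ A j, y x = 1 then (Fintype.card (A j) : ℤ) else 0) =
        if ∀ x ∈ A j, y x = 1 then (s : ℤ) else 0 := by
      intro j
      rw [h.card_A]
    rw [Finset.sum_congr rfl (fun j _ => h1 j)]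
    have h2 := Finset.sum_erase_add Finset.univ
      (fun j => if ∀ x ∈ A j, y x = 1 then (s : ℤ) else 0) (Finset.mem_univ i)
    have h3 : ∑ j, (if ∀ x ∈ A j, y x = 1 then (s : ℤ) else 0) =
        s * ((Finset.univ.filter (fun j => ∀ a ∈ A j, y a = 1)).card : ℤ) := by
      rw [← Finset.sum_filter, Finset.sum_const, nsmul_eq_mul, mul_comm]
    rw [h3] at h2
    simp only [if_pos hi] at h2
    rw [mul_sub, mul_one]
    omega
  rw [hJ] at hf
  have hs := h.hs
  have hs' : (0 : ℤ) < s := by omega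
  have hss : (s : ℤ) * s ≠ 0 := by positivity
  rw [nsmul_eq_mul] at hf
  generalize (Finset.univ.filter (fun j => ∀ a ∈ A j, y a = 1)).card = c at hf ⊢
  split_ifs at hf ⊢ with hN
  · have h4 : (s : ℤ) * s * ((c : ℤ) - 1) = 0 := by linarith
    have h5 := (mul_eq_zero.mp h4).resolve_left hss
    omega
  · have h4 : (s : ℤ) * s * ((c : ℤ) - 2) = 0 := by linarith
    have h5 := (mul_eq_zero.mp h4).resolve_left hss
    omega

end

end Pool.Agent.Helper298
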