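import Pool.Agent.Helper298_KF.Defs
import Pool.Agent.Helper298_KF.L_KF_hom_count

set_option autoImplicit false
open scoped Classical commutatorElement

namespace Pool.Agent.Helper298



section
variable {G ι : Type} [Group G] [Fintype G] [Fintype ι] {s t : ℕ} {A : ι → Subgroup G}
  {N : Subgroup G}

theorem KF.star_aux_sum (B : Subgroup G) (y : G → ℤ) (hm : ∀ g k, y (g * k) = y g * y k)
    (hv : ∀ g, y g = 1 ∨ y g = -1) :
    ∑ b : B, y b = if (∀ b ∈ B, y b = 1) then (Fintype.card B : ℤ) else 0 := by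
  split_ifs with hc
  · rw [Finset.sum_congr rfl (fun (b : B) _ => hc b.1 b.2)]
    simp
  · push Not at hc
    obtain ⟨c, hc, hc1⟩ := hc
    have hc2 : y c = -1 := (hv c).resolve_left hc1
    have e : ∑ b : B, y b = ∑ b : B, y ((⟨c, hc⟩ : B) * b : B) :=
      (Equiv.sum_comp (Equiv.mulLeft (⟨c, hc⟩ : B)) (fun b : B => y b)).symm
    have e2 : ∑ b : B, y ((⟨c, hc⟩ : B) * b : B) = - ∑ b : B, y b := by
      rw [← Finset.sum_neg_distrib]
      refine Finset.sum_congr rfl (fun b _ => ?_)
      rw [Subgroup.coe_mul, hm, hc2]; ring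
    rw [e2] at e
    omega

theorem KF.star (h : KF s s A N) {ψ : G → ℤ} {β : G → G → ℤ} (hq : QF A ψ β) (i : ι) :
    ∑ g, ψ g = s * (s * ((Finset.univ.filter (fun a : A i => ∀ k, β a k = 1)).card : ℤ) -
      2 * ((Finset.univ.filter
        (fun n : N => (∀ a ∈ A i, β n a = 1) ∧ ψ n = -1)).card : ℤ)) := by
  have hb2 : ∀ g k l, β g (k * l) = β g k * β g l := by
    intro g k l
    rw [hq.b2 g, hq.b1, hq.b2 k, hq.b2 l]
  have hAA : ∀ a ∈ A i, ∀ b ∈ A i, β a b = 1 := by
    intro a ha b hb
    have := hq.pm a b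
    rw [hq.pA i _ ((A i).mul_mem ha hb), hq.pA i a ha, hq.pA i b hb] at this
    linarith
  have hs0 : (s : ℤ) ≠ 0 := by have := h.hs; omega
  have hcA : ∀ j, (Fintype.card (A j) : ℤ) = s := fun j => by rw [h.card_A]
  have hcN : (Fintype.card N : ℤ) = s := by rw [h.card_N]
  -- the formula
  have hF := h.sum_formula i ψ
  have h0 : ∑ a : A i, ψ a = s := by
    rw [Finset.sum_congr rfl (fun (a : A i) _ => hq.pA i a.1 a.2)]
    simp [hcA]
  -- character sums
  have hcol : ∀ n : G, ∑ a : A i, β a n = if (∀ a ∈ A i, β n a = 1) then (s : ℤ) else 0 := by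
    intro n
    have := KF.star_aux_sum (A i) (fun a => β n a) (fun g k => hb2 n g k) (fun g => hq.bv n g)
    rw [hcA] at this
    rw [← this]
    exact Finset.sum_congr rfl (fun a _ => hq.b2 _ _)
  have hrow : ∀ a : G, ∑ n : N, β a n = if (∀ n ∈ N, β a n = 1) then (s : ℤ) else 0 := by
    intro a
    have := KF.star_aux_sum N (fun n => β a n) (fun g k => hb2 a g k) (fun g => hq.bv a g)
    rw [hcN] at this
    exact this
  have hrowA : ∀ (j : ι) (a : G), ∑ b : A j, β a b =
      if (∀ b ∈ A j, β a b = 1) then (s : ℤ) else 0 := by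
    intro j a
    have := KF.star_aux_sum (A j) (fun n => β a n) (fun g k => hb2 a g k) (fun g => hq.bv a g)
    rw [hcA] at this
    exact this
  -- names
  set Ni : Finset N := Finset.univ.filter (fun n : N => ∀ a ∈ A i, β n a = 1) with hNi
  set Mi : Finset (A i) := Finset.univ.filter (fun a : A i => ∀ n ∈ N, β a n = 1) with hMi
  set R : Finset (A i) := Finset.univ.filter (fun a : A i => ∀ k, β a k = 1) with hR
  set W : Finset N := Finset.univ.filter
    (fun n : N => (∀ a ∈ A i, β n a = 1) ∧ ψ n = -1) with hW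
  -- double counting
  have hdc : (Mi.card : ℤ) = Ni.card := by
    have e1 : ∑ a : A i, ∑ n : N, β a n = s * Mi.card := by
      rw [Finset.sum_congr rfl (fun (a : A i) _ => hrow a), ← Finset.sum_filter, Finset.sum_const]
      simp [hMi, mul_comm]
    have e2 : ∑ a : A i, ∑ n : N, β a n = s * Ni.card := by
      rw [Finset.sum_comm, Finset.sum_congr rfl (fun (n : N) _ => hcol n), ← Finset.sum_filter,
        Finset.sum_const]
      simp [hNi, mul_comm]
    have := e1.symm.trans e2
    exact mul_left_cancel₀ hs0 this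
  -- S1
  have hS1 : ∑ a : A i, ∑ n : N, ψ (a * n) = s * (Ni.card - 2 * W.card) := by
    have e1 : ∑ a : A i, ∑ n : N, ψ (a * n) = ∑ n : N, ψ n * ∑ a : A i, β a n := by
      rw [Finset.sum_comm]
      refine Finset.sum_congr rfl (fun n _ => ?_)
      rw [Finset.mul_sum]
      refine Finset.sum_congr rfl (fun a _ => ?_)
      rw [hq.pm, hq.pA i a.1 a.2, one_mul]
    have e2 : ∑ n : N, ψ n * ∑ a : A i, β a n = s * ∑ n ∈ Ni, ψ n := by
      rw [hNi, Finset.sum_filter, Finset.mul_sum]
      refine Finset.sum_congr rfl (fun n _ => ?_)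
      rw [hcol]
      split_ifs <;> ring
    have e3 : ∑ n ∈ Ni, ψ n = Ni.card - 2 * W.card := by
      have : ∀ n ∈ Ni, ψ n = 1 - 2 * (if ψ n = -1 then 1 else 0) := by
        intro n _
        rcases hq.pv n with h1 | h1 <;> simp [h1]
      rw [Finset.sum_congr rfl this, Finset.sum_sub_distrib, ← Finset.mul_sum, Finset.sum_boole]
      have hWN : W = Ni.filter (fun n : N => ψ n = -1) := by
        rw [hW, hNi, Finset.filter_filter]
      rw [hWN]
      simp
    rw [e1, e2, e3]
  -- S2
  have hcount : ∀ a : A i, ((((Finset.univ.erase i).filter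
      (fun j => ∀ b ∈ A j, β a b = 1)).card : ℕ) : ℤ) =
      s * (if (∀ k, β a k = 1) then 1 else 0) + (1 - (if (∀ n ∈ N, β a n = 1) then 1 else 0)) := by
    intro a
    by_cases hk : ∀ k, β a k = 1
    · have : (Finset.univ.erase i).filter (fun j => ∀ b ∈ A j, β a b = 1) =
          Finset.univ.erase i := by
        rw [Finset.filter_true_of_mem]
        intro j _ b _
        exact hk b
      rw [this, Finset.card_erase_of_mem (Finset.mem_univ i), Finset.card_univ, h.cι,
        if_pos hk, if_pos (fun n _ => hk n)]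
      simp
    · have hne : ∃ g, β a g = -1 := by
        push Not at hk
        obtain ⟨g, hg⟩ := hk
        exact ⟨g, (hq.bv _ _).resolve_left hg⟩
      have hc := h.hom_count (fun g => β a g) (fun g k => hb2 a g k) (fun g => hq.bv a g) hne i
        (fun b hb => hAA a.1 a.2 b hb)
      have hi : i ∈ Finset.univ.filter (fun j => ∀ b ∈ A j, β a b = 1) := by
        simp only [Finset.mem_filter, Finset.mem_univ, true_and]
        exact fun b hb => hAA a.1 a.2 b hb
      rw [Finset.filter_erase, Finset.card_erase_of_mem hi, hc, if_neg hk]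
      by_cases hn : ∀ n ∈ N, β a n = 1
      · rw [if_pos hn, if_pos hn]; simp
      · rw [if_neg hn, if_neg hn]; simp
  have hS2 : ∑ j ∈ Finset.univ.erase i, ∑ a : A i, ∑ b : A j, ψ (a * b) =
      s * (s * R.card + s - Mi.card) := by
    have e1 : ∑ j ∈ Finset.univ.erase i, ∑ a : A i, ∑ b : A j, ψ (a * b) =
        ∑ a : A i, ∑ j ∈ Finset.univ.erase i, (if (∀ b ∈ A j, β a b = 1) then (s : ℤ) else 0) := by
      rw [Finset.sum_comm]
      refine Finset.sum_congr rfl (fun a _ => ?_)
      refine Finset.sum_congr rfl (fun j _ => ?_)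
      rw [← hrowA]
      refine Finset.sum_congr rfl (fun b _ => ?_)
      rw [hq.pm, hq.pA i a.1 a.2, hq.pA j b.1 b.2]; ring
    have e2 : ∀ a : A i, ∑ j ∈ Finset.univ.erase i,
        (if (∀ b ∈ A j, β a b = 1) then (s : ℤ) else 0) =
        s * (s * (if (∀ k, β a k = 1) then 1 else 0) +
          (1 - (if (∀ n ∈ N, β a n = 1) then 1 else 0))) := by
      intro a
      rw [← hcount a, ← Finset.sum_filter, Finset.sum_const]
      simp [mul_comm]
    rw [e1, Finset.sum_congr rfl (fun a _ => e2 a), ← Finset.mul_sum, Finset.sum_add_distrib,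
      Finset.sum_sub_distrib, ← Finset.mul_sum, Finset.sum_boole, Finset.sum_boole]
    simp only [Finset.sum_const, Finset.card_univ, h.card_A]
    rw [← hR, ← hMi]
    simp only [nsmul_eq_mul, mul_one]
    ring
  rw [h0, hS1, hS2] at hF
  simp only [nsmul_eq_mul] at hF
  rw [hdc] at hF
  linear_combination hF

end

end Pool.Agent.Helper298
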