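import Pool.Agent.Helper298_KF.Defs
import Pool.Agent.Helper298_KF.L_KF_hom_count
import Pool.Agent.Helper298_KF.L_KF_star

set_option autoImplicit false
open scoped Classical commutatorElement

namespace Pool.Agent.Helper298





/- TARGET KF.case1.
PROOF.
ψ(g r) = ψ g ψ r β g r = -ψ g, so sum_G ψ = 0. KF.star for i: s r_i = 2 w_i, with r_i = #{a in A i : β a k = 1 for all k} >= 1, w_i = #{n in N : β n = 1 on A i, ψ n = -1}. The set N_i = {n in N : β n = 1 on A i} is stable under n |-> n r, which exchanges ψ = 1 and ψ = -1, so 2 w_i = card N_i <= card N = s. So s r_i <= s, r_i = 1 and card N_i = s, so N_i = N.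
So β n a = 1 for all n in N and a in all A i. For n in N, if β n g = -1 for some g then y = β n satisfies KF.hom_count (y = 1 on all A i): the number s+1 >= 3 of all indices would be 1 or 2. So β n = 1 on G. And r_i = 1 means that only a = 1 has β a = 1 on G.
-/
section
variable {G ι : Type} [Group G] [Fintype G] [Fintype ι] {s t : ℕ} {A : ι → Subgroup G}
  {N : Subgroup G}

theorem KF.case1_aux1 {ψ : G → ℤ} {β : G → G → ℤ} (hq : QF A ψ β) (k : G) : β 1 k = 1 := by
  have h1 := hq.b1 1 1 k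
  rw [mul_one] at h1
  rcases hq.bv 1 k with h | h
  · exact h
  · rw [h] at h1
    norm_num at h1

theorem KF.case1_aux2 {ψ : G → ℤ} {β : G → G → ℤ} (hq : QF A ψ β) {r : G}
    (hr : ∀ k, β r k = 1) (hψ : ψ r = -1) (g : G) : ψ (g * r) = - ψ g := by
  rw [hq.pm, hψ, hq.b2, hr]
  ring

theorem KF.case1_aux3 {ψ : G → ℤ} {β : G → G → ℤ} (hq : QF A ψ β) {r : G}
    (hr : ∀ k, β r k = 1) (hψ : ψ r = -1) : ∑ g, ψ g = 0 := by
  have h1 : ∑ g, ψ (g * r) = ∑ g, ψ g :=
    Equiv.sum_comp (Equiv.mulRight r) ψ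
  have h2 : ∑ g, ψ (g * r) = - ∑ g, ψ g := by
    rw [← Finset.sum_neg_distrib]
    exact Finset.sum_congr rfl fun g _ => KF.case1_aux2 hq hr hψ g
  linarith

theorem KF.case1_aux4 {ψ : G → ℤ} {β : G → G → ℤ} (hq : QF A ψ β) {r : G}
    (hrN : r ∈ N) (hr : ∀ k, β r k = 1) (hψ : ψ r = -1) (i : ι) :
    2 * (Finset.univ.filter (fun n : N => (∀ a ∈ A i, β n a = 1) ∧ ψ n = -1)).card =
      (Finset.univ.filter (fun n : N => ∀ a ∈ A i, β n a = 1)).card := by
  have h1 : (Finset.univ.filter (fun n : N => (∀ a ∈ A i, β n a = 1) ∧ ψ n = -1)).card =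
      (Finset.univ.filter (fun n : N => (∀ a ∈ A i, β n a = 1) ∧ ¬ ψ n = -1)).card := by
    refine Finset.card_bij (fun n _ => n * (⟨r, hrN⟩ : N)) ?_ ?_ ?_
    · intro n hn
      simp only [Finset.mem_filter, Finset.mem_univ, true_and, Subgroup.coe_mul] at hn ⊢
      refine ⟨fun a ha => ?_, ?_⟩
      · rw [hq.b1, hn.1 a ha, hr, mul_one]
      · rw [KF.case1_aux2 hq hr hψ, hn.2]
        norm_num
    · intro n _ m _ e
      exact mul_right_cancel e
    · intro m hm
      refine ⟨m * (⟨r, hrN⟩ : N)⁻¹, ?_, by simp⟩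
      simp only [Finset.mem_filter, Finset.mem_univ, true_and] at hm ⊢
      have e1 : ((m * (⟨r, hrN⟩ : N)⁻¹ : N) : G) * r = m := by simp
      set u : G := ((m * (⟨r, hrN⟩ : N)⁻¹ : N) : G) with hu
      refine ⟨fun a ha => ?_, ?_⟩
      · have h2 := hm.1 a ha
        rw [← e1, hq.b1, hr, mul_one] at h2
        exact h2
      · have h2 := hm.2
        rw [← e1, KF.case1_aux2 hq hr hψ] at h2
        rcases hq.pv u with h | h
        · rw [h] at h2
          exact absurd rfl h2
        · exact h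
  have h2 := Finset.card_filter_add_card_filter_not
    (s := Finset.univ.filter (fun n : N => ∀ a ∈ A i, β n a = 1)) (fun n : N => ψ n = -1)
  rw [Finset.filter_filter, Finset.filter_filter] at h2
  rw [← h2, two_mul]
  congr 1

theorem KF.case1_aux5 (h : KF s s A N) {ψ : G → ℤ} {β : G → G → ℤ} (hq : QF A ψ β) {r : G}
    (hrN : r ∈ N) (hr : ∀ k, β r k = 1) (hψ : ψ r = -1) (i : ι) :
    (Finset.univ.filter (fun a : A i => ∀ k, β a k = 1)).card = 1 ∧
      ∀ n ∈ N, ∀ a ∈ A i, β n a = 1 := by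
  have h1 := h.star hq i
  rw [KF.case1_aux3 hq hr hψ] at h1
  have hs := h.hs
  have h2 := KF.case1_aux4 (N := N) hq hrN hr hψ i
  set R := (Finset.univ.filter (fun a : A i => ∀ k, β a k = 1)).card with hR
  set W := (Finset.univ.filter (fun n : N => (∀ a ∈ A i, β n a = 1) ∧ ψ n = -1)).card with hW
  set M := (Finset.univ.filter (fun n : N => ∀ a ∈ A i, β n a = 1)).card with hM
  have h3 : M ≤ s := by
    rw [← h.card_N]
    exact Finset.card_le_univ _
  have h4 : 1 ≤ R := by
    rw [hR, Nat.one_le_iff_ne_zero, ← Nat.pos_iff_ne_zero, Finset.card_pos]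
    exact ⟨1, by simpa using KF.case1_aux1 hq⟩
  have h5 : (s : ℤ) * R = 2 * W := by
    have hs0 : (s : ℤ) ≠ 0 := by
      have : (0 : ℤ) < s := by exact_mod_cast (by omega : 0 < s)
      exact this.ne'
    have := (mul_eq_zero.mp h1.symm).resolve_left hs0
    linarith
  have h6 : s * R = 2 * W := by exact_mod_cast h5
  have h7 : R = 1 := by
    by_contra hc
    have : 2 ≤ R := by omega
    nlinarith
  refine ⟨h7, ?_⟩
  have h8 : M = Fintype.card N := by
    rw [h.card_N, ← h2, ← h6, h7, mul_one]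
  have h9 : (Finset.univ.filter (fun n : N => ∀ a ∈ A i, β n a = 1)) = Finset.univ :=
    Finset.card_eq_iff_eq_univ _ |>.mp h8
  intro n hn
  have := Finset.mem_univ (⟨n, hn⟩ : N)
  rw [← h9] at this
  simpa using this

theorem KF.case1 (h : KF s s A N) {ψ : G → ℤ} {β : G → G → ℤ} (hq : QF A ψ β) {r : G}
    (hrN : r ∈ N) (hr : ∀ k, β r k = 1) (hψ : ψ r = -1) :
    (∀ n ∈ N, ∀ g, β n g = 1) ∧ ∀ i, ∀ a ∈ A i, (∀ k, β a k = 1) → a = 1 := by
  have key := fun i => KF.case1_aux5 h hq hrN hr hψ i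
  refine ⟨?_, ?_⟩
  · intro n hn g
    by_contra hc
    have hg : β n g = -1 := (hq.bv n g).resolve_left hc
    have hs := h.hs
    have hcard : Fintype.card ι = s + 1 := h.cι
    have hne : Nonempty ι := by
      rw [← Fintype.card_pos_iff]; omega
    obtain ⟨i⟩ := hne
    have h1 := h.hom_count (β n) (fun g k => by rw [hq.b2, hq.b1, hq.b2 g, hq.b2 k])
      (hq.bv n) ⟨g, hg⟩ i (fun a ha => (key i).2 n hn a ha)
    have h2 : (Finset.univ.filter (fun j => ∀ a ∈ A j, β n a = 1)) = Finset.univ := by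
      rw [Finset.filter_eq_self]
      intro j _ a ha
      exact (key j).2 n hn a ha
    rw [h2, Finset.card_univ, hcard] at h1
    split_ifs at h1 <;> omega
  · intro i a ha hk
    have h1 := (key i).1
    rw [Finset.card_eq_one] at h1
    obtain ⟨x, hx⟩ := h1
    have h2 : (⟨a, ha⟩ : A i) ∈ Finset.univ.filter (fun a : A i => ∀ k, β a k = 1) := by
      simpa using hk
    have h3 : (1 : A i) ∈ Finset.univ.filter (fun a : A i => ∀ k, β a k = 1) := by
      simpa using KF.case1_aux1 hq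
    rw [hx, Finset.mem_singleton] at h2 h3
    have h4 := h2.trans h3.symm
    exact congrArg Subtype.val h4

end

end Pool.Agent.Helper298
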