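import Pool.Agent.Helper298_KF.Defs
import Pool.Agent.Helper298_KF.Mat
import Pool.Agent.Helper298_KF.L_isIntegral_trace_of_pow

set_option autoImplicit false
open scoped Classical commutatorElement

namespace Pool.Agent.Helper298



section
variable {G : Type} [Group G] [Fintype G] {N : Subgroup G}

/-- the (unnormalised) character idempotent -/
noncomputable def case1_false_aux_e (N : Subgroup G) (lam : G → ℂ) : Matrix G G ℂ :=
  ∑ n : N, lam ((n : G)⁻¹) • LM (n : G)

theorem case1_false_aux1 (lam : G → ℂ)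
    (lm : ∀ n ∈ N, ∀ m ∈ N, lam (n * m) = lam n * lam m) (m : G) (hm : m ∈ N) :
    LM m * case1_false_aux_e N lam = lam m • case1_false_aux_e N lam := by
  unfold case1_false_aux_e
  rw [Finset.mul_sum, Finset.smul_sum]
  refine Fintype.sum_equiv (Equiv.mulLeft (⟨m, hm⟩ : N)) _ _ ?_
  intro n
  rw [mul_smul_comm, LM_mul, smul_smul]
  congr 1
  have h1 : ((n : G)⁻¹) = m⁻¹ * m * (n : G)⁻¹ := by group
  simp only [Equiv.coe_mulLeft, Subgroup.coe_mul, mul_inv_rev]
  have h2 := lm m hm ((n : G)⁻¹ * m⁻¹) (N.mul_mem (N.inv_mem n.2) (N.inv_mem hm))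
  have h3 := lm ((n : G)⁻¹ * m⁻¹) (N.mul_mem (N.inv_mem n.2) (N.inv_mem hm)) m hm
  rw [mul_comm (lam m), ← h3]
  congr 1
  group

theorem case1_false_aux2 (lam : G → ℂ) (l1 : lam 1 = 1)
    (lm : ∀ n ∈ N, ∀ m ∈ N, lam (n * m) = lam n * lam m) :
    case1_false_aux_e N lam * case1_false_aux_e N lam =
      (Nat.card N : ℂ) • case1_false_aux_e N lam := by
  conv_lhs => rw [case1_false_aux_e]
  rw [Finset.sum_mul]
  rw [Finset.sum_congr rfl (fun (n : N) _ => by
    rw [smul_mul_assoc, ← case1_false_aux_e, case1_false_aux1 lam lm n n.2, smul_smul,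
      ← lm _ (N.inv_mem n.2) _ n.2, inv_mul_cancel, l1, one_smul] :
    ∀ n ∈ (Finset.univ : Finset N), _ = case1_false_aux_e N lam)]
  rw [Finset.sum_const, Finset.card_univ, ← Nat.card_eq_fintype_card, Nat.cast_smul_eq_nsmul]

theorem case1_false_aux3 (hN : N.Normal) (lam : G → ℂ)
    (lc : ∀ n ∈ N, ∀ g, lam (g * n * g⁻¹) = lam n) (g : G) :
    LM g * case1_false_aux_e N lam = case1_false_aux_e N lam * LM g := by
  unfold case1_false_aux_e
  rw [Finset.mul_sum, Finset.sum_mul]
  refine Fintype.sum_equiv (MulAut.conjNormal g : N ≃* N).toEquiv _ _ ?_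
  intro n
  rw [mul_smul_comm, smul_mul_assoc, LM_mul, LM_mul]
  have h1 : (((MulAut.conjNormal g : N ≃* N).toEquiv n : N) : G) = g * n * g⁻¹ := by
    simp
  rw [h1]
  congr 1
  · rw [← lc _ (N.inv_mem n.2) g]
    congr 1
    group
  · congr 1
    group

/-- the sum of all elements kills `e` -/
theorem case1_false_aux4 (lam : G → ℂ)
    (lm : ∀ n ∈ N, ∀ m ∈ N, lam (n * m) = lam n * lam m) (n0 : G) (hn0 : n0 ∈ N)
    (h0 : lam n0 = -1) : (∑ g : G, LM g) * case1_false_aux_e N lam = 0 := by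
  have h1 : (∑ g : G, LM g) * LM n0 = ∑ g : G, LM g := by
    rw [Finset.sum_mul]
    refine Fintype.sum_equiv (Equiv.mulRight n0) _ _ ?_
    intro g
    rw [LM_mul]
    rfl
  have h2 : (∑ g : G, LM g) * case1_false_aux_e N lam =
      -((∑ g : G, LM g) * case1_false_aux_e N lam) := by
    calc (∑ g : G, LM g) * case1_false_aux_e N lam
        = (∑ g : G, LM g) * LM n0 * case1_false_aux_e N lam := by rw [h1]
      _ = (∑ g : G, LM g) * (LM n0 * case1_false_aux_e N lam) := by rw [mul_assoc]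
      _ = -((∑ g : G, LM g) * case1_false_aux_e N lam) := by
          rw [case1_false_aux1 lam lm n0 hn0, h0, mul_smul_comm, neg_one_smul]
  ext x y
  have h3 := congrFun (congrFun h2 x) y
  exact self_eq_neg.mp h3

theorem case1_false_aux5 (lam : G → ℂ)
    (lm : ∀ n ∈ N, ∀ m ∈ N, lam (n * m) = lam n * lam m) (n0 : G) (hn0 : n0 ∈ N)
    (h0 : lam n0 = -1) (a : G) :
    (∑ n : N, LM (a * (n : G))) * case1_false_aux_e N lam = 0 := by
  have h1 : ∑ n : N, lam (n : G) = 0 := by
    have h2 : ∑ n : N, lam (n : G) = - ∑ n : N, lam (n : G) := by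
      conv_lhs => rw [← Equiv.sum_comp (Equiv.mulLeft (⟨n0, hn0⟩ : N))]
      rw [← Finset.sum_neg_distrib]
      refine Finset.sum_congr rfl (fun n _ => ?_)
      simp only [Equiv.coe_mulLeft, Subgroup.coe_mul]
      rw [lm n0 hn0 n n.2, h0, neg_one_mul]
    exact self_eq_neg.mp h2
  rw [Finset.sum_mul]
  rw [Finset.sum_congr rfl (fun (n : N) _ => by
    rw [← LM_mul, mul_assoc, case1_false_aux1 lam lm n n.2, mul_smul_comm] :
    ∀ n ∈ (Finset.univ : Finset N), _ = lam (n : G) • (LM a * case1_false_aux_e N lam))]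
  rw [← Finset.sum_smul, h1, zero_smul]

/-- the sum over a subgroup of right multiplications -/
noncomputable def case1_false_aux_r (B : Subgroup G) : Matrix G G ℂ := ∑ a : B, RM (a : G)

theorem case1_false_aux6 (B : Subgroup G) :
    case1_false_aux_r B * case1_false_aux_r B = (Nat.card B : ℂ) • case1_false_aux_r B := by
  unfold case1_false_aux_r
  rw [Finset.sum_mul_sum, Finset.sum_comm]
  simp only [RM_mul]
  rw [sum_subgroup_mul B (fun g => RM g), Nat.cast_smul_eq_nsmul]

theorem case1_false_aux7 (B : Subgroup G) (g : G) :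
    LM g * case1_false_aux_r B = case1_false_aux_r B * LM g := by
  unfold case1_false_aux_r
  rw [Finset.mul_sum, Finset.sum_mul]
  exact Finset.sum_congr rfl (fun a _ => LM_RM_comm g a)

theorem case1_false_aux8 (B : Subgroup G) (lam : G → ℂ) :
    case1_false_aux_e N lam * case1_false_aux_r B =
      case1_false_aux_r B * case1_false_aux_e N lam := by
  unfold case1_false_aux_e
  rw [Finset.mul_sum, Finset.sum_mul]
  refine Finset.sum_congr rfl (fun n _ => ?_)
  rw [smul_mul_assoc, mul_smul_comm, case1_false_aux7]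

end

section
variable {G ι : Type} [Group G] [Fintype G] [Fintype ι] {s t : ℕ} {A : ι → Subgroup G}
  {N : Subgroup G}

theorem case1_false_aux9 (B : Subgroup G) :
    SM A * case1_false_aux_r B = case1_false_aux_r B * SM A := by
  unfold SM
  rw [Finset.mul_sum, Finset.sum_mul]
  refine Finset.sum_congr rfl (fun i _ => ?_)
  rw [Finset.mul_sum, Finset.sum_mul]
  exact Finset.sum_congr rfl (fun a _ => case1_false_aux7 B a)

theorem case1_false_aux10 (hN : N.Normal) (lam : G → ℂ)
    (lc : ∀ n ∈ N, ∀ g, lam (g * n * g⁻¹) = lam n) :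
    SM A * case1_false_aux_e N lam = case1_false_aux_e N lam * SM A := by
  unfold SM
  rw [Finset.mul_sum, Finset.sum_mul]
  refine Finset.sum_congr rfl (fun i _ => ?_)
  rw [Finset.mul_sum, Finset.sum_mul]
  exact Finset.sum_congr rfl (fun a _ => case1_false_aux3 hN lam lc a)

/-- `S² e = 2 s S e` -/
theorem case1_false_aux11 (h : KF s s A N) (lam : G → ℂ)
    (lm : ∀ n ∈ N, ∀ m ∈ N, lam (n * m) = lam n * lam m) (n0 : G) (hn0 : n0 ∈ N)
    (h0 : lam n0 = -1) :
    SM A * SM A * case1_false_aux_e N lam = (2 * (s : ℂ)) • (SM A * case1_false_aux_e N lam) := by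
  have h1 := congrArg (fun X => X * case1_false_aux_e N lam) h.SM_sq
  simp only [add_mul, smul_mul_assoc] at h1
  rw [case1_false_aux4 lam lm n0 hn0 h0] at h1
  have h2 : (∑ i, ∑ a : A i, ∑ n : N, LM ((a : G) * n)) * case1_false_aux_e N lam = 0 := by
    rw [Finset.sum_mul]
    refine Finset.sum_eq_zero (fun i _ => ?_)
    rw [Finset.sum_mul]
    refine Finset.sum_eq_zero (fun a _ => ?_)
    exact case1_false_aux5 lam lm n0 hn0 h0 a
  rw [h2, add_zero, smul_zero, add_zero] at h1
  rw [h1, ← Nat.cast_smul_eq_nsmul ℂ]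
  congr 1
  push_cast
  ring

/-- the idempotent -/
theorem case1_false_aux12 (h : KF s s A N) (lam : G → ℂ) (l1 : lam 1 = 1)
    (lm : ∀ n ∈ N, ∀ m ∈ N, lam (n * m) = lam n * lam m)
    (lc : ∀ n ∈ N, ∀ g, lam (g * n * g⁻¹) = lam n) (n0 : G) (hn0 : n0 ∈ N)
    (h0 : lam n0 = -1) (i0 : ι) :
    IsIntegral ℤ (((2 * (s : ℂ) ^ 3)⁻¹) •
      (SM A * case1_false_aux_e N lam * case1_false_aux_r (A i0))).trace := by
  apply isIntegral_trace_of_pow _ 1 le_rfl
  have hs : (s : ℂ) ≠ 0 := by
    have := h.hs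
    exact_mod_cast (by omega : s ≠ 0)
  have e1 := case1_false_aux11 h lam lm n0 hn0 h0
  have e2 := case1_false_aux2 (N := N) lam l1 lm
  have e3 := case1_false_aux6 (A i0)
  rw [h.cN] at e2
  rw [h.cA i0] at e3
  have c1 := case1_false_aux9 (A := A) (A i0)
  have c2 := case1_false_aux8 (N := N) (A i0) lam
  have c3 := case1_false_aux10 (A := A) h.nrm lam lc
  set S := SM A
  set e := case1_false_aux_e N lam
  set r := case1_false_aux_r (A i0)
  have h1 : S * e * r * (S * e * r) = (S * S * e) * e * (r * r) * 1 := by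
    calc S * e * r * (S * e * r) = S * e * (r * S) * e * r := by noncomm_ring
      _ = S * (e * S) * r * e * r := by rw [← c1]; noncomm_ring
      _ = S * S * e * (r * e) * r := by rw [← c3]; noncomm_ring
      _ = (S * S * e) * e * (r * r) * 1 := by rw [← c2]; noncomm_ring
  rw [pow_succ, pow_one, smul_mul_smul_comm, h1, e1, e3]
  rw [mul_one, smul_mul_assoc, smul_mul_smul_comm, mul_assoc S e e, e2, mul_smul_comm, smul_mul_assoc,
    smul_smul, smul_smul]
  congr 1
  field_simp

theorem case1_false_aux13 (lam : G → ℂ) (i0 : ι) :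
    (SM A * case1_false_aux_e N lam * case1_false_aux_r (A i0)).trace =
      ∑ j, ∑ x : G, ∑ a : A i0, ∑ b : A j, ∑ n : N,
        if (b : G) * n * x * a = x then lam ((n : G)⁻¹) else 0 := by
  have h1 : SM A * case1_false_aux_e N lam * case1_false_aux_r (A i0) =
      ∑ j, ∑ b : A j, ∑ n : N, ∑ a : A i0, lam ((n : G)⁻¹) • (LM ((b : G) * n) * RM (a : G)) := by
    unfold SM case1_false_aux_e case1_false_aux_r
    rw [Finset.sum_mul, Finset.sum_mul]
    refine Finset.sum_congr rfl (fun j _ => ?_)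
    rw [Finset.sum_mul, Finset.sum_mul]
    refine Finset.sum_congr rfl (fun b _ => ?_)
    rw [mul_assoc, Finset.sum_mul, Finset.mul_sum]
    refine Finset.sum_congr rfl (fun n _ => ?_)
    rw [Finset.mul_sum, Finset.mul_sum]
    refine Finset.sum_congr rfl (fun a _ => ?_)
    rw [smul_mul_assoc, mul_smul_comm, ← mul_assoc, LM_mul]
  rw [h1]
  simp only [Matrix.trace_sum, Matrix.trace_smul, trace_LM_RM]
  refine Finset.sum_congr rfl (fun j _ => ?_)
  have h2 : ∀ (b : A j) (n : N) (a : A i0),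
      lam ((n : G)⁻¹) • (((Finset.univ.filter (fun x : G => (b : G) * n * x * a = x)).card : ℕ) : ℂ) =
      ∑ x : G, if (b : G) * n * x * a = x then lam ((n : G)⁻¹) else 0 := by
    intro b n a
    rw [← Finset.sum_boole, smul_eq_mul, Finset.mul_sum]
    refine Finset.sum_congr rfl (fun x _ => ?_)
    split_ifs <;> simp
  simp only [h2]
  -- now swap the sums
  calc ∑ b : A j, ∑ n : N, ∑ a : A i0, ∑ x : G,
        (if (b : G) * n * x * a = x then lam ((n : G)⁻¹) else 0)
      = ∑ b : A j, ∑ n : N, ∑ x : G, ∑ a : A i0,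
        (if (b : G) * n * x * a = x then lam ((n : G)⁻¹) else 0) := by
        refine Finset.sum_congr rfl (fun b _ => Finset.sum_congr rfl (fun n _ => ?_))
        exact Finset.sum_comm
    _ = ∑ b : A j, ∑ x : G, ∑ n : N, ∑ a : A i0,
        (if (b : G) * n * x * a = x then lam ((n : G)⁻¹) else 0) := by
        refine Finset.sum_congr rfl (fun b _ => ?_)
        exact Finset.sum_comm
    _ = ∑ x : G, ∑ b : A j, ∑ n : N, ∑ a : A i0,
        (if (b : G) * n * x * a = x then lam ((n : G)⁻¹) else 0) := Finset.sum_comm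
    _ = ∑ x : G, ∑ b : A j, ∑ a : A i0, ∑ n : N,
        (if (b : G) * n * x * a = x then lam ((n : G)⁻¹) else 0) := by
        refine Finset.sum_congr rfl (fun x _ => Finset.sum_congr rfl (fun b _ => ?_))
        exact Finset.sum_comm
    _ = ∑ x : G, ∑ a : A i0, ∑ b : A j, ∑ n : N,
        (if (b : G) * n * x * a = x then lam ((n : G)⁻¹) else 0) := by
        refine Finset.sum_congr rfl (fun x _ => ?_)
        exact Finset.sum_comm

/-- the components different from `i0` -/
theorem case1_false_aux14 (h : KF s t A N) (hG : ∀ g k : G, ⁅g, k⁆ ∈ N) (lam : G → ℂ)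
    (l1 : lam 1 = 1) {i0 j : ι} (hj : j ≠ i0) (x : G) :
    (∑ a : A i0, ∑ b : A j, ∑ n : N,
        if (b : G) * n * x * a = x then lam ((n : G)⁻¹) else 0) = 1 := by
  have key : ∀ (a : A i0) (b : A j) (n : N), (b : G) * n * x * a = x → a = 1 ∧ b = 1 ∧ n = 1 := by
    intro a b n e
    have e1 : (b : G) * n = (a : G)⁻¹ * ⁅(a : G), x⁆ := by
      rw [commutatorElement_def]
      have : (b : G) * n = x * (a : G)⁻¹ * x⁻¹ := by
        rw [eq_mul_inv_iff_mul_eq, eq_mul_inv_iff_mul_eq]; exact e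
      rw [this]; group
    obtain ⟨e2, e3⟩ := h.ANAN hj b.2 ((A i0).inv_mem a.2) n.2 (hG _ _) e1
    have e4 : (a : G) = 1 := by rwa [inv_eq_one] at e3
    refine ⟨Subtype.ext e4, Subtype.ext e2, Subtype.ext ?_⟩
    rw [e2, e4, one_mul, mul_one] at e
    exact mul_eq_right.mp e
  rw [Finset.sum_eq_single (1 : A i0)]
  · rw [Finset.sum_eq_single (1 : A j)]
    · rw [Finset.sum_eq_single (1 : N)]
      · simp [l1]
      · intro n _ hn
        rw [if_neg]
        intro e
        exact hn (key _ _ _ e).2.2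
      · intro hn; exact absurd (Finset.mem_univ _) hn
    · intro b _ hb
      refine Finset.sum_eq_zero (fun n _ => ?_)
      rw [if_neg]
      intro e
      exact hb (key _ _ _ e).2.1
    · intro hn; exact absurd (Finset.mem_univ _) hn
  · intro a _ ha
    refine Finset.sum_eq_zero (fun b _ => Finset.sum_eq_zero (fun n _ => ?_))
    rw [if_neg]
    intro e
    exact ha (key _ _ _ e).1
  · intro hn; exact absurd (Finset.mem_univ _) hn

/-- the component `i0` -/
theorem case1_false_aux15 (h : KF s t A N) (hG : ∀ g k : G, ⁅g, k⁆ ∈ N) (lam : G → ℂ)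
    {i0 : ι} (x : G) (a : A i0) :
    (∑ b : A i0, ∑ n : N,
        if (b : G) * n * x * a = x then lam ((n : G)⁻¹) else 0) = lam (⁅(a : G), x⁆⁻¹) := by
  have key : ∀ (b : A i0) (n : N), (b : G) * n * x * a = x →
      b = a⁻¹ ∧ n = ⟨⁅(a : G), x⁆, hG _ _⟩ := by
    intro b n e
    have e1 : (b : G) * n = (a : G)⁻¹ * ⁅(a : G), x⁆ := by
      rw [commutatorElement_def]
      have : (b : G) * n = x * (a : G)⁻¹ * x⁻¹ := by
        rw [eq_mul_inv_iff_mul_eq, eq_mul_inv_iff_mul_eq]; exact e
      rw [this]; group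
    have e2 : (a : G) * b = ⁅(a : G), x⁆ * (n : G)⁻¹ := by
      rw [eq_mul_inv_iff_mul_eq, mul_assoc, e1]; group
    have e3 : (a : G) * b = 1 := h.AN ((A i0).mul_mem a.2 b.2)
      (by rw [e2]; exact N.mul_mem (hG _ _) (N.inv_mem n.2))
    have e4 : b = a⁻¹ := by
      apply Subtype.ext
      rw [Subgroup.coe_inv]
      exact (inv_eq_of_mul_eq_one_right e3).symm
    refine ⟨e4, Subtype.ext ?_⟩
    rw [e2, mul_inv_eq_one] at e3
    exact e3.symm
  rw [Finset.sum_eq_single (a⁻¹ : A i0)]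
  · rw [Finset.sum_eq_single (⟨⁅(a : G), x⁆, hG _ _⟩ : N)]
    · rw [if_pos]
      simp only [Subgroup.coe_inv]
      rw [commutatorElement_def]
      group
    · intro n _ hn
      rw [if_neg]
      intro e
      exact hn (key _ _ e).2
    · intro hn; exact absurd (Finset.mem_univ _) hn
  · intro b _ hb
    refine Finset.sum_eq_zero (fun n _ => ?_)
    rw [if_neg]
    intro e
    exact hb (key _ _ e).1
  · intro hn; exact absurd (Finset.mem_univ _) hn

theorem KF.case1_false (h : KF s s A N) (hs2 : Even s) {β : G → G → ℤ}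
    (b1 : ∀ g k l, β g (k * l) = β g k * β g l) (bv : ∀ g k, β g k = 1 ∨ β g k = -1)
    (hG : ∀ g k : G, ⁅g, k⁆ ∈ N) (lam : G → ℂ) (l1 : lam 1 = 1)
    (lm : ∀ n ∈ N, ∀ m ∈ N, lam (n * m) = lam n * lam m)
    (lc : ∀ n ∈ N, ∀ g, lam (g * n * g⁻¹) = lam n)
    (lb : ∀ g k : G, lam ⁅g, k⁆ = (β g k : ℂ))
    (hA : ∀ i, ∀ a ∈ A i, a ≠ 1 → ∃ k, β a k = -1) : False := by
  have hs1 := h.hs
  have hs : (s : ℂ) ≠ 0 := by exact_mod_cast (by omega : s ≠ 0)
  -- an index
  have hι : Nonempty ι := by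
    rw [← Fintype.card_pos_iff, h.cι]; omega
  obtain ⟨i0⟩ := hι
  -- an element `n0`
  obtain ⟨a0, ha0, ha01⟩ : ∃ a ∈ A i0, a ≠ 1 := by
    have h1 : 1 < Nat.card (A i0) := by rw [h.cA i0]; exact h.hs
    rw [Finite.one_lt_card_iff_nontrivial] at h1
    obtain ⟨⟨a, ha⟩, ha1⟩ := _root_.exists_ne (1 : A i0)
    exact ⟨a, ha, fun e => ha1 (Subtype.ext e)⟩
  obtain ⟨k0, hk0⟩ := hA i0 a0 ha0 ha01
  have h0 : lam ⁅a0, k0⁆ = -1 := by rw [lb, hk0]; simp
  have hint := case1_false_aux12 h lam l1 lm lc _ (hG a0 k0) h0 i0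
  -- the trace
  have hinv : ∀ a x : G, lam (⁅a, x⁆⁻¹) = (β a x : ℂ) := by
    intro a x
    have h1 := lm _ (N.inv_mem (hG a x)) _ (hG a x)
    rw [inv_mul_cancel, l1, lb] at h1
    rcases bv a x with h2 | h2
    · rw [h2] at h1 ⊢; simpa using h1.symm
    · rw [h2] at h1 ⊢
      push_cast at h1 ⊢
      linear_combination h1
  have hcard : Fintype.card G = s ^ 3 := by rw [h.card_G]; ring
  have hT : (SM A * case1_false_aux_e N lam * case1_false_aux_r (A i0)).trace =
      ((s : ℂ) + 1) * (s : ℂ) ^ 3 := by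
    rw [case1_false_aux13]
    have hj : ∀ j : ι, (∑ x : G, ∑ a : A i0, ∑ b : A j, ∑ n : N,
        if (b : G) * n * x * a = x then lam ((n : G)⁻¹) else 0) = (s : ℂ) ^ 3 := by
      intro j
      by_cases hj : j = i0
      · subst hj
        simp only [case1_false_aux15 h hG lam, hinv]
        rw [Finset.sum_comm, Finset.sum_eq_single (1 : A j)]
        · have h2 : ∀ x : G, ((β ((1 : A j) : G) x : ℤ) : ℂ) = 1 := by
            intro x
            rw [← lb, Subgroup.coe_one, commutatorElement_one_left, l1]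
          simp only [h2]
          rw [Finset.sum_const, Finset.card_univ, hcard]
          simp
        · intro a _ ha
          obtain ⟨k, hk⟩ := hA j a a.2 (fun e => ha (Subtype.ext e))
          have h3 : ∑ x : G, ((β (a : G) x : ℤ) : ℂ) = - ∑ x : G, ((β (a : G) x : ℤ) : ℂ) := by
            conv_lhs => rw [← Equiv.sum_comp (Equiv.mulLeft k)]
            rw [← Finset.sum_neg_distrib]
            refine Finset.sum_congr rfl (fun x _ => ?_)
            simp only [Equiv.coe_mulLeft]
            rw [b1, hk]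
            push_cast
            ring
          exact self_eq_neg.mp h3
        · intro hn; exact absurd (Finset.mem_univ _) hn
      · rw [Finset.sum_congr rfl (fun x _ => case1_false_aux14 h hG lam l1 hj x), Finset.sum_const,
          Finset.card_univ, hcard]
        simp
    rw [Finset.sum_congr rfl (fun j _ => hj j), Finset.sum_const, Finset.card_univ, h.cι,
      nsmul_eq_mul]
    push_cast
    ring
  rw [Matrix.trace_smul, hT, smul_eq_mul] at hint
  have h1 : (2 * (s : ℂ) ^ 3)⁻¹ * (((s : ℂ) + 1) * (s : ℂ) ^ 3) =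
      algebraMap ℚ ℂ (((s : ℚ) + 1) / 2) := by
    simp only [map_div₀, map_add, map_natCast, map_one, map_ofNat]
    field_simp
  rw [h1, isIntegral_algebraMap_iff (algebraMap ℚ ℂ).injective] at hint
  obtain ⟨z, hz⟩ := IsIntegrallyClosed.isIntegral_iff.mp hint
  have h2 : (2 * z : ℤ) = s + 1 := by
    have h3 : (algebraMap ℤ ℚ z) = (z : ℚ) := rfl
    rw [h3] at hz
    have h4 : (2 * z : ℚ) = s + 1 := by rw [hz]; ring
    exact_mod_cast h4
  obtain ⟨m, hm⟩ := hs2
  omega

end

end Pool.Agent.Helper298
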