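import Pool.Agent.Helper298_KF.Defs

set_option autoImplicit false
open scoped Classical commutatorElement

namespace Pool.Agent.Helper298

section
variable {G ι : Type} [Group G] [Fintype G] [Fintype ι] {s t : ℕ} {A : ι → Subgroup G}
  {N : Subgroup G}

/-- The map from the disjoint union of `N` and the pairs `(a, n)` with `a ≠ 1` to `G`. -/
def KF.sum_partition_auxMap (A : ι → Subgroup G) (N : Subgroup G) :
    ((j : ι) × ({a : A j // a ≠ 1} × N)) ⊕ N → G
  | Sum.inl ⟨_, a, n⟩ => a.1.1 * n.1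
  | Sum.inr n => n.1

theorem KF.sum_partition_auxInj (h : KF s s A N) :
    Function.Injective (KF.sum_partition_auxMap A N) := by
  rintro (⟨j, ⟨⟨a, ha⟩, ha1⟩, ⟨n, hn⟩⟩ | ⟨n, hn⟩) (⟨j', ⟨⟨a', ha'⟩, ha1'⟩, ⟨n', hn'⟩⟩ | ⟨n', hn'⟩) e
  · simp only [KF.sum_partition_auxMap] at e
    have hb0 : a ≠ 1 := fun h0 => ha1 (Subtype.ext h0)
    by_cases hjj : j = j'
    · subst hjj
      have e1 : a'⁻¹ * a = n' * n⁻¹ := by
        rw [inv_mul_eq_iff_eq_mul, ← mul_assoc, ← e]; group
      have e2 : a'⁻¹ * a = 1 := by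
        apply h.AN ((A j).mul_mem ((A j).inv_mem ha') ha)
        rw [e1]; exact N.mul_mem hn' (N.inv_mem hn)
      have e3 : a' = a := by rwa [inv_mul_eq_one] at e2
      subst e3
      have e4 : n = n' := mul_left_cancel e
      subst e4
      rfl
    · exact absurd (h.ANAN hjj ha ha' hn hn' e).1 hb0
  · exfalso
    simp only [KF.sum_partition_auxMap] at e
    have hb0 : a ≠ 1 := fun h0 => ha1 (Subtype.ext h0)
    apply hb0
    apply h.AN ha
    have : a = n' * n⁻¹ := by rw [← e]; group
    rw [this]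
    exact N.mul_mem hn' (N.inv_mem hn)
  · exfalso
    simp only [KF.sum_partition_auxMap] at e
    have hb0 : a' ≠ 1 := fun h0 => ha1' (Subtype.ext h0)
    apply hb0
    apply h.AN ha'
    have : a' = n * n'⁻¹ := by rw [e]; group
    rw [this]
    exact N.mul_mem hn (N.inv_mem hn')
  · simp only [KF.sum_partition_auxMap] at e
    subst e
    rfl

theorem KF.sum_partition_auxBij (h : KF s s A N) :
    Function.Bijective (KF.sum_partition_auxMap A N) := by
  rw [Fintype.bijective_iff_injective_and_card]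
  refine ⟨h.sum_partition_auxInj, ?_⟩
  rw [Fintype.card_sum, Fintype.card_sigma, h.card_N, h.card_G]
  have h1 : ∀ j : ι, Fintype.card ({a : A j // a ≠ 1} × N) = (s - 1) * s := by
    intro j
    rw [Fintype.card_prod, h.card_N, Fintype.card_subtype_compl, Fintype.card_subtype_eq, h.card_A]
  rw [Finset.sum_congr rfl (fun j _ => h1 j), Finset.sum_const, Finset.card_univ, h.cι]
  have := h.hs
  obtain ⟨k, rfl⟩ : ∃ k, s = k + 1 := ⟨s - 1, by omega⟩
  simp
  ring

theorem KF.sum_partition {M : Type*} [AddCommMonoid M] (h : KF s s A N) (F : G → M) :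
    ∑ g, F g + s • ∑ n : N, F n = ∑ j, ∑ a : A j, ∑ n : N, F (a * n) := by
  rw [← h.sum_partition_auxBij.sum_comp F, Fintype.sum_sum_type, Fintype.sum_sigma]
  have h1 : ∀ j : ι, ∑ a : A j, ∑ n : N, F (a * n) =
      ∑ x : {a : A j // a ≠ 1} × N, F (x.1.1 * x.2) + ∑ n : N, F n := by
    intro j
    rw [← Finset.sum_erase_add Finset.univ _ (Finset.mem_univ (1 : A j)), Fintype.sum_prod_type]
    congr 1
    · rw [Finset.sum_subtype]
      intro x
      simp
    · simp
  rw [Finset.sum_congr rfl (fun j _ => h1 j), Finset.sum_add_distrib, Finset.sum_const,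
    Finset.card_univ, h.cι, add_assoc]
  congr 1
  rw [add_smul, one_smul, add_comm]
  rfl

end

end Pool.Agent.Helper298
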