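import Pool.Agent.Helper298_KF.Defs
import Pool.Agent.Helper298_KF.L_KF_sum_partition

set_option autoImplicit false
open scoped Classical commutatorElement

namespace Pool.Agent.Helper298



section
variable {G ι : Type} [Group G] [Fintype G] [Fintype ι] {s t : ℕ} {A : ι → Subgroup G}
  {N : Subgroup G}

theorem KF.star2_aux {ψ : G → ℤ} {β : G → G → ℤ} (hq : QF A ψ β) (H : Subgroup G) (n : G) :
    ∑ a : H, β a n = if ∀ a ∈ H, β n a = 1 then (Nat.card H : ℤ) else 0 := by
  split_ifs with hc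
  · have h1 : ∀ a : H, β a n = 1 := fun a => by rw [hq.b2]; exact hc a a.2
    rw [Finset.sum_congr rfl (fun a _ => h1 a)]
    simp [Nat.card_eq_fintype_card]
  · push Not at hc
    obtain ⟨a0, ha0, hne⟩ := hc
    have h2 : β a0 n = -1 := by
      rw [hq.b2]
      rcases hq.bv n a0 with h | h
      · exact absurd h hne
      · exact h
    have h3 : ∑ a : H, β a n = ∑ a : H, β ((⟨a0, ha0⟩ : H) * a : H) n :=
      (Equiv.sum_comp (Equiv.mulLeft (⟨a0, ha0⟩ : H)) (fun a : H => β a n)).symm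
    have h4 : ∀ a : H, β ((⟨a0, ha0⟩ : H) * a : H) n = - β a n := by
      intro a
      rw [Subgroup.coe_mul, hq.b1, h2]
      ring
    rw [Finset.sum_congr rfl (fun a _ => h4 a), Finset.sum_neg_distrib] at h3
    linarith

theorem KF.star2 (h : KF s s A N) {ψ : G → ℤ} {β : G → G → ℤ} (hq : QF A ψ β) :
    ∑ g, ψ g = s * ∑ n : N, ψ n *
      (((Finset.univ.filter (fun j => ∀ a ∈ A j, β n a = 1)).card : ℤ) - 1) := by
  have h1 := h.sum_partition ψ
  have h2 : ∀ j : ι, ∑ a : A j, ∑ n : N, ψ (a * n)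
      = ∑ n : N, ψ n * (if ∀ a ∈ A j, β n a = 1 then (s : ℤ) else 0) := by
    intro j
    rw [Finset.sum_comm]
    refine Finset.sum_congr rfl fun n _ => ?_
    have h3 : ∀ a : A j, ψ (a * n) = ψ n * β a n := by
      intro a
      rw [hq.pm, hq.pA j a a.2, one_mul]
    rw [Finset.sum_congr rfl (fun a _ => h3 a), ← Finset.mul_sum,
      KF.star2_aux hq (A j) n, h.cA j]
  rw [Finset.sum_congr rfl (fun j _ => h2 j), Finset.sum_comm] at h1
  have h4 : ∀ n : N, ∑ j : ι, ψ n * (if ∀ a ∈ A j, β n a = 1 then (s : ℤ) else 0)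
      = s * (ψ n * ((Finset.univ.filter (fun j => ∀ a ∈ A j, β n a = 1)).card : ℤ)) := by
    intro n
    rw [← Finset.mul_sum, ← Finset.sum_filter, Finset.sum_const, nsmul_eq_mul]
    ring
  rw [Finset.sum_congr rfl (fun n _ => h4 n), ← Finset.mul_sum] at h1
  rw [nsmul_eq_mul] at h1
  have h5 : ∑ n : N, ψ n *
      (((Finset.univ.filter (fun j => ∀ a ∈ A j, β n a = 1)).card : ℤ) - 1)
      = ∑ n : N, ψ n * ((Finset.univ.filter (fun j => ∀ a ∈ A j, β n a = 1)).card : ℤ)
        - ∑ n : N, ψ n := by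
    rw [← Finset.sum_sub_distrib]
    refine Finset.sum_congr rfl fun n _ => ?_
    ring
  rw [h5]
  linarith

end

end Pool.Agent.Helper298
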