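import Pool.Agent.Helper298_KF.Defs
import Pool.Agent.Helper298_KF.L_KF_hom_count
import Pool.Agent.Helper298_KF.L_KF_star2

set_option autoImplicit false
open scoped Classical commutatorElement

namespace Pool.Agent.Helper298





section
variable {G ι : Type} [Group G] [Fintype G] [Fintype ι] {s t : ℕ} {A : ι → Subgroup G}
  {N : Subgroup G}

theorem KF.case2_lower_aux (h : KF s s A N) {ψ : G → ℤ} {β : G → G → ℤ} (hq : QF A ψ β)
    (hψ : ∀ r ∈ N, (∀ k, β r k = 1) → ψ r = 1) (n : N) :
    (if (∀ k, β n k = 1) then (s : ℤ) else -1) ≤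
      ψ n * (((Finset.univ.filter (fun j => ∀ a ∈ A j, β n a = 1)).card : ℤ) - 1) := by
  by_cases hn : ∀ k, β n k = 1
  · rw [if_pos hn, hψ n n.2 hn]
    have h1 : (Finset.univ.filter (fun j => ∀ a ∈ A j, β n a = 1)) = (Finset.univ : Finset ι) := by
      apply Finset.filter_true_of_mem
      intro j _ a _
      exact hn a
    rw [h1, Finset.card_univ, h.cι]
    push_cast
    linarith
  · rw [if_neg hn]
    push Not at hn
    obtain ⟨k, hk⟩ := hn
    have hk' : β n k = -1 := (hq.bv n k).resolve_left hk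
    by_cases hi : ∃ i, ∀ a ∈ A i, β n a = 1
    · obtain ⟨i, hi⟩ := hi
      have h2 := KF.hom_count h (fun g => β n g)
        (fun g k => by show β n (g * k) = β n g * β n k; rw [hq.b2 n (g * k), hq.b1, hq.b2 g n, hq.b2 k n])
        (fun g => hq.bv n g) ⟨k, hk'⟩ i hi
      have h3 : (Finset.univ.filter (fun j => ∀ a ∈ A j, β n a = 1)).card = 1 ∨
          (Finset.univ.filter (fun j => ∀ a ∈ A j, β n a = 1)).card = 2 := by
        rw [h2]
        split_ifs
        · exact Or.inl rfl
        · exact Or.inr rfl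
      rcases hq.pv n with hp | hp <;> rcases h3 with h3 | h3 <;> rw [hp, h3] <;> norm_num
    · push Not at hi
      have h1 : (Finset.univ.filter (fun j => ∀ a ∈ A j, β n a = 1)) = (∅ : Finset ι) := by
        apply Finset.filter_false_of_mem
        intro j _ hj
        obtain ⟨a, ha, ha'⟩ := hi j
        exact ha' (hj a ha)
      rw [h1]
      rcases hq.pv n with hp | hp <;> rw [hp] <;> norm_num

theorem KF.case2_lower (h : KF s s A N) {ψ : G → ℤ} {β : G → G → ℤ} (hq : QF A ψ β)
    (hψ : ∀ r ∈ N, (∀ k, β r k = 1) → ψ r = 1) :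
    (s : ℤ) * ((s + 1) * ((Finset.univ.filter (fun n : N => ∀ k, β n k = 1)).card : ℤ) - s) ≤
      ∑ g, ψ g := by
  rw [KF.star2 h hq]
  apply mul_le_mul_of_nonneg_left _ (by positivity)
  have h1 : ∑ n : N, (if (∀ k, β n k = 1) then (s : ℤ) else -1) ≤
      ∑ n : N, ψ n * (((Finset.univ.filter (fun j => ∀ a ∈ A j, β n a = 1)).card : ℤ) - 1) :=
    Finset.sum_le_sum (fun n _ => KF.case2_lower_aux h hq hψ n)
  refine le_trans (le_of_eq ?_) h1
  rw [Finset.sum_ite, Finset.sum_const, Finset.sum_const]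
  have h2 := Finset.card_filter_add_card_filter_not (s := (Finset.univ : Finset N))
    (fun n : N => ∀ k, β n k = 1)
  rw [Finset.card_univ, h.card_N] at h2
  have h3 : (((Finset.univ.filter (fun n : N => ¬ ∀ k, β n k = 1)).card : ℕ) : ℤ) =
      s - ((Finset.univ.filter (fun n : N => ∀ k, β n k = 1)).card : ℤ) := by
    have := congrArg (fun m : ℕ => (m : ℤ)) h2
    push_cast at this
    linarith
  simp only [nsmul_eq_mul]
  rw [h3]
  ring

end

end Pool.Agent.Helper298
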