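import Pool.Agent.Helper298_KF.Defs

set_option autoImplicit false
open scoped Classical commutatorElement

namespace Pool.Agent.Helper298

section
variable {G ι : Type} [Group G] [Fintype G] [Fintype ι] {s t : ℕ} {A : ι → Subgroup G}
  {N : Subgroup G}

theorem QF.sum_sq_aux1 {ψ : G → ℤ} {β : G → G → ℤ} (hq : QF A ψ β) (h : G) :
    ∑ g, β g h = if (∀ k, β h k = 1) then (Nat.card G : ℤ) else 0 := by
  by_cases hp : ∀ k, β h k = 1
  · rw [if_pos hp]
    have : ∀ g ∈ (Finset.univ : Finset G), β g h = 1 := fun g _ => by rw [hq.b2]; exact hp g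
    rw [Finset.sum_congr rfl this]
    simp
  · rw [if_neg hp]
    push Not at hp
    obtain ⟨k, hk⟩ := hp
    have hk' : β k h = -1 := by
      rw [hq.b2]
      rcases hq.bv h k with h1 | h1
      · exact absurd h1 hk
      · exact h1
    have e : ∑ g, β g h = ∑ g, β (k * g) h :=
      (Function.Bijective.sum_comp (Group.mulLeft_bijective k) (fun g => β g h)).symm
    have e2 : ∑ g, β (k * g) h = - ∑ g, β g h := by
      rw [← Finset.sum_neg_distrib]
      refine Finset.sum_congr rfl fun g _ => ?_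
      rw [hq.b1, hk']
      ring
    rw [e2] at e
    linarith

theorem QF.sum_sq_aux2 {ψ : G → ℤ} {β : G → G → ℤ} (hq : QF A ψ β) :
    (∑ g, ψ g) ^ 2 = (Nat.card G : ℤ) * ∑ h, (if (∀ k, β h k = 1) then ψ h else 0) := by
  have h1 : (∑ g, ψ g) ^ 2 = ∑ g, ∑ h, ψ h * β g h := by
    rw [sq, Finset.sum_mul]
    refine Finset.sum_congr rfl fun g _ => ?_
    have e : ∑ h, ψ h = ∑ h, ψ (g * h) :=
      (Function.Bijective.sum_comp (Group.mulLeft_bijective g) (fun h => ψ h)).symm
    rw [e, Finset.mul_sum]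
    refine Finset.sum_congr rfl fun h _ => ?_
    rw [hq.pm]
    rcases hq.pv g with hg | hg <;> rw [hg] <;> ring
  rw [h1, Finset.sum_comm, Finset.mul_sum]
  refine Finset.sum_congr rfl fun h _ => ?_
  rw [← Finset.mul_sum, hq.sum_sq_aux1]
  split_ifs <;> ring

theorem QF.sum_sq {ψ : G → ℤ} {β : G → G → ℤ} (hq : QF A ψ β) (hpos : 0 < ∑ g, ψ g) :
    (∀ r, (∀ k, β r k = 1) → ψ r = 1) ∧
      (∑ g, ψ g) ^ 2 = (Nat.card G : ℤ) *
        ((Finset.univ.filter (fun r : G => ∀ k, β r k = 1)).card : ℤ) := by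
  have h2 := hq.sum_sq_aux2
  have h3 : ∀ r, (∀ k, β r k = 1) → ψ r = 1 := by
    intro r hr
    rcases hq.pv r with h | h
    · exact h
    exfalso
    have e : ∑ h, (if (∀ k, β h k = 1) then ψ h else 0) =
        ∑ h, (if (∀ k, β (r * h) k = 1) then ψ (r * h) else 0) :=
      (Function.Bijective.sum_comp (Group.mulLeft_bijective r)
        (fun h => if (∀ k, β h k = 1) then ψ h else 0)).symm
    have e2 : ∑ h, (if (∀ k, β (r * h) k = 1) then ψ (r * h) else 0) =
        - ∑ h, (if (∀ k, β h k = 1) then ψ h else 0) := by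
      rw [← Finset.sum_neg_distrib]
      refine Finset.sum_congr rfl fun g _ => ?_
      have e3 : (∀ k, β (r * g) k = 1) ↔ (∀ k, β g k = 1) := by
        simp only [hq.b1, hr, one_mul]
      rw [hq.pm, hr g, h]
      simp only [e3]
      split_ifs <;> ring
    rw [e2] at e
    have e4 : ∑ h, (if (∀ k, β h k = 1) then ψ h else 0) = 0 := by linarith
    rw [e4, mul_zero] at h2
    have := pow_eq_zero_iff (two_ne_zero) |>.1 h2
    linarith
  refine ⟨h3, ?_⟩
  rw [h2, Finset.card_filter]
  push_cast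
  congr 1
  refine Finset.sum_congr rfl fun h _ => ?_
  by_cases hp : ∀ k, β h k = 1
  · simp only [hp, implies_true, if_true]
    exact h3 h hp
  · simp only [hp, if_false]

end

end Pool.Agent.Helper298
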