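import Pool.Agent.Helper298_KF.Defs
import Pool.Agent.Helper298_KF.L_KF_star
import Pool.Agent.Helper298_KF.L_KF_case2_lower
import Pool.Agent.Helper298_KF.L_QF_sum_sq

set_option autoImplicit false
open scoped Classical commutatorElement

namespace Pool.Agent.Helper298







section
variable {G ι : Type} [Group G] [Fintype G] [Fintype ι] {s t : ℕ} {A : ι → Subgroup G}
  {N : Subgroup G}

omit [Fintype G] [Fintype ι] in
theorem KF.case2_mid_aux_b1 {ψ : G → ℤ} {β : G → G → ℤ} (hq : QF A ψ β) (k : G) : β 1 k = 1 := by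
  have h1 := hq.b1 1 1 k
  rw [mul_one] at h1
  rcases hq.bv 1 k with h | h
  · exact h
  · rw [h] at h1; norm_num at h1

omit [Fintype G] [Fintype ι] in
theorem KF.case2_mid_aux_p1 {ψ : G → ℤ} {β : G → G → ℤ} (hq : QF A ψ β) : ψ 1 = 1 := by
  have h1 := hq.pm 1 1
  rw [mul_one, KF.case2_mid_aux_b1 hq] at h1
  rcases hq.pv 1 with h | h
  · exact h
  · rw [h] at h1; norm_num at h1

/-- The radical. -/
def KF.case2_mid_auxR {ψ : G → ℤ} {β : G → G → ℤ} (hq : QF A ψ β) : Subgroup G where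
  carrier := {g | ∀ k, β g k = 1}
  mul_mem' := by
    intro a b ha hb k
    rw [hq.b1, ha k, hb k, one_mul]
  one_mem' := KF.case2_mid_aux_b1 hq
  inv_mem' := by
    intro a ha k
    have h1 := hq.b1 a⁻¹ a k
    rw [inv_mul_cancel, KF.case2_mid_aux_b1 hq, ha k, mul_one] at h1
    exact h1.symm

theorem KF.case2_mid_aux_pow {H : Type} [Group H] [Fintype H] (hH : IsPGroup 2 H)
    (K : Subgroup H) : ∃ m : ℕ, Nat.card K = 2 ^ m := by
  have : Fact (Nat.Prime 2) := ⟨Nat.prime_two⟩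
  exact IsPGroup.iff_card.1 (hH.to_subgroup K)

/-- arithmetic -/
theorem KF.case2_mid_aux_arith {s R c a b : ℕ} (hs : s = 2 ^ a) (hR : R = 2 ^ b)
    (hc : c ^ 2 = s * R) (hcs : s < c) : ∃ m : ℕ, 1 ≤ m ∧ c = s * 2 ^ m := by
  have h1 : c ∣ 2 ^ (a + b) := by
    rw [pow_add, ← hs, ← hR, ← hc]
    exact dvd_pow_self c two_ne_zero
  obtain ⟨k, -, hk⟩ := (Nat.dvd_prime_pow Nat.prime_two).1 h1
  have h2 : a < k := by
    by_contra hcon
    push Not at hcon
    have h3 : 2 ^ k ≤ 2 ^ a := Nat.pow_le_pow_right (by norm_num) hcon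
    omega
  refine ⟨k - a, by omega, ?_⟩
  rw [hk, hs, ← pow_add]
  congr 1
  omega

end

/- TARGET KF.case2_mid.
PROOF.
S0 = sum ψ. R0 = #{n in N : β n = 1 on G} >= 2 (n = 1 and n = z), so KF.case2_lower gives S0 >= s((s+1)2 - s) = s(s+2) > 0. QF.sum_sq: ψ = 1 on R = {g : β g = 1 on G} and S0^2 = s^3 card R (card G = s^2 * s). KF.star: S0 = s c with c = s r_i - 2 w_i, for each i; so c >= s+2 and c^2 = s card R.
s = card(A i) and card R are powers of 2 (G is a 2-group; R is a subgroup of G: {g : for all k, β g k = 1}), so c^2, and so c, is a power of 2 (Nat.dvd_prime_pow), and c > s, so c = s r with r >= 2 a power of two. So card R = r^2 s, S0 = s^2 r. For each i: s r = s r_i - 2 w_i, w_i = #{n in N : ..., ψ n = -1} < s because n = 1 has ψ 1 = 1 (ψ 1 = 1 as ψ(1*1) = ψ 1 ψ 1 β 1 1, β 1 1 = 1). So 0 <= s (r_i - r) = 2 w_i < 2 s,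
so r_i = r or r + 1. r_i = card of the subgroup {a in A i : β a = 1 on G} of A i is a power of 2; r >= 2 is a power of 2 so r+1 >= 3 is odd and not a power of two. So r_i = r.
-/
section
variable {G ι : Type} [Group G] [Fintype G] [Fintype ι] {s t : ℕ} {A : ι → Subgroup G}
  {N : Subgroup G}

theorem KF.case2_mid (h : KF s s A N) (h2 : IsPGroup 2 G) {ψ : G → ℤ} {β : G → G → ℤ}
    (hq : QF A ψ β) (hz : ∃ z ∈ N, z ≠ 1 ∧ ∀ k, β z k = 1)
    (hψ : ∀ r ∈ N, (∀ k, β r k = 1) → ψ r = 1) :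
    ∃ r : ℕ, 2 ≤ r ∧ ∑ g, ψ g = (s : ℤ) ^ 2 * r ∧
      (Finset.univ.filter (fun g : G => ∀ k, β g k = 1)).card = r ^ 2 * s ∧
      (∀ i, (Finset.univ.filter (fun a : A i => ∀ k, β a k = 1)).card = r) ∧
      (∀ g, (∀ k, β g k = 1) → ψ g = 1) := by
  have hs := h.hs
  set S0 : ℤ := ∑ g, ψ g with hS0
  have hb1 := fun k => KF.case2_mid_aux_b1 hq k
  have hp1 := KF.case2_mid_aux_p1 hq
  -- positivity
  have hR0 : (2 : ℤ) ≤ ((Finset.univ.filter (fun n : N => ∀ k, β n k = 1)).card : ℤ) := by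
    obtain ⟨z, hzN, hz1, hzk⟩ := hz
    have h3 : ({1, ⟨z, hzN⟩} : Finset N) ⊆ Finset.univ.filter (fun n : N => ∀ k, β n k = 1) := by
      intro x hx
      rw [Finset.mem_insert, Finset.mem_singleton] at hx
      rw [Finset.mem_filter]
      refine ⟨Finset.mem_univ _, fun k => ?_⟩
      rcases hx with rfl | rfl
      · exact hb1 k
      · exact hzk k
    have h4 := Finset.card_le_card h3
    rw [Finset.card_pair (fun h0 => hz1 (congrArg Subtype.val h0).symm)] at h4
    exact_mod_cast h4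
  have hlow := h.case2_lower hq hψ
  rw [← hS0] at hlow
  have hsZ : (1 : ℤ) < s := by exact_mod_cast hs
  have hlow2 : (s : ℤ) * (s + 2) ≤ S0 := by
    refine le_trans ?_ hlow
    apply mul_le_mul_of_nonneg_left _ (by omega)
    nlinarith
  have hpos : 0 < S0 := lt_of_lt_of_le (by positivity) hlow2
  obtain ⟨hψR, hsq⟩ := hq.sum_sq hpos
  rw [← hS0] at hsq
  -- cardinalities
  set R : Finset G := Finset.univ.filter (fun r : G => ∀ k, β r k = 1) with hRdef
  obtain ⟨b, hb⟩ := KF.case2_mid_aux_pow h2 (KF.case2_mid_auxR hq)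
  have hRcard : R.card = 2 ^ b := by
    rw [← hb, Nat.card_eq_fintype_card, Fintype.card_subtype, hRdef]
    congr 1
    ext x
    simp only [Finset.mem_filter, Finset.mem_univ, true_and]
    exact Iff.rfl
  have hne : Nonempty ι := by
    rw [← Fintype.card_pos_iff, h.cι]; omega
  obtain ⟨i0⟩ := hne
  obtain ⟨a, ha⟩ := KF.case2_mid_aux_pow h2 (A i0)
  rw [h.cA] at ha
  -- the numbers of `star`
  set ri : ι → ℕ := fun i => (Finset.univ.filter (fun a : A i => ∀ k, β a k = 1)).card with hri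
  set wi : ι → ℕ := fun i => (Finset.univ.filter
        (fun n : N => (∀ a ∈ A i, β n a = 1) ∧ ψ n = -1)).card with hwi
  have hstar : ∀ i, S0 = s * (s * (ri i : ℤ) - 2 * (wi i : ℤ)) := fun i => h.star hq i
  have hc0 : (s : ℤ) + 2 ≤ s * (ri i0 : ℤ) - 2 * (wi i0 : ℤ) := by
    have h3 := hstar i0
    rw [h3] at hlow2
    exact le_of_mul_le_mul_left hlow2 (by omega)
  obtain ⟨c, hc⟩ := Int.eq_ofNat_of_zero_le (show 0 ≤ s * (ri i0 : ℤ) - 2 * (wi i0 : ℤ) by omega)
  have hS0c : S0 = s * c := by rw [hstar i0, hc]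
  have hG : (Nat.card G : ℤ) = (s : ℤ) ^ 2 * s := by
    rw [h.cG]; push_cast; ring
  have hc2 : c ^ 2 = s * R.card := by
    have h3 : (s : ℤ) ^ 2 * (c : ℤ) ^ 2 = (s : ℤ) ^ 2 * (s * (R.card : ℤ)) := by
      calc (s : ℤ) ^ 2 * (c : ℤ) ^ 2 = S0 ^ 2 := by rw [hS0c]; ring
        _ = (s : ℤ) ^ 2 * (s * (R.card : ℤ)) := by rw [hsq, hG]; ring
    have h4 := mul_left_cancel₀ (by positivity) h3
    exact_mod_cast h4
  have hcs : s < c := by
    rw [hc] at hc0
    have : (s : ℤ) + 2 ≤ (c : ℤ) := hc0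
    omega
  obtain ⟨m, hm, hcm⟩ := KF.case2_mid_aux_arith ha hRcard hc2 hcs
  have hr2 : 2 ≤ 2 ^ m := by
    calc 2 = 2 ^ 1 := by norm_num
      _ ≤ 2 ^ m := Nat.pow_le_pow_right (by norm_num) hm
  have hS0r : S0 = (s : ℤ) ^ 2 * ((2 ^ m : ℕ) : ℤ) := by
    rw [hS0c, hcm]; push_cast; ring
  refine ⟨2 ^ m, hr2, hS0r, ?_, fun i => ?_, hψR⟩
  · have h3 : s * R.card = s * ((2 ^ m) ^ 2 * s) := by
      rw [← hc2, hcm]; ring
    exact Nat.eq_of_mul_eq_mul_left (by omega) h3
  · -- the number `r_i`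
    have hw : wi i < s := by
      have h3 : (Finset.univ.filter
          (fun n : N => (∀ a ∈ A i, β n a = 1) ∧ ψ n = -1)) ⊂ Finset.univ := by
        rw [Finset.ssubset_univ_iff]
        intro h0
        have h4 : (1 : N) ∈ Finset.univ.filter
          (fun n : N => (∀ a ∈ A i, β n a = 1) ∧ ψ n = -1) := by
          rw [h0]; exact Finset.mem_univ _
        rw [Finset.mem_filter] at h4
        have h5 := h4.2.2
        rw [OneMemClass.coe_one, hp1] at h5
        norm_num at h5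
      have h4 := Finset.card_lt_card h3
      rw [Finset.card_univ, h.card_N] at h4
      exact h4
    have hrw : (s : ℤ) * (2 ^ m : ℕ) = s * (ri i : ℤ) - 2 * (wi i : ℤ) := by
      have h3 := hstar i
      rw [hS0r] at h3
      have h4 : (s : ℤ) * (s * (2 ^ m : ℕ)) = s * (s * (ri i : ℤ) - 2 * (wi i : ℤ)) := by
        rw [← h3]; ring
      exact mul_left_cancel₀ (by omega) h4
    have hge : 2 ^ m ≤ ri i := by
      by_contra hcon
      push Not at hcon
      have h3 : (ri i : ℤ) + 1 ≤ ((2 ^ m : ℕ) : ℤ) := by exact_mod_cast hcon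
      nlinarith
    have hle : ri i < 2 ^ m + 2 := by
      by_contra hcon
      push Not at hcon
      have h3 : ((2 ^ m : ℕ) : ℤ) + 2 ≤ (ri i : ℤ) := by exact_mod_cast hcon
      have h4 : (wi i : ℤ) < s := by exact_mod_cast hw
      nlinarith
    obtain ⟨mi, hmi⟩ := KF.case2_mid_aux_pow (h2.to_subgroup (A i))
      ((KF.case2_mid_auxR hq).subgroupOf (A i))
    have hri2 : ri i = 2 ^ mi := by
      rw [← hmi, Nat.card_eq_fintype_card, Fintype.card_subtype, hri]
      change (Finset.univ.filter (fun a : A i => ∀ k, β a k = 1)).card = _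
      congr 1
      ext x
      simp only [Finset.mem_filter, Finset.mem_univ, true_and]
      exact Iff.rfl
    change ri i = 2 ^ m
    by_contra hcon
    have h5 : ri i = 2 ^ m + 1 := by omega
    have h6 : Odd (2 ^ m + 1) := by
      have : Even (2 ^ m) := (Nat.even_pow).2 ⟨even_two, by omega⟩
      exact this.add_one
    rw [← h5, hri2] at h6
    by_cases h0 : mi = 0
    · rw [h0, pow_zero] at hri2
      omega
    · have : Even (2 ^ mi) := (Nat.even_pow).2 ⟨even_two, h0⟩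
      exact (Nat.not_even_iff_odd.2 h6) this

end

end Pool.Agent.Helper298
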