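import Pool.Agent.Helper298_KF.Defs

set_option autoImplicit false
open scoped Classical commutatorElement

namespace Pool.Agent.Helper298

section
variable {G ι : Type} [Group G] [Fintype G] [Fintype ι] {s t : ℕ} {A : ι → Subgroup G}
  {N : Subgroup G}

/-- sum of a multiplicative function over a finite group -/
theorem KF.case2_perp_aux_sum {H : Type} [Group H] [Fintype H] (χ : H → ℤ)
    (hχ : ∀ x y, χ (x * y) = χ x * χ y) (h1 : ∀ x, χ x = 1 ∨ χ x = -1) :
    ∑ x : H, χ x = if ∀ x, χ x = 1 then (Fintype.card H : ℤ) else 0 := by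
  split_ifs with h
  · simp [h]
  · push Not at h
    obtain ⟨y, hy⟩ := h
    have hy' : χ y = -1 := (h1 y).resolve_left hy
    have h2 : ∑ x : H, χ (x * y) = ∑ x : H, χ x :=
      Fintype.sum_equiv (Equiv.mulRight y) _ _ (fun x => rfl)
    have h3 : ∑ x : H, χ (x * y) = - ∑ x : H, χ x := by
      rw [← Finset.sum_neg_distrib]
      refine Finset.sum_congr rfl fun x _ => ?_
      rw [hχ, hy']; ring
    linarith

theorem KF.case2_perp_aux_filter {H : Type} [Fintype H] (p : H → Prop)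
    [DecidablePred p] : Nat.card {x // p x} = (Finset.univ.filter p).card := by
  rw [Nat.card_eq_fintype_card, Fintype.card_subtype]

theorem KF.case2_perp_aux_one {ψ : G → ℤ} {β : G → G → ℤ} (hq : QF A ψ β) (k : G) :
    β 1 k = 1 := by
  have h1 := hq.b1 1 1 k
  rw [mul_one] at h1
  rcases hq.bv 1 k with h2 | h2
  · exact h2
  · rw [h2] at h1; norm_num at h1

/-- the radical -/
def KF.case2_perp_auxR {ψ : G → ℤ} {β : G → G → ℤ} (hq : QF A ψ β) : Subgroup G where
  carrier := {g | ∀ k, β g k = 1}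
  mul_mem' := by
    intro a b ha hb k
    rw [hq.b1, ha k, hb k]; norm_num
  one_mem' := KF.case2_perp_aux_one hq
  inv_mem' := by
    intro a ha k
    have h1 := hq.b1 a a⁻¹ k
    rw [mul_inv_cancel, KF.case2_perp_aux_one hq, ha k, one_mul] at h1
    exact h1.symm

/-- the perp of `A i` -/
def KF.case2_perp_auxP {ψ : G → ℤ} {β : G → G → ℤ} (hq : QF A ψ β) (i : ι) : Subgroup G where
  carrier := {g | ∀ a ∈ A i, β g a = 1}
  mul_mem' := by
    intro a b ha hb k hk
    rw [hq.b1, ha k hk, hb k hk]; norm_num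
  one_mem' := fun k _ => KF.case2_perp_aux_one hq k
  inv_mem' := by
    intro a ha k hk
    have h1 := hq.b1 a a⁻¹ k
    rw [mul_inv_cancel, KF.case2_perp_aux_one hq, ha k hk, one_mul] at h1
    exact h1.symm

theorem KF.case2_perp_aux_card (h : KF s s A N) {ψ : G → ℤ} {β : G → G → ℤ}
    (hq : QF A ψ β) (r : ℕ)
    (hA : ∀ i, (Finset.univ.filter (fun a : A i => ∀ k, β a k = 1)).card = r) (i : ι) :
    (Finset.univ.filter (fun g : G => ∀ a ∈ A i, β g a = 1)).card = s ^ 2 * r := by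
  have e1 : ∑ a : A i, ∑ g : G, β g a = ((s ^ 2 * s * r : ℕ) : ℤ) := by
    have : ∀ a : A i, ∑ g : G, β g a = if ∀ k, β a k = 1 then ((s ^ 2 * s : ℕ) : ℤ) else 0 := by
      intro a
      rw [KF.case2_perp_aux_sum (fun g : G => β g a) (fun x y => hq.b1 x y _)
        (fun x => hq.bv x _)]
      have e2 : (∀ x, β x a = 1) ↔ ∀ k, β a k = 1 :=
        ⟨fun hx k => by rw [hq.b2]; exact hx k, fun hx k => by rw [hq.b2]; exact hx k⟩
      have e3 : Fintype.card G = s ^ 2 * s := by rw [← Nat.card_eq_fintype_card]; exact h.cG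
      rw [e3]
      by_cases hc : ∀ k, β a k = 1
      · rw [if_pos hc, if_pos (e2.2 hc)]
      · rw [if_neg hc, if_neg (fun hx => hc (e2.1 hx))]
    rw [Finset.sum_congr rfl fun a _ => this a, ← Finset.sum_filter, Finset.sum_const, hA i]
    push_cast
    rw [nsmul_eq_mul]; ring
  have e2 : ∑ a : A i, ∑ g : G, β g a =
      ((s * (Finset.univ.filter (fun g : G => ∀ a ∈ A i, β g a = 1)).card : ℕ) : ℤ) := by
    rw [Finset.sum_comm]
    have : ∀ g : G, ∑ a : A i, β g a = if ∀ a ∈ A i, β g a = 1 then (s : ℤ) else 0 := by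
      intro g
      rw [KF.case2_perp_aux_sum (fun a : A i => β g a)
        (fun x y => by rw [hq.b2 g, hq.b2 g x, hq.b2 g y]; exact hq.b1 _ _ _)
        (fun x => hq.bv _ _)]
      have e3 : Fintype.card (A i) = s := by rw [← Nat.card_eq_fintype_card]; exact h.cA i
      rw [e3]
      have e2 : (∀ x : A i, β g x = 1) ↔ ∀ a ∈ A i, β g a = 1 :=
        ⟨fun hx k hk => hx ⟨k, hk⟩, fun hx k => hx k.1 k.2⟩
      by_cases hc : ∀ a ∈ A i, β g a = 1
      · rw [if_pos hc, if_pos (e2.2 hc)]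
      · rw [if_neg hc, if_neg (fun hx => hc (e2.1 hx))]
    rw [Finset.sum_congr rfl fun g _ => this g, ← Finset.sum_filter, Finset.sum_const]
    push_cast
    rw [nsmul_eq_mul]; ring
  have e3 := e2.symm.trans e1
  have e4 : s * (Finset.univ.filter (fun g : G => ∀ a ∈ A i, β g a = 1)).card
      = s * (s ^ 2 * r) := by
    have := Int.ofNat.inj e3
    rw [this]; ring
  exact Nat.eq_of_mul_eq_mul_left (by have := h.hs; omega) e4

theorem KF.case2_perp (h : KF s s A N) {ψ : G → ℤ} {β : G → G → ℤ}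
    (hq : QF A ψ β) (r : ℕ) (hr : 2 ≤ r)
    (hR : (Finset.univ.filter (fun g : G => ∀ k, β g k = 1)).card = r ^ 2 * s)
    (hA : ∀ i, (Finset.univ.filter (fun a : A i => ∀ k, β a k = 1)).card = r)
    (hψ : ∀ g, (∀ k, β g k = 1) → ψ g = 1) (i : ι) :
    (Finset.univ.filter (fun g : G => ∀ a ∈ A i, β g a = 1)).card = s ^ 2 * r ∧
      ∀ g, (∀ a ∈ A i, β g a = 1) → ψ g = 1 := by
  have hc := KF.case2_perp_aux_card h hq r hA i
  refine ⟨hc, ?_⟩
  have hAA : ∀ a ∈ A i, ∀ b ∈ A i, β a b = 1 := by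
    intro a ha b hb
    have h1 := hq.pm a b
    rw [hq.pA i a ha, hq.pA i b hb, hq.pA i _ ((A i).mul_mem ha hb)] at h1
    linarith
  set R := KF.case2_perp_auxR hq with hRdef
  set P := KF.case2_perp_auxP hq i with hPdef
  have hRn : R.Normal := by
    constructor
    intro n hn g k
    have hn' : ∀ k, β n k = 1 := hn
    have h1 := hq.b1 g g⁻¹ k
    rw [mul_inv_cancel, KF.case2_perp_aux_one hq] at h1
    rw [hq.b1, hq.b1, hn' k, mul_one, ← h1]
  have hRc : Nat.card R = r ^ 2 * s := by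
    rw [← hR, ← KF.case2_perp_aux_filter]
    rfl
  have hPc : Nat.card P = s ^ 2 * r := by
    rw [← hc, ← KF.case2_perp_aux_filter]
    rfl
  have hRA : Nat.card (R.subgroupOf (A i)) = r := by
    rw [← hA i, ← KF.case2_perp_aux_filter]
    rfl
  have hle : A i ⊔ R ≤ P := by
    rw [sup_le_iff]
    refine ⟨fun a ha b hb => hAA a ha b hb, fun x hx b _ => ?_⟩
    have hx' : ∀ k, β x k = 1 := hx
    exact hx' b
  have hcs : Nat.card (A i ⊔ R : Subgroup G) = s ^ 2 * r := by
    have h1 : R.relIndex (A i ⊔ R) = R.relIndex (A i) := Subgroup.relIndex_sup_right _ _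
    have h2 : Nat.card (R.subgroupOf (A i)) * R.relIndex (A i) = Nat.card (A i) :=
      Subgroup.card_mul_index _
    have h3 : Nat.card (R.subgroupOf (A i ⊔ R)) * R.relIndex (A i ⊔ R)
        = Nat.card (A i ⊔ R : Subgroup G) := Subgroup.card_mul_index _
    have h4 : Nat.card (R.subgroupOf (A i ⊔ R)) = Nat.card R :=
      Nat.card_congr (Subgroup.subgroupOfEquivOfLe le_sup_right).toEquiv
    rw [h4, h1, hRc] at h3
    rw [hRA, h.cA i] at h2
    rw [← h3]
    calc r ^ 2 * s * R.relIndex (A i) = r * s * (r * R.relIndex (A i)) := by ring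
      _ = s ^ 2 * r := by rw [h2]; ring
  have heq : A i ⊔ R = P := Subgroup.eq_of_le_of_card_ge hle (by rw [hcs, hPc])
  intro g hg
  have hgP : g ∈ P := hg
  rw [← heq, ← SetLike.mem_coe, Subgroup.mul_normal] at hgP
  obtain ⟨a, ha, x, hx, rfl⟩ := Set.mem_mul.1 hgP
  have hx' : ∀ k, β x k = 1 := hx
  rw [hq.pm, hq.pA i a ha, hψ x hx', hq.b2, hx' a]
  norm_num

end

end Pool.Agent.Helper298
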