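import Pool.Agent.Helper298_KF.Defs
import Pool.Agent.Helper298_KF.L_KF_hom_count
import Pool.Agent.Helper298_KF.L_KF_case2_mid
import Pool.Agent.Helper298_KF.L_KF_case2_perp

set_option autoImplicit false
open scoped Classical commutatorElement

namespace Pool.Agent.Helper298







/- TARGET KF.case2_false.
PROOF.
Get r from KF.case2_mid and for each i KF.case2_perp. n_g := #{i : β g a = 1 for all a in A i}. sum_g n_g = sum_i card P_i = (s+1) s^2 r. For g in R = {β g = 1 on G}: n_g = s+1, card R = r^2 s, and ψ = 1 on R. For g not in R with ψ g = 1: n_g <= 2 (if n_g > 0 use KF.hom_count for y = β g: it is 1 or 2). If ψ g = -1: n_g = 0 (KF.case2_perp). Let p1 = #{g : ψ g = 1}: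
2 p1 = card G + sum ψ = s^3 + s^2 r. So (s+1) s^2 r <= (s+1) r^2 s + 2 p1 - 2 r^2 s = (s+1) r^2 s + s^3 + s^2 r - 2 r^2 s. Divide by s: s^2 (r-1) <= (s-1) r^2.
r divides s (r is the order of the subgroup {a in A i : β a = 1 on G} of A i). r <> s: otherwise β a = 1 on G for all a in all A i; for every g, β g is then 1 on all A i; if β g is nontrivial KF.hom_count says s+1 is 1 or 2, but s+1 >= 3; so β is trivial, contradicting hq.ne. So 2 r <= s. Then s^2(r-1) <= (s-1) r * r <= (s-1) r s/2 gives 2 s (r-1) <= (s-1) r, (s+1) r <= 2 s, contradiction with r >= 2.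
-/
section
variable {G ι : Type} [Group G] [Fintype G] [Fintype ι] {s t : ℕ} {A : ι → Subgroup G}
  {N : Subgroup G}

theorem KF.case2_false_aux1 {r s : ℕ} (hs : 1 < s) (hr : 2 ≤ r) (hd : r ∣ s) (hne : r ≠ s)
    (hi : (s + 1) * (s ^ 2 * r) ≤ (s - 1) * (r ^ 2 * s) + (s ^ 3 + s ^ 2 * r)) : False := by
  obtain ⟨c, hc⟩ := hd
  have hc2 : 2 ≤ c := by
    rcases c with _ | _ | c
    · omega
    · exfalso; apply hne; omega
    · omega
  have h2r : 2 * r ≤ s := by rw [hc, mul_comm]; exact Nat.mul_le_mul_left r hc2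
  obtain ⟨m, rfl⟩ : ∃ m, s = m + 1 := ⟨s - 1, by omega⟩
  simp only [Nat.add_sub_cancel] at hi
  have h1 : 2 * (m * (r ^ 2 * (m + 1))) ≤ m * r * (m + 1) * (m + 1) := by
    have : 2 * (m * (r ^ 2 * (m + 1))) = m * r * (m + 1) * (2 * r) := by ring
    rw [this]
    exact Nat.mul_le_mul_left _ h2r
  have h3 : (m + 1) * ((m + 1) * ((m + 1) * r + r)) ≤ (m + 1) * ((m + 1) * (2 * (m + 1))) := by
    nlinarith
  have h4 := Nat.le_of_mul_le_mul_left h3 (by omega)
  have h5 := Nat.le_of_mul_le_mul_left h4 (by omega)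
  nlinarith

theorem KF.case2_false_aux2 {ψ : G → ℤ} (pv : ∀ g, ψ g = 1 ∨ ψ g = -1) :
    ∑ g, ψ g = 2 * ((Finset.univ.filter (fun g => ψ g = 1)).card : ℤ) - Fintype.card G := by
  have h1 : ∀ g, ψ g = 2 * (if ψ g = 1 then 1 else 0) - 1 := by
    intro g
    rcases pv g with h | h <;> simp [h]
  calc ∑ g, ψ g = ∑ g, (2 * (if ψ g = 1 then 1 else 0) - 1 : ℤ) :=
        Finset.sum_congr rfl (fun g _ => h1 g)
    _ = _ := by
        rw [Finset.sum_sub_distrib, ← Finset.mul_sum, Finset.card_filter]
        push_cast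
        simp

theorem KF.case2_false (h : KF s s A N) (h2 : IsPGroup 2 G) {ψ : G → ℤ} {β : G → G → ℤ}
    (hq : QF A ψ β) (hz : ∃ z ∈ N, z ≠ 1 ∧ ∀ k, β z k = 1)
    (hψ : ∀ r ∈ N, (∀ k, β r k = 1) → ψ r = 1) : False := by
  obtain ⟨r, hr, hsum, hR, hA, hRψ⟩ := h.case2_mid h2 hq hz hψ
  have hP := fun i => h.case2_perp hq r hr hR hA hRψ i
  have hs := h.hs
  have hβ2 : ∀ g h k, β g (h * k) = β g h * β g k := by
    intro g h k
    rw [hq.b2, hq.b1, hq.b2 h, hq.b2 k]
  have hn : ∑ g, (Finset.univ.filter (fun i : ι => ∀ a ∈ A i, β g a = 1)).card =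
      (s + 1) * (s ^ 2 * r) := by
    simp only [Finset.card_filter]
    rw [Finset.sum_comm]
    simp only [← Finset.card_filter]
    rw [Finset.sum_congr rfl (fun i _ => (hP i).1), Finset.sum_const, Finset.card_univ, h.cι,
      smul_eq_mul]
  have hcount : ∀ g, (∃ k, β g k = -1) →
      (Finset.univ.filter (fun i : ι => ∀ a ∈ A i, β g a = 1)).card ≤ 2 := by
    intro g hg
    rcases Finset.eq_empty_or_nonempty
      (Finset.univ.filter (fun i : ι => ∀ a ∈ A i, β g a = 1)) with h0 | ⟨i, hi⟩
    · rw [h0]; simp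
    · have hi' := (Finset.mem_filter.1 hi).2
      rw [h.hom_count (β g) (hβ2 g) (hq.bv g) hg i hi']
      split_ifs <;> omega
  have hbd : ∀ g, (Finset.univ.filter (fun i : ι => ∀ a ∈ A i, β g a = 1)).card ≤
      (if ∀ k, β g k = 1 then (s - 1) else 0) + (if ψ g = 1 then 2 else 0) := by
    intro g
    by_cases hg : ∀ k, β g k = 1
    · have h1 := hRψ g hg
      rw [if_pos hg, if_pos h1]
      refine (Finset.card_le_univ _).trans ?_
      rw [h.cι]
      omega
    · rw [if_neg hg]
      by_cases hg1 : ψ g = 1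
      · rw [if_pos hg1]
        push Not at hg
        obtain ⟨k, hk⟩ := hg
        have := hcount g ⟨k, (hq.bv g k).resolve_left hk⟩
        omega
      · rw [if_neg hg1]
        rcases Finset.eq_empty_or_nonempty
          (Finset.univ.filter (fun i : ι => ∀ a ∈ A i, β g a = 1)) with h0 | ⟨i, hi⟩
        · rw [h0]; simp
        · exact absurd ((hP i).2 g (Finset.mem_filter.1 hi).2) hg1
  have hle := Finset.sum_le_sum (fun g (_ : g ∈ Finset.univ) => hbd g)
  rw [hn, Finset.sum_add_distrib, ← Finset.sum_filter, ← Finset.sum_filter, Finset.sum_const,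
    Finset.sum_const, hR, smul_eq_mul, smul_eq_mul] at hle
  have hp := KF.case2_false_aux2 hq.pv
  rw [hsum, h.card_G] at hp
  have hp' : (Finset.univ.filter (fun g => ψ g = 1)).card * 2 = s ^ 3 + s ^ 2 * r := by
    have : (((Finset.univ.filter (fun g => ψ g = 1)).card * 2 : ℕ) : ℤ) =
        ((s ^ 3 + s ^ 2 * r : ℕ) : ℤ) := by
      push_cast at hp ⊢
      linarith
    exact_mod_cast this
  rw [hp'] at hle
  have hι : Nonempty ι := by
    rw [← Fintype.card_pos_iff, h.cι]
    omega
  obtain ⟨i0⟩ := hι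
  have hdvd : r ∣ s := by
    let S : Subgroup (A i0) :=
      { carrier := {a | ∀ k, β a k = 1}
        mul_mem' := by
          intro a b ha hb k
          show β ((a : G) * b) k = 1
          rw [hq.b1, ha k, hb k, one_mul]
        one_mem' := by
          intro k
          show β 1 k = 1
          have := hq.b1 1 1 k
          rw [one_mul] at this
          rcases hq.bv 1 k with h | h
          · exact h
          · rw [h] at this; norm_num at this
        inv_mem' := by
          intro a ha k
          show β (a : G)⁻¹ k = 1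
          have h1 := hq.b1 (a : G)⁻¹ a k
          have h0 : β (1 : G) k = 1 := by
            have := hq.b1 1 1 k
            rw [one_mul] at this
            rcases hq.bv 1 k with h | h
            · exact h
            · rw [h] at this; norm_num at this
          rw [inv_mul_cancel, h0, ha k, mul_one] at h1
          exact h1.symm }
    have h1 := Subgroup.card_subgroup_dvd_card S
    rw [h.cA i0] at h1
    have h3 : Nat.card S = r := by
      rw [← hA i0, Nat.card_eq_fintype_card, ← Fintype.card_subtype]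
      exact Fintype.card_congr (Equiv.refl _)
    rwa [h3] at h1
  have hne : r ≠ s := by
    intro hrs
    have hall : ∀ i, ∀ a ∈ A i, ∀ k, β a k = 1 := by
      intro i a ha
      have h1 : (Finset.univ.filter (fun a : A i => ∀ k, β a k = 1)) = Finset.univ := by
        apply Finset.eq_univ_of_card
        rw [hA i, h.card_A i, hrs]
      have h3 : (⟨a, ha⟩ : A i) ∈ (Finset.univ.filter (fun a : A i => ∀ k, β a k = 1)) := by
        rw [h1]; exact Finset.mem_univ _
      exact (Finset.mem_filter.1 h3).2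
    obtain ⟨g, k, hgk⟩ := hq.ne
    have h1 := hcount g ⟨k, hgk⟩
    have h3 : (Finset.univ.filter (fun i : ι => ∀ a ∈ A i, β g a = 1)) = Finset.univ := by
      rw [Finset.filter_eq_self]
      intro i _ a ha
      rw [hq.b2]
      exact hall i a ha g
    rw [h3, Finset.card_univ, h.cι] at h1
    omega
  refine KF.case2_false_aux1 hs hr hdvd hne ?_
  rw [mul_comm (s - 1)]
  exact hle

end

end Pool.Agent.Helper298
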