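import Pool.Agent.Helper298_KF.Defs

set_option autoImplicit false
open scoped Classical commutatorElement

namespace Pool.Agent.Helper298

section
variable {G ι : Type} [Group G] [Fintype G] [Fintype ι] {s t : ℕ} {A : ι → Subgroup G}
  {N : Subgroup G}

/-- the subgroup of the elements whose square lies in the commutator subgroup -/
def sq_mem_aux_T (G : Type) [Group G] : Subgroup G :=
  ((powMonoidHom 2).comp (Abelianization.of : G →* Abelianization G)).ker

omit [Fintype G] in
theorem sq_mem_aux_mem (g : G) : g ∈ sq_mem_aux_T G ↔ g * g ∈ commutator G := by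
  unfold sq_mem_aux_T
  rw [MonoidHom.mem_ker, MonoidHom.comp_apply, powMonoidHom_apply, sq, ← map_mul]
  exact QuotientGroup.eq_one_iff _

theorem KF.sq_mem (h : KF s t A N) (hA : ∀ i, ∀ a ∈ A i, a * a = 1) (g : G) :
    g * g ∈ commutator G := by
  rw [← sq_mem_aux_mem]
  have hN := h.nrm
  have hAT : ∀ i, ∀ a ∈ A i, a ∈ sq_mem_aux_T G := by
    intro i a ha
    rw [sq_mem_aux_mem, hA i a ha]
    exact one_mem _
  have hne : Nonempty ι := by
    rw [← Fintype.card_pos_iff, h.cι]; omega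
  obtain ⟨i⟩ := hne
  obtain ⟨j, hj⟩ := h.exists_ne i
  obtain ⟨b, hb, hb1⟩ : ∃ b ∈ A j, b ≠ 1 := by
    by_contra hc
    push Not at hc
    have h1 : A j = ⊥ := (Subgroup.eq_bot_iff_forall _).2 hc
    have h2 := h.cA j
    rw [h1, Subgroup.card_bot] at h2
    have := h.hs
    omega
  rcases h.cover_cases i g with ⟨a, ha, n, hn, rfl⟩ | ⟨k, -, a, ha, c, hc, -, rfl⟩
  · have h3 : a * n * b ∈ sq_mem_aux_T G := by
      rcases h.cover_cases i (a * n * b) with ⟨c, hc, m, hm, e⟩ | ⟨k, -, c, hc, d, hd, -, e⟩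
      · exfalso
        have h4 : (1 : G) * b = (a⁻¹ * c) * ((a⁻¹ * c)⁻¹ * n⁻¹ * (a⁻¹ * c)⁻¹⁻¹ * m) := by
          calc (1 : G) * b = n⁻¹ * (a⁻¹ * (a * n * b)) := by group
            _ = n⁻¹ * (a⁻¹ * (c * m)) := by rw [e]
            _ = _ := by group
        exact h.ab_notin hj (A i).one_mem hb hb1 ((A i).mul_mem ((A i).inv_mem ha) hc)
          (N.mul_mem (hN.conj_mem _ (N.inv_mem hn) _) hm) h4
      · rw [e]
        exact mul_mem (hAT i c hc) (hAT k d hd)
    have h5 : a * n = a * n * b * b⁻¹ := by group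
    rw [h5]
    exact mul_mem h3 (inv_mem (hAT j b hb))
  · exact mul_mem (hAT i a ha) (hAT k c hc)

end

end Pool.Agent.Helper298
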