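import Pool.Agent.Helper298_KF.Defs

set_option autoImplicit false
open scoped Classical commutatorElement

namespace Pool.Agent.Helper298

/- TARGET PCP.comm_of_eq.
PROOF.
Here t = s, so there are s+1 subgroups of order s in a group of order s^2, with pairwise trivial intersection. Counting: the B i minus 1 are disjoint, (s+1)(s-1) = s^2-1 elements, so
every element of H lies in some B i. Each B i is normal: for x in B i, x<>1, g in H, y = g x g^-1 <> 1 lies in some B j, and PCP.conj_dj (j<>i) would give x = 1; so j = i.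
B i and B j (i<>j) commute: normal with trivial intersection (Subgroup.commute_of_normal_of_disjoint). Two elements x,y of the same B i, both nontrivial: take z in B j, j<>i, z<>1. Then xz lies in some
B k, k<>i (as z not in B i), so xz commutes with y; z commutes with y; so x commutes with y.
-/
section
variable {H ι : Type} [Group H] [Fintype H] [Fintype ι] {s t : ℕ} {B : ι → Subgroup H}

theorem PCP.comm_of_eq_aux_cover (h : PCP s s B) (x : H) : ∃ i, x ∈ B i := by
  have hs := h.hs
  set S : Finset H :=
    Finset.univ.biUnion (fun i : ι => (Finset.univ.filter (fun x => x ∈ B i)).erase 1) with hS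
  have h1 : ∀ i : ι, ((Finset.univ.filter (fun x => x ∈ B i)).erase 1).card = s - 1 := by
    intro i
    rw [Finset.card_erase_of_mem (by simp [(B i).one_mem])]
    have := h.cB i
    rw [Nat.card_eq_fintype_card, Fintype.card_subtype] at this
    omega
  have h2 : S.card = (s + 1) * (s - 1) := by
    rw [hS, Finset.card_biUnion]
    · rw [Finset.sum_congr rfl (fun i _ => h1 i), Finset.sum_const, Finset.card_univ, h.cι]
      simp
    · intro i _ j _ hij
      rw [Function.onFun, Finset.disjoint_left]
      intro x hx hx'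
      simp only [Finset.mem_erase, Finset.mem_filter, Finset.mem_univ, true_and] at hx hx'
      exact hx.1 (h.dj i j hij x hx.2 hx'.2)
  have h3 : (insert 1 S).card = Fintype.card H := by
    rw [Finset.card_insert_of_notMem (by simp [hS]), h2, ← Nat.card_eq_fintype_card, h.cH]
    obtain ⟨k, rfl⟩ : ∃ k, s = k + 1 := ⟨s - 1, by omega⟩
    simp
    ring
  have h4 : insert 1 S = Finset.univ := Finset.eq_univ_of_card _ h3
  have h5 : x ∈ insert 1 S := by rw [h4]; exact Finset.mem_univ x
  have hne : Nonempty ι := by
    rw [← Fintype.card_pos_iff, h.cι]; omega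
  simp only [hS, Finset.mem_insert, Finset.mem_biUnion, Finset.mem_erase, Finset.mem_filter,
    Finset.mem_univ, true_and] at h5
  rcases h5 with rfl | ⟨i, -, hx⟩
  · exact ⟨hne.some, (B hne.some).one_mem⟩
  · exact ⟨i, hx⟩

theorem PCP.comm_of_eq_aux_conj (h : PCP s s B) (i : ι) (g x : H) (hx : x ∈ B i) :
    g * x * g⁻¹ ∈ B i := by
  by_cases hx1 : x = 1
  · subst hx1; simp
  · obtain ⟨j, hj⟩ := h.comm_of_eq_aux_cover (g * x * g⁻¹)
    by_cases hij : i = j
    · subst hij; exact hj
    · exact absurd (h.conj_dj hij hx hj) hx1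

theorem PCP.comm_of_eq_aux_ne (h : PCP s s B) {i j : ι} (hij : i ≠ j) {x y : H} (hx : x ∈ B i)
    (hy : y ∈ B j) : x * y = y * x := by
  have h1 : x * y * x⁻¹ * y⁻¹ = 1 := by
    apply h.dj i j hij
    · have : x * y * x⁻¹ * y⁻¹ = x * (y * x⁻¹ * y⁻¹) := by group
      rw [this]
      exact (B i).mul_mem hx (h.comm_of_eq_aux_conj i y _ ((B i).inv_mem hx))
    · exact (B j).mul_mem (h.comm_of_eq_aux_conj j x _ hy) ((B j).inv_mem hy)
  have h2 : x * y * x⁻¹ = y := mul_inv_eq_one.mp h1
  calc x * y = (x * y * x⁻¹) * x := by group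
    _ = y * x := by rw [h2]

theorem PCP.comm_of_eq_aux_exists_ne_one (h : PCP s s B) (i : ι) : ∃ z ∈ B i, z ≠ 1 := by
  by_contra hc
  push Not at hc
  have h1 : B i = ⊥ := by
    rw [Subgroup.eq_bot_iff_forall]; exact hc
  have h2 := h.cB i
  have h3 := h.hs
  rw [h1, Subgroup.card_bot] at h2
  omega

theorem PCP.comm_of_eq (h : PCP s s B) (x y : H) : x * y = y * x := by
  obtain ⟨i, hi⟩ := h.comm_of_eq_aux_cover x
  obtain ⟨j, hj⟩ := h.comm_of_eq_aux_cover y
  by_cases hij : i = j
  · subst hij
    have hι : Nontrivial ι := by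
      rw [← Fintype.one_lt_card_iff_nontrivial, h.cι]
      have := h.hs
      omega
    obtain ⟨k, hk⟩ := exists_ne i
    obtain ⟨z, hz, hz1⟩ := h.comm_of_eq_aux_exists_ne_one k
    obtain ⟨l, hl⟩ := h.comm_of_eq_aux_cover (x * z)
    have hli : l ≠ i := by
      rintro rfl
      apply hz1
      have h1 : z ∈ B l := by
        have : z = x⁻¹ * (x * z) := by group
        rw [this]
        exact (B l).mul_mem ((B l).inv_mem hi) hl
      exact h.dj k l hk z hz h1
    have e1 : (x * z) * y = y * (x * z) := h.comm_of_eq_aux_ne hli hl hj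
    have e2 : z * y = y * z := h.comm_of_eq_aux_ne hk hz hj
    calc x * y = (x * (y * z)) * z⁻¹ := by group
      _ = (x * z * y) * z⁻¹ := by rw [← e2]; group
      _ = y * x := by rw [e1]; group
  · exact h.comm_of_eq_aux_ne hij hi hj

end

end Pool.Agent.Helper298
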