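import Pool.Agent.Helper298_KF.Defs
import Pool.Agent.Helper298_KF.L_PCP_comm_of_eq

set_option autoImplicit false
open scoped Classical commutatorElement

namespace Pool.Agent.Helper298



/- TARGET PCP.pow_of_eq.
PROOF.
H is commutative by PCP.comm_of_eq, and every element lies in some B i (counting: (s+1)(s-1)+1 = s^2). Let i be an index, x in B i of order p (card B i = s > 1 is a power of p).
For z in B j with j<>i, z<>1: xz lies in some B k, and k<>j (as x is not in B j), so (xz)^p = x^p z^p = z^p lies in B k and in B j, so z^p = 1. This handles all j<>i. For B i itself use the same argument with another index (any index i' <> i in place of i: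
take x' of order p in B i').
-/
section
variable {H ι : Type} [Group H] [Fintype H] [Fintype ι] {s t : ℕ} {B : ι → Subgroup H}

theorem PCP.pow_of_eq_aux_cover (h : PCP s s B) (x : H) : ∃ i, x ∈ B i := by
  let S : ι → Finset H := fun i => (Finset.univ.filter (fun x => x ∈ B i)).erase 1
  have hS : ∀ i, (S i).card = s - 1 := by
    intro i
    have e := h.cB i
    rw [Nat.card_eq_fintype_card, Fintype.card_subtype] at e
    simp only [S]
    rw [Finset.card_erase_of_mem (by simp [(B i).one_mem]), e]
  have h2 : (Finset.univ.biUnion S).card = (s + 1) * (s - 1) := by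
    rw [Finset.card_biUnion]
    · rw [Finset.sum_congr rfl (fun i _ => hS i), Finset.sum_const, Finset.card_univ, h.cι,
        smul_eq_mul]
    · intro i _ j _ hij
      rw [Function.onFun, Finset.disjoint_left]
      intro x hx hx'
      simp only [S, Finset.mem_erase, Finset.mem_filter, Finset.mem_univ, true_and] at hx hx'
      exact hx.1 (h.dj i j hij x hx.2 hx'.2)
  have h3 : (insert 1 (Finset.univ.biUnion S)).card = Fintype.card H := by
    rw [Finset.card_insert_of_notMem (by simp [S]), h2, ← Nat.card_eq_fintype_card, h.cH]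
    have := h.hs
    obtain ⟨k, rfl⟩ : ∃ k, s = k + 1 := ⟨s - 1, by omega⟩
    simp
    ring
  have h4 : insert 1 (Finset.univ.biUnion S) = Finset.univ := by
    rw [← Finset.card_eq_iff_eq_univ]; exact h3
  have h5 : x ∈ insert 1 (Finset.univ.biUnion S) := by rw [h4]; exact Finset.mem_univ _
  simp only [S, Finset.mem_insert, Finset.mem_biUnion, Finset.mem_erase, Finset.mem_filter,
    Finset.mem_univ, true_and] at h5
  rcases h5 with rfl | ⟨i, -, hi⟩
  · have h6 : 0 < Fintype.card ι := by rw [h.cι]; omega
    obtain ⟨i⟩ := Fintype.card_pos_iff.mp h6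
    exact ⟨i, (B i).one_mem⟩
  · exact ⟨i, hi⟩

theorem PCP.pow_of_eq_aux_ne (h : PCP s s B) {p : ℕ} [Fact p.Prime] (hp : IsPGroup p H)
    {i j : ι} (hij : i ≠ j) {z : H} (hz : z ∈ B j) : z ^ p = 1 := by
  have hs := h.hs
  have hpi : IsPGroup p (B i) := hp.to_subgroup (B i)
  obtain ⟨n, hn⟩ := hpi.exists_card_eq
  rw [h.cB i] at hn
  have hdvd : p ∣ Fintype.card (B i) := by
    rw [← Nat.card_eq_fintype_card, h.cB i, hn]
    refine dvd_pow_self p ?_
    rintro rfl
    simp at hn
    omega
  obtain ⟨x, hx⟩ := exists_prime_orderOf_dvd_card p hdvd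
  have hx1 : (x : H) ^ p = 1 := by
    have := pow_orderOf_eq_one x
    rw [hx] at this
    have := congrArg Subtype.val this
    simpa using this
  have hxne : (x : H) ≠ 1 := by
    intro h0
    have : x = 1 := Subtype.ext h0
    rw [this, orderOf_one] at hx
    exact (Fact.out : p.Prime).one_lt.ne hx
  obtain ⟨k, hk⟩ := h.pow_of_eq_aux_cover ((x : H) * z)
  have hkj : k ≠ j := by
    rintro rfl
    have : (x : H) ∈ B k := by
      have := (B k).mul_mem hk ((B k).inv_mem hz)
      simpa using this
    exact hxne (h.dj i k hij _ x.2 this)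
  have hc : Commute (x : H) z := h.comm_of_eq _ _
  have hpow : ((x : H) * z) ^ p = z ^ p := by
    rw [hc.mul_pow, hx1, one_mul]
  refine h.dj k j hkj _ ?_ ((B j).pow_mem hz p)
  rw [← hpow]
  exact (B k).pow_mem hk p

theorem PCP.pow_of_eq (h : PCP s s B) {p : ℕ} [Fact p.Prime] (hp : IsPGroup p H) (x : H) :
    x ^ p = 1 := by
  obtain ⟨i, hi⟩ := h.pow_of_eq_aux_cover x
  have : Nontrivial ι := by
    rw [← Fintype.one_lt_card_iff_nontrivial, h.cι]
    have := h.hs
    omega
  obtain ⟨j, hj⟩ := exists_ne i
  exact h.pow_of_eq_aux_ne hp hj hi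

end

end Pool.Agent.Helper298
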