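import Pool.Agent.Helper298_KF.Defs

set_option autoImplicit false
open scoped Classical commutatorElement

namespace Pool.Agent.Helper298

section
variable {G ι : Type} [Group G] [Fintype G] {A : ι → Subgroup G}

theorem QF_of_index_two_aux1 (N1 : Subgroup G) (hN1 : N1 ≤ commutator G)
    (hc : Nat.card N1 * 2 = Nat.card (commutator G)) (x y : G) (hx : x ∈ commutator G)
    (hy : y ∈ commutator G) : x * y ∈ N1 ↔ (x ∈ N1 ↔ y ∈ N1) := by
  have h1 := Subgroup.card_mul_index (N1.subgroupOf (commutator G))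
  have h2 : Nat.card (N1.subgroupOf (commutator G)) = Nat.card N1 :=
    Nat.card_congr (Subgroup.subgroupOfEquivOfLe hN1).toEquiv
  rw [h2, ← hc] at h1
  have h3 : (N1.subgroupOf (commutator G)).index = 2 :=
    Nat.eq_of_mul_eq_mul_left Nat.card_pos h1
  have h4 := Subgroup.mul_mem_iff_of_index_two h3 (a := ⟨x, hx⟩) (b := ⟨y, hy⟩)
  exact h4

theorem QF_of_index_two_aux2 (N1 : Subgroup G) (hN1 : N1 ≤ commutator G)
    (hc : Nat.card N1 * 2 = Nat.card (commutator G)) (x y : G) (hx : x ∈ commutator G)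
    (hy : y ∈ commutator G) : (if x * y ∈ N1 then (1 : ℤ) else -1) =
      (if x ∈ N1 then 1 else -1) * (if y ∈ N1 then 1 else -1) := by
  have h := QF_of_index_two_aux1 N1 hN1 hc x y hx hy
  by_cases h1 : x ∈ N1 <;> by_cases h2 : y ∈ N1 <;> simp [h1, h2] at h <;> simp [h, h1, h2]

theorem QF_of_index_two_aux3 (g h : G) : ⁅g, h⁆ ∈ commutator G :=
  Subgroup.commutator_mem_commutator (Subgroup.mem_top g) (Subgroup.mem_top h)

theorem QF_of_index_two_aux4 (N1 : Subgroup G) [N1.Normal] (g x : G) :
    g * x * g⁻¹ ∈ N1 ↔ x ∈ N1 := by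
  constructor
  · intro h
    have := (inferInstance : N1.Normal).conj_mem _ h g⁻¹
    simpa [mul_assoc] using this
  · intro h
    exact (inferInstance : N1.Normal).conj_mem _ h g

theorem QF_of_index_two (N1 : Subgroup G) [N1.Normal] (hN1 : N1 ≤ commutator G)
    (hc : Nat.card N1 * 2 = Nat.card (commutator G)) (hsq : ∀ g : G, g * g ∈ commutator G)
    (hA : ∀ i, ∀ a ∈ A i, a * a = 1) :
    QF A (fun g => if g * g ∈ N1 then 1 else -1) (fun g k => if ⁅g, k⁆ ∈ N1 then 1 else -1) where
  b1 := by
    intro g h k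
    have e : ⁅g * h, k⁆ = (g * ⁅h, k⁆ * g⁻¹) * ⁅g, k⁆ := by
      simp only [commutatorElement_def]; group
    have hg : g * ⁅h, k⁆ * g⁻¹ ∈ commutator G :=
      (inferInstance : (commutator G).Normal).conj_mem _ (QF_of_index_two_aux3 h k) g
    rw [e, QF_of_index_two_aux2 N1 hN1 hc _ _ hg (QF_of_index_two_aux3 g k),
      QF_of_index_two_aux4 N1, mul_comm]
  b2 := by
    intro g h
    have e : ⁅g, h⁆ ∈ N1 ↔ ⁅h, g⁆ ∈ N1 := by
      rw [← commutatorElement_inv, inv_mem_iff]
    simp only [e]
  bv := by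
    intro g h
    by_cases e : ⁅g, h⁆ ∈ N1
    · left; simp [e]
    · right; simp [e]
  pv := by
    intro g
    by_cases e : g * g ∈ N1
    · left; simp [e]
    · right; simp [e]
  pm := by
    intro g h
    have e : (g * h) * (g * h) = ⁅g, h⁆ * ((h * (g * g) * h⁻¹) * (h * h)) := by
      simp only [commutatorElement_def]; group
    have h1 : h * (g * g) * h⁻¹ ∈ commutator G :=
      (inferInstance : (commutator G).Normal).conj_mem _ (hsq g) h
    rw [e, QF_of_index_two_aux2 N1 hN1 hc _ _ (QF_of_index_two_aux3 g h)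
      ((commutator G).mul_mem h1 (hsq h)), QF_of_index_two_aux2 N1 hN1 hc _ _ h1 (hsq h),
      QF_of_index_two_aux4 N1]
    ring
  pA := by
    intro i a ha
    rw [hA i a ha, if_pos N1.one_mem]
  ne := by
    by_contra hne
    push Not at hne
    have h1 : ∀ g h : G, ⁅g, h⁆ ∈ N1 := by
      intro g h
      by_contra h2
      exact hne g h (by simp [h2])
    have h2 : commutator G ≤ N1 := by
      rw [commutator_def, Subgroup.commutator_le]
      intro g _ h _
      exact h1 g h
    have h3 : N1 = commutator G := le_antisymm hN1 h2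
    rw [h3] at hc
    have : 0 < Nat.card (commutator G) := Nat.card_pos
    omega

end

end Pool.Agent.Helper298
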