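import Pool.Agent.Helper298_KF.Defs
import Pool.Agent.Helper298_KF.L_QF_of_index_two

set_option autoImplicit false
open scoped Classical commutatorElement

namespace Pool.Agent.Helper298



/- TARGET lam_of_index_two.
PROOF.
(The given lemma is not needed.) Q = G / N1. By hNN the image Nb of N in Q is central, so it is a finite commutative group (work in the center of Q: the map N -> center Q). G' <= N (hG), and the image of G' is a subgroup of order 2 of Nb: let z be its nontrivial element. There is a hom chi : center Q ->* C^units with chi z <> 1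
(CommGroup.exists_apply_ne_one_of_hasEnoughRootsOfUnity). chi z * chi z = chi(z z) = 1 so chi z = -1. lam g := chi(g mod N1) if g mod N1 is in the center of Q, else 1. lam(g n g^-1) = lam n for n in N since n mod N1 is central. For a commutator [g,k]: it lies in G', its image is 1 (if in N1) or z (otherwise, as the image of G' has order 2), so lam = 1 or -1.
-/
section

theorem lam_of_index_two_aux {Q : Type} [Group Q] [Finite Q] (z : Subgroup.center Q) (hz : z ≠ 1) :
    ∃ χ : Subgroup.center Q →* ℂˣ, χ z ≠ 1 := by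
  letI : CommGroup (Subgroup.center Q) :=
    { (inferInstance : Group (Subgroup.center Q)) with
      mul_comm := fun a b => Subtype.ext ((Subgroup.mem_center_iff.mp b.2 a.1)) }
  exact CommGroup.exists_apply_ne_one_of_hasEnoughRootsOfUnity (Subgroup.center Q) ℂ hz

end

section
variable {G ι : Type} [Group G] [Fintype G] {A : ι → Subgroup G}

theorem lam_of_index_two (N N1 : Subgroup G) [N1.Normal] [N.Normal] (hN1 : N1 ≤ commutator G)
    (hc : Nat.card N1 * 2 = Nat.card (commutator G)) (hG : ∀ g k : G, ⁅g, k⁆ ∈ N)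
    (hNN : ∀ n ∈ N, ∀ g : G, ⁅n, g⁆ ∈ N1) :
    ∃ lam : G → ℂ, lam 1 = 1 ∧ (∀ n ∈ N, ∀ m ∈ N, lam (n * m) = lam n * lam m) ∧
      (∀ n ∈ N, ∀ g, lam (g * n * g⁻¹) = lam n) ∧
      (∀ g k : G, lam ⁅g, k⁆ = (((if ⁅g, k⁆ ∈ N1 then 1 else -1 : ℤ)) : ℂ)) := by
  have hGN : commutator G ≤ N := by
    rw [commutator_def, Subgroup.commutator_le]
    intro g _ k _
    exact hG g k
  -- index two
  have hidx : (N1.subgroupOf (commutator G)).index = 2 := by
    have h1 := Subgroup.card_mul_index (N1.subgroupOf (commutator G))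
    have h2 : Nat.card (N1.subgroupOf (commutator G)) = Nat.card N1 :=
      Nat.card_congr (Subgroup.subgroupOfEquivOfLe hN1).toEquiv
    rw [h2, ← hc] at h1
    have h3 : 0 < Nat.card N1 := Nat.card_pos
    exact Nat.eq_of_mul_eq_mul_left h3 h1
  have hmul : ∀ a ∈ commutator G, ∀ b ∈ commutator G, (a * b ∈ N1 ↔ (a ∈ N1 ↔ b ∈ N1)) := by
    intro a ha b hb
    exact Subgroup.mul_mem_iff_of_index_two hidx (a := ⟨a, ha⟩) (b := ⟨b, hb⟩)
  obtain ⟨g₀, hg₀, hg₀'⟩ : ∃ g₀ ∈ commutator G, g₀ ∉ N1 := by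
    by_contra hcon
    push Not at hcon
    have h1 : N1 = commutator G := le_antisymm hN1 hcon
    rw [h1] at hc
    have h3 : 0 < Nat.card (commutator G) := Nat.card_pos
    omega
  -- the center of the quotient
  have hcen : ∀ n ∈ N, ((n : G) : G ⧸ N1) ∈ Subgroup.center (G ⧸ N1) := by
    intro n hn
    rw [Subgroup.mem_center_iff]
    intro q
    induction q using QuotientGroup.induction_on with
    | H g =>
      rw [← QuotientGroup.mk_mul, ← QuotientGroup.mk_mul, QuotientGroup.eq]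
      have h1 := hNN n⁻¹ (N.inv_mem hn) g⁻¹
      have h2 : (g * n)⁻¹ * (n * g) = ⁅n⁻¹, g⁻¹⁆ := by
        rw [commutatorElement_def]
        group
      rw [h2]
      exact h1
  have hz1 : (⟨((g₀ : G) : G ⧸ N1), hcen g₀ (hGN hg₀)⟩ : Subgroup.center (G ⧸ N1)) ≠ 1 := by
    intro h
    have h1 := congrArg Subtype.val h
    apply hg₀'
    exact (QuotientGroup.eq_one_iff g₀).mp h1
  obtain ⟨χ, hχ⟩ := lam_of_index_two_aux _ hz1
  have hzz : χ ⟨((g₀ : G) : G ⧸ N1), hcen g₀ (hGN hg₀)⟩ = -1 := by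
    have h1 : χ ⟨((g₀ : G) : G ⧸ N1), hcen g₀ (hGN hg₀)⟩ *
        χ ⟨((g₀ : G) : G ⧸ N1), hcen g₀ (hGN hg₀)⟩ = 1 := by
      rw [← map_mul]
      have h2 : (⟨((g₀ : G) : G ⧸ N1), hcen g₀ (hGN hg₀)⟩ : Subgroup.center (G ⧸ N1)) *
          ⟨((g₀ : G) : G ⧸ N1), hcen g₀ (hGN hg₀)⟩ = 1 := by
        apply Subtype.ext
        change ((g₀ : G) : G ⧸ N1) * ((g₀ : G) : G ⧸ N1) = 1
        rw [← QuotientGroup.mk_mul, QuotientGroup.eq_one_iff, hmul g₀ hg₀ g₀ hg₀]
      rw [h2, map_one]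
    have h3 := congrArg (Units.val) h1
    rw [Units.val_mul, Units.val_one, mul_self_eq_one_iff] at h3
    rcases h3 with h3 | h3
    · exact absurd (Units.ext h3) hχ
    · exact Units.ext h3
  let lam : G → ℂ := fun g =>
    if h : ((g : G) : G ⧸ N1) ∈ Subgroup.center (G ⧸ N1) then ((χ ⟨_, h⟩ : ℂˣ) : ℂ) else 1
  have hlam : ∀ (g : G) (h : ((g : G) : G ⧸ N1) ∈ Subgroup.center (G ⧸ N1)),
      lam g = ((χ ⟨_, h⟩ : ℂˣ) : ℂ) := fun g h => dif_pos h
  have hlam1 : ∀ g ∈ N1, lam g = 1 := by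
    intro g hg
    have h1 : ((g : G) : G ⧸ N1) = 1 := (QuotientGroup.eq_one_iff g).mpr hg
    have h2 : ((g : G) : G ⧸ N1) ∈ Subgroup.center (G ⧸ N1) := by
      rw [h1]; exact Subgroup.one_mem _
    rw [hlam g h2]
    have h3 : (⟨((g : G) : G ⧸ N1), h2⟩ : Subgroup.center (G ⧸ N1)) = 1 := Subtype.ext h1
    rw [h3, map_one, Units.val_one]
  refine ⟨lam, hlam1 1 N1.one_mem, ?_, ?_, ?_⟩
  · intro n hn m hm
    rw [hlam n (hcen n hn), hlam m (hcen m hm), hlam (n * m) (hcen _ (N.mul_mem hn hm)),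
      ← Units.val_mul, ← map_mul]
    rfl
  · intro n hn g
    have h1 : ((g * n * g⁻¹ : G) : G ⧸ N1) = ((n : G) : G ⧸ N1) := by
      have h2 := Subgroup.mem_center_iff.mp (hcen n hn) ((g : G) : G ⧸ N1)
      rw [QuotientGroup.mk_mul, QuotientGroup.mk_mul, h2, QuotientGroup.mk_inv,
        mul_inv_cancel_right]
    have h2 : ((g * n * g⁻¹ : G) : G ⧸ N1) ∈ Subgroup.center (G ⧸ N1) := by
      rw [h1]; exact hcen n hn
    rw [hlam n (hcen n hn), hlam _ h2]
    congr 2
    exact Subtype.ext h1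
  · intro g k
    have hgk : ⁅g, k⁆ ∈ commutator G :=
      Subgroup.commutator_mem_commutator (Subgroup.mem_top g) (Subgroup.mem_top k)
    by_cases h : ⁅g, k⁆ ∈ N1
    · rw [if_pos h, hlam1 _ h]
      norm_num
    · rw [if_neg h]
      have h1 : ((⁅g, k⁆ : G) : G ⧸ N1) = ((g₀ : G) : G ⧸ N1) := by
        rw [QuotientGroup.eq, hmul _ ((commutator G).inv_mem hgk) _ hg₀]
        constructor
        · intro h2
          exact absurd ((N1.inv_mem_iff).mp h2) h
        · intro h2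
          exact absurd h2 hg₀'
      rw [hlam _ (hcen _ (hG g k))]
      have h2 : (⟨((⁅g, k⁆ : G) : G ⧸ N1), hcen _ (hG g k)⟩ : Subgroup.center (G ⧸ N1)) =
          ⟨((g₀ : G) : G ⧸ N1), hcen g₀ (hGN hg₀)⟩ := Subtype.ext h1
      rw [h2, hzz]
      push_cast
      norm_num

end

end Pool.Agent.Helper298
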