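import Pool.Agent.Helper298_KF.L_PCP_comm_of_eq
import Pool.Agent.Helper298_KF.L_PCP_pow_of_eq
import Pool.Agent.Helper298_KF.L_exists_normal_card
import Pool.Agent.Helper298_KF.L_QF_of_index_two
import Pool.Agent.Helper298_KF.L_lam_of_index_two
import Pool.Agent.Helper298_KF.L_KF_sq_mem
import Pool.Agent.Helper298_KF.L_KF_case1
import Pool.Agent.Helper298_KF.L_KF_case2_false
import Pool.Agent.Helper298_KF.L_KF_case1_false

set_option autoImplicit false
open scoped Classical commutatorElement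

namespace Pool.Agent.Helper298

section
variable {G ι : Type} [Group G] [Fintype G] [Fintype ι] {s t : ℕ} {A : ι → Subgroup G}
  {N : Subgroup G}

theorem comm_mem_of_quot [hN : N.Normal] (hc : ∀ x y : G ⧸ N, x * y = y * x) (g k : G) :
    ⁅g, k⁆ ∈ N := by
  have h1 : (QuotientGroup.mk' N) ⁅g, k⁆ = 1 := by
    rw [map_commutatorElement, commutatorElement_eq_one_iff_mul_comm]
    exact hc _ _
  rwa [QuotientGroup.mk'_apply, QuotientGroup.eq_one_iff] at h1

theorem KF.even_s (h : KF s t A N) (h2 : IsPGroup 2 G) : Even s := by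
  obtain ⟨i⟩ : Nonempty ι := by
    rw [← Fintype.card_pos_iff, h.cι]; omega
  obtain ⟨n, hn⟩ := (IsPGroup.iff_card (p := 2) (G := A i)).mp (h2.to_subgroup (A i))
  rw [h.cA i] at hn
  have := h.hs
  rcases n with _ | n
  · simp at hn; omega
  · rw [hn, pow_succ]; exact even_iff_two_dvd.mpr ⟨2 ^ n, by ring⟩

theorem KF.sq_one (h : KF s s A N) (h2 : IsPGroup 2 G) {i : ι} {a : G} (ha : a ∈ A i) :
    a * a = 1 := by
  have hN := h.nrm
  have h3 : IsPGroup 2 (G ⧸ N) := h2.to_quotient N
  have h4 := PCP.pow_of_eq h.pcp h3 (QuotientGroup.mk' N a)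
  rw [← map_pow, QuotientGroup.mk'_apply, QuotientGroup.eq_one_iff, pow_two] at h4
  exact h.AN ((A i).mul_mem ha ha) h4

/-- The case `s = t` even. -/
theorem KF.two_eq (h : KF s s A N) (h2 : IsPGroup 2 G) : N ≤ Subgroup.center G := by
  have hN := h.nrm
  have hG : ∀ g k : G, ⁅g, k⁆ ∈ N :=
    comm_mem_of_quot (fun x y => PCP.comm_of_eq h.pcp x y)
  by_contra hcen
  obtain ⟨n0, hn0, hn0c⟩ := SetLike.not_le_iff_exists.mp hcen
  rw [Subgroup.mem_center_iff] at hn0c
  push Not at hn0c
  obtain ⟨g0, hg0⟩ := hn0c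
  have hA : ∀ i, ∀ a ∈ A i, a * a = 1 := fun i a ha => h.sq_one h2 ha
  have hsq : ∀ g : G, g * g ∈ commutator G := h.sq_mem hA
  -- the commutator subgroup is nontrivial
  have hcard : 2 ^ 1 ∣ Nat.card (commutator G) := by
    obtain ⟨n, hn⟩ := (IsPGroup.iff_card (p := 2) (G := commutator G)).mp
      (h2.to_subgroup (commutator G))
    rcases n with _ | n
    · exfalso
      rw [pow_zero, Subgroup.card_eq_one] at hn
      have h5 : ⁅g0, n0⁆ ∈ commutator G := Subgroup.commutator_mem_commutator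
        (Subgroup.mem_top _) (Subgroup.mem_top _)
      rw [hn, Subgroup.mem_bot, commutatorElement_eq_one_iff_mul_comm] at h5
      exact hg0 h5
    · rw [hn]; exact pow_dvd_pow 2 (by omega)
  haveI : Fact (Nat.Prime 2) := ⟨Nat.prime_two⟩
  obtain ⟨N1, hN1n, hN1le, hN1c⟩ := exists_normal_card h2 (commutator G) 1 hcard
  rw [pow_one] at hN1c
  have hq := QF_of_index_two (A := A) N1 hN1le hN1c hsq hA
  set ψ : G → ℤ := fun g => if g * g ∈ N1 then 1 else -1 with hψ
  set β : G → G → ℤ := fun g k => if ⁅g, k⁆ ∈ N1 then 1 else -1 with hβ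
  have β1 : ∀ k, β 1 k = 1 := by
    intro k
    have := hq.b1 1 1 k
    rw [one_mul] at this
    rcases hq.bv 1 k with h1 | h1
    · exact h1
    · rw [h1] at this; norm_num at this
  have βsq : ∀ g k, β g k * β g k = 1 := by
    intro g k
    rcases hq.bv g k with h1 | h1 <;> rw [h1] <;> norm_num
  have βinv : ∀ g k, β g⁻¹ k = β g k := by
    intro g k
    have e := hq.b1 g g⁻¹ k
    rw [mul_inv_cancel, β1] at e
    calc β g⁻¹ k = (β g k * β g k) * β g⁻¹ k := by rw [βsq, one_mul]
      _ = β g k * (β g k * β g⁻¹ k) := by ring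
      _ = β g k := by rw [← e, mul_one]
  by_cases hcase : ∀ r ∈ N, (∀ k, β r k = 1) → ψ r = 1
  · -- Case 2
    refine h.case2_false h2 hq ?_ hcase
    obtain ⟨g, k, hgk⟩ := hq.ne
    refine ⟨⁅g, k⁆, hG g k, ?_, ?_⟩
    · intro h1
      simp only [hβ] at hgk
      rw [h1] at hgk
      simp [N1.one_mem] at hgk
    · intro l
      rw [commutatorElement_def, hq.b1, hq.b1, hq.b1, βinv, βinv]
      calc β g l * β k l * β g l * β k l = (β g l * β g l) * (β k l * β k l) := by ring
        _ = 1 := by rw [βsq, βsq]; norm_num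
  · -- Case 1
    push Not at hcase
    obtain ⟨r, hrN, hr, hψr⟩ := hcase
    have hψr' : ψ r = -1 := by
      rcases hq.pv r with h1 | h1
      · exact absurd h1 hψr
      · exact h1
    obtain ⟨c1, c2⟩ := h.case1 hq hrN hr hψr'
    have hNN : ∀ n ∈ N, ∀ g : G, ⁅n, g⁆ ∈ N1 := by
      intro n hn g
      have := c1 n hn g
      simp only [hβ] at this
      by_contra hc
      rw [if_neg hc] at this
      norm_num at this
    obtain ⟨lam, l1, lm, lc, lb⟩ := lam_of_index_two N N1 hN1le hN1c hG hNN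
    refine h.case1_false (h.even_s h2) (β := β) ?_ hq.bv hG lam l1 lm lc ?_ ?_
    · intro g k l
      rw [hq.b2, hq.b1, hq.b2 k g, hq.b2 l g]
    · intro g k
      rw [lb g k]
    · intro i a ha ha1
      by_contra hc
      push Not at hc
      apply ha1
      apply c2 i a ha
      intro k
      rcases hq.bv a k with h1 | h1
      · exact h1
      · exact absurd h1 (hc k)

end

end Pool.Agent.Helper298
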